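import Mathlib

/-!
Analytic part: iterates of a sub-stochastic kernel on `ℕ` absorbed at `0`.
-/

open scoped ENNReal

namespace Pool.Agent.MP_3aae7f_pr

/-- iterates of the kernel -/
noncomputable def Qn (π : ℕ → ℕ → ℝ≥0∞) : ℕ → ℕ → ℕ → ℝ≥0∞
  | 0, k, l => if k = l then 1 else 0
  | n + 1, k, l => ∑' j, π k j * Qn π n j l

variable {π : ℕ → ℕ → ℝ≥0∞}

lemma Qn_zero (k l : ℕ) : Qn π 0 k l = if k = l then 1 else 0 := rfl
lemma Qn_succ (n k l : ℕ) : Qn π (n + 1) k l = ∑' j, π k j * Qn π n j l := rfl

lemma Qn_succ' (n k l : ℕ) : Qn π (n + 1) k l = ∑' j, Qn π n k j * π j l := by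
  induction n generalizing k l with
  | zero =>
    rw [Qn_succ]
    simp only [Qn_zero]
    rw [tsum_eq_single l (by intro b hb; simp [hb]), tsum_eq_single k (by intro b hb; simp [hb.symm])]
    simp
  | succ n ih =>
    have e1 : ∀ j, π k j * Qn π (n + 1) j l = ∑' i, π k j * (Qn π n j i * π i l) := by
      intro j
      rw [ih, ENNReal.tsum_mul_left]
    rw [Qn_succ]
    simp_rw [e1]
    rw [ENNReal.tsum_comm]
    refine tsum_congr fun i => ?_
    rw [Qn_succ, ← ENNReal.tsum_mul_right]
    exact tsum_congr fun j => by ring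

lemma Qn_row (h1 : ∀ k, ∑' l, π k l ≤ 1) (n k : ℕ) : ∑' l, Qn π n k l ≤ 1 := by
  induction n generalizing k with
  | zero =>
    simp only [Qn_zero]
    rw [tsum_eq_single k (by intro b hb; simp [hb.symm])]
    simp
  | succ n ih =>
    simp_rw [Qn_succ]
    rw [ENNReal.tsum_comm]
    calc ∑' j, ∑' l, π k j * Qn π n j l = ∑' j, π k j * ∑' l, Qn π n j l := by
          simp_rw [ENNReal.tsum_mul_left]
      _ ≤ ∑' j, π k j * 1 := ENNReal.tsum_le_tsum fun j => mul_le_mul_right (ih j) _
      _ ≤ 1 := by simpa using h1 k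

/-- upper bound for the extinction probabilities -/
lemma Qn_extinct_le (h1 : ∀ k, ∑' l, π k l ≤ 1) (t : ℝ) (ht : 0 ≤ t) (k0 : ℕ)
    (h2 : ∀ k, k0 ≤ k → ∑' l, π k l * ENNReal.ofReal (Real.exp (-(t * l)))
      ≤ ENNReal.ofReal (Real.exp (-(t * k)))) (n k : ℕ) :
    Qn π n k 0 ≤ ENNReal.ofReal (Real.exp (t * k0 - t * k)) := by
  have key : ∀ n k, Qn π n k 0 ≤ min 1 (ENNReal.ofReal (Real.exp (t * k0 - t * k))) := by
    intro n
    induction n with
    | zero =>
      intro k
      rw [Qn_zero]
      split_ifs with h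
      · subst h
        refine le_min le_rfl ?_
        rw [ENNReal.one_le_ofReal]
        apply Real.one_le_exp
        have : 0 ≤ t * k0 := by positivity
        simpa using this
      · exact zero_le
    | succ n ih =>
      intro k
      rw [Qn_succ]
      by_cases hk : k0 ≤ k
      · refine le_min ?_ ?_
        · calc ∑' j, π k j * Qn π n j 0 ≤ ∑' j, π k j * 1 :=
                ENNReal.tsum_le_tsum fun j => mul_le_mul_right ((ih j).trans (min_le_left _ _)) _
            _ ≤ 1 := by simpa using h1 k
        · calc ∑' j, π k j * Qn π n j 0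
              ≤ ∑' j, ENNReal.ofReal (Real.exp (t * k0)) *
                  (π k j * ENNReal.ofReal (Real.exp (-(t * j)))) := by
                refine ENNReal.tsum_le_tsum fun j => ?_
                have e : ENNReal.ofReal (Real.exp (t * k0 - t * j))
                    = ENNReal.ofReal (Real.exp (t * k0)) * ENNReal.ofReal (Real.exp (-(t * j))) := by
                  rw [← ENNReal.ofReal_mul (Real.exp_pos _).le, ← Real.exp_add, sub_eq_add_neg]
                calc π k j * Qn π n j 0 ≤ π k j * ENNReal.ofReal (Real.exp (t * k0 - t * j)) :=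
                      mul_le_mul_right ((ih j).trans (min_le_right _ _)) _
                  _ = _ := by rw [e]; ring
            _ = ENNReal.ofReal (Real.exp (t * k0)) *
                  ∑' j, π k j * ENNReal.ofReal (Real.exp (-(t * j))) := ENNReal.tsum_mul_left
            _ ≤ ENNReal.ofReal (Real.exp (t * k0)) * ENNReal.ofReal (Real.exp (-(t * k))) :=
                mul_le_mul_right (h2 k hk) _
            _ = ENNReal.ofReal (Real.exp (t * k0 - t * k)) := by
                rw [← ENNReal.ofReal_mul (Real.exp_pos _).le, ← Real.exp_add, sub_eq_add_neg]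
      · refine le_min ?_ ?_
        · calc ∑' j, π k j * Qn π n j 0 ≤ ∑' j, π k j * 1 :=
                ENNReal.tsum_le_tsum fun j => mul_le_mul_right ((ih j).trans (min_le_left _ _)) _
            _ ≤ 1 := by simpa using h1 k
        · calc ∑' j, π k j * Qn π n j 0 ≤ ∑' j, π k j * 1 :=
                ENNReal.tsum_le_tsum fun j => mul_le_mul_right ((ih j).trans (min_le_left _ _)) _
            _ ≤ 1 := by simpa using h1 k
            _ ≤ ENNReal.ofReal (Real.exp (t * k0 - t * k)) := by
              rw [ENNReal.one_le_ofReal]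
              apply Real.one_le_exp
              rw [← mul_sub]
              apply mul_nonneg ht
              have : (k : ℝ) < k0 := by exact_mod_cast not_le.mp hk
              linarith
  exact (key n k).trans (min_le_right _ _)

/-- summability of the weighted occupation measure -/
lemma Qn_green (h1 : ∀ k, ∑' l, π k l ≤ 1) (h3 : ∀ l, l ≠ 0 → π 0 l = 0) (h30 : π 0 0 = 1)
    (f : ℕ → ℝ≥0∞) (k0 : ℕ) (B ε : ℝ≥0∞) (hB : B ≠ ⊤) (hε : ε ≠ 0) (hε' : ε ≠ ⊤)
    (ha : ∀ k, k0 ≤ k → ∑' l, π k l * f l ≤ (1 / 2) * f k)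
    (hb : ∀ k, k < k0 → ∑' l, π k l * f l ≤ B)
    (hc : ∀ k, k < k0 → ε ≤ π k 0) (i : ℕ) (hfi : f i ≠ ⊤) :
    ∑' n, ∑' k, (if k = 0 then 0 else Qn π n i k * f k) ≤ 2 * (f i + B / ε) := by
  set A : ℕ → ℝ≥0∞ := fun n => ∑' k, (if k = 0 then 0 else Qn π n i k * f k) with hA
  set b : ℕ → ℝ≥0∞ := fun n => ∑' k, (if k = 0 ∨ k0 ≤ k then 0 else Qn π n i k) with hbdef
  have hb1 : ∀ n, b n ≤ 1 := fun n => by
    refine le_trans (ENNReal.tsum_le_tsum fun k => ?_) (Qn_row h1 n i)
    split_ifs
    · exact zero_le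
    · exact le_rfl
  have hA0 : A 0 ≤ f i := by
    rw [hA]
    simp only [Qn_zero]
    rw [tsum_eq_single i]
    · split_ifs <;> simp
    · intro k hk
      split_ifs with h1 h2
      · rfl
      · exact absurd h2.symm hk
      · simp
  have hAs : ∀ n, A (n + 1) ≤ (1 / 2) * A n + B * b n := by
    intro n
    have e1 : A (n + 1) = ∑' j, Qn π n i j * ∑' k, (if k = 0 then 0 else π j k * f k) := by
      rw [hA]
      simp only
      have : ∀ k, (if k = 0 then 0 else Qn π (n + 1) i k * f k)
          = ∑' j, Qn π n i j * (if k = 0 then 0 else π j k * f k) := by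
        intro k
        split_ifs with hk
        · simp
        · rw [Qn_succ', ← ENNReal.tsum_mul_right]
          exact tsum_congr fun j => by ring
      simp_rw [this]
      rw [ENNReal.tsum_comm]
      simp_rw [ENNReal.tsum_mul_left]
    rw [e1, hA, hbdef]
    simp only
    rw [← ENNReal.tsum_mul_left, ← ENNReal.tsum_mul_left, ← ENNReal.tsum_add]
    refine ENNReal.tsum_le_tsum fun j => ?_
    by_cases hj : j = 0
    · subst hj
      have : ∑' k, (if k = 0 then 0 else π 0 k * f k) = 0 := by
        rw [ENNReal.tsum_eq_zero]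
        intro k
        split_ifs with hk
        · rfl
        · rw [h3 k hk, zero_mul]
      rw [this, mul_zero]
      exact zero_le
    · have hle : ∑' k, (if k = 0 then 0 else π j k * f k) ≤ ∑' k, π j k * f k :=
        ENNReal.tsum_le_tsum fun k => by
          split_ifs
          · exact zero_le
          · exact le_rfl
      by_cases hjk : k0 ≤ j
      · rw [if_neg hj, if_pos (Or.inr hjk), mul_zero, add_zero]
        calc Qn π n i j * ∑' k, (if k = 0 then 0 else π j k * f k)
            ≤ Qn π n i j * (1 / 2 * f j) := mul_le_mul_right (hle.trans (ha j hjk)) _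
          _ = 1 / 2 * (Qn π n i j * f j) := by ring
      · rw [if_neg hj, if_neg (by tauto)]
        calc Qn π n i j * ∑' k, (if k = 0 then 0 else π j k * f k)
            ≤ Qn π n i j * B := mul_le_mul_right (hle.trans (hb j (not_le.mp hjk))) _
          _ = B * Qn π n i j := mul_comm _ _
          _ ≤ _ := le_add_self
  have hAfin : ∀ n, A n ≠ ⊤ := by
    intro n
    induction n with
    | zero => exact ne_top_of_le_ne_top hfi hA0
    | succ n ih =>
      refine ne_top_of_le_ne_top ?_ (hAs n)
      refine ENNReal.add_ne_top.mpr ⟨ENNReal.mul_ne_top (by norm_num) ih,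
        ENNReal.mul_ne_top hB (ne_top_of_le_ne_top ENNReal.one_ne_top (hb1 n))⟩
  have hd : ∀ n, Qn π n i 0 + ε * b n ≤ Qn π (n + 1) i 0 := by
    intro n
    rw [Qn_succ', hbdef]
    simp only
    rw [← ENNReal.tsum_mul_left]
    have e0 : Qn π n i 0 = ∑' j, (if j = 0 then Qn π n i 0 else 0) := by
      rw [tsum_eq_single 0]
      · simp
      · intro j hj; simp [hj]
    rw [e0, ← ENNReal.tsum_add]
    refine ENNReal.tsum_le_tsum fun j => ?_
    by_cases hj : j = 0
    · subst hj
      simp [h30]
    · rw [if_neg hj, zero_add]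
      by_cases hjk : k0 ≤ j
      · rw [if_pos (Or.inr hjk), mul_zero]
        exact zero_le
      · rw [if_neg (by tauto), mul_comm]
        exact mul_le_mul_right (hc j (not_le.mp hjk)) _
  have hsumb : ∀ N, ε * ∑ n ∈ Finset.range N, b n ≤ Qn π N i 0 := by
    intro N
    induction N with
    | zero => simp
    | succ N ih =>
      rw [Finset.sum_range_succ, mul_add]
      exact (add_le_add_left ih _).trans (hd N)
  have hsumb' : ∀ N, ∑ n ∈ Finset.range N, b n ≤ 1 / ε := by
    intro N
    rw [ENNReal.le_div_iff_mul_le (Or.inl hε) (Or.inl hε'), mul_comm]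
    refine (hsumb N).trans ?_
    exact (ENNReal.le_tsum 0).trans (Qn_row h1 N i)
  have hpart : ∀ N, ∑ n ∈ Finset.range N, A n ≤ 2 * (f i + B / ε) := by
    intro N
    rcases Nat.eq_zero_or_pos N with rfl | hN
    · simp
    obtain ⟨N, rfl⟩ := Nat.exists_eq_succ_of_ne_zero hN.ne'
    set Sm := ∑ n ∈ Finset.range (N + 1), A n with hS
    have hSfin : Sm ≠ ⊤ := by
      rw [hS]
      exact (ENNReal.sum_lt_top.mpr fun n _ => (hAfin n).lt_top).ne
    have h5 : Sm ≤ (1 / 2) * Sm + (f i + B / ε) := by
      calc Sm = ∑ n ∈ Finset.range N, A (n + 1) + A 0 := by rw [hS, Finset.sum_range_succ']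
        _ ≤ ∑ n ∈ Finset.range N, ((1 / 2) * A n + B * b n) + f i :=
            add_le_add (Finset.sum_le_sum fun n _ => hAs n) hA0
        _ = (1 / 2) * ∑ n ∈ Finset.range N, A n + B * ∑ n ∈ Finset.range N, b n + f i := by
            rw [Finset.sum_add_distrib, ← Finset.mul_sum, ← Finset.mul_sum]
        _ ≤ (1 / 2) * Sm + B * (1 / ε) + f i := by
            refine add_le_add_left (add_le_add (mul_le_mul_right ?_ _) (mul_le_mul_right (hsumb' N) _)) _
            rw [hS, Finset.sum_range_succ]
            exact le_self_add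
        _ = (1 / 2) * Sm + (f i + B / ε) := by
            rw [mul_one_div]
            ring
    have h6 : (1 / 2) * Sm + (1 / 2) * Sm ≤ (1 / 2) * Sm + (f i + B / ε) := by
      rw [← add_mul, ENNReal.add_halves, one_mul]
      exact h5
    have h7 : (1 / 2) * Sm ≤ f i + B / ε :=
      (ENNReal.add_le_add_iff_left (ENNReal.mul_ne_top (by norm_num) hSfin)).mp h6
    calc Sm = 2 * ((1 / 2) * Sm) := by
          rw [← mul_assoc, mul_one_div, ENNReal.div_self (by norm_num) (by norm_num), one_mul]
      _ ≤ 2 * (f i + B / ε) := mul_le_mul_right h7 _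
  rw [ENNReal.tsum_eq_iSup_nat]
  exact iSup_le hpart

end Pool.Agent.MP_3aae7f_pr
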