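import Pool.Agent.Lib.MP_3aae7f_pr.Defs

/-!
Finite Markov chain part: Poisson equation and exponential tilting.
-/

namespace Pool.Agent.MP_3aae7f_pr

variable {N : ℕ} {K : Fin N → Fin N → ℝ}

/-- every state leads to some closed irreducible class -/
lemma exists_closedClass (K : Fin N → Fin N → ℝ) (i : Fin N) :
    ∃ C : Set (Fin N), IsClosedClass K C ∧ ∀ j ∈ C, Leads K i j := by
  classical
  -- choose `j` reachable from `i` with a minimal set of reachable states
  let reach : Fin N → Finset (Fin N) := fun j => Finset.univ.filter fun k => Leads K j k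
  obtain ⟨j, hj, hmin⟩ := Finset.exists_min_image (reach i) (fun j => (reach j).card)
    ⟨i, Finset.mem_filter.mpr ⟨Finset.mem_univ i, Relation.ReflTransGen.refl⟩⟩
  have hij : Leads K i j := by simpa [reach] using hj
  refine ⟨{k | Leads K j k}, ⟨⟨j, Relation.ReflTransGen.refl⟩, ?_⟩, fun k hk => hij.trans hk⟩
  intro k hk l
  have hk' : Leads K j k := hk
  constructor
  · intro hl
    have hl' : Leads K j l := hl
    have hsub : reach k ⊆ reach j := by
      intro x hx
      simp only [reach, Finset.mem_filter, Finset.mem_univ, true_and] at hx ⊢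
      exact hk'.trans hx
    have hcard : (reach j).card ≤ (reach k).card := hmin k (by
      simp only [reach, Finset.mem_filter, Finset.mem_univ, true_and]
      exact hij.trans hk')
    have heq : reach k = reach j := Finset.eq_of_subset_of_card_le hsub hcard
    have : l ∈ reach k := by
      rw [heq]
      simpa [reach] using hl'
    simpa [reach] using this
  · intro hl
    exact hk'.trans hl

/-- the set where a harmonic function is maximal is closed -/
lemma leads_of_max (hK : ∀ i j, 0 ≤ K i j) (hs : ∀ i, ∑ j, K i j = 1) (r : Fin N → ℝ)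
    (hr : ∀ i, ∑ j, K i j * r j = r i) (m : ℝ) (hm : ∀ j, r j ≤ m) (i : Fin N) (hi : r i = m)
    (j : Fin N) (hij : Leads K i j) : r j = m := by
  induction hij with
  | refl => exact hi
  | @tail b c _ hbc ih =>
    by_contra hne
    have hlt : r c < m := lt_of_le_of_ne (hm c) hne
    have h1 : ∑ j, K b j * r j < ∑ j, K b j * m := by
      apply Finset.sum_lt_sum
      · intro j _
        exact mul_le_mul_of_nonneg_left (hm j) (hK b j)
      · exact ⟨c, Finset.mem_univ c, mul_lt_mul_of_pos_left hlt hbc⟩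
    rw [hr b, ← Finset.sum_mul, hs b, one_mul, ih] at h1
    exact lt_irrefl _ h1

/-- harmonic functions are constant -/
lemma harmonic_const (hK : ∀ i j, 0 ≤ K i j) (hs : ∀ i, ∑ j, K i j = 1)
    (hC : ∃! C : Set (Fin N), IsClosedClass K C) (r : Fin N → ℝ)
    (hr : ∀ i, ∑ j, K i j * r j = r i) (i j : Fin N) : r i = r j := by
  classical
  obtain ⟨a, -, ha⟩ := Finset.exists_max_image Finset.univ r ⟨i, Finset.mem_univ i⟩
  obtain ⟨b, -, hb⟩ := Finset.exists_min_image Finset.univ r ⟨i, Finset.mem_univ i⟩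
  obtain ⟨C, hC1, hC2⟩ := exists_closedClass K a
  obtain ⟨D, hD1, hD2⟩ := exists_closedClass K b
  have hCD : C = D := hC.unique hC1 hD1
  obtain ⟨c, hc⟩ := hC1.1
  have h1 : r c = r a := leads_of_max hK hs r hr (r a) (fun j => ha j (Finset.mem_univ j)) a rfl c
    (hC2 c hc)
  have h2 : - r c = - r b := leads_of_max hK hs (fun j => - r j)
    (fun i => by
      have := hr i
      simp only [mul_neg, Finset.sum_neg_distrib]
      linarith) (- r b)
    (fun j => neg_le_neg (hb j (Finset.mem_univ j))) b rfl c (hD2 c (hCD ▸ hc))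
  have h3 : r a = r b := by linarith
  have h4 := ha i (Finset.mem_univ i)
  have h5 := hb i (Finset.mem_univ i)
  have h6 := ha j (Finset.mem_univ j)
  have h7 := hb j (Finset.mem_univ j)
  linarith

/-- Poisson equation -/
lemma exists_poisson (hK : ∀ i j, 0 ≤ K i j) (hs : ∀ i, ∑ j, K i j = 1)
    (hC : ∃! C : Set (Fin N), IsClosedClass K C) (μ : Fin N → ℝ) (hμ : IsStationary K μ)
    (v : Fin N → ℝ) (hv : ∑ i, μ i * v i = 0) : ∃ r : Fin N → ℝ, ∀ i, r i - ∑ j, K i j * r j = v i := by
  classical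
  have hN : Nonempty (Fin N) := by
    by_contra h
    rw [not_nonempty_iff] at h
    have := hμ.2.1
    simp at this
  obtain ⟨i0⟩ := hN
  let A : (Fin N → ℝ) →ₗ[ℝ] (Fin N → ℝ) :=
    { toFun := fun r i => r i - ∑ j, K i j * r j
      map_add' := fun r s => by
        funext i
        simp only [Pi.add_apply, mul_add, Finset.sum_add_distrib]
        ring
      map_smul' := fun c r => by
        funext i
        simp only [Pi.smul_apply, smul_eq_mul, RingHom.id_apply]
        rw [mul_sub, Finset.mul_sum]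
        congr 1
        exact Finset.sum_congr rfl fun j _ => by ring }
  let L : (Fin N → ℝ) →ₗ[ℝ] ℝ :=
    { toFun := fun r => ∑ i, μ i * r i
      map_add' := fun r s => by simp only [Pi.add_apply, mul_add, Finset.sum_add_distrib]
      map_smul' := fun c r => by
        simp only [Pi.smul_apply, smul_eq_mul, RingHom.id_apply]
        rw [Finset.mul_sum]
        exact Finset.sum_congr rfl fun j _ => by ring }
  have hle : LinearMap.range A ≤ LinearMap.ker L := by
    rintro _ ⟨r, rfl⟩
    rw [LinearMap.mem_ker]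
    change ∑ i, μ i * (r i - ∑ j, K i j * r j) = 0
    simp_rw [mul_sub, Finset.sum_sub_distrib, Finset.mul_sum]
    rw [Finset.sum_comm]
    have : ∀ j, ∑ i, μ i * (K i j * r j) = μ j * r j := by
      intro j
      rw [← hμ.2.2 j, Finset.sum_mul]
      exact Finset.sum_congr rfl fun i _ => by ring
    simp_rw [this]
    ring
  have hkerA : Module.finrank ℝ (LinearMap.ker A) ≤ 1 := by
    apply finrank_le_one (⟨fun _ => 1, by
      rw [LinearMap.mem_ker]
      funext i
      change (1:ℝ) - ∑ j, K i j * 1 = 0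
      simp [hs i]⟩ : LinearMap.ker A)
    rintro ⟨r, hr⟩
    refine ⟨r i0, ?_⟩
    apply Subtype.ext
    funext i
    change r i0 * 1 = r i
    rw [mul_one]
    apply harmonic_const hK hs hC r
    intro i
    have := congrFun (LinearMap.mem_ker.mp hr) i
    change r i - ∑ j, K i j * r j = 0 at this
    linarith
  have h1 := LinearMap.finrank_range_add_finrank_ker A
  have h2 := LinearMap.finrank_range_add_finrank_ker L
  have h3 : Module.finrank ℝ (LinearMap.range L) = 1 := by
    have hsurj : LinearMap.range L = ⊤ := by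
      rw [LinearMap.range_eq_top]
      intro c
      refine ⟨fun _ => c, ?_⟩
      change ∑ i, μ i * c = c
      rw [← Finset.sum_mul, hμ.2.1, one_mul]
    rw [hsurj]
    simp
  have h4 : LinearMap.range A = LinearMap.ker L := by
    apply Submodule.eq_of_le_of_finrank_le hle
    omega
  have h5 : v ∈ LinearMap.range A := by
    rw [h4, LinearMap.mem_ker]
    exact hv
  obtain ⟨r, hr⟩ := h5
  exact ⟨r, fun i => congrFun hr i⟩

lemma exp_le_quad {x : ℝ} (hx : |x| ≤ 1) : Real.exp x ≤ 1 + x + x ^ 2 := by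
  have := Real.abs_exp_sub_one_sub_id_le hx
  have := le_abs_self (Real.exp x - 1 - x)
  linarith

/-- exponential tilting: for small `θ` of the right sign, the tilted kernel is a strict contraction -/
lemma exists_tilt (hK : ∀ i j, 0 ≤ K i j) (hs : ∀ i, ∑ j, K i j = 1)
    (hC : ∃! C : Set (Fin N), IsClosedClass K C) (μ : Fin N → ℝ) (hμ : IsStationary K μ)
    (p : Fin N → ℝ) (hp0 : ∀ i, 0 < p i) (hp1 : ∀ i, p i < 1) :
    ∃ θ0 : ℝ, 0 < θ0 ∧ ∀ θ : ℝ, |θ| ≤ θ0 → θ * (∑ i, μ i * p i - 1 / 2) < 0 →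
      ∃ (h : Fin N → ℝ) (lam : ℝ), 0 ≤ lam ∧ lam < 1 ∧ (∀ i, 1 / 2 ≤ h i ∧ h i ≤ 2) ∧
        ∀ i, (p i * Real.exp θ + (1 - p i) * Real.exp (-θ)) * ∑ j, K i j * h j ≤ lam * h i := by
  classical
  set g : ℝ := 2 * (∑ i, μ i * p i) - 1 with hg
  by_cases hg0 : g = 0
  · refine ⟨1, one_pos, fun θ _ h => ?_⟩
    exfalso
    have : ∑ i, μ i * p i - 1 / 2 = 0 := by linarith
    rw [this, mul_zero] at h
    exact lt_irrefl _ h
  obtain ⟨r, hr⟩ := exists_poisson hK hs hC μ hμ (fun i => (2 * p i - 1) - g) (by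
    have : ∀ i, μ i * (2 * p i - 1 - g) = 2 * (μ i * p i) - (1 + g) * μ i := fun i => by ring
    simp_rw [this]
    rw [Finset.sum_sub_distrib, ← Finset.mul_sum, ← Finset.mul_sum, hμ.2.1, hg]
    ring)
  obtain ⟨M, hM1, hM⟩ : ∃ M : ℝ, 1 ≤ M ∧ ∀ i, |r i| ≤ M := by
    refine ⟨1 + ∑ i, |r i|, ?_, fun i => ?_⟩
    · have : 0 ≤ ∑ i, |r i| := Finset.sum_nonneg fun i _ => abs_nonneg _
      linarith
    · have := Finset.single_le_sum (f := fun i => |r i|) (fun i _ => abs_nonneg _) (Finset.mem_univ i)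
      linarith
  have hKr : ∀ i, |∑ j, K i j * r j| ≤ M := by
    intro i
    calc |∑ j, K i j * r j| ≤ ∑ j, |K i j * r j| := Finset.abs_sum_le_sum_abs _ _
      _ ≤ ∑ j, K i j * M := Finset.sum_le_sum fun j _ => by
          rw [abs_mul, abs_of_nonneg (hK i j)]
          exact mul_le_mul_of_nonneg_left (hM j) (hK i j)
      _ = M := by rw [← Finset.sum_mul, hs i, one_mul]
  have hgabs : |g| ≤ 1 := by
    rw [abs_le]
    have h1 : 0 ≤ ∑ i, μ i * p i := Finset.sum_nonneg fun i _ => mul_nonneg (hμ.1 i) (hp0 i).le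
    have h2 : ∑ i, μ i * p i ≤ 1 := by
      calc ∑ i, μ i * p i ≤ ∑ i, μ i * 1 :=
            Finset.sum_le_sum fun i _ => mul_le_mul_of_nonneg_left (hp1 i).le (hμ.1 i)
        _ = 1 := by simpa using hμ.2.1
    constructor <;> linarith
  have hgpos : 0 < |g| := abs_pos.mpr hg0
  refine ⟨|g| / (8 * M), by positivity, fun θ hθ hsign => ?_⟩
  have hθ8 : |θ| * (8 * M) ≤ |g| := by rwa [le_div_iff₀ (by positivity)] at hθ
  have hθn : 0 ≤ |θ| := abs_nonneg θ
  have hθM : |θ| * M ≤ 1 / 8 := by nlinarith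
  have hθ1 : |θ| ≤ 1 / 8 := by nlinarith
  have hθg : θ * g < 0 := by
    have : θ * g = 2 * (θ * (∑ i, μ i * p i - 1 / 2)) := by rw [hg]; ring
    rw [this]; linarith
  have hθgabs : θ * g = - (|θ| * |g|) := by
    rw [← abs_mul, abs_of_neg hθg]; ring
  have hrb : ∀ i, |θ * r i| ≤ 1 / 8 := by
    intro i
    rw [abs_mul]
    exact (mul_le_mul_of_nonneg_left (hM i) hθn).trans hθM
  refine ⟨fun i => 1 + θ * r i, 1 + θ * g / 2, ?_, ?_, ?_, ?_⟩
  · have : |θ| * |g| ≤ 1 / 8 * 1 := mul_le_mul hθ1 hgabs (abs_nonneg _) (by norm_num)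
    linarith
  · linarith
  · intro i
    have := abs_le.mp (hrb i)
    constructor <;> linarith
  · intro i
    have e1 : ∑ j, K i j * (1 + θ * r j) = 1 + θ * ∑ j, K i j * r j := by
      simp_rw [mul_add, mul_one, Finset.sum_add_distrib, hs i, Finset.mul_sum]
      congr 1
      exact Finset.sum_congr rfl fun j _ => by ring
    rw [e1]
    set s := ∑ j, K i j * r j with hsdef
    have hs' : |s| ≤ M := hKr i
    have hri := hr i
    have hg1 : p i * Real.exp θ + (1 - p i) * Real.exp (-θ) ≤ 1 + θ * (2 * p i - 1) + θ ^ 2 := by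
      have h1 := exp_le_quad (x := θ) (by linarith)
      have h2 := exp_le_quad (x := -θ) (by rw [abs_neg]; linarith)
      have h3 := (hp0 i).le
      have h4 : 0 ≤ 1 - p i := by linarith [hp1 i]
      have h5 := mul_le_mul_of_nonneg_left h1 h3
      have h6 := mul_le_mul_of_nonneg_left h2 h4
      nlinarith
    have hsθ : |θ * s| ≤ 1 / 8 := by
      rw [abs_mul]
      exact (mul_le_mul_of_nonneg_left hs' hθn).trans hθM
    have hpos : 0 ≤ 1 + θ * s := by
      have := abs_le.mp hsθ
      linarith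
    refine (mul_le_mul_of_nonneg_right hg1 hpos).trans ?_
    -- r i = s + (2 p i - 1) - g
    have hrs : r i = s + (2 * p i - 1) - g := by
      have : r i - s = (2 * p i - 1) - g := hri
      linarith
    -- error terms
    have hq : |2 * p i - 1| ≤ 1 := by
      rw [abs_le]; constructor <;> linarith [hp0 i, hp1 i]
    have t1 : θ ^ 2 * ((2 * p i - 1) * s) ≤ θ ^ 2 * M := by
      apply mul_le_mul_of_nonneg_left _ (sq_nonneg θ)
      calc (2 * p i - 1) * s ≤ |(2 * p i - 1) * s| := le_abs_self _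
        _ = |2 * p i - 1| * |s| := abs_mul _ _
        _ ≤ 1 * M := mul_le_mul hq hs' (abs_nonneg _) zero_le_one
        _ = M := one_mul M
    have t2 : θ ^ 2 * (θ * s) ≤ θ ^ 2 * (1 / 8) := by
      apply mul_le_mul_of_nonneg_left _ (sq_nonneg θ)
      exact (le_abs_self _).trans hsθ
    have t3 : - (θ ^ 2 * M) / 2 ≤ θ * g / 2 * (θ * r i) := by
      have h7 : |g * r i| ≤ 1 * M := by
        rw [abs_mul]
        exact mul_le_mul hgabs (hM i) (abs_nonneg _) zero_le_one
      have h8 : -M ≤ g * r i := by have := (abs_le.mp h7).1; linarith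
      have h9 : θ ^ 2 * (-M) ≤ θ ^ 2 * (g * r i) := mul_le_mul_of_nonneg_left h8 (sq_nonneg θ)
      nlinarith
    have hsq : θ ^ 2 * (8 * M) ≤ |θ| * |g| := by
      rw [← sq_abs θ]
      calc |θ| ^ 2 * (8 * M) = |θ| * (|θ| * (8 * M)) := by ring
        _ ≤ |θ| * |g| := mul_le_mul_of_nonneg_left hθ8 hθn
    have hsqM : θ ^ 2 ≤ θ ^ 2 * M := by
      have := mul_le_mul_of_nonneg_left hM1 (sq_nonneg θ)
      linarith
    change _ ≤ (1 + θ * g / 2) * (1 + θ * r i)
    have hfin : (1 + θ * (2 * p i - 1) + θ ^ 2) * (1 + θ * s)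
        = 1 + θ * (r i + g) + θ ^ 2 * ((2 * p i - 1) * s) + θ ^ 2 + θ ^ 2 * (θ * s) := by
      rw [hrs]; ring
    rw [hfin]
    have hfin2 : (1 + θ * g / 2) * (1 + θ * r i) = 1 + θ * r i + θ * g / 2 + θ * g / 2 * (θ * r i) := by
      ring
    rw [hfin2]
    nlinarith

end Pool.Agent.MP_3aae7f_pr
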