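import Pool.Agent.Lib.MP_3aae7f_pr.Chain

/-!
Critical case: interface between the one-site analysis and the analysis of the branching process.
-/

open scoped ENNReal

namespace Pool.Agent.MP_3aae7f_pr

/-- A Markov kernel on `ℕ`, absorbed at `0`, with drift `≈ ρ`, variance `≈ ν k` and good moments. -/
structure BLP (r : ℕ → ℕ → ℝ) (ρ ν : ℝ) : Prop where
  nonneg : ∀ k l, 0 ≤ r k l
  sum : ∀ k, HasSum (r k) 1
  zero : r 0 0 = 1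
  pos : ∀ k l, 1 ≤ k → 0 < r k l
  ν_pos : 0 < ν
  moment : ∀ q : ℕ, ∃ C : ℝ, ∀ k : ℕ, 1 ≤ k → Summable (fun l : ℕ => r k l * |(l : ℝ) - k| ^ q) ∧
    ∑' l : ℕ, r k l * |(l : ℝ) - k| ^ q ≤ C * Real.sqrt k ^ q
  mean : ∃ C : ℝ, ∀ k : ℕ, 1 ≤ k → |∑' l : ℕ, r k l * ((l : ℝ) - k) - ρ| ≤ C / Real.sqrt k
  var : ∃ C : ℝ, ∀ k : ℕ, 1 ≤ k → |∑' l : ℕ, r k l * ((l : ℝ) - k) ^ 2 - ν * k| ≤ C * Real.sqrt k

/-- the kernel with values in `ℝ≥0∞` -/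
noncomputable def kr (r : ℕ → ℕ → ℝ) (k l : ℕ) : ℝ≥0∞ := ENNReal.ofReal (r k l)

end Pool.Agent.MP_3aae7f_pr
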