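import Pool.Agent.Lib.MP_3aae7f_pr.CritErg
import Pool.Agent.Lib.MP_3aae7f_pr.CritBLP

/-!
Critical case, one site: exponential moments on the scale `√k`, and the interface `BLP`.
-/

open MeasureTheory ProbabilityTheory
open scoped ENNReal

namespace Pool.Agent.MP_3aae7f_pr

namespace Crit

variable {N : ℕ} {K : Fin N → Fin N → ℝ} {p : Fin N → ℝ} {ε : ℝ}

lemma tilt_le (h : Pos K p) {g : Fin N → ℝ} (hg : IsPoisson K p g) {B θ : ℝ}
    (hB : ∀ i j, |g j - g i| + 1 ≤ B) (hθ : |θ| * B ≤ 1) (i : Fin N) :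
    Real.exp (-(B ^ 2 * θ ^ 2)) * Real.exp (-θ) * FF K p (fun j => Real.exp (θ * g j)) i +
      Real.exp (-(B ^ 2 * θ ^ 2)) * Real.exp θ * TT K p (fun j => Real.exp (θ * g j)) i ≤
        Real.exp (θ * g i) := by
  have hB0 : 0 ≤ B := by
    have := hB i i
    simp at this
    linarith
  have hx : ∀ x : ℝ, |x| ≤ B → Real.exp (θ * x) ≤ 1 + θ * x + B ^ 2 * θ ^ 2 := by
    intro x hx
    have h1 : |θ * x| ≤ 1 := by
      rw [abs_mul]
      exact (mul_le_mul_of_nonneg_left hx (abs_nonneg θ)).trans hθ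
    refine (exp_le_quad h1).trans ?_
    have h2 : x ^ 2 ≤ B ^ 2 := by
      rw [← sq_abs]
      exact pow_le_pow_left₀ (abs_nonneg x) hx 2
    nlinarith [sq_nonneg θ, mul_le_mul_of_nonneg_right h2 (sq_nonneg θ)]
  have hj : ∀ j, (1 - p i) * Real.exp (θ * (g j - g i - 1)) + p i * Real.exp (θ * (g j - g i + 1)) ≤
      1 + B ^ 2 * θ ^ 2 + θ * (g j - g i + (2 * p i - 1)) := by
    intro j
    have hb := hB i j
    have h1 := hx (g j - g i - 1) ((abs_sub _ _).trans (by rw [abs_one]; exact hb))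
    have h2 := hx (g j - g i + 1) ((abs_add_le _ _).trans (by rw [abs_one]; exact hb))
    have h3 := mul_le_mul_of_nonneg_left h1 (by linarith [h.p1 i] : 0 ≤ 1 - p i)
    have h4 := mul_le_mul_of_nonneg_left h2 (h.p0 i).le
    nlinarith
  have hsum : ∑ j, K i j * ((1 - p i) * Real.exp (θ * (g j - g i - 1)) +
      p i * Real.exp (θ * (g j - g i + 1))) ≤ 1 + B ^ 2 * θ ^ 2 := by
    calc ∑ j, K i j * ((1 - p i) * Real.exp (θ * (g j - g i - 1)) +
          p i * Real.exp (θ * (g j - g i + 1)))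
        ≤ ∑ j, K i j * (1 + B ^ 2 * θ ^ 2 + θ * (g j - g i + (2 * p i - 1))) :=
          Finset.sum_le_sum fun j _ => mul_le_mul_of_nonneg_left (hj j) (h.K0 i j)
      _ = (1 + B ^ 2 * θ ^ 2 + θ * (2 * p i - 1 - g i)) * ∑ j, K i j + θ * ∑ j, K i j * g j := by
          rw [Finset.mul_sum, Finset.mul_sum, ← Finset.sum_add_distrib]
          exact Finset.sum_congr rfl fun j _ => by ring
      _ = 1 + B ^ 2 * θ ^ 2 := by
          have h1 := hg i
          rw [h.Ks i]
          have h3 : ∑ j, K i j * g j = g i - (2 * p i - 1) := by linarith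
          rw [h3]
          ring
  have he : 1 + B ^ 2 * θ ^ 2 ≤ Real.exp (B ^ 2 * θ ^ 2) := by
    have := Real.add_one_le_exp (B ^ 2 * θ ^ 2)
    linarith
  have e1 : Real.exp (-(B ^ 2 * θ ^ 2)) * Real.exp (-θ) * FF K p (fun j => Real.exp (θ * g j)) i +
      Real.exp (-(B ^ 2 * θ ^ 2)) * Real.exp θ * TT K p (fun j => Real.exp (θ * g j)) i =
      Real.exp (-(B ^ 2 * θ ^ 2)) * Real.exp (θ * g i) *
        ∑ j, K i j * ((1 - p i) * Real.exp (θ * (g j - g i - 1)) +
          p i * Real.exp (θ * (g j - g i + 1))) := by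
    rw [FF_apply, TT_apply, Finset.mul_sum, Finset.mul_sum, Finset.mul_sum, Finset.mul_sum,
      Finset.mul_sum, ← Finset.sum_add_distrib]
    refine Finset.sum_congr rfl fun j _ => ?_
    have e2 : Real.exp (θ * (g j - g i - 1)) * Real.exp (θ * g i) =
        Real.exp (-θ) * Real.exp (θ * g j) := by
      rw [← Real.exp_add, ← Real.exp_add]; congr 1; ring
    have e3 : Real.exp (θ * (g j - g i + 1)) * Real.exp (θ * g i) =
        Real.exp θ * Real.exp (θ * g j) := by
      rw [← Real.exp_add, ← Real.exp_add]; congr 1; ring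
    linear_combination (-(Real.exp (-(B ^ 2 * θ ^ 2)) * (1 - p i) * K i j)) * e2 -
      (Real.exp (-(B ^ 2 * θ ^ 2)) * p i * K i j) * e3
  rw [e1]
  calc Real.exp (-(B ^ 2 * θ ^ 2)) * Real.exp (θ * g i) *
        ∑ j, K i j * ((1 - p i) * Real.exp (θ * (g j - g i - 1)) +
          p i * Real.exp (θ * (g j - g i + 1)))
      ≤ Real.exp (-(B ^ 2 * θ ^ 2)) * Real.exp (θ * g i) * Real.exp (B ^ 2 * θ ^ 2) :=
        mul_le_mul_of_nonneg_left (hsum.trans he) (by positivity)
    _ = Real.exp (θ * g i) * (Real.exp (-(B ^ 2 * θ ^ 2)) * Real.exp (B ^ 2 * θ ^ 2)) := by ring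
    _ = Real.exp (θ * g i) := by rw [← Real.exp_add, neg_add_cancel, Real.exp_zero, mul_one]

/-- one-sided exponential moments -/
lemma exp_one (h : Pos K p) {g : Fin N → ℝ} (hg : IsPoisson K p g) {B θ : ℝ}
    (hB : ∀ i j, |g j - g i| + 1 ≤ B) (hθ : |θ| * B ≤ 1) (k L : ℕ) (i : Fin N) :
    ∑ l ∈ Finset.range L, Real.exp ((θ - B ^ 2 * θ ^ 2) * ((l : ℝ) - k)) * V K p k l (fun _ => 1) i ≤
      Real.exp (1 + 2 * B ^ 2 * θ ^ 2 * k) := by
  have h1 := supersum h (a := Real.exp (-(B ^ 2 * θ ^ 2)) * Real.exp (-θ))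
    (b := Real.exp (-(B ^ 2 * θ ^ 2)) * Real.exp θ) (f := fun j => Real.exp (θ * g j)) (by positivity)
    (by positivity) (fun j => (Real.exp_pos _).le) (fun j => tilt_le h hg hB hθ j) k L i
  rw [Finset.sum_apply] at h1
  have hge : ∀ j, Real.exp (θ * g i - 1) * 1 ≤ Real.exp (θ * g j) := by
    intro j
    rw [mul_one]
    apply Real.exp_le_exp.2
    have h2 := hB i j
    have h3 : |θ * (g j - g i)| ≤ 1 := by
      rw [abs_mul]
      refine le_trans (mul_le_mul_of_nonneg_left ?_ (abs_nonneg θ)) hθ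
      linarith
    have h4 := (abs_le.1 h3).1
    linarith
  have h5 : ∀ l, Real.exp (θ * g i - 1) * V K p k l (fun _ => 1) i ≤
      V K p k l (fun j => Real.exp (θ * g j)) i := by
    intro l
    have h6 := V_mono h k l (φ := Real.exp (θ * g i - 1) • fun _ => 1)
      (ψ := fun j => Real.exp (θ * g j)) (fun j => hge j) i
    rw [map_smul, Pi.smul_apply, smul_eq_mul] at h6
    exact h6
  have h7 : ∑ l ∈ Finset.range L, (Real.exp (-(2 * B ^ 2 * θ ^ 2 * k)) * Real.exp (θ * g i - 1)) *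
      (Real.exp ((θ - B ^ 2 * θ ^ 2) * ((l : ℝ) - k)) * V K p k l (fun _ => 1) i) ≤
      Real.exp (θ * g i) := by
    refine le_trans (Finset.sum_le_sum fun l _ => ?_) h1
    simp only [Pi.smul_apply, smul_eq_mul]
    have e1 : (Real.exp (-(B ^ 2 * θ ^ 2)) * Real.exp (-θ)) ^ k *
        (Real.exp (-(B ^ 2 * θ ^ 2)) * Real.exp θ) ^ l =
        Real.exp (-(2 * B ^ 2 * θ ^ 2 * k)) * Real.exp ((θ - B ^ 2 * θ ^ 2) * ((l : ℝ) - k)) := by
      rw [← Real.exp_add, ← Real.exp_add, ← Real.exp_nat_mul, ← Real.exp_nat_mul, ← Real.exp_add,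
        ← Real.exp_add]
      congr 1
      ring
    rw [e1]
    calc Real.exp (-(2 * B ^ 2 * θ ^ 2 * k)) * Real.exp (θ * g i - 1) *
          (Real.exp ((θ - B ^ 2 * θ ^ 2) * ((l : ℝ) - k)) * V K p k l (fun _ => 1) i)
        = Real.exp (-(2 * B ^ 2 * θ ^ 2 * k)) * Real.exp ((θ - B ^ 2 * θ ^ 2) * ((l : ℝ) - k)) *
          (Real.exp (θ * g i - 1) * V K p k l (fun _ => 1) i) := by ring
      _ ≤ _ := mul_le_mul_of_nonneg_left (h5 l) (by positivity)
  rw [← Finset.mul_sum] at h7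
  have h8 : Real.exp (1 + 2 * B ^ 2 * θ ^ 2 * k) =
      Real.exp (θ * g i) * Real.exp (2 * B ^ 2 * θ ^ 2 * k - (θ * g i - 1)) := by
    rw [← Real.exp_add]; congr 1; ring
  rw [h8]
  have h9 := mul_le_mul_of_nonneg_right h7 (Real.exp_pos (2 * B ^ 2 * θ ^ 2 * k - (θ * g i - 1))).le
  refine le_trans (le_of_eq ?_) h9
  have h10 : Real.exp (-(2 * B ^ 2 * θ ^ 2 * k)) * Real.exp (θ * g i - 1) *
      Real.exp (2 * B ^ 2 * θ ^ 2 * k - (θ * g i - 1)) = 1 := by
    rw [← Real.exp_add, ← Real.exp_add, ← Real.exp_zero]; congr 1; ring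
  calc ∑ l ∈ Finset.range L, Real.exp ((θ - B ^ 2 * θ ^ 2) * ((l : ℝ) - k)) * V K p k l (fun _ => 1) i
      = (Real.exp (-(2 * B ^ 2 * θ ^ 2 * k)) * Real.exp (θ * g i - 1) *
        Real.exp (2 * B ^ 2 * θ ^ 2 * k - (θ * g i - 1))) *
        ∑ l ∈ Finset.range L, Real.exp ((θ - B ^ 2 * θ ^ 2) * ((l : ℝ) - k)) *
          V K p k l (fun _ => 1) i := by rw [h10, one_mul]
    _ = _ := by ring

/-- two-sided exponential moments on the scale `√k` -/
lemma exp_two (h : Pos K p) {g : Fin N → ℝ} (hg : IsPoisson K p g) :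
    ∃ c : ℝ, 0 < c ∧ ∀ (k L : ℕ) (i : Fin N), 1 ≤ k →
      ∑ l ∈ Finset.range L, Real.exp (c * (|(l : ℝ) - k| / Real.sqrt k)) * V K p k l (fun _ => 1) i ≤
        2 * Real.exp 3 := by
  obtain ⟨D, hD0, hD⟩ := exists_bound g
  set B : ℝ := 2 * D + 1 with hBdef
  have hB1 : 1 ≤ B := by linarith
  have hB : ∀ i j, |g j - g i| + 1 ≤ B := fun i j => by
    have := abs_sub (g j) (g i)
    linarith [hD i, hD j]
  refine ⟨1 / (4 * B ^ 2), by positivity, fun k L i hk => ?_⟩
  have hk1 : (1 : ℝ) ≤ k := by exact_mod_cast hk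
  have hs1 : 1 ≤ Real.sqrt k := Real.one_le_sqrt.2 hk1
  have hs0 : 0 < Real.sqrt k := by linarith
  set θ : ℝ := 1 / (2 * B ^ 2 * Real.sqrt k) with hθdef
  have hθ0 : 0 < θ := by positivity
  have hθB : B ^ 2 * θ ≤ 1 / 2 := by
    rw [hθdef, mul_one_div, div_le_iff₀ (by positivity)]
    nlinarith [sq_nonneg B, mul_le_mul_of_nonneg_left hs1 (sq_nonneg B)]
  have hθ1 : θ * B ≤ 1 := by nlinarith
  have hθk : 2 * B ^ 2 * θ ^ 2 * k ≤ 2 := by
    have h1 : Real.sqrt k ^ 2 = k := Real.sq_sqrt (by positivity)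
    have h2 : 2 * B ^ 2 * θ ^ 2 * k = 1 / (2 * B ^ 2) := by
      rw [hθdef, ← h1]
      have := hs0.ne'
      field_simp
      norm_num
    rw [h2, div_le_iff₀ (by positivity)]
    nlinarith
  have h1 := exp_one h hg hB (θ := θ) (by rw [abs_of_pos hθ0]; exact hθ1) k L i
  have h2 := exp_one h hg hB (θ := -θ) (by rw [abs_neg, abs_of_pos hθ0]; exact hθ1) k L i
  rw [neg_sq] at h2
  have h3 : Real.exp (1 + 2 * B ^ 2 * θ ^ 2 * k) ≤ Real.exp 3 := Real.exp_le_exp.2 (by linarith)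
  have h4 : ∀ l : ℕ, Real.exp (1 / (4 * B ^ 2) * (|(l : ℝ) - k| / Real.sqrt k)) *
      V K p k l (fun _ => 1) i ≤
      Real.exp ((θ - B ^ 2 * θ ^ 2) * ((l : ℝ) - k)) * V K p k l (fun _ => 1) i +
      Real.exp ((-θ - B ^ 2 * θ ^ 2) * ((l : ℝ) - k)) * V K p k l (fun _ => 1) i := by
    intro l
    rw [← add_mul]
    refine mul_le_mul_of_nonneg_right ?_ (V_nonneg h k l (fun _ => zero_le_one) i)
    have h5 : 1 / (4 * B ^ 2) * (|(l : ℝ) - k| / Real.sqrt k) = θ / 2 * |(l : ℝ) - k| := by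
      rw [hθdef]
      have := hs0.ne'
      field_simp
      ring
    rw [h5]
    rcases le_total 0 ((l : ℝ) - k) with hl | hl
    · rw [abs_of_nonneg hl]
      refine le_trans (Real.exp_le_exp.2 ?_) (le_add_of_nonneg_right (Real.exp_pos _).le)
      refine mul_le_mul_of_nonneg_right ?_ hl
      nlinarith
    · rw [abs_of_nonpos hl]
      refine le_trans (Real.exp_le_exp.2 ?_) (le_add_of_nonneg_left (Real.exp_pos _).le)
      have h6 : θ / 2 ≤ θ + B ^ 2 * θ ^ 2 := by nlinarith [sq_nonneg (B * θ)]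
      have h7 := mul_le_mul_of_nonneg_right h6 (neg_nonneg.2 hl)
      linarith
  calc ∑ l ∈ Finset.range L, Real.exp (1 / (4 * B ^ 2) * (|(l : ℝ) - k| / Real.sqrt k)) *
        V K p k l (fun _ => 1) i
      ≤ ∑ l ∈ Finset.range L, (Real.exp ((θ - B ^ 2 * θ ^ 2) * ((l : ℝ) - k)) * V K p k l (fun _ => 1) i +
        Real.exp ((-θ - B ^ 2 * θ ^ 2) * ((l : ℝ) - k)) * V K p k l (fun _ => 1) i) :=
        Finset.sum_le_sum fun l _ => h4 l
    _ ≤ Real.exp 3 + Real.exp 3 := by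
        rw [Finset.sum_add_distrib]
        exact add_le_add (h1.trans h3) (h2.trans h3)
    _ = 2 * Real.exp 3 := by ring

/-- the kernel of the branching process -/
noncomputable def rk (K : Fin N → Fin N → ℝ) (p η : Fin N → ℝ) (k l : ℕ) : ℝ :=
  ∑ i, η i * V K p k l (fun _ => 1) i

lemma rk_nonneg (h : Pos K p) {η : Fin N → ℝ} (hη : ∀ i, 0 ≤ η i) (k l : ℕ) : 0 ≤ rk K p η k l :=
  Finset.sum_nonneg fun i _ => mul_nonneg (hη i) (V_nonneg h k l (fun _ => zero_le_one) i)

lemma hasSum_rk (h : Ell K p ε) (η : Fin N → ℝ) {u : ℕ → ℝ} (hu : Tame ε u) (k : ℕ) :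
    HasSum (fun l => rk K p η k l * u l) (∑ i, η i * EE K p u k (fun _ => 1) i) := by
  have h1 := hasSum_sum (s := Finset.univ) fun (i : Fin N) _ =>
    (hasSum_EE h hu k (fun _ => 1) i).mul_left (η i)
  have e : (fun l => rk K p η k l * u l) =
      fun l => ∑ i, η i * (u l * V K p k l (fun _ => 1) i) := by
    funext l
    unfold rk
    rw [Finset.sum_mul]
    exact Finset.sum_congr rfl fun i _ => by ring
  rw [e]
  exact h1

/-- polynomial moments on the scale `√k` -/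
lemma moment_V (h : Pos K p) {g : Fin N → ℝ} (hg : IsPoisson K p g) (q : ℕ) :
    ∃ C : ℝ, 0 ≤ C ∧ ∀ (k : ℕ) (i : Fin N), 1 ≤ k →
      Summable (fun l : ℕ => |(l : ℝ) - k| ^ q * V K p k l (fun _ => 1) i) ∧
      ∑' l : ℕ, |(l : ℝ) - k| ^ q * V K p k l (fun _ => 1) i ≤ C * Real.sqrt k ^ q := by
  obtain ⟨c, hc, hexp⟩ := exp_two h hg
  refine ⟨q.factorial * (1 / c) ^ q * (2 * Real.exp 3), by positivity, fun k i hk => ?_⟩
  have hs0 : 0 < Real.sqrt k := Real.sqrt_pos.2 (by exact_mod_cast hk)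
  have h1 : ∀ l : ℕ, |(l : ℝ) - k| ^ q ≤
      q.factorial * (1 / c) ^ q * Real.sqrt k ^ q * Real.exp (c * (|(l : ℝ) - k| / Real.sqrt k)) := by
    intro l
    set x := c * (|(l : ℝ) - k| / Real.sqrt k) with hx
    have hx0 : 0 ≤ x := by positivity
    have h2 := Real.pow_div_factorial_le_exp x hx0 q
    rw [div_le_iff₀ (by positivity)] at h2
    have h3 : |(l : ℝ) - k| ^ q = (1 / c) ^ q * Real.sqrt k ^ q * x ^ q := by
      rw [← mul_pow, ← mul_pow]
      congr 1
      rw [hx]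
      have := hs0.ne'
      field_simp
    rw [h3]
    calc (1 / c) ^ q * Real.sqrt k ^ q * x ^ q
        ≤ (1 / c) ^ q * Real.sqrt k ^ q * (Real.exp x * q.factorial) :=
          mul_le_mul_of_nonneg_left h2 (by positivity)
      _ = _ := by ring
  have h2 : ∀ L, ∑ l ∈ Finset.range L, |(l : ℝ) - k| ^ q * V K p k l (fun _ => 1) i ≤
      q.factorial * (1 / c) ^ q * (2 * Real.exp 3) * Real.sqrt k ^ q := by
    intro L
    calc ∑ l ∈ Finset.range L, |(l : ℝ) - k| ^ q * V K p k l (fun _ => 1) i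
        ≤ ∑ l ∈ Finset.range L, q.factorial * (1 / c) ^ q * Real.sqrt k ^ q *
          (Real.exp (c * (|(l : ℝ) - k| / Real.sqrt k)) * V K p k l (fun _ => 1) i) := by
          refine Finset.sum_le_sum fun l _ => ?_
          rw [← mul_assoc]
          exact mul_le_mul_of_nonneg_right (h1 l) (V_nonneg h k l (fun _ => zero_le_one) i)
      _ ≤ q.factorial * (1 / c) ^ q * Real.sqrt k ^ q * (2 * Real.exp 3) := by
          rw [← Finset.mul_sum]
          exact mul_le_mul_of_nonneg_left (hexp k L i hk) (by positivity)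
      _ = _ := by ring
  have h0 : ∀ l : ℕ, 0 ≤ |(l : ℝ) - k| ^ q * V K p k l (fun _ => 1) i := fun l =>
    mul_nonneg (by positivity) (V_nonneg h k l (fun _ => zero_le_one) i)
  exact ⟨summable_of_sum_range_le h0 h2, Real.tsum_le_of_sum_range_le h0 h2⟩

lemma V_ge (h : Ell K p ε) (k : ℕ) : ∀ (l : ℕ) (i : Fin N),
    ε ^ (k + 1 + l) ≤ V K p (k + 1) l (fun _ => 1) i := by
  have hε := h.ε0
  have key : ∀ (c : ℝ) (φ : Fin N → ℝ), (∀ j, c ≤ φ j) → ∀ i, (0 ≤ c → ε * c ≤ FF K p φ i ∧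
      ε * c ≤ TT K p φ i) := by
    intro c φ hφ i hc
    have e : (fun _ : Fin N => c) = c • fun _ => (1 : ℝ) := by funext j; simp
    have h1 := FF_mono h.toPos (φ := fun _ => c) hφ i
    have h2 := TT_mono h.toPos (φ := fun _ => c) hφ i
    rw [e, map_smul, Pi.smul_apply, smul_eq_mul, FF_one h.toPos] at h1
    rw [e, map_smul, Pi.smul_apply, smul_eq_mul, TT_one h.toPos] at h2
    have h3 := mul_le_mul_of_nonneg_left (h.le_p i) hc
    have h4 := mul_le_mul_of_nonneg_left (h.le_q i) hc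
    constructor <;> linarith
  have base : ∀ (k : ℕ) (i : Fin N), ε ^ k ≤ V K p k 0 (fun _ => 1) i := by
    intro k
    induction k with
    | zero => intro i; rw [V_00]; simp
    | succ k ih =>
      intro i
      rw [V_s0, Module.End.mul_apply, pow_succ']
      exact (key _ _ ih i (by positivity)).1
  intro l
  induction l with
  | zero => intro i; exact base (k + 1) i
  | succ l ih =>
    intro i
    rw [V_ss, LinearMap.add_apply, Pi.add_apply, Module.End.mul_apply, Module.End.mul_apply,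
      ← add_assoc, pow_succ']
    have h1 := (key _ _ ih i (by positivity)).2
    have h2 := FF_nonneg h.toPos (φ := V K p k (l + 1) (fun _ => 1))
      (V_nonneg h.toPos k (l + 1) (fun _ => zero_le_one)) i
    linarith

lemma sum_eta_abs {η : Fin N → ℝ} (hη0 : ∀ i, 0 ≤ η i) (hη1 : ∑ i, η i = 1) {x : Fin N → ℝ} {C : ℝ}
    (hx : ∀ i, |x i| ≤ C) : |∑ i, η i * x i| ≤ C := by
  calc |∑ i, η i * x i| ≤ ∑ i, |η i * x i| := Finset.abs_sum_le_sum_abs _ _
    _ ≤ ∑ i, η i * C := Finset.sum_le_sum fun i _ => by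
        rw [abs_mul, abs_of_nonneg (hη0 i)]
        exact mul_le_mul_of_nonneg_left (hx i) (hη0 i)
    _ = C := by rw [← Finset.sum_mul, hη1, one_mul]

/-- the kernel of the critical branching process satisfies the interface -/
theorem blp (h : Ell K p ε) (hC : ∃! C : Set (Fin N), IsClosedClass K C) {μ : Fin N → ℝ}
    (hμ : IsStationary K μ) (hp : ∑ i, μ i * p i = 1 / 2) {g : Fin N → ℝ} (hg : IsPoisson K p g)
    {η : Fin N → ℝ} (hη0 : ∀ i, 0 ≤ η i) (hη1 : ∑ i, η i = 1) :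
    BLP (rk K p η) (rho0 K p η g μ) (2 * qbar K p g μ) where
  nonneg := rk_nonneg h.toPos hη0
  sum k := by
    have := hasSum_rk h η (tame_const h.ε0 1) k
    simp only [mul_one] at this
    have e : ∑ i, η i * EE K p (fun _ => 1) k (fun _ => 1) i = 1 := by
      have h1 := GG_one h k
      rw [GG] at h1
      rw [h1]
      simp [hη1]
    rwa [e] at this
  zero := by
    unfold rk
    rw [V_00]
    simp [hη1]
  pos k l hk := by
    obtain ⟨k, rfl⟩ := Nat.exists_eq_succ_of_ne_zero (by omega : k ≠ 0)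
    have hε := h.ε0
    have h1 : ε ^ (k + 1 + l) ≤ rk K p η (k + 1) l := by
      calc ε ^ (k + 1 + l) = ∑ i, η i * ε ^ (k + 1 + l) := by rw [← Finset.sum_mul, hη1, one_mul]
        _ ≤ _ := Finset.sum_le_sum fun i _ => mul_le_mul_of_nonneg_left (V_ge h k l i) (hη0 i)
    exact lt_of_lt_of_le (by positivity) h1
  ν_pos := by
    have := qbar_pos h hg hμ
    linarith
  moment q := by
    obtain ⟨C, hC0, hC⟩ := moment_V h.toPos hg q
    refine ⟨C, fun k hk => ?_⟩
    have h1 : HasSum (fun l : ℕ => ∑ i, η i * (|(l : ℝ) - k| ^ q * V K p k l (fun _ => 1) i))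
        (∑ i, η i * ∑' l : ℕ, |(l : ℝ) - k| ^ q * V K p k l (fun _ => 1) i) :=
      hasSum_sum fun i _ => ((hC k i hk).1.hasSum).mul_left (η i)
    have e : (fun l : ℕ => rk K p η k l * |(l : ℝ) - k| ^ q) =
        fun l : ℕ => ∑ i, η i * (|(l : ℝ) - k| ^ q * V K p k l (fun _ => 1) i) := by
      funext l
      unfold rk
      rw [Finset.sum_mul]
      exact Finset.sum_congr rfl fun i _ => by ring
    rw [e]
    refine ⟨h1.summable, ?_⟩
    rw [h1.tsum_eq]
    calc ∑ i, η i * ∑' l : ℕ, |(l : ℝ) - k| ^ q * V K p k l (fun _ => 1) i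
        ≤ ∑ i, η i * (C * Real.sqrt k ^ q) :=
          Finset.sum_le_sum fun i _ => mul_le_mul_of_nonneg_left (hC k i hk).2 (hη0 i)
      _ = C * Real.sqrt k ^ q := by rw [← Finset.sum_mul, hη1, one_mul]
  mean := by
    obtain ⟨C, hC0, hC1⟩ := ergodic h hC hμ hp g
    refine ⟨C, fun k hk => ?_⟩
    have h1 := hasSum_rk h η (tame_id h.ε0 (k : ℝ)) k
    rw [h1.tsum_eq]
    have h2 := first_moment h hg k
    have h3 : ∀ i, EE K p (fun l => (l : ℝ) - k) k (fun _ => 1) i = g i - GG K p k g i := fun i => by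
      have := congrFun h2 i
      rw [Pi.add_apply] at this
      linarith
    have h4 : ∑ i, η i * EE K p (fun l => (l : ℝ) - k) k (fun _ => 1) i - rho0 K p η g μ =
        - ∑ i, η i * (GG K p k g i - 2 * ∑ i, μ i * FF K p g i) := by
      simp_rw [h3]
      unfold rho0
      have e : ∀ i, η i * (GG K p k g i - 2 * ∑ i, μ i * FF K p g i) =
          η i * GG K p k g i - η i * (2 * ∑ i, μ i * FF K p g i) := fun i => by ring
      simp_rw [e, mul_sub]
      rw [Finset.sum_sub_distrib, Finset.sum_sub_distrib, ← Finset.sum_mul, hη1]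
      ring
    rw [h4, abs_neg]
    exact sum_eta_abs hη0 hη1 fun i => hC1 k i hk
  var := by
    set qb := qbar K p g μ with hqb
    have hqb0 : 0 < qb := qbar_pos h hg hμ
    obtain ⟨w, hw⟩ := exists_poisson h.K0 h.Ks hC μ hμ (fun i => gg K p g i - qb) (by
      simp_rw [mul_sub]
      rw [Finset.sum_sub_distrib, ← Finset.sum_mul, hμ.2.1, one_mul, hqb, qbar]
      ring)
    obtain ⟨C1, hC10, hC1⟩ := moment_V h.toPos hg 1
    obtain ⟨D, hD0, hD⟩ := exists_bound g
    obtain ⟨E, hE0, hE⟩ := exists_bound w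
    refine ⟨D ^ 2 + (qb * (2 * D) + 2 * E) + 2 * (D * C1) + D ^ 2, fun k hk => ?_⟩
    have h1 := hasSum_rk h η (tame_sq h.ε0 (k : ℝ)) k
    rw [h1.tsum_eq]
    have h2 := second_moment h hg (w := w) (qb := qb) hw k
    have hs1 : 1 ≤ Real.sqrt k := Real.one_le_sqrt.2 (by exact_mod_cast hk)
    have hGb : ∀ (φ : Fin N → ℝ) (M : ℝ), (∀ i, |φ i| ≤ M) → ∀ i, |GG K p k φ i| ≤ M := by
      intro φ M hφ i
      rw [abs_le]
      constructor
      · have := GG_mono h k (φ := fun _ => -M) (fun j => (abs_le.1 (hφ j)).1) i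
        rwa [GG_const h] at this
      · have := GG_mono h k (ψ := fun _ => M) (fun j => (abs_le.1 (hφ j)).2) i
        rwa [GG_const h] at this
    have h3 : ∀ i, |EE K p (fun l => (l : ℝ) - k) k g i| ≤ D * C1 * Real.sqrt k := by
      intro i
      obtain ⟨hs, hle⟩ := hC1 k i hk
      have h4 := hasSum_EE h (tame_id h.ε0 (k : ℝ)) k g i
      rw [← h4.tsum_eq, ← Real.norm_eq_abs]
      have h5 : Summable fun l : ℕ => D * (|(l : ℝ) - k| ^ 1 * V K p k l (fun _ => 1) i) :=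
        hs.mul_left D
      refine (tsum_of_norm_bounded h5.hasSum fun l => ?_).trans ?_
      · rw [Real.norm_eq_abs, abs_mul, pow_one]
        calc |(l : ℝ) - k| * |V K p k l g i| ≤ |(l : ℝ) - k| * (D * V K p k l (fun _ => 1) i) :=
              mul_le_mul_of_nonneg_left (abs_V_le h.toPos k l g hD i) (abs_nonneg _)
          _ = _ := by ring
      · rw [tsum_mul_left, mul_assoc]
        rw [pow_one] at hle
        exact mul_le_mul_of_nonneg_left hle hD0
    have h4 : ∀ i, EE K p (fun l => ((l : ℝ) - k) ^ 2) k (fun _ => 1) i = 2 * qb * k +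
        (g i ^ 2 + (qb * (g i - GG K p k g i) + (w i - GG K p k w i)) -
          2 * EE K p (fun l => (l : ℝ) - k) k g i - GG K p k (fun i => g i ^ 2) i) := fun i => by
      have := congrFun h2 i
      unfold XX at this
      simp only [Pi.add_apply, Pi.smul_apply, smul_eq_mul] at this
      linarith
    have h5 : ∑ i, η i * EE K p (fun l => ((l : ℝ) - k) ^ 2) k (fun _ => 1) i - 2 * qb * k =
        ∑ i, η i * (g i ^ 2 + (qb * (g i - GG K p k g i) + (w i - GG K p k w i)) -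
          2 * EE K p (fun l => (l : ℝ) - k) k g i - GG K p k (fun i => g i ^ 2) i) := by
      have e : ∀ i, η i * EE K p (fun l => ((l : ℝ) - k) ^ 2) k (fun _ => 1) i =
          η i * (2 * qb * k) + η i * (g i ^ 2 + (qb * (g i - GG K p k g i) + (w i - GG K p k w i)) -
          2 * EE K p (fun l => (l : ℝ) - k) k g i - GG K p k (fun i => g i ^ 2) i) := fun i => by
        rw [h4 i, mul_add]
      simp_rw [e]
      rw [Finset.sum_add_distrib, ← Finset.sum_mul, hη1]
      ring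
    rw [h5]
    refine sum_eta_abs hη0 hη1 fun i => ?_
    have b1 := abs_le.1 (hD i)
    have b2 := abs_le.1 (hGb g D hD i)
    have b3 := abs_le.1 (hE i)
    have b4 := abs_le.1 (hGb w E hE i)
    have b5 := abs_le.1 (h3 i)
    have hsq : ∀ j, |g j ^ 2| ≤ D ^ 2 := fun j => by
      rw [abs_pow]; exact pow_le_pow_left₀ (abs_nonneg _) (hD j) 2
    have b6 := abs_le.1 (hGb (fun i => g i ^ 2) (D ^ 2) hsq i)
    have b7 := abs_le.1 (hsq i)
    have b8 : |qb * (g i - GG K p k g i)| ≤ qb * (2 * D) := by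
      rw [abs_mul, abs_of_pos hqb0]
      refine mul_le_mul_of_nonneg_left ?_ hqb0.le
      rw [abs_le]; constructor <;> linarith
    have b9 := abs_le.1 b8
    have m1 : D ^ 2 ≤ D ^ 2 * Real.sqrt k := le_mul_of_one_le_right (by positivity) hs1
    have m2 : qb * (2 * D) ≤ qb * (2 * D) * Real.sqrt k := le_mul_of_one_le_right (by positivity) hs1
    have m3 : 2 * E ≤ 2 * E * Real.sqrt k := le_mul_of_one_le_right (by positivity) hs1
    rw [abs_le]
    constructor <;> nlinarith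

end Crit

end Pool.Agent.MP_3aae7f_pr
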