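import Pool.Agent.Lib.MP_3aae7f_pr.Site2
import Pool.Agent.Lib.MP_3aae7f_pr.Chain

/-!
The arrow environment: existence of the arrow law, the product environment, and the branching
process in it.
-/

open MeasureTheory ProbabilityTheory
open scoped ENNReal

namespace Pool.Agent.MP_3aae7f_pr

variable {N : ℕ}

lemma measurableSet_cyl {S : Type*} [MeasurableSpace S] [MeasurableSingletonClass S] (n : ℕ)
    (r : ℕ → S) : MeasurableSet {e : ℕ → S | ∀ j ≤ n, e j = r j} := by
  have : {e : ℕ → S | ∀ j ≤ n, e j = r j} = ⋂ j : ℕ, ⋂ _ : j ≤ n, (fun e : ℕ → S => e j) ⁻¹' {r j} := by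
    ext e; simp
  rw [this]
  exact MeasurableSet.iInter fun j => MeasurableSet.iInter fun _ =>
    (measurableSet_singleton _).preimage (measurable_pi_apply _)

/-- probability measures on sequence spaces over a countable alphabet are determined by cylinders -/
lemma ext_cyl {S : Type*} [Countable S] [Nonempty S] [MeasurableSpace S] [MeasurableSingletonClass S]
    (μ ν : Measure (ℕ → S)) [IsProbabilityMeasure μ] [IsProbabilityMeasure ν]
    (h : ∀ (n : ℕ) (r : ℕ → S), μ {e | ∀ j ≤ n, e j = r j} = ν {e | ∀ j ≤ n, e j = r j}) : μ = ν := by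
  classical
  set C : Set (Set (ℕ → S)) := {s | ∃ (n : ℕ) (r : ℕ → S), s = {e | ∀ j ≤ n, e j = r j}} with hC
  refine ext_of_generate_finite C ?_ ?_ ?_ ?_
  · apply le_antisymm
    · have hcoord : ∀ j : ℕ, Measurable[MeasurableSpace.generateFrom C] (fun e : ℕ → S => e j) := by
        intro j
        refine @measurable_to_countable' S (ℕ → S) _ _ (MeasurableSpace.generateFrom C) _ fun a => ?_
        have e1 : (fun e : ℕ → S => e j) ⁻¹' {a}
            = ⋃ r : {r : Fin (j + 1) → S // r (Fin.last j) = a},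
              {e : ℕ → S | ∀ i ≤ j, e i = if hi : i < j + 1 then r.1 ⟨i, hi⟩ else a} := by
          ext e
          simp only [Set.mem_preimage, Set.mem_singleton_iff, Set.mem_iUnion, Set.mem_ofPred_eq]
          constructor
          · intro he
            refine ⟨⟨fun i => e i, by simpa using he⟩, fun i hi => ?_⟩
            rw [dif_pos (by omega)]
          · rintro ⟨r, hr⟩
            have := hr j le_rfl
            rw [dif_pos (by omega)] at this
            rw [this]
            exact r.2
        rw [e1]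
        refine MeasurableSet.iUnion fun r => ?_
        exact MeasurableSpace.measurableSet_generateFrom ⟨j, _, rfl⟩
      have := @measurable_pi_lambda (ℕ → S) ℕ (fun _ => S) (MeasurableSpace.generateFrom C) _ (fun e => e)
        hcoord
      intro s hs
      exact this hs
    · apply MeasurableSpace.generateFrom_le
      rintro s ⟨n, r, rfl⟩
      exact measurableSet_cyl n r
  · rintro s ⟨n, r, rfl⟩ t ⟨m, r', rfl⟩ ⟨e0, he0, he0'⟩
    refine ⟨max n m, e0, ?_⟩
    ext e
    simp only [Set.mem_inter_iff, Set.mem_ofPred_eq] at he0 he0' ⊢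
    constructor
    · rintro ⟨h1, h2⟩ j hj
      rcases le_max_iff.mp hj with hj | hj
      · rw [h1 j hj, he0 j hj]
      · rw [h2 j hj, he0' j hj]
    · intro hh
      refine ⟨fun j hj => ?_, fun j hj => ?_⟩
      · rw [hh j (le_max_of_le_left hj), he0 j hj]
      · rw [hh j (le_max_of_le_right hj), he0' j hj]
  · rintro s ⟨n, r, rfl⟩
    exact h n r
  · rw [measure_univ, measure_univ]

/-! ### existence of the law of arrows -/

/-- uniform distribution on `[0,1]` -/
noncomputable def unif : Measure ℝ := volume.restrict (Set.Icc 0 1)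

instance : IsProbabilityMeasure unif := ⟨by simp [unif]⟩

/-- law of the arrows -/
noncomputable def arrowLaw (p : Fin N → ℝ) (ρ : Measure (ℕ → Fin N)) : Measure (ℕ → Bool) :=
  (ρ.prod (Measure.infinitePi fun _ : ℕ => unif)).map fun eu j => decide (eu.2 j < p (eu.1 j))

lemma measurable_arrow (p : Fin N → ℝ) : Measurable
    (fun (eu : (ℕ → Fin N) × (ℕ → ℝ)) (j : ℕ) => decide (eu.2 j < p (eu.1 j))) := by
  refine measurable_pi_lambda _ fun j => ?_
  apply measurable_to_bool
  have : (fun eu : (ℕ → Fin N) × (ℕ → ℝ) => decide (eu.2 j < p (eu.1 j))) ⁻¹' {true}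
      = {eu | eu.2 j < p (eu.1 j)} := by
    ext eu; simp
  rw [this]
  refine measurableSet_lt ((measurable_pi_apply j).comp measurable_snd) ?_
  exact (measurable_of_finite p).comp ((measurable_pi_apply j).comp measurable_fst)

lemma unif_lt (a : ℝ) (h0 : 0 < a) (h1 : a < 1) (b : Bool) :
    unif {u | decide (u < a) = b} = ENNReal.ofReal (if b = true then a else 1 - a) := by
  unfold unif
  cases b
  · have e1 : {u : ℝ | decide (u < a) = false} = Set.Ici a := by ext u; simp
    rw [e1, Measure.restrict_apply measurableSet_Ici]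
    have e2 : Set.Ici a ∩ Set.Icc 0 1 = Set.Icc a 1 := by
      ext u; simp only [Set.mem_inter_iff, Set.mem_Ici, Set.mem_Icc]
      constructor
      · rintro ⟨h2, -, h3⟩; exact ⟨h2, h3⟩
      · rintro ⟨h2, h3⟩; exact ⟨h2, by linarith, h3⟩
    rw [e2, Real.volume_Icc]
    simp
  · have e1 : {u : ℝ | decide (u < a) = true} = Set.Iio a := by ext u; simp
    rw [e1, Measure.restrict_apply measurableSet_Iio]
    have e2 : Set.Iio a ∩ Set.Icc 0 1 = Set.Ico 0 a := by
      ext u; simp only [Set.mem_inter_iff, Set.mem_Iio, Set.mem_Icc, Set.mem_Ico]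
      constructor
      · rintro ⟨h2, h3, -⟩; exact ⟨h3, h2⟩
      · rintro ⟨h2, h3⟩; exact ⟨h3, h2, by linarith⟩
    rw [e2, Real.volume_Ico]
    simp

instance (p : Fin N → ℝ) (ρ : Measure (ℕ → Fin N)) [IsProbabilityMeasure ρ] :
    IsProbabilityMeasure (arrowLaw p ρ) :=
  Measure.isProbabilityMeasure_map (measurable_arrow p).aemeasurable

lemma arrowLaw_cyl (p : Fin N → ℝ) (hp0 : ∀ i, 0 < p i) (hp1 : ∀ i, p i < 1)
    (ρ : Measure (ℕ → Fin N)) [IsProbabilityMeasure ρ] (m : ℕ) (σ : ℕ → Bool) :
    arrowLaw p ρ {s | ∀ j < m, s j = σ j}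
      = ∫⁻ e, ∏ j ∈ Finset.range m, qq p (σ j) (e j) ∂ρ := by
  have hms : MeasurableSet {s : ℕ → Bool | ∀ j < m, s j = σ j} := by
    have : {s : ℕ → Bool | ∀ j < m, s j = σ j} = ⋂ j : ℕ, ⋂ _ : j < m, (fun e : ℕ → Bool => e j) ⁻¹' {σ j} := by
      ext e; simp
    rw [this]
    exact MeasurableSet.iInter fun j => MeasurableSet.iInter fun _ =>
      (measurableSet_singleton _).preimage (measurable_pi_apply _)
  unfold arrowLaw
  rw [Measure.map_apply (measurable_arrow p) hms, Measure.prod_apply (hms.preimage (measurable_arrow p))]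
  refine lintegral_congr fun e => ?_
  have e1 : Prod.mk e ⁻¹' ((fun (eu : (ℕ → Fin N) × (ℕ → ℝ)) (j : ℕ) => decide (eu.2 j < p (eu.1 j))) ⁻¹'
      {s | ∀ j < m, s j = σ j}) = Set.pi (Finset.range m : Set ℕ) (fun j => {u | decide (u < p (e j)) = σ j}) := by
    ext u
    simp [Set.mem_pi]
  rw [e1, Measure.infinitePi_pi]
  · refine Finset.prod_congr rfl fun j _ => ?_
    rw [unif_lt _ (hp0 _) (hp1 _)]
    rfl
  · intro j _
    have : {u : ℝ | decide (u < p (e j)) = σ j} = (fun u : ℝ => decide (u < p (e j))) ⁻¹' {σ j} := rfl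
    rw [this]
    apply MeasurableSet.preimage (measurableSet_singleton _)
    apply measurable_to_bool
    have : (fun u : ℝ => decide (u < p (e j))) ⁻¹' {true} = Set.Iio (p (e j)) := by ext u; simp
    rw [this]
    exact measurableSet_Iio

lemma siteLaw_arrowLaw (K : Fin N → Fin N → ℝ) (p η : Fin N → ℝ) (hp0 : ∀ i, 0 < p i)
    (hp1 : ∀ i, p i < 1) (ρ : Measure (ℕ → Fin N)) [IsProbabilityMeasure ρ]
    (hch : ∀ (n : ℕ) (r : ℕ → Fin N), ρ {e | ∀ j ≤ n, e j = r j}
      = ENNReal.ofReal (η (r 0) * ∏ j ∈ Finset.range n, K (r j) (r (j + 1)))) :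
    SiteLaw K p η ρ (arrowLaw p ρ) where
  probρ := inferInstance
  probW := inferInstance
  chain := hch
  cyl := arrowLaw_cyl p hp0 hp1 ρ

/-! ### the product environment -/

/-- law of the arrow environment -/
noncomputable def PP (W : Measure (ℕ → Bool)) [IsProbabilityMeasure W] : Measure (ℤ → ℕ → Bool) :=
  Measure.infinitePi fun _ : ℤ => W

instance (W : Measure (ℕ → Bool)) [IsProbabilityMeasure W] : IsProbabilityMeasure (PP W) := by
  unfold PP; infer_instance

lemma measurable_upd (x : ℤ) : Measurable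
    (fun sξ : (ℕ → Bool) × (ℤ → ℕ → Bool) => Function.update sξ.2 x sξ.1) := by
  refine measurable_pi_lambda _ fun y => ?_
  by_cases h : y = x
  · subst h
    simp only [Function.update_self]
    exact measurable_fst
  · simp only [Function.update_of_ne h]
    exact (measurable_pi_apply y).comp measurable_snd

/-- resampling one site preserves the law -/
lemma map_upd (W : Measure (ℕ → Bool)) [IsProbabilityMeasure W] (x : ℤ) :
    (W.prod (PP W)).map (fun sξ => Function.update sξ.2 x sξ.1) = PP W := by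
  classical
  refine Measure.eq_infinitePi _ fun s t ht => ?_
  have hms : MeasurableSet (Set.pi (s : Set ℤ) t) :=
    MeasurableSet.pi s.countable_toSet fun i _ => ht i
  rw [Measure.map_apply (measurable_upd x) hms]
  by_cases hx : x ∈ s
  · have e1 : (fun sξ : (ℕ → Bool) × (ℤ → ℕ → Bool) => Function.update sξ.2 x sξ.1) ⁻¹'
        (Set.pi (s : Set ℤ) t) = (t x) ×ˢ (Set.pi ((s.erase x : Finset ℤ) : Set ℤ) t) := by
      ext ⟨a, ξ⟩
      simp only [Set.mem_preimage, Set.mem_pi, Set.mem_prod, Finset.mem_coe, Finset.mem_erase]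
      constructor
      · intro h
        refine ⟨by simpa using h x hx, fun i hi => ?_⟩
        simpa [Function.update_of_ne hi.1] using h i hi.2
      · rintro ⟨h1, h2⟩ i hi
        by_cases hix : i = x
        · subst hix; simpa using h1
        · rw [Function.update_of_ne hix]
          exact h2 i ⟨hix, hi⟩
    rw [e1, Measure.prod_prod, PP, Measure.infinitePi_pi _ (fun i _ => ht i),
      Finset.mul_prod_erase s (fun i => W (t i)) hx]
  · have e1 : (fun sξ : (ℕ → Bool) × (ℤ → ℕ → Bool) => Function.update sξ.2 x sξ.1) ⁻¹'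
        (Set.pi (s : Set ℤ) t) = Set.univ ×ˢ (Set.pi (s : Set ℤ) t) := by
      ext ⟨a, ξ⟩
      simp only [Set.mem_preimage, Set.mem_pi, Set.mem_prod, Finset.mem_coe, Set.mem_univ, true_and]
      refine forall₂_congr fun i hi => ?_
      rw [Function.update_of_ne (by rintro rfl; exact hx hi)]
    rw [e1, Measure.prod_prod, measure_univ, one_mul, PP, Measure.infinitePi_pi _ (fun i _ => ht i)]

/-- independence of the stack at `x` from the other stacks -/
lemma PP_inter (W : Measure (ℕ → Bool)) [IsProbabilityMeasure W] (x : ℤ) (A : Set (ℕ → Bool))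
    (hA : MeasurableSet A) (B : Set (ℤ → ℕ → Bool)) (hB : MeasurableSet B)
    (hBx : ∀ ξ s, Function.update ξ x s ∈ B ↔ ξ ∈ B) :
    PP W ({ξ | ξ x ∈ A} ∩ B) = W A * PP W B := by
  have hms : MeasurableSet ({ξ : ℤ → ℕ → Bool | ξ x ∈ A} ∩ B) :=
    (hA.preimage (measurable_pi_apply x)).inter hB
  conv_lhs => rw [← map_upd W x]
  rw [Measure.map_apply (measurable_upd x) hms]
  have e1 : (fun sξ : (ℕ → Bool) × (ℤ → ℕ → Bool) => Function.update sξ.2 x sξ.1) ⁻¹'
      ({ξ : ℤ → ℕ → Bool | ξ x ∈ A} ∩ B) = A ×ˢ B := by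
    ext ⟨a, ξ⟩
    simp [hBx]
  rw [e1, Measure.prod_prod]

lemma iter_update (ξ : ℤ → ℕ → Bool) (s : ℕ → Bool) (n : ℕ) : ∀ (x y : ℤ) (k : ℕ), y ≤ x →
    iter (Function.update ξ y s) x n k = iter ξ x n k := by
  induction n with
  | zero => intro x y k _; rfl
  | succ n ih =>
    intro x y k hyx
    rw [iter_succ, iter_succ, Function.update_of_ne (by omega)]
    congr 1
    funext l
    exact ih (x + 1) y l (by omega)

lemma measurableSet_iter (n : ℕ) : ∀ (x : ℤ) (k l : ℕ),
    MeasurableSet {ξ : ℤ → ℕ → Bool | iter ξ x n k = some l} := by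
  induction n with
  | zero => intro x k l; simp only [iter_zero]; exact MeasurableSet.const _
  | succ n ih =>
    intro x k l
    have : {ξ : ℤ → ℕ → Bool | iter ξ x (n + 1) k = some l}
        = ⋃ j : ℕ, ({ξ : ℤ → ℕ → Bool | ξ (x + 1) ∈ {s | Fr s k j}} ∩
          {ξ | iter ξ (x + 1) n j = some l}) := by
      ext ξ
      simp only [Set.mem_ofPred_eq, iter_succ_eq_some, Set.mem_iUnion, Set.mem_inter_iff]
    rw [this]
    exact MeasurableSet.iUnion fun j =>
      ((measurableSet_Fr k j).preimage (measurable_pi_apply _)).inter (ih _ _ _)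

/-- law of the branching process jointly with an event that depends on higher levels only -/
lemma PP_iter (W : Measure (ℕ → Bool)) [IsProbabilityMeasure W] (n : ℕ) :
    ∀ (x : ℤ) (k l : ℕ) (B : Set (ℤ → ℕ → Bool)), MeasurableSet B →
      (∀ ξ s, ∀ y ≤ x + n, Function.update ξ y s ∈ B ↔ ξ ∈ B) →
      PP W ({ξ | iter ξ x n k = some l} ∩ B) = Qn (piW W) n k l * PP W B := by
  induction n with
  | zero =>
    intro x k l B _ _
    simp only [iter_zero, Option.some.injEq, Qn_zero]
    by_cases h : k = l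
    · simp [h]
    · simp [h]
  | succ n ih =>
    intro x k l B hB hBx
    have e1 : {ξ : ℤ → ℕ → Bool | iter ξ x (n + 1) k = some l} ∩ B
        = ⋃ j : ℕ, ({ξ : ℤ → ℕ → Bool | ξ (x + 1) ∈ {s | Fr s k j}} ∩
          ({ξ | iter ξ (x + 1) n j = some l} ∩ B)) := by
      ext ξ
      simp only [Set.mem_ofPred_eq, iter_succ_eq_some, Set.mem_iUnion, Set.mem_inter_iff]
      constructor
      · rintro ⟨⟨j, h1, h2⟩, h3⟩; exact ⟨j, h1, h2, h3⟩
      · rintro ⟨j, h1, h2, h3⟩; exact ⟨⟨j, h1, h2⟩, h3⟩
    rw [e1, measure_iUnion]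
    · rw [Qn_succ, ← ENNReal.tsum_mul_right]
      refine tsum_congr fun j => ?_
      rw [PP_inter W (x + 1) _ (measurableSet_Fr k j) _ ((measurableSet_iter n _ _ _).inter hB),
        ih (x + 1) j l B hB]
      · rw [← mul_assoc]; rfl
      · intro ξ s y hy
        exact hBx ξ s y (by push_cast; linarith)
      · intro ξ s
        simp only [Set.mem_inter_iff, Set.mem_ofPred_eq]
        rw [iter_update ξ s n (x + 1) (x + 1) j le_rfl, hBx ξ s (x + 1) (by push_cast; omega)]
    · intro a b hab
      rw [Function.onFun, Set.disjoint_left]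
      rintro ξ ⟨h1, -⟩ ⟨h2, -⟩
      exact hab (Fr_unique h1 h2)
    · intro j
      exact ((measurableSet_Fr k j).preimage (measurable_pi_apply _)).inter
        ((measurableSet_iter n _ _ _).inter hB)

end Pool.Agent.MP_3aae7f_pr
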