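import Pool.Agent.Lib.MP_3aae7f_pr.CritDefs
import Pool.Agent.Lib.MP_3aae7f_pr.CritTail
import Pool.Agent.Lib.MP_3aae7f_pr.Env

/-!
The coins at one site: existence, law, and the parameters `ρ`, `ν`.
-/

open MeasureTheory ProbabilityTheory
open scoped ENNReal

namespace Pool.Agent.MP_3aae7f_pr

variable {N : ℕ} {K : Fin N → Fin N → ℝ} {p η : Fin N → ℝ}

/-! ### existence -/

section existence

/-- discrete law on `Fin N` -/
noncomputable def dl (w : Fin N → ℝ) : Measure (Fin N) :=
  ∑ j, ENNReal.ofReal (w j) • Measure.dirac j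

lemma dl_apply (w : Fin N → ℝ) (a : Fin N) : dl w {a} = ENNReal.ofReal (w a) := by
  classical
  unfold dl
  rw [Measure.finsetSum_apply]
  simp only [Measure.smul_apply, smul_eq_mul]
  rw [Finset.sum_eq_single a]
  · simp
  · intro b _ hb
    rw [Measure.dirac_apply' _ (measurableSet_singleton a)]
    simp [hb]
  · simp

lemma dl_univ (w : Fin N → ℝ) (hw : ∀ i, 0 ≤ w i) (h1 : ∑ i, w i = 1) :
    IsProbabilityMeasure (dl w) := by
  constructor
  unfold dl
  rw [Measure.finsetSum_apply]
  simp only [Measure.smul_apply, smul_eq_mul, measure_univ, mul_one]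
  rw [← ENNReal.ofReal_sum_of_nonneg fun i _ => hw i, h1, ENNReal.ofReal_one]

/-- law of one coin -/
noncomputable def bl (c : ℝ) : Measure Bool :=
  ENNReal.ofReal c • Measure.dirac true + ENNReal.ofReal (1 - c) • Measure.dirac false

lemma bl_apply (c : ℝ) (b : Bool) : bl c {b} = ENNReal.ofReal (if b = true then c else 1 - c) := by
  unfold bl
  cases b <;> simp

lemma bl_univ (c : ℝ) (h0 : 0 ≤ c) (h1 : c ≤ 1) : IsProbabilityMeasure (bl c) := by
  constructor
  unfold bl
  simp only [Measure.add_apply, Measure.smul_apply, smul_eq_mul, measure_univ, mul_one]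
  rw [← ENNReal.ofReal_add h0 (by linarith)]
  simp

/-- initial law and transition laws -/
def wt (K : Fin N → Fin N → ℝ) (η : Fin N → ℝ) : Option (Fin N) → Fin N → ℝ
  | none => η
  | some i => K i

/-- the chain driven by random maps -/
def ch (ζ : ℕ → (Option (Fin N) → Fin N) × (Fin N → Bool)) : ℕ → Fin N
  | 0 => (ζ 0).1 none
  | j + 1 => (ζ (j + 1)).1 (some (ch ζ j))

theorem exists_coinStack (hm : IsCookieModel K p η) :
    ∃ (Ω : Type) (_ : MeasurableSpace Ω) (P : Measure Ω) (_ : IsProbabilityMeasure P)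
      (R : ℕ → Ω → Fin N) (B : ℕ → Ω → Bool), IsCoinStack K p η P R B := by
  classical
  have hd : ∀ o, IsProbabilityMeasure (dl (wt K η o)) := fun o => by
    cases o with
    | none => exact dl_univ _ hm.η_nonneg hm.η_sum
    | some i => exact dl_univ _ (hm.K_nonneg i) (hm.K_sum i)
  have hb : ∀ i, IsProbabilityMeasure (bl (p i)) := fun i => bl_univ _ (hm.p_pos i).le (hm.p_lt i).le
  set m : Measure ((Option (Fin N) → Fin N) × (Fin N → Bool)) :=
    (Measure.pi fun o => dl (wt K η o)).prod (Measure.pi fun i => bl (p i)) with hmdef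
  have hch : ∀ j, Measurable fun ζ : ℕ → (Option (Fin N) → Fin N) × (Fin N → Bool) => ch ζ j := by
    intro j
    induction j with
    | zero =>
      exact (measurable_pi_apply none).comp (measurable_fst.comp (measurable_pi_apply 0))
    | succ j ih =>
      have h1 : Measurable fun x : (Option (Fin N) → Fin N) × Fin N => x.1 (some x.2) :=
        measurable_from_prod_countable_left fun y => measurable_pi_apply (some y)
      exact h1.comp ((measurable_fst.comp (measurable_pi_apply (j + 1))).prodMk ih)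
  refine ⟨ℕ → (Option (Fin N) → Fin N) × (Fin N → Bool), inferInstance,
    Measure.infinitePi fun _ : ℕ => m, inferInstance, fun j ζ => ch ζ j,
    fun j ζ => (ζ j).2 (ch ζ j), hch, fun j => ?_, fun n r b => ?_⟩
  · have h1 : Measurable fun x : (Fin N → Bool) × Fin N => x.1 x.2 :=
      measurable_from_prod_countable_left fun y => measurable_pi_apply y
    exact h1.comp ((measurable_snd.comp (measurable_pi_apply j)).prodMk (hch j))
  · set pr : ℕ → Option (Fin N) := fun j => if j = 0 then none else some (r (j - 1)) with hpr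
    have e1 : {ζ : ℕ → (Option (Fin N) → Fin N) × (Fin N → Bool) |
        ∀ j ≤ n, ch ζ j = r j ∧ (ζ j).2 (ch ζ j) = b j} =
        Set.pi (Finset.range (n + 1) : Set ℕ) (fun j => {x | x.1 (pr j) = r j} ∩ {x | x.2 (r j) = b j}) := by
      ext ζ
      simp only [Set.mem_ofPred_eq, Set.mem_pi, Finset.coe_range, Set.mem_Iio, Set.mem_inter_iff]
      constructor
      · intro hh j hj
        obtain ⟨h1, h2⟩ := hh j (by omega)
        refine ⟨?_, by rw [← h1]; exact h2.trans rfl⟩
        cases j with
        | zero => exact h1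
        | succ j =>
          have h3 := (hh j (by omega)).1
          rw [← h1]
          change (ζ (j + 1)).1 (some (r j)) = (ζ (j + 1)).1 (some (ch ζ j))
          rw [h3]
      · intro hh
        have key : ∀ j ≤ n, ch ζ j = r j := by
          intro j
          induction j with
          | zero => intro _; exact (hh 0 (by omega)).1
          | succ j ih =>
            intro hj
            have h3 := ih (by omega)
            have h4 := (hh (j + 1) (by omega)).1
            change (ζ (j + 1)).1 (some (ch ζ j)) = r (j + 1)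
            rw [h3]
            exact h4
        intro j hj
        exact ⟨key j hj, by rw [key j hj]; exact (hh j (by omega)).2⟩
    have hms1 : ∀ (o : Option (Fin N)) (a : Fin N),
        MeasurableSet {x : (Option (Fin N) → Fin N) × (Fin N → Bool) | x.1 o = a} := fun o a =>
      (measurableSet_singleton a).preimage ((measurable_pi_apply o).comp measurable_fst)
    have hms2 : ∀ (i : Fin N) (a : Bool),
        MeasurableSet {x : (Option (Fin N) → Fin N) × (Fin N → Bool) | x.2 i = a} := fun i a =>
      (measurableSet_singleton a).preimage ((measurable_pi_apply i).comp measurable_snd)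
    rw [e1, Measure.infinitePi_pi _ fun j _ => (hms1 _ _).inter (hms2 _ _)]
    have e2 : ∀ j, m ({x | x.1 (pr j) = r j} ∩ {x | x.2 (r j) = b j}) =
        ENNReal.ofReal (wt K η (pr j) (r j)) * qq p (b j) (r j) := by
      intro j
      have e3 : ({x : (Option (Fin N) → Fin N) × (Fin N → Bool) | x.1 (pr j) = r j} ∩
          {x | x.2 (r j) = b j}) = ((fun f => f (pr j)) ⁻¹' {r j}) ×ˢ ((fun f => f (r j)) ⁻¹' {b j}) := by
        ext x; simp
      rw [e3, hmdef, Measure.prod_prod,
        (measurePreserving_eval (fun o => dl (wt K η o)) (pr j)).measure_preimage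
          (measurableSet_singleton _).nullMeasurableSet,
        (measurePreserving_eval (fun i => bl (p i)) (r j)).measure_preimage
          (measurableSet_singleton _).nullMeasurableSet, dl_apply, bl_apply]
      rfl
    simp_rw [e2]
    rw [Finset.prod_mul_distrib]
    have hq : ∏ j ∈ Finset.range (n + 1), qq p (b j) (r j) =
        ENNReal.ofReal (∏ j ∈ Finset.range (n + 1), if b j = true then p (r j) else 1 - p (r j)) := by
      rw [ENNReal.ofReal_prod_of_nonneg]
      · rfl
      · intro j _
        split_ifs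
        · exact (hm.p_pos _).le
        · linarith [hm.p_lt (r j)]
    have hw : ∏ j ∈ Finset.range (n + 1), ENNReal.ofReal (wt K η (pr j) (r j)) =
        ENNReal.ofReal (η (r 0) * ∏ j ∈ Finset.range n, K (r j) (r (j + 1))) := by
      rw [Finset.prod_range_succ', mul_comm, ENNReal.ofReal_mul (hm.η_nonneg _),
        ENNReal.ofReal_prod_of_nonneg fun j _ => hm.K_nonneg _ _]
      rfl
    rw [hq, hw, ← ENNReal.ofReal_mul]
    exact mul_nonneg (hm.η_nonneg _) (Finset.prod_nonneg fun j _ => hm.K_nonneg _ _)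

end existence

/-! ### the law of the coins -/

namespace IsCoinStack

variable {Ω : Type*} [MeasurableSpace Ω] {P : Measure Ω} {R : ℕ → Ω → Fin N} {B : ℕ → Ω → Bool}

lemma measurable_Rs (h : IsCoinStack K p η P R B) : Measurable (fun ω (j : ℕ) => R j ω) :=
  measurable_pi_lambda _ h.measurable_R

lemma measurable_Bs (h : IsCoinStack K p η P R B) : Measurable (fun ω (j : ℕ) => B j ω) :=
  measurable_pi_lambda _ h.measurable_B

lemma law_fin (h : IsCoinStack K p η P R B) (hm : IsCookieModel K p η) (n : ℕ) (r : ℕ → Fin N)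
    (b : Fin (n + 1) → Bool) :
    P {ω | (∀ j ≤ n, R j ω = r j) ∧ ∀ j : Fin (n + 1), B j ω = b j} =
      ENNReal.ofReal (η (r 0) * ∏ j ∈ Finset.range n, K (r j) (r (j + 1))) *
        ∏ j : Fin (n + 1), qq p (b j) (r j) := by
  set b' : ℕ → Bool := fun j => if hj : j < n + 1 then b ⟨j, hj⟩ else true with hb'
  have hb'j : ∀ j : Fin (n + 1), b' j = b j := fun j => dif_pos j.2
  have h1 := h.law n r b'
  have h2 : {ω | ∀ j ≤ n, R j ω = r j ∧ B j ω = b' j} =
      {ω | (∀ j ≤ n, R j ω = r j) ∧ ∀ j : Fin (n + 1), B j ω = b j} := by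
    ext ω
    simp only [Set.mem_ofPred_eq]
    constructor
    · intro hh
      refine ⟨fun j hj => (hh j hj).1, fun j => ?_⟩
      have hj := j.2
      rw [(hh j (by omega)).2, hb'j]
    · rintro ⟨h3, h4⟩ j hj
      refine ⟨h3 j hj, ?_⟩
      have := h4 ⟨j, by omega⟩
      rw [hb']
      simp only [show j < n + 1 by omega, dif_pos]
      exact this
  rw [← h2, h1, ENNReal.ofReal_mul
    (mul_nonneg (hm.η_nonneg _) (Finset.prod_nonneg fun j _ => hm.K_nonneg _ _))]
  congr 1
  rw [Finset.prod_range, ENNReal.ofReal_prod_of_nonneg]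
  · refine Finset.prod_congr rfl fun j _ => ?_
    rw [hb'j]
    rfl
  · intro j _
    split_ifs
    · exact (hm.p_pos _).le
    · linarith [hm.p_lt (r j)]

/-- the laws of the cookies and of the coins -/
lemma siteLaw [IsProbabilityMeasure P] (h : IsCoinStack K p η P R B) (hm : IsCookieModel K p η)
    [NeZero N] :
    SiteLaw K p η (P.map fun ω (j : ℕ) => R j ω) (P.map fun ω (j : ℕ) => B j ω) := by
  classical
  have hpr : IsProbabilityMeasure (P.map fun ω (j : ℕ) => R j ω) :=
    Measure.isProbabilityMeasure_map h.measurable_Rs.aemeasurable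
  have hpb : IsProbabilityMeasure (P.map fun ω (j : ℕ) => B j ω) :=
    Measure.isProbabilityMeasure_map h.measurable_Bs.aemeasurable
  have hmR : ∀ (n : ℕ) (r : ℕ → Fin N), MeasurableSet {ω | ∀ j ≤ n, R j ω = r j} := fun n r =>
    (measurableSet_cyl n r).preimage h.measurable_Rs
  have hmB : ∀ (n : ℕ) (b : Fin n → Bool), MeasurableSet {ω | ∀ j : Fin n, B j ω = b j} := fun n b => by
    have : {ω | ∀ j : Fin n, B j ω = b j} = ⋂ j : Fin n, (B j) ⁻¹' {b j} := by ext ω; simp
    rw [this]
    exact MeasurableSet.iInter fun j => h.measurable_B j (measurableSet_singleton _)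
  have hchain : ∀ (n : ℕ) (r : ℕ → Fin N), (P.map fun ω (j : ℕ) => R j ω) {e | ∀ j ≤ n, e j = r j} =
      ENNReal.ofReal (η (r 0) * ∏ j ∈ Finset.range n, K (r j) (r (j + 1))) := by
    intro n r
    rw [Measure.map_apply h.measurable_Rs (measurableSet_cyl n r)]
    have e1 : (fun ω (j : ℕ) => R j ω) ⁻¹' {e | ∀ j ≤ n, e j = r j} =
        ⋃ b : Fin (n + 1) → Bool, {ω | (∀ j ≤ n, R j ω = r j) ∧ ∀ j : Fin (n + 1), B j ω = b j} := by
      ext ω
      simp only [Set.mem_preimage, Set.mem_ofPred_eq, Set.mem_iUnion]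
      constructor
      · intro hh; exact ⟨fun j => B j ω, hh, fun j => rfl⟩
      · rintro ⟨b, hh, -⟩; exact hh
    rw [e1, measure_iUnion]
    · rw [tsum_fintype]
      simp_rw [h.law_fin hm]
      rw [← Finset.mul_sum]
      have e2 : ∑ b : Fin (n + 1) → Bool, ∏ j : Fin (n + 1), qq p (b j) (r j) =
          ∏ j : Fin (n + 1), ∑ b : Bool, qq p b (r j) := by
        rw [Finset.prod_univ_sum, Fintype.piFinset_univ]
      have e3 : ∀ i, ∑ b : Bool, qq p b i = 1 := by
        intro i
        rw [Fintype.sum_bool]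
        unfold qq
        simp only [if_true, Bool.false_eq_true, if_false]
        rw [← ENNReal.ofReal_add (hm.p_pos i).le (by linarith [hm.p_lt i])]
        simp
      rw [e2]
      simp_rw [e3]
      simp
    · intro a b hab
      rw [Function.onFun, Set.disjoint_left]
      rintro ω ⟨-, h1⟩ ⟨-, h2⟩
      apply hab
      funext j
      rw [← h1 j, ← h2 j]
    · intro b
      exact (hmR n r).inter (hmB (n + 1) b)
  refine ⟨hpr, hpb, hchain, fun m σ => ?_⟩
  cases m with
  | zero => simp
  | succ n =>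
    have hcl : {s : ℕ → Bool | ∀ j < n + 1, s j = σ j} = {s | ∀ j ≤ n, s j = σ j} := by
      ext s
      simp only [Set.mem_ofPred_eq, Nat.lt_succ_iff]
    rw [hcl, Measure.map_apply h.measurable_Bs (measurableSet_cyl n σ)]
    have e0 : ∫⁻ e, ∏ j ∈ Finset.range (n + 1), qq p (σ j) (e j) ∂(P.map fun ω (j : ℕ) => R j ω) =
        ∑ r : Fin (n + 1) → Fin N, (∏ j : Fin (n + 1), qq p (σ j) (r j)) *
          (P.map fun ω (j : ℕ) => R j ω) {e | ∀ j : Fin (n + 1), e j = r j} := by
      rw [← lintegral_first _ (n + 1) (fun r => ∏ j : Fin (n + 1), qq p (σ j) (r j))]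
      exact lintegral_congr fun e => Finset.prod_range _
    rw [e0]
    have e1 : (fun ω (j : ℕ) => B j ω) ⁻¹' {s | ∀ j ≤ n, s j = σ j} =
        ⋃ r : Fin (n + 1) → Fin N, {ω | (∀ j ≤ n, R j ω = (fun i => if hi : i < n + 1 then r ⟨i, hi⟩ else 0) j) ∧
          ∀ j : Fin (n + 1), B j ω = (fun i : Fin (n + 1) => σ i) j} := by
      ext ω
      simp only [Set.mem_preimage, Set.mem_ofPred_eq, Set.mem_iUnion]
      constructor
      · intro hh
        refine ⟨fun j => R j ω, fun j hj => ?_, fun j => hh j (by have := j.2; omega)⟩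
        simp [show j < n + 1 by omega]
      · rintro ⟨r, -, hh⟩ j hj
        exact hh ⟨j, by omega⟩
    rw [e1, measure_iUnion]
    · rw [tsum_fintype]
      refine Finset.sum_congr rfl fun r _ => ?_
      rw [h.law_fin hm n (fun i => if hi : i < n + 1 then r ⟨i, hi⟩ else 0) (fun i : Fin (n + 1) => σ i),
        mul_comm]
      congr 1
      · refine Finset.prod_congr rfl fun j _ => ?_
        rw [dif_pos j.2]
      · rw [← hchain n (fun i => if hi : i < n + 1 then r ⟨i, hi⟩ else 0)]
        congr 1
        ext e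
        simp only [Set.mem_ofPred_eq]
        constructor
        · intro hh j
          have hj := j.2
          rw [hh j (by omega), dif_pos hj]
        · intro hh j hj
          have := hh ⟨j, by omega⟩
          simp only [show j < n + 1 by omega, dif_pos]
          exact this
    · intro a b hab
      rw [Function.onFun, Set.disjoint_left]
      rintro ω ⟨h1, -⟩ ⟨h2, -⟩
      apply hab
      funext j
      have hj := j.2
      have h3 := h1 j (by omega)
      have h4 := h2 j (by omega)
      rw [h3] at h4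
      simp only [hj, dif_pos] at h4
      exact h4
    · intro r
      exact (hmR n _).inter (hmB (n + 1) _)

end IsCoinStack

/-! ### the number of right steps before the `n`-th left step -/

lemma rightBefore_eq {s : ℕ → Bool} {n l : ℕ} (h : Fr s n l) : rightBefore s n = l := by
  obtain ⟨h1, h2, h3⟩ := h
  have e : {j : ℕ | s j = true ∧ ((Finset.range j).filter fun i => s i = false).card < n} =
      (((Finset.range (n + l)).filter fun j => s j = true : Finset ℕ) : Set ℕ) := by
    ext j
    simp only [Set.mem_ofPred_eq, Finset.coe_filter, Finset.mem_range]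
    constructor
    · rintro ⟨hj1, hj2⟩
      refine ⟨?_, hj1⟩
      by_contra hcon
      have h4 : nF s (n + l) ≤ nF s j := nF_mono s (by omega)
      have h5 : nF s j < n := hj2
      omega
    · rintro ⟨hj1, hj2⟩
      refine ⟨hj2, ?_⟩
      rcases h3 with h3 | h3
      · omega
      · have h4 : nF s j ≤ nF s (n + l - 1) := nF_mono s (by omega)
        have h5 : nF s (n + l - 1 + 1) = nF s (n + l - 1) + 1 := by
          rw [nF_succ]; simp [h3]
        rw [show n + l - 1 + 1 = n + l by omega] at h5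
        have h6 : ((Finset.range j).filter fun i => s i = false).card = nF s j := rfl
        omega
  unfold rightBefore
  rw [e, Set.ncard_coe_finset]
  exact h1

/-- measurable version -/
noncomputable def Yn (n : ℕ) (s : ℕ → Bool) : ℕ := (Fm s n).getD 0

lemma measurable_Yn (n : ℕ) : Measurable (Yn n) := by
  refine measurable_to_countable' fun l => ?_
  have h0 : ∀ l, l ≠ 0 → Yn n ⁻¹' {l} = {s | Fr s n l} := by
    intro l hl
    ext s
    simp only [Set.mem_preimage, Set.mem_singleton_iff, Set.mem_ofPred_eq, Yn, ← Fm_eq_some]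
    cases h : Fm s n with
    | none => simp [Ne.symm hl]
    | some m => simp
  by_cases hl : l = 0
  · subst hl
    have e : Yn n ⁻¹' {0} = (⋃ m : ℕ, {s | Fr s n (m + 1)})ᶜ := by
      ext s
      have h2 : ∀ m, m ≠ 0 → (Yn n s = m ↔ Fr s n m) := fun m hm => by
        have := Set.ext_iff.1 (h0 m hm) s
        simpa using this
      simp only [Set.mem_preimage, Set.mem_singleton_iff, Set.mem_compl_iff, Set.mem_iUnion,
        Set.mem_ofPred_eq, not_exists]
      constructor
      · intro hs m hm
        have h3 := (h2 (m + 1) (by omega)).2 hm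
        omega
      · intro hs
        by_contra hne
        obtain ⟨m, hm⟩ := Nat.exists_eq_succ_of_ne_zero hne
        exact hs m ((h2 (m + 1) (by omega)).1 hm)
    rw [e]
    exact (MeasurableSet.iUnion fun m => measurableSet_Fr n (m + 1)).compl
  · rw [h0 l hl]
    exact measurableSet_Fr n l

lemma Yn_eq {s : ℕ → Bool} {n l : ℕ} (h : Fr s n l) : Yn n s = l := by
  unfold Yn
  rw [Fm_eq_some.2 h]
  rfl

namespace Crit

variable {ρ : Measure (ℕ → Fin N)} {W : Measure (ℕ → Bool)} {ε : ℝ}

lemma piW_rk (h : SiteLaw K p η ρ W) [NeZero N] (hη : ∀ i, 0 ≤ η i) (hηs : ∑ i, η i = 1)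
    (hP : Pos K p) : piW W = kr (rk K p η) := by
  funext k l
  rw [piW_eq h hη hηs hP]
  rfl

lemma ae_Fr (h : SiteLaw K p η ρ W) [NeZero N] (hη : ∀ i, 0 ≤ η i) (hηs : ∑ i, η i = 1)
    (hE : Ell K p ε) (n : ℕ) : ∀ᵐ s ∂W, ∃ l, Fr s n l := by
  have hprob := h.probW
  have h1 : W (⋃ l, {s | Fr s n l}) = 1 := by
    rw [measure_iUnion]
    · have h2 : ∀ l, W {s | Fr s n l} = ENNReal.ofReal (rk K p η n l) := fun l => by
        have := congrFun (congrFun (piW_rk h hη hηs hE.toPos) n) l
        exact this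
      simp_rw [h2]
      have h3 := hasSum_rk hE η (tame_const hE.ε0 1) n
      simp only [mul_one] at h3
      rw [← ENNReal.ofReal_tsum_of_nonneg (fun l => rk_nonneg hE.toPos hη n l) h3.summable, h3.tsum_eq]
      have h4 := GG_one hE n
      rw [GG] at h4
      rw [h4]
      simp [hηs]
    · intro a b hab
      rw [Function.onFun, Set.disjoint_left]
      intro s hs1 hs2
      exact hab (Fr_unique hs1 hs2)
    · exact fun l => measurableSet_Fr n l
  have h2 : ∀ᵐ s ∂W, s ∈ ⋃ l, {s | Fr s n l} := by
    rw [ae_iff]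
    have h3 : {a : ℕ → Bool | a ∉ ⋃ l, {s | Fr s n l}} = (⋃ l, {s | Fr s n l})ᶜ := rfl
    rw [h3, prob_compl_eq_zero_iff (MeasurableSet.iUnion fun l => measurableSet_Fr n l)]
    exact h1
  filter_upwards [h2] with s hs
  simpa using hs

lemma map_Yn (h : SiteLaw K p η ρ W) [NeZero N] (hη : ∀ i, 0 ≤ η i) (hηs : ∑ i, η i = 1)
    (hE : Ell K p ε) (n l : ℕ) : (W.map (Yn n)) {l} = ENNReal.ofReal (rk K p η n l) := by
  rw [Measure.map_apply (measurable_Yn n) (measurableSet_singleton l)]
  have h1 : W (Yn n ⁻¹' {l}) = W {s | Fr s n l} := by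
    apply measure_congr
    filter_upwards [ae_Fr h hη hηs hE n] with s ⟨m, hm⟩
    apply propext
    change Yn n s = l ↔ Fr s n l
    rw [Yn_eq hm]
    constructor
    · rintro rfl; exact hm
    · intro hl; exact Fr_unique hm hl
  rw [h1]
  exact congrFun (congrFun (piW_rk h hη hηs hE.toPos) n) l

lemma integral_Yn (h : SiteLaw K p η ρ W) [NeZero N] (hη : ∀ i, 0 ≤ η i) (hηs : ∑ i, η i = 1)
    (hE : Ell K p ε) (n : ℕ) {f : ℕ → ℝ} (hf : Tame ε f) :
    Integrable (fun s => f (Yn n s)) W ∧ ∫ s, f (Yn n s) ∂W = ∑' l, rk K p η n l * f l := by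
  have hprob := h.probW
  have hint : Integrable f (W.map (Yn n)) := by
    refine ⟨(measurable_of_countable f).aestronglyMeasurable, ?_⟩
    rw [hasFiniteIntegral_iff_norm, lintegral_countable']
    have h1 : Tame ε fun l => |f l| := by
      obtain ⟨C, hC⟩ := hf
      exact ⟨C, fun l => by rw [abs_abs]; exact hC l⟩
    have h2 := (hasSum_rk hE η h1 n).summable
    have h3 : ∀ l, ENNReal.ofReal ‖f l‖ * (W.map (Yn n)) {l} = ENNReal.ofReal (rk K p η n l * |f l|) := by
      intro l
      rw [map_Yn h hη hηs hE, Real.norm_eq_abs, mul_comm,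
        ← ENNReal.ofReal_mul (rk_nonneg hE.toPos hη n l)]
    simp_rw [h3]
    exact h2.tsum_ofReal_lt_top
  constructor
  · exact hint.comp_measurable (measurable_Yn n)
  · have h1 : ∫ s, f (Yn n s) ∂W = ∫ l, f l ∂(W.map (Yn n)) := by
      rw [integral_map (measurable_Yn n).aemeasurable (measurable_of_countable f).aestronglyMeasurable]
    rw [h1, integral_countable hint]
    refine tsum_congr fun l => ?_
    rw [Measure.real, map_Yn h hη hηs hE, ENNReal.toReal_ofReal (rk_nonneg hE.toPos hη n l), smul_eq_mul]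

end Crit

namespace IsCoinStack

variable {Ω : Type*} [MeasurableSpace Ω] {P : Measure Ω} {R : ℕ → Ω → Fin N} {B : ℕ → Ω → Bool} {ε : ℝ}

open Crit

lemma ae_rightBefore [IsProbabilityMeasure P] (h : IsCoinStack K p η P R B) (hm : IsCookieModel K p η)
    [NeZero N] (hE : Ell K p ε) (n : ℕ) :
    ∀ᵐ ω ∂P, rightBefore (fun j => B j ω) n = Yn n (fun j => B j ω) := by
  have h1 := ae_Fr (h.siteLaw hm) hm.η_nonneg hm.η_sum hE n
  filter_upwards [ae_of_ae_map h.measurable_Bs.aemeasurable h1] with ω ⟨l, hl⟩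
  rw [rightBefore_eq hl, Yn_eq hl]

lemma integral_eq [IsProbabilityMeasure P] (h : IsCoinStack K p η P R B) (hm : IsCookieModel K p η)
    [NeZero N] (hE : Ell K p ε) (n : ℕ) {f : ℕ → ℝ} (hf : Tame ε f) :
    Integrable (fun ω => f (rightBefore (fun j => B j ω) n)) P ∧
      ∫ ω, f (rightBefore (fun j => B j ω) n) ∂P = ∑' l, rk K p η n l * f l := by
  obtain ⟨h1, h2⟩ := integral_Yn (h.siteLaw hm) hm.η_nonneg hm.η_sum hE n hf
  have h3 : (fun ω => f (rightBefore (fun j => B j ω) n)) =ᵐ[P] fun ω => f (Yn n fun j => B j ω) := by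
    filter_upwards [h.ae_rightBefore hm hE n] with ω hω
    rw [hω]
  constructor
  · exact (h1.comp_measurable h.measurable_Bs).congr h3.symm
  · rw [integral_congr_ae h3, ← h2]
    exact (integral_map (f := fun s => f (Yn n s)) h.measurable_Bs.aemeasurable
      ((measurable_of_countable f).comp (measurable_Yn n)).aestronglyMeasurable).symm

/-- the parameters of the coins -/
theorem hasParams [IsProbabilityMeasure P] (h : IsCoinStack K p η P R B) (hm : IsCookieModel K p η)
    [NeZero N] (hE : Ell K p ε) {a b : ℝ} (hb : BLP (rk K p η) a b) : HasParams P B a b := by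
  have hid : Tame ε fun l : ℕ => (l : ℝ) := by simpa using tame_pow hE.ε0 1
  have hsq : Tame ε fun l : ℕ => (l : ℝ) ^ 2 := tame_pow hE.ε0 2
  have hL2 : ∀ n, MemLp (fun ω => (rightBefore (fun j => B j ω) n : ℝ)) 2 P := fun n => by
    rw [memLp_two_iff_integrable_sq (h.integral_eq hm hE n hid).1.aestronglyMeasurable]
    exact (h.integral_eq hm hE n hsq).1
  have hs1 : ∀ n, HasSum (fun l => rk K p η n l) 1 := hb.sum
  have hm1 : ∀ n : ℕ, (∫ ω, (rightBefore (fun j => B j ω) n : ℝ) ∂P) - n =
      ∑' l : ℕ, rk K p η n l * ((l : ℝ) - n) := by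
    intro n
    rw [(h.integral_eq hm hE n hid).2]
    have h1 := (hasSum_rk hE η hid n).sub ((hs1 n).mul_right (n : ℝ))
    rw [one_mul] at h1
    have h2 := h1.tsum_eq
    rw [← (hasSum_rk hE η hid n).tsum_eq] at h2
    rw [← h2]
    exact tsum_congr fun l => by ring
  have hm2 : ∀ n : ℕ, Var[fun ω => (rightBefore (fun j => B j ω) n : ℝ); P] =
      ∑' l : ℕ, rk K p η n l * ((l : ℝ) - n) ^ 2 - (∑' l : ℕ, rk K p η n l * ((l : ℝ) - n)) ^ 2 := by
    intro n
    rw [variance_eq_sub (hL2 n), ← hm1 n]
    have h1 : P[(fun ω => (rightBefore (fun j => B j ω) n : ℝ)) ^ 2] = ∑' l : ℕ, rk K p η n l * (l : ℝ) ^ 2 :=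
      (h.integral_eq hm hE n hsq).2
    have h2 := (h.integral_eq hm hE n hid).2
    have h3 := ((hasSum_rk hE η hsq n).sub ((hasSum_rk hE η hid n).mul_right (2 * (n : ℝ)))).add
      ((hs1 n).mul_right ((n : ℝ) ^ 2))
    have h4 : ∑' l : ℕ, rk K p η n l * ((l : ℝ) - n) ^ 2 = ∑' l : ℕ, rk K p η n l * (l : ℝ) ^ 2 -
        (∑' l : ℕ, rk K p η n l * (l : ℝ)) * (2 * n) + n ^ 2 := by
      rw [(hasSum_rk hE η hsq n).tsum_eq, (hasSum_rk hE η hid n).tsum_eq]
      rw [one_mul] at h3
      rw [← h3.tsum_eq]
      exact tsum_congr fun l => by ring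
    rw [h4, h1, h2]
    ring
  obtain ⟨C, hC⟩ := hb.mean
  obtain ⟨D, hD⟩ := hb.var
  have hsqrt : Filter.Tendsto (fun n : ℕ => Real.sqrt n) Filter.atTop Filter.atTop :=
    Real.tendsto_sqrt_atTop.comp tendsto_natCast_atTop_atTop
  have t1 : Filter.Tendsto (fun n : ℕ => ∑' l : ℕ, rk K p η n l * ((l : ℝ) - n)) Filter.atTop (nhds a) := by
    rw [tendsto_iff_norm_sub_tendsto_zero]
    refine squeeze_zero' (Filter.Eventually.of_forall fun n => norm_nonneg _) ?_
      (hsqrt.const_div_atTop C)
    filter_upwards [Filter.eventually_ge_atTop 1] with n hn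
    rw [Real.norm_eq_abs]
    exact hC n hn
  refine ⟨hL2, ?_, ?_⟩
  · simp_rw [hm1]
    exact t1
  · simp_rw [hm2]
    have t2 : Filter.Tendsto (fun n : ℕ => (∑' l : ℕ, rk K p η n l * ((l : ℝ) - n) ^ 2) / n)
        Filter.atTop (nhds b) := by
      rw [tendsto_iff_norm_sub_tendsto_zero]
      refine squeeze_zero' (Filter.Eventually.of_forall fun n => norm_nonneg _) ?_
        (hsqrt.const_div_atTop D)
      filter_upwards [Filter.eventually_ge_atTop 1] with n hn
      have hn0 : (0 : ℝ) < n := by exact_mod_cast hn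
      have hs0 : 0 < Real.sqrt n := Real.sqrt_pos.2 hn0
      have e : (∑' l : ℕ, rk K p η n l * ((l : ℝ) - n) ^ 2) / n - b =
          (∑' l : ℕ, rk K p η n l * ((l : ℝ) - n) ^ 2 - b * n) / n := by
        rw [sub_div, mul_div_assoc, div_self hn0.ne', mul_one]
      rw [e, Real.norm_eq_abs, abs_div, abs_of_pos hn0, div_le_div_iff₀ hn0 hs0]
      calc |∑' l : ℕ, rk K p η n l * ((l : ℝ) - n) ^ 2 - b * n| * Real.sqrt n
          ≤ D * Real.sqrt n * Real.sqrt n := mul_le_mul_of_nonneg_right (hD n hn) hs0.le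
        _ = D * n := by rw [mul_assoc, Real.mul_self_sqrt hn0.le]
    have t3 : Filter.Tendsto (fun n : ℕ => (∑' l : ℕ, rk K p η n l * ((l : ℝ) - n)) ^ 2 / n)
        Filter.atTop (nhds 0) :=
      (t1.pow 2).div_atTop tendsto_natCast_atTop_atTop
    have t4 := t2.sub t3
    rw [sub_zero] at t4
    refine t4.congr fun n => ?_
    rw [sub_div]

end IsCoinStack

end Pool.Agent.MP_3aae7f_pr
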