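import Pool.Agent.Lib.MP_3aae7f_pr.Defs

/-!
Definitions for the critical case: the coins at one site and the parameters `ρ`, `ν`.
-/

open MeasureTheory ProbabilityTheory

namespace Pool.Agent.MP_3aae7f_pr

/-- `(R, B)` is the stack of cookies `R 0, R 1, …` at one site together with its coins `B 0, B 1, …`
(`true` = step to the right): `R` is a Markov chain with initial law `η` and transition matrix `K`,
and given `R` the coins are independent with `P (B j = true) = p (R j)`. The `j`-th coin is the
direction of the `j`-th step made from the site. -/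
structure IsCoinStack {N : ℕ} (K : Fin N → Fin N → ℝ) (p η : Fin N → ℝ) {Ω : Type*}
    [MeasurableSpace Ω] (P : Measure Ω) (R : ℕ → Ω → Fin N) (B : ℕ → Ω → Bool) : Prop where
  measurable_R : ∀ j, Measurable (R j)
  measurable_B : ∀ j, Measurable (B j)
  law : ∀ (n : ℕ) (r : ℕ → Fin N) (b : ℕ → Bool), P {ω | ∀ j ≤ n, R j ω = r j ∧ B j ω = b j}
    = ENNReal.ofReal ((η (r 0) * ∏ j ∈ Finset.range n, K (r j) (r (j + 1))) *
        ∏ j ∈ Finset.range (n + 1), if b j = true then p (r j) else 1 - p (r j))

/-- the number of steps to the right made before the `n`-th step to the left, if the directions of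
the successive steps are `b 0, b 1, …` -/
noncomputable def rightBefore (b : ℕ → Bool) (n : ℕ) : ℕ :=
  {j : ℕ | b j = true ∧ ((Finset.range j).filter fun i => b i = false).card < n}.ncard

/-- `ρ = lim (E[𝓔^n] - n)` and `ν = lim Var(𝓔^n) / n` for the coins `B` -/
structure HasParams {Ω : Type*} [MeasurableSpace Ω] (P : Measure Ω) (B : ℕ → Ω → Bool) (ρ ν : ℝ) :
    Prop where
  memLp : ∀ n, MemLp (fun ω => (rightBefore (fun j => B j ω) n : ℝ)) 2 P
  mean : Filter.Tendsto (fun n : ℕ => (∫ ω, (rightBefore (fun j => B j ω) n : ℝ) ∂P) - n)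
    Filter.atTop (nhds ρ)
  var : Filter.Tendsto (fun n : ℕ => Var[fun ω => (rightBefore (fun j => B j ω) n : ℝ); P] / n)
    Filter.atTop (nhds ν)

/-- `ρ` and `ν` are the parameters of the data `(η, K, p)`: coins for these data exist, and for all of
them the two limits exist and are `ρ` and `ν`. -/
structure AreParams.{u} {N : ℕ} (K : Fin N → Fin N → ℝ) (p η : Fin N → ℝ) (ρ ν : ℝ) : Prop where
  nonempty : ∃ (Ω : Type) (_ : MeasurableSpace Ω) (P : Measure Ω) (_ : IsProbabilityMeasure P)
    (R : ℕ → Ω → Fin N) (B : ℕ → Ω → Bool), IsCoinStack K p η P R B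
  limits : ∀ {Ω : Type u} [MeasurableSpace Ω] {P : Measure Ω} [IsProbabilityMeasure P]
    {R : ℕ → Ω → Fin N} {B : ℕ → Ω → Bool}, IsCoinStack K p η P R B → HasParams P B ρ ν

end Pool.Agent.MP_3aae7f_pr
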