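import Pool.Agent.Lib.MP_3aae7f_pr.CritMom
import Pool.Agent.Lib.MP_3aae7f_pr.Cookie

/-!
Critical case, one site: geometric ergodicity of the cookie seen at left arrows, and the constants.
-/

open MeasureTheory ProbabilityTheory
open scoped ENNReal

namespace Pool.Agent.MP_3aae7f_pr

namespace Crit

variable {N : ℕ} {K : Fin N → Fin N → ℝ} {p : Fin N → ℝ} {ε : ℝ}

lemma EE_add_right (h : Ell K p ε) {u : ℕ → ℝ} (hu : Tame ε u) (k : ℕ) (φ ψ : Fin N → ℝ) :
    EE K p u k (φ + ψ) = EE K p u k φ + EE K p u k ψ := by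
  funext i
  have := (hasSum_EE h hu k φ i).add (hasSum_EE h hu k ψ i)
  rw [Pi.add_apply, ← this.tsum_eq]
  unfold EE
  exact tsum_congr fun l => by rw [map_add, Pi.add_apply]; ring

lemma EE_smul_right (u : ℕ → ℝ) (c : ℝ) (k : ℕ) (φ : Fin N → ℝ) :
    EE K p u k (c • φ) = c • EE K p u k φ := by
  funext i
  simp only [Pi.smul_apply, smul_eq_mul]
  unfold EE
  rw [← tsum_mul_left]
  exact tsum_congr fun l => by rw [map_smul, Pi.smul_apply, smul_eq_mul]; ring

lemma GG_nonneg (h : Pos K p) (k : ℕ) {φ : Fin N → ℝ} (hφ : ∀ i, 0 ≤ φ i) (i : Fin N) :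
    0 ≤ GG K p k φ i :=
  tsum_nonneg fun l => by rw [one_mul]; exact V_nonneg h k l hφ i

lemma GG_sub (h : Ell K p ε) (k : ℕ) (φ ψ : Fin N → ℝ) :
    GG K p k (φ - ψ) = GG K p k φ - GG K p k ψ := by
  have h1 := EE_add_right h (tame_const h.ε0 1) k φ ((-1 : ℝ) • ψ)
  have h2 := EE_smul_right (K := K) (p := p) (fun _ => 1) (-1) k ψ
  rw [h2] at h1
  rw [sub_eq_add_neg, ← neg_one_smul ℝ ψ, GG, h1, neg_one_smul, sub_eq_add_neg]

lemma GG_const (h : Ell K p ε) (k : ℕ) (c : ℝ) : GG K p k (fun _ => c) = fun _ => c := by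
  have h1 := EE_smul_right (K := K) (p := p) (fun _ => 1) c k (fun _ => 1)
  have h2 := GG_one h k
  have e : (c • fun _ : Fin N => (1 : ℝ)) = fun _ => c := by funext i; simp
  rw [e] at h1
  rw [GG] at h2 ⊢
  rw [h1, h2, e]

lemma GG_mono (h : Ell K p ε) (k : ℕ) {φ ψ : Fin N → ℝ} (hφ : ∀ i, φ i ≤ ψ i) (i : Fin N) :
    GG K p k φ i ≤ GG K p k ψ i := by
  have := GG_nonneg h.toPos k (φ := ψ - φ) (fun j => sub_nonneg.2 (hφ j)) i
  rw [GG_sub h, Pi.sub_apply] at this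
  linarith

lemma GG_step (h : Ell K p ε) (k : ℕ) (φ : Fin N → ℝ) :
    GG K p (k + 1) φ = GG K p 1 (GG K p k φ) := by
  have h1 := GG_succ h k φ
  have h2 := GG_succ h 0 (GG K p k φ)
  rw [GG_zero] at h2
  have h3 : TT K p (GG K p (k + 1) φ - GG K p 1 (GG K p k φ)) =
      GG K p (k + 1) φ - GG K p 1 (GG K p k φ) := by
    rw [map_sub]
    conv_rhs => rw [h1, h2]
    abel
  exact sub_eq_zero.1 (TT_fixed h.toPos h3)

lemma exists_trans (h : Pos K p) (hC : ∃! C : Set (Fin N), IsClosedClass K C) :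
    ∃ j0 : Fin N, ∀ i, Relation.TransGen (fun a b => 0 < K a b) i j0 := by
  obtain ⟨C, hC1, hC2⟩ := hC
  obtain ⟨j0, hj0⟩ := hC1.1
  refine ⟨j0, fun i => ?_⟩
  obtain ⟨b, hb⟩ : ∃ b, 0 < K i b := by
    by_contra hcon
    push Not at hcon
    have h1 := h.Ks i
    have h2 : ∑ j, K i j ≤ 0 := Finset.sum_nonpos fun j _ => hcon j
    linarith
  obtain ⟨D, hD1, hD2⟩ := exists_closedClass K b
  have hDC : D = C := hC2 D hD1
  exact Relation.TransGen.head' hb (hD2 j0 (hDC ▸ hj0))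

/-- a minorisation for the cookie seen at left arrows -/
lemma doeblin (h : Ell K p ε) (hC : ∃! C : Set (Fin N), IsClosedClass K C) :
    ∃ (j0 : Fin N) (κ : ℝ), 0 < κ ∧ ∀ φ : Fin N → ℝ, (∀ i, 0 ≤ φ i) → ∀ i, κ * φ j0 ≤ GG K p 1 φ i := by
  classical
  obtain ⟨j0, hj0⟩ := exists_trans h.toPos hC
  set e : Fin N → ℝ := Pi.single j0 1 with he
  have he0 : ∀ i, 0 ≤ e i := fun i => by
    rw [he]
    by_cases hi : i = j0
    · subst hi; simp
    · simp [Pi.single_eq_of_ne hi]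
  set ψ := GG K p 1 e with hψ
  have hψ0 : ∀ i, 0 ≤ ψ i := GG_nonneg h.toPos 1 he0
  have hrec : ∀ i, ψ i = FF K p e i + TT K p ψ i := fun i => by
    have := GG_succ h 0 e
    rw [GG_zero] at this
    exact congrFun this i
  have hK := h.K0
  have hge : ∀ i, (1 - p i) * (K i j0 * 1) + p i * ∑ j, K i j * ψ j ≤ ψ i := fun i => by
    rw [hrec i, FF_apply, TT_apply]
    refine add_le_add (mul_le_mul_of_nonneg_left ?_ (by linarith [h.p1 i])) le_rfl
    have : K i j0 * 1 = K i j0 * e j0 := by rw [he, Pi.single_eq_same]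
    rw [this]
    exact Finset.single_le_sum (f := fun j => K i j * e j) (fun j _ => mul_nonneg (hK i j) (he0 j))
      (Finset.mem_univ j0)
  have hpos : ∀ i, 0 < ψ i := by
    intro i
    refine Relation.TransGen.head_induction_on (hj0 i) ?_ ?_
    · intro a ha
      have h1 := hge a
      have h2 : 0 ≤ p a * ∑ j, K a j * ψ j :=
        mul_nonneg (h.p0 a).le (Finset.sum_nonneg fun j _ => mul_nonneg (hK a j) (hψ0 j))
      have h3 : 0 < (1 - p a) * (K a j0 * 1) := by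
        have := h.p1 a
        rw [mul_one]
        exact mul_pos (by linarith) ha
      linarith
    · intro a b hab _ hb
      have h1 := hge a
      have h2 : K a b * ψ b ≤ ∑ j, K a j * ψ j :=
        Finset.single_le_sum (f := fun j => K a j * ψ j) (fun j _ => mul_nonneg (hK a j) (hψ0 j))
          (Finset.mem_univ b)
      have h3 : 0 < p a * (K a b * ψ b) := mul_pos (h.p0 a) (mul_pos hab hb)
      have h4 : p a * (K a b * ψ b) ≤ p a * ∑ j, K a j * ψ j :=
        mul_le_mul_of_nonneg_left h2 (h.p0 a).le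
      have h5 : 0 ≤ (1 - p a) * (K a j0 * 1) := by
        have := h.p1 a
        exact mul_nonneg (by linarith) (by linarith [hK a j0])
      linarith
  obtain ⟨m, -, hm⟩ := Finset.exists_min_image Finset.univ ψ ⟨j0, Finset.mem_univ j0⟩
  refine ⟨j0, ψ m, hpos m, fun φ hφ i => ?_⟩
  have h1 : ∀ j, (φ j0 • e) j ≤ φ j := by
    intro j
    rw [Pi.smul_apply, he]
    by_cases hj : j = j0
    · subst hj; simp
    · rw [Pi.single_eq_of_ne hj]; simpa using hφ j
  have h2 := GG_mono h 1 h1 i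
  have h3 := EE_smul_right (K := K) (p := p) (fun _ => 1) (φ j0) 1 e
  rw [GG, h3, Pi.smul_apply, smul_eq_mul] at h2
  have h4 : ψ m * φ j0 ≤ φ j0 * ψ i := by
    rw [mul_comm]
    exact mul_le_mul_of_nonneg_left (hm i (Finset.mem_univ i)) (hφ j0)
  exact h4.trans h2

lemma osc (h : Ell K p ε) {j0 : Fin N} {κ : ℝ}
    (hκ : ∀ φ : Fin N → ℝ, (∀ i, 0 ≤ φ i) → ∀ i, κ * φ j0 ≤ GG K p 1 φ i) (φ : Fin N → ℝ) {a b : ℝ}
    (hφ : ∀ i, a ≤ φ i ∧ φ i ≤ b) (k : ℕ) :
    ∃ a' b', a' ≤ b' ∧ b' - a' = (1 - κ) ^ k * (b - a) ∧ ∀ i, a' ≤ GG K p k φ i ∧ GG K p k φ i ≤ b' := by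
  have hab : a ≤ b := (hφ j0).1.trans (hφ j0).2
  induction k with
  | zero => exact ⟨a, b, hab, by ring, fun i => by rw [GG_zero]; exact hφ i⟩
  | succ k ih =>
    obtain ⟨a', b', h1, h2, h3⟩ := ih
    set ψ := GG K p k φ with hψ
    refine ⟨a' + κ * (ψ j0 - a'), b' - κ * (b' - ψ j0), ?_, ?_, fun i => ?_⟩
    · have h5 := hκ (ψ - fun _ => a') (fun i => by
        rw [Pi.sub_apply]; linarith [(h3 i).1]) j0
      have h6 := hκ ((fun _ => b') - ψ) (fun i => by
        rw [Pi.sub_apply]; linarith [(h3 i).2]) j0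
      rw [GG_sub h, GG_const h] at h5 h6
      simp only [Pi.sub_apply] at h5 h6
      linarith
    · rw [pow_succ]; linear_combination (1 - κ) * h2
    · have h5 := hκ (ψ - fun _ => a') (fun i => by
        rw [Pi.sub_apply]; linarith [(h3 i).1]) i
      have h6 := hκ ((fun _ => b') - ψ) (fun i => by
        rw [Pi.sub_apply]; linarith [(h3 i).2]) i
      rw [GG_sub h, GG_const h] at h5 h6
      simp only [Pi.sub_apply] at h5 h6
      rw [GG_step h]
      constructor <;> linarith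

/-- average against the stationary law -/
lemma mu_K {μ : Fin N → ℝ} (hμ : IsStationary K μ) (φ : Fin N → ℝ) :
    ∑ i, μ i * ∑ j, K i j * φ j = ∑ i, μ i * φ i := by
  simp_rw [Finset.mul_sum]
  rw [Finset.sum_comm]
  refine Finset.sum_congr rfl fun j _ => ?_
  rw [← hμ.2.2 j, Finset.sum_mul]
  exact Finset.sum_congr rfl fun i _ => by ring

lemma mu_FF_GG (h : Ell K p ε) {μ : Fin N → ℝ} (hμ : IsStationary K μ) (φ : Fin N → ℝ) (k : ℕ) :
    ∑ i, μ i * FF K p (GG K p k φ) i = ∑ i, μ i * FF K p φ i := by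
  induction k with
  | zero => rw [GG_zero]
  | succ k ih =>
    rw [← ih]
    set ψ := GG K p (k + 1) φ with hψ
    have h1 : ∑ i, μ i * ψ i = ∑ i, μ i * FF K p (GG K p k φ) i + ∑ i, μ i * TT K p ψ i := by
      rw [← Finset.sum_add_distrib]
      refine Finset.sum_congr rfl fun i _ => ?_
      conv_lhs => rw [hψ, GG_succ h k φ]
      rw [Pi.add_apply]
      ring
    have h2 : ∑ i, μ i * ψ i = ∑ i, μ i * FF K p ψ i + ∑ i, μ i * TT K p ψ i := by
      rw [← mu_K hμ, ← Finset.sum_add_distrib]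
      refine Finset.sum_congr rfl fun i _ => ?_
      rw [← FF_add_TT (p := p)]
      ring
    linarith

/-- geometric ergodicity -/
theorem ergodic (h : Ell K p ε) (hC : ∃! C : Set (Fin N), IsClosedClass K C) {μ : Fin N → ℝ}
    (hμ : IsStationary K μ) (hp : ∑ i, μ i * p i = 1 / 2) (φ : Fin N → ℝ) :
    ∃ C : ℝ, 0 ≤ C ∧ ∀ (k : ℕ) (i : Fin N), 1 ≤ k →
      |GG K p k φ i - 2 * ∑ i, μ i * FF K p φ i| ≤ C / Real.sqrt k := by
  obtain ⟨j0, κ, hκ0, hκ⟩ := doeblin h hC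
  obtain ⟨D, hD0, hD⟩ := exists_bound φ
  have hκ1 : κ ≤ 1 := by
    have := hκ (fun _ => 1) (fun _ => zero_le_one) j0
    rw [GG_const h] at this
    linarith
  have hb : |1 - κ| < 1 := by rw [abs_lt]; constructor <;> linarith
  have h1 : Filter.Tendsto (fun k : ℕ => (k : ℝ) ^ 1 * (1 - κ) ^ k) Filter.atTop (nhds 0) :=
    tendsto_pow_const_mul_const_pow_of_abs_lt_one 1 hb
  obtain ⟨E, hE⟩ := h1.bddAbove_range
  have hE' : ∀ k : ℕ, (k : ℝ) * (1 - κ) ^ k ≤ E := fun k => by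
    have := hE ⟨k, rfl⟩
    simpa using this
  have hE0 : 0 ≤ E := by simpa using hE' 0
  refine ⟨E * (2 * D), by positivity, fun k i hk => ?_⟩
  obtain ⟨a, b, hab, h2, h3⟩ := osc h hκ φ (a := -D) (b := D) (fun i => abs_le.1 (hD i)) k
  -- the average is between `a` and `b`
  have hf1 : ∑ i, μ i * FF K p (fun _ => 1) i = 1 / 2 := by
    have : ∀ i, μ i * FF K p (fun _ => 1) i = μ i - μ i * p i := fun i => by
      rw [FF_one h.toPos]; ring
    simp_rw [this]
    rw [Finset.sum_sub_distrib, hμ.2.1, hp]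
    norm_num
  have hfc : ∀ c : ℝ, ∑ i, μ i * FF K p (fun _ => c) i = c / 2 := fun c => by
    have e : (fun _ : Fin N => c) = c • fun _ => (1 : ℝ) := by funext i; simp
    rw [e, map_smul]
    simp only [Pi.smul_apply, smul_eq_mul]
    have : ∀ i, μ i * (c * FF K p (fun _ => 1) i) = c * (μ i * FF K p (fun _ => 1) i) := fun i => by ring
    simp_rw [this]
    rw [← Finset.mul_sum, hf1]
    ring
  have h4 := mu_FF_GG h hμ φ k
  have h5 : a / 2 ≤ ∑ i, μ i * FF K p φ i := by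
    rw [← h4, ← hfc a]
    exact Finset.sum_le_sum fun i _ => mul_le_mul_of_nonneg_left
      (FF_mono h.toPos (fun j => (h3 j).1) i) (hμ.1 i)
  have h6 : ∑ i, μ i * FF K p φ i ≤ b / 2 := by
    rw [← h4, ← hfc b]
    exact Finset.sum_le_sum fun i _ => mul_le_mul_of_nonneg_left
      (FF_mono h.toPos (fun j => (h3 j).2) i) (hμ.1 i)
  have h7 := h3 i
  have h8 : |GG K p k φ i - 2 * ∑ i, μ i * FF K p φ i| ≤ b - a := by
    rw [abs_le]; constructor <;> linarith [h7.1, h7.2]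
  refine h8.trans ?_
  have hk0 : (0 : ℝ) < Real.sqrt k := Real.sqrt_pos.2 (by exact_mod_cast hk)
  rw [h2, le_div_iff₀ hk0]
  have h9 : Real.sqrt k ≤ k := by
    rw [Real.sqrt_le_left (by positivity)]
    have : (1 : ℝ) ≤ k := by exact_mod_cast hk
    nlinarith
  have h10 : 0 ≤ (1 - κ) ^ k := pow_nonneg (by linarith) k
  calc (1 - κ) ^ k * (D - -D) * Real.sqrt k = Real.sqrt k * (1 - κ) ^ k * (2 * D) := by ring
    _ ≤ (k : ℝ) * (1 - κ) ^ k * (2 * D) := by
        refine mul_le_mul_of_nonneg_right (mul_le_mul_of_nonneg_right h9 h10) (by positivity)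
    _ ≤ E * (2 * D) := mul_le_mul_of_nonneg_right (hE' k) (by positivity)

/-! ### constants -/

lemma gg_eq (h : Pos K p) {g : Fin N → ℝ} (hg : IsPoisson K p g) (i : Fin N) :
    gg K p g i = ∑ j, K i j * ((g j - g i + (2 * p i - 1)) ^ 2 + 4 * p i * (1 - p i)) := by
  have h1 := hg i
  have h2 := h.Ks i
  have e : ∀ j, K i j * ((g j - g i + (2 * p i - 1)) ^ 2 + 4 * p i * (1 - p i)) =
      K i j * g j ^ 2 + 2 * (2 * p i - 1 - g i) * (K i j * g j) +
        (g i ^ 2 - 2 * g i * (2 * p i - 1) + 1) * K i j := fun j => by ring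
  simp_rw [e]
  rw [Finset.sum_add_distrib, Finset.sum_add_distrib, ← Finset.mul_sum, ← Finset.mul_sum, h2]
  have h3 : ∑ j, K i j * g j = g i - (2 * p i - 1) := by linarith
  rw [gg, TT_apply, FF_apply, h3]
  ring

lemma gg_ge (h : Ell K p ε) {g : Fin N → ℝ} (hg : IsPoisson K p g) (i : Fin N) :
    4 * ε ^ 2 ≤ gg K p g i := by
  rw [gg_eq h.toPos hg]
  have h1 : ∀ j, K i j * (4 * ε ^ 2) ≤
      K i j * ((g j - g i + (2 * p i - 1)) ^ 2 + 4 * p i * (1 - p i)) := fun j => by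
    refine mul_le_mul_of_nonneg_left ?_ (h.K0 i j)
    have := h.le_p i
    have := h.le_q i
    have := h.ε0
    nlinarith [sq_nonneg (g j - g i + (2 * p i - 1)), mul_le_mul (h.le_p i) (h.le_q i) h.ε0.le
      (h.p0 i).le]
  calc 4 * ε ^ 2 = ∑ j, K i j * (4 * ε ^ 2) := by rw [← Finset.sum_mul, h.Ks i, one_mul]
    _ ≤ _ := Finset.sum_le_sum fun j _ => h1 j

/-- the mean increment variance -/
noncomputable def qbar (K : Fin N → Fin N → ℝ) (p g μ : Fin N → ℝ) : ℝ := ∑ i, μ i * gg K p g i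

lemma qbar_pos (h : Ell K p ε) {g μ : Fin N → ℝ} (hg : IsPoisson K p g) (hμ : IsStationary K μ) :
    0 < qbar K p g μ := by
  have h1 : 4 * ε ^ 2 ≤ qbar K p g μ := by
    calc 4 * ε ^ 2 = ∑ i, μ i * (4 * ε ^ 2) := by rw [← Finset.sum_mul, hμ.2.1, one_mul]
      _ ≤ _ := Finset.sum_le_sum fun i _ => mul_le_mul_of_nonneg_left (gg_ge h hg i) (hμ.1 i)
  have := h.ε0
  nlinarith [sq_pos_of_pos this]

/-- limit of `E[E^n] - n` -/
noncomputable def rho0 (K : Fin N → Fin N → ℝ) (p η g μ : Fin N → ℝ) : ℝ :=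
  ∑ i, η i * g i - 2 * ∑ i, μ i * FF K p g i

lemma qbar_eq {g μ : Fin N → ℝ} (hμ : IsStationary K μ) :
    qbar K p g μ = 1 + 2 * ∑ i, μ i * TT K p g i - 2 * ∑ i, μ i * FF K p g i := by
  unfold qbar gg
  have e : ∀ i, μ i * (1 + 2 * (TT K p g i - FF K p g i) + ∑ j, K i j * g j ^ 2 - g i ^ 2) =
      μ i + 2 * (μ i * TT K p g i) - 2 * (μ i * FF K p g i) + μ i * ∑ j, K i j * g j ^ 2 -
        μ i * g i ^ 2 := fun i => by ring
  simp_rw [e]
  rw [Finset.sum_sub_distrib, Finset.sum_add_distrib, Finset.sum_sub_distrib, Finset.sum_add_distrib,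
    ← Finset.mul_sum, ← Finset.mul_sum, hμ.2.1, mu_K hμ (fun j => g j ^ 2)]
  ring

lemma FF_mirror : FF K (fun i => 1 - p i) = TT K p := by
  unfold FF
  congr 1
  funext i
  ring

lemma TT_mirror : TT K (fun i => 1 - p i) = FF K p := rfl

lemma mirror_poisson {g : Fin N → ℝ} (hg : IsPoisson K p g) : IsPoisson K (fun i => 1 - p i) (-g) := by
  intro i
  have := hg i
  simp only [Pi.neg_apply, mul_neg, Finset.sum_neg_distrib]
  linarith

lemma gg_mirror (g : Fin N → ℝ) : gg K (fun i => 1 - p i) (-g) = gg K p g := by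
  funext i
  unfold gg
  rw [FF_mirror, TT_mirror]
  simp only [map_neg, Pi.neg_apply, even_two.neg_pow]
  ring

lemma qbar_mirror (g μ : Fin N → ℝ) : qbar K (fun i => 1 - p i) (-g) μ = qbar K p g μ := by
  unfold qbar
  rw [gg_mirror]

lemma rho0_mirror (η g μ : Fin N → ℝ) : rho0 K (fun i => 1 - p i) η (-g) μ =
    - ∑ i, η i * g i + 2 * ∑ i, μ i * TT K p g i := by
  unfold rho0
  rw [FF_mirror]
  simp only [map_neg, Pi.neg_apply, mul_neg, Finset.sum_neg_distrib]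
  ring

/-- `ρ + ρ~ = ν / 2 - 1` -/
lemma rho0_add {η g μ : Fin N → ℝ} (hμ : IsStationary K μ) :
    rho0 K p η g μ + rho0 K (fun i => 1 - p i) η (-g) μ = qbar K p g μ - 1 := by
  rw [rho0_mirror, qbar_eq hμ, rho0]
  ring

end Crit

end Pool.Agent.MP_3aae7f_pr
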