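import Pool.Agent.Lib.MP_3aae7f_pr.CritGen
open scoped ENNReal
namespace Pool.Agent.MP_3aae7f_pr
variable {r : ℕ → ℕ → ℝ} {ρ ν : ℝ}



/-- powers -/
noncomputable def pw (a : ℝ) (l : ℕ) : ℝ := if l = 0 then 1 else (l : ℝ) ^ a

/-- iterated logarithm -/
noncomputable def ll (l : ℕ) : ℝ := if l < 16 then 1 else Real.log (Real.log l)

/-- `l^(1-δ) / log l` -/
noncomputable def sb (δ : ℝ) (l : ℕ) : ℝ := if l < 3 then 1 else (l : ℝ) ^ (1 - δ) / Real.log l

theorem hasDerivAt_rpow_mul_log (b b' : ℝ) (hb : b' = b - 1) (A A' : ℝ → ℝ) {y : ℝ} (hy : 0 < y)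
    (h : HasDerivAt A (A' (Real.log y) - b * A (Real.log y)) (Real.log y)) :
    HasDerivAt (fun y : ℝ => y ^ b * A (Real.log y)) (y ^ b' * A' (Real.log y)) y := by
  subst hb
  have h1 : HasDerivAt (fun x : ℝ => x ^ b) (b * y ^ (b - 1)) y :=
    Real.hasDerivAt_rpow_const (Or.inl hy.ne')
  have h2 := h.comp y (Real.hasDerivAt_log hy.ne')
  have h3 := h1.mul h2
  have e : y ^ (b - 1) = y ^ b * y⁻¹ := by
    rw [Real.rpow_sub_one hy.ne', div_eq_mul_inv]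
  have e2 : y ^ (b - 1) * A' (Real.log y) = b * y ^ (b - 1) * (A ∘ Real.log) y +
      y ^ b * ((A' (Real.log y) - b * A (Real.log y)) * y⁻¹) := by
    rw [e]
    simp only [Function.comp]
    ring
  rw [e2]
  exact h3

theorem BLP.gen_log (h : BLP r ρ ν) (b : ℝ) (F : ℕ → ℝ) (A0 A1 A2 A3 : ℝ → ℝ) (y0 C : ℝ) (m : ℕ)
    (hy0 : 1 ≤ y0)
    (h0 : ∀ u, Real.log y0 ≤ u → HasDerivAt A0 (A1 u - b * A0 u) u)
    (h1 : ∀ u, Real.log y0 ≤ u → HasDerivAt A1 (A2 u - (b - 1) * A1 u) u)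
    (h2 : ∀ u, Real.log y0 ≤ u → HasDerivAt A2 (A3 u - (b - 2) * A2 u) u)
    (c1 : ∀ u, Real.log y0 ≤ u → |A1 u| ≤ C) (c2 : ∀ u, Real.log y0 ≤ u → |A2 u| ≤ C)
    (c3 : ∀ u, Real.log y0 ≤ u → |A3 u| ≤ C)
    (hF : ∀ l : ℕ, y0 ≤ (l : ℝ) → F l = (l : ℝ) ^ b * A0 (Real.log l))
    (hFm : ∀ l : ℕ, |F l| ≤ C * ((l : ℝ) + 1) ^ m) :
    ∃ (C' : ℝ) (k1 : ℕ), ∀ k : ℕ, k1 ≤ k →
      |∑' l, r k l * F l - F k -
        (k : ℝ) ^ (b - 1) * (ρ * A1 (Real.log k) + ν / 2 * A2 (Real.log k))| ≤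
          C' * (k : ℝ) ^ (b - 3 / 2) := by
  have hlog : ∀ y, y0 ≤ y → Real.log y0 ≤ Real.log y := fun y hy =>
    Real.log_le_log (by linarith) hy
  have hbd : ∀ (c : ℝ) (A : ℝ → ℝ), (∀ u, Real.log y0 ≤ u → |A u| ≤ C) → ∀ y, y0 ≤ y →
      |y ^ c * A (Real.log y)| ≤ C * y ^ c := by
    intro c A hA y hy
    have hy1 : 0 < y := by linarith
    rw [abs_mul, abs_of_pos (Real.rpow_pos_of_pos hy1 c), mul_comm]
    exact mul_le_mul_of_nonneg_right (hA _ (hlog y hy)) (Real.rpow_nonneg hy1.le c)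
  obtain ⟨C', k1, hk⟩ := h.generator b F (fun y => y ^ b * A0 (Real.log y))
    (fun y => y ^ (b - 1) * A1 (Real.log y)) (fun y => y ^ (b - 2) * A2 (Real.log y))
    (fun y => y ^ (b - 3) * A3 (Real.log y)) y0 C m hy0
    (fun y hy => hasDerivAt_rpow_mul_log b (b - 1) rfl A0 A1 (by linarith) (h0 _ (hlog y hy)))
    (fun y hy => hasDerivAt_rpow_mul_log (b - 1) (b - 2) (by ring) A1 A2 (by linarith)
      (h1 _ (hlog y hy)))
    (fun y hy => hasDerivAt_rpow_mul_log (b - 2) (b - 3) (by ring) A2 A3 (by linarith)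
      (h2 _ (hlog y hy)))
    (hbd _ _ c1) (hbd _ _ c2) (hbd _ _ c3) hF hFm
  refine ⟨C', max k1 1, fun k hk' => ?_⟩
  have hk1 : 1 ≤ k := le_trans (le_max_right _ _) hk'
  have hk0 : (0 : ℝ) < k := by exact_mod_cast hk1
  have := hk k (le_trans (le_max_left _ _) hk')
  have e : (k : ℝ) ^ (b - 1) = k * (k : ℝ) ^ (b - 2) := by
    rw [show b - 1 = 1 + (b - 2) by ring, Real.rpow_add hk0, Real.rpow_one]
  have e2 : ∑' l, r k l * F l - F k -
        (k : ℝ) ^ (b - 1) * (ρ * A1 (Real.log k) + ν / 2 * A2 (Real.log k)) =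
      ∑' l, r k l * F l - F k - ρ * ((k : ℝ) ^ (b - 1) * A1 (Real.log k)) -
        ν / 2 * (k * ((k : ℝ) ^ (b - 2) * A2 (Real.log k))) := by
    rw [mul_add, e]
    ring
  rw [e2]
  exact this

theorem err_small (b C' ε : ℝ) (hε : 0 < ε) : ∃ k0 : ℕ, ∀ k : ℕ, k0 ≤ k → 3 ≤ k ∧
    1 ≤ Real.log k ∧ C' * (k : ℝ) ^ (b - 3 / 2) ≤ ε * (k : ℝ) ^ (b - 1) / Real.log k ^ 2 := by
  have h1 : (fun x : ℝ => Real.log x ^ (2 : ℝ)) =o[Filter.atTop] fun x => x ^ (1 / 2 : ℝ) :=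
    isLittleO_log_rpow_rpow_atTop 2 (by norm_num)
  have h2 := h1.bound (show 0 < ε / (|C'| + 1) by positivity)
  have h3 := (tendsto_natCast_atTop_atTop (R := ℝ)).eventually h2
  obtain ⟨k0, hk0⟩ := Filter.eventually_atTop.1 h3
  refine ⟨max k0 3, fun k hk => ?_⟩
  have hk3 : 3 ≤ k := le_trans (le_max_right _ _) hk
  have hkr : (3 : ℝ) ≤ k := by exact_mod_cast hk3
  have hkp : (0 : ℝ) < k := by linarith
  have hlog : 1 ≤ Real.log k := by
    rw [Real.le_log_iff_exp_le hkp]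
    have := Real.exp_one_lt_d9
    linarith
  refine ⟨hk3, hlog, ?_⟩
  have h4 := hk0 k (le_trans (le_max_left _ _) hk)
  have h5 : Real.log k ^ 2 ≤ ε / (|C'| + 1) * (k : ℝ) ^ (1 / 2 : ℝ) := by
    have e1 : Real.log (k : ℝ) ^ (2 : ℝ) = Real.log k ^ 2 := by
      rw [← Real.rpow_natCast]
      norm_num
    rw [e1, Real.norm_of_nonneg (by positivity), Real.norm_of_nonneg (by positivity)] at h4
    exact h4
  rw [le_div_iff₀ (by positivity)]
  have e3 : (k : ℝ) ^ (b - 1) = (k : ℝ) ^ (b - 3 / 2) * (k : ℝ) ^ (1 / 2 : ℝ) := by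
    rw [← Real.rpow_add hkp]
    congr 1
    ring
  rw [e3]
  have h6 : 0 ≤ (k : ℝ) ^ (b - 3 / 2) := by positivity
  have h7 : C' * Real.log k ^ 2 ≤ ε * (k : ℝ) ^ (1 / 2 : ℝ) := by
    calc C' * Real.log k ^ 2 ≤ (|C'| + 1) * Real.log k ^ 2 := by
          apply mul_le_mul_of_nonneg_right _ (by positivity)
          linarith [le_abs_self C']
      _ ≤ (|C'| + 1) * (ε / (|C'| + 1) * (k : ℝ) ^ (1 / 2 : ℝ)) := by
          apply mul_le_mul_of_nonneg_left h5 (by positivity)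
      _ = ε * (k : ℝ) ^ (1 / 2 : ℝ) := by
          field_simp
  nlinarith [mul_le_mul_of_nonneg_left h7 h6]

/-- ROW B2 -/
theorem BLP.lyap_pow (h : BLP r ρ ν) (a : ℝ) (ha : a * (2 * ρ + ν * (a - 1)) < 0) :
    ∃ (c : ℝ) (k0 : ℕ), 0 < c ∧ ∀ k, k0 ≤ k →
      ∑' l, r k l * pw a l + c * (k : ℝ) ^ (a - 1) ≤ pw a k := by
  obtain ⟨C, hC1, hC2, hC3, hC4⟩ : ∃ C : ℝ, |a| ≤ C ∧ |a * (a - 1)| ≤ C ∧
      |a * (a - 1) * (a - 2)| ≤ C ∧ 1 ≤ C :=
    ⟨max (max |a| |a * (a - 1)|) (max |a * (a - 1) * (a - 2)| 1), by simp, by simp, by simp, by simp⟩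
  obtain ⟨C', k1, hk⟩ := h.gen_log a (pw a) (fun _ => 1) (fun _ => a) (fun _ => a * (a - 1))
    (fun _ => a * (a - 1) * (a - 2)) 1 C ⌈|a|⌉₊ le_rfl
    (fun u _ => by simpa using hasDerivAt_const u (1 : ℝ))
    (fun u _ => by
      refine (hasDerivAt_const u a).congr_deriv ?_
      ring)
    (fun u _ => by
      refine (hasDerivAt_const u (a * (a - 1))).congr_deriv ?_
      ring)
    (fun _ _ => hC1) (fun _ _ => hC2) (fun _ _ => hC3)
    (fun l hl => by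
      have : l ≠ 0 := by
        rintro rfl
        norm_num at hl
      simp [pw, this])
    (fun l => by
      have h1 : (1 : ℝ) ≤ (l : ℝ) + 1 := by
        have : (0 : ℝ) ≤ l := by positivity
        linarith
      have h2 : (1 : ℝ) ≤ ((l : ℝ) + 1) ^ ⌈|a|⌉₊ := one_le_pow₀ h1
      have h3 : |pw a l| ≤ ((l : ℝ) + 1) ^ ⌈|a|⌉₊ := by
        unfold pw
        split_ifs with hl
        · simpa using h2
        · have hl1 : (1 : ℝ) ≤ l := by
            exact_mod_cast Nat.one_le_iff_ne_zero.2 hl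
          rw [abs_of_nonneg (by positivity)]
          calc (l : ℝ) ^ a ≤ (l : ℝ) ^ (⌈|a|⌉₊ : ℝ) :=
                Real.rpow_le_rpow_of_exponent_le hl1 ((le_abs_self a).trans (Nat.le_ceil _))
            _ = (l : ℝ) ^ ⌈|a|⌉₊ := Real.rpow_natCast _ _
            _ ≤ ((l : ℝ) + 1) ^ ⌈|a|⌉₊ := by
                apply pow_le_pow_left₀ (by positivity)
                linarith
      nlinarith)
  set M : ℝ := a * (2 * ρ + ν * (a - 1)) with hM
  obtain ⟨k2, hk2⟩ := err_small a C' (-M / 4) (by linarith)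
  refine ⟨-M / 4, max k1 k2, by linarith, fun k hkk => ?_⟩
  have h1 := abs_le.1 (hk k (le_trans (le_max_left _ _) hkk))
  obtain ⟨h3, hlog, h4⟩ := hk2 k (le_trans (le_max_right _ _) hkk)
  have hkp : (0 : ℝ) < k := by
    have : (3 : ℝ) ≤ k := by exact_mod_cast h3
    linarith
  have hpos : 0 < (k : ℝ) ^ (a - 1) := Real.rpow_pos_of_pos hkp _
  have h5 : -M / 4 * (k : ℝ) ^ (a - 1) / Real.log k ^ 2 ≤ -M / 4 * (k : ℝ) ^ (a - 1) := by
    apply div_le_self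
    · have : 0 < -M / 4 := by linarith
      positivity
    · exact one_le_pow₀ hlog
  have h6 : (k : ℝ) ^ (a - 1) * (ρ * a + ν / 2 * (a * (a - 1))) = M / 2 * (k : ℝ) ^ (a - 1) := by
    rw [hM]
    ring
  have h7 := h1.2
  rw [h6] at h7
  linarith

/-- the expansion of `ll` -/
theorem BLP.ll_exp (h : BLP r ρ ν) : ∃ (C' : ℝ) (k1 : ℕ), ∀ k : ℕ, k1 ≤ k →
      |∑' l, r k l * ll l - ll k -
        (k : ℝ) ^ ((0 : ℝ) - 1) * (ρ * (1 / Real.log k) +
          ν / 2 * (-1 / Real.log k - 1 / Real.log k ^ 2))| ≤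
          C' * (k : ℝ) ^ ((0 : ℝ) - 3 / 2) := by
  have hl16 : (1 : ℝ) ≤ Real.log 16 := by
    rw [Real.le_log_iff_exp_le (by norm_num)]
    have := Real.exp_one_lt_d9
    linarith
  refine h.gen_log 0 ll (fun u => Real.log u) (fun u => 1 / u) (fun u => -1 / u - 1 / u ^ 2)
    (fun u => 2 / u + 3 / u ^ 2 + 2 / u ^ 3) 16 7 1 (by norm_num) ?_ ?_ ?_ ?_ ?_ ?_ ?_ ?_
  · intro u hu
    have hu0 : u ≠ 0 := by
      have : 1 ≤ u := hl16.trans hu
      linarith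
    refine (Real.hasDerivAt_log hu0).congr_deriv ?_
    simp
  · intro u hu
    have hu0 : u ≠ 0 := by
      have : 1 ≤ u := hl16.trans hu
      linarith
    have h1 := hasDerivAt_inv hu0
    have e : (fun u : ℝ => 1 / u) = (fun u : ℝ => u⁻¹) := by
      funext x
      simp
    rw [e]
    refine h1.congr_deriv ?_
    field_simp
    ring
  · intro u hu
    have hu0 : u ≠ 0 := by
      have : 1 ≤ u := hl16.trans hu
      linarith
    have h1 := hasDerivAt_inv hu0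
    have h2 := h1.fun_pow 2
    have e : (fun u : ℝ => -1 / u - 1 / u ^ 2) = (fun u : ℝ => -u⁻¹ - u⁻¹ ^ 2) := by
      funext x
      simp [div_eq_mul_inv]
    rw [e]
    refine (h1.neg.sub h2).congr_deriv ?_
    rw [show (2 - 1 : ℕ) = 1 from rfl, pow_one]
    push_cast
    field_simp
    ring
  · intro u hu
    have hu1 : 1 ≤ u := hl16.trans hu
    rw [abs_of_nonneg (by positivity)]
    have : 1 / u ≤ 1 := by
      rw [div_le_one (by linarith)]
      exact hu1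
    linarith
  · intro u hu
    have hu1 : 1 ≤ u := hl16.trans hu
    have h1 : 1 / u ≤ 1 := by
      rw [div_le_one (by linarith)]
      exact hu1
    have h2 : 1 / u ^ 2 ≤ 1 := by
      rw [div_le_one (by positivity)]
      exact one_le_pow₀ hu1
    have h3 : 0 < 1 / u := by positivity
    have h4 : 0 < 1 / u ^ 2 := by positivity
    rw [abs_le]
    constructor
    · have : -1 / u = -(1 / u) := by ring
      rw [this]
      linarith
    · have : -1 / u = -(1 / u) := by ring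
      rw [this]
      linarith
  · intro u hu
    have hu1 : 1 ≤ u := hl16.trans hu
    have h1 : 1 / u ≤ 1 := by
      rw [div_le_one (by linarith)]
      exact hu1
    have h2 : 1 / u ^ 2 ≤ 1 := by
      rw [div_le_one (by positivity)]
      exact one_le_pow₀ hu1
    have h3 : 1 / u ^ 3 ≤ 1 := by
      rw [div_le_one (by positivity)]
      exact one_le_pow₀ hu1
    rw [abs_of_nonneg (by positivity)]
    have e1 : 2 / u = 2 * (1 / u) := by ring
    have e2 : 3 / u ^ 2 = 3 * (1 / u ^ 2) := by ring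
    have e3 : 2 / u ^ 3 = 2 * (1 / u ^ 3) := by ring
    rw [e1, e2, e3]
    linarith
  · intro l hl
    have : ¬ l < 16 := by
      have : 16 ≤ l := by exact_mod_cast hl
      omega
    simp [ll, this]
  · intro l
    have hl0 : (0 : ℝ) ≤ l := by positivity
    unfold ll
    split_ifs with hl
    · simp
      linarith
    · have hl1 : (16 : ℝ) ≤ l := by
        have : 16 ≤ l := by omega
        exact_mod_cast this
      have h1 : 1 ≤ Real.log l := hl16.trans (Real.log_le_log (by norm_num) hl1)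
      have h2 : 0 ≤ Real.log (Real.log l) := Real.log_nonneg h1
      rw [abs_of_nonneg h2]
      have h3 : Real.log (Real.log l) ≤ Real.log l := Real.log_le_self (by linarith)
      have h4 : Real.log l ≤ l := Real.log_le_self hl0
      simp
      linarith

theorem BLP.lyap_ll (h : BLP r ρ ν) (hδ : 2 * ρ ≤ ν) : ∃ k0 : ℕ, ∀ k, k0 ≤ k →
    ∑' l, r k l * ll l ≤ ll k := by
  obtain ⟨C', k1, hk⟩ := h.ll_exp
  have hν := h.ν_pos
  obtain ⟨k2, hk2⟩ := err_small 0 C' (ν / 2) (by linarith)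
  refine ⟨max k1 k2, fun k hkk => ?_⟩
  have h1 := (abs_le.1 (hk k (le_trans (le_max_left _ _) hkk))).2
  obtain ⟨h3, hlog, h4⟩ := hk2 k (le_trans (le_max_right _ _) hkk)
  have hkp : (0 : ℝ) < k := by
    have : (3 : ℝ) ≤ k := by exact_mod_cast h3
    linarith
  have hpos : 0 < (k : ℝ) ^ ((0 : ℝ) - 1) := Real.rpow_pos_of_pos hkp _
  have h5 : (k : ℝ) ^ ((0 : ℝ) - 1) * (ρ * (1 / Real.log k) +
          ν / 2 * (-1 / Real.log k - 1 / Real.log k ^ 2)) ≤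
        -(ν / 2 * (k : ℝ) ^ ((0 : ℝ) - 1) / Real.log k ^ 2) := by
    have e : (k : ℝ) ^ ((0 : ℝ) - 1) * (ρ * (1 / Real.log k) +
          ν / 2 * (-1 / Real.log k - 1 / Real.log k ^ 2)) =
        (2 * ρ - ν) / 2 * ((k : ℝ) ^ ((0 : ℝ) - 1) * (1 / Real.log k)) -
          ν / 2 * (k : ℝ) ^ ((0 : ℝ) - 1) / Real.log k ^ 2 := by
      ring
    rw [e]
    have h6 : 0 ≤ (k : ℝ) ^ ((0 : ℝ) - 1) * (1 / Real.log k) := by positivity
    have h7 : (2 * ρ - ν) / 2 * ((k : ℝ) ^ ((0 : ℝ) - 1) * (1 / Real.log k)) ≤ 0 :=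
      mul_nonpos_of_nonpos_of_nonneg (by linarith) h6
    linarith
  linarith

theorem BLP.lyap_ll' (h : BLP r ρ ν) : ∃ (C : ℝ) (k0 : ℕ), 0 < C ∧ 3 ≤ k0 ∧ ∀ k : ℕ, k0 ≤ k →
    ∑' l, r k l * ll l ≤ ll k + C / (k * Real.log k) := by
  obtain ⟨C', k1, hk⟩ := h.ll_exp
  have hν := h.ν_pos
  obtain ⟨k2, hk2⟩ := err_small 0 C' 1 (by linarith)
  refine ⟨|2 * ρ - ν| / 2 + 1, max (max k1 k2) 3, by positivity, le_max_right _ _,
    fun k hkk => ?_⟩
  have h1 := (abs_le.1 (hk k (le_trans (le_trans (le_max_left _ _) (le_max_left _ _)) hkk))).2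
  obtain ⟨h3, hlog, h4⟩ := hk2 k (le_trans (le_trans (le_max_right _ _) (le_max_left _ _)) hkk)
  have hkp : (0 : ℝ) < k := by
    have : (3 : ℝ) ≤ k := by exact_mod_cast h3
    linarith
  have hpw : (k : ℝ) ^ ((0 : ℝ) - 1) = 1 / k := by
    rw [zero_sub, Real.rpow_neg_one]
    simp
  rw [hpw] at h1 h4
  have h6 : 1 * (1 / (k : ℝ)) / Real.log k ^ 2 ≤ 1 / (k * Real.log k) := by
    rw [one_mul, div_div]
    apply one_div_le_one_div_of_le (by positivity)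
    apply mul_le_mul_of_nonneg_left _ hkp.le
    nlinarith
  have h7 : 1 / (k : ℝ) * (ρ * (1 / Real.log k) +
          ν / 2 * (-1 / Real.log k - 1 / Real.log k ^ 2)) ≤
        |2 * ρ - ν| / 2 * (1 / (k * Real.log k)) := by
    have e : 1 / (k : ℝ) * (ρ * (1 / Real.log k) +
          ν / 2 * (-1 / Real.log k - 1 / Real.log k ^ 2)) =
        (2 * ρ - ν) / 2 * (1 / (k * Real.log k)) -
          ν / 2 * (1 / k) * (1 / Real.log k ^ 2) := by
      field_simp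
      ring
    rw [e]
    have h8 : 0 ≤ ν / 2 * (1 / (k : ℝ)) * (1 / Real.log k ^ 2) := by positivity
    have h9 : (2 * ρ - ν) / 2 * (1 / (k * Real.log k)) ≤ |2 * ρ - ν| / 2 * (1 / (k * Real.log k)) := by
      apply mul_le_mul_of_nonneg_right _ (by positivity)
      linarith [le_abs_self (2 * ρ - ν)]
    linarith
  have e10 : (|2 * ρ - ν| / 2 + 1) / (k * Real.log k) =
      |2 * ρ - ν| / 2 * (1 / (k * Real.log k)) + 1 / (k * Real.log k) := by
    ring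
  rw [e10]
  linarith

theorem BLP.lyap_sb (h : BLP r ρ ν) (hδ : ν < 2 * ρ) : ∃ k0 : ℕ, ∀ k, k0 ≤ k →
    sb (2 * ρ / ν) k ≤ ∑' l, r k l * sb (2 * ρ / ν) l := by
  have hν := h.ν_pos
  set δ : ℝ := 2 * ρ / ν with hδd
  have hδ1 : 1 < δ := by
    rw [hδd, lt_div_iff₀ hν]
    linarith
  have hρ : ρ = δ * ν / 2 := by
    rw [hδd]
    field_simp
  have hl3 : (1 : ℝ) ≤ Real.log 3 := by
    rw [Real.le_log_iff_exp_le (by norm_num)]
    have := Real.exp_one_lt_d9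
    linarith
  have hb : ∀ (p q s t : ℝ) (u : ℝ), 1 ≤ u →
      |p / u + q / u ^ 2 + s / u ^ 3 + t / u ^ 4| ≤ |p| + |q| + |s| + |t| := by
    intro p q s t u hu
    have hd : ∀ (x : ℝ) (n : ℕ), |x / u ^ n| ≤ |x| := by
      intro x n
      rw [abs_div, abs_of_nonneg (by positivity : (0 : ℝ) ≤ u ^ n)]
      exact div_le_self (abs_nonneg x) (one_le_pow₀ hu)
    have h1 := hd p 1
    rw [pow_one] at h1
    have h2 := hd q 2
    have h3 := hd s 3
    have h4 := hd t 4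
    have h5 := abs_add_le (p / u + q / u ^ 2 + s / u ^ 3) (t / u ^ 4)
    have h6 := abs_add_le (p / u + q / u ^ 2) (s / u ^ 3)
    have h7 := abs_add_le (p / u) (q / u ^ 2)
    linarith
  have hder : ∀ (p q s : ℝ) (u : ℝ), 1 ≤ u →
      HasDerivAt (fun u : ℝ => p / u + q / u ^ 2 + s / u ^ 3)
        (-p / u ^ 2 - 2 * q / u ^ 3 - 3 * s / u ^ 4) u := by
    intro p q s u hu
    have hu0 : u ≠ 0 := by linarith
    have h1 := hasDerivAt_inv hu0
    have h2 := h1.fun_pow 2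
    have h3 := h1.fun_pow 3
    have h4 := ((h1.const_mul p).add (h2.const_mul q)).add (h3.const_mul s)
    have e : (fun u : ℝ => p / u + q / u ^ 2 + s / u ^ 3) =
        (fun u : ℝ => p * u⁻¹ + q * u⁻¹ ^ 2 + s * u⁻¹ ^ 3) := by
      funext x
      simp [div_eq_mul_inv]
    rw [e]
    refine h4.congr_deriv ?_
    rw [show (2 - 1 : ℕ) = 1 from rfl, show (3 - 1 : ℕ) = 2 from rfl, pow_one]
    push_cast
    field_simp
    ring
  set C : ℝ := 1 + (|1 - δ| + |(-1 : ℝ)| + |(0 : ℝ)| + |(0 : ℝ)|) +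
    (|-δ * (1 - δ)| + |2 * δ - 1| + |(2 : ℝ)| + |(0 : ℝ)|) +
    (|(-δ - 1) * (-δ * (1 - δ))| + |(-δ - 1) * (2 * δ - 1) + δ * (1 - δ)| +
      |(-δ - 1) * 2 - 2 * (2 * δ - 1)| + |(-6 : ℝ)|) with hC
  have hCa : |1 - δ| + |(-1 : ℝ)| + |(0 : ℝ)| + |(0 : ℝ)| ≤ C := by
    rw [hC]
    have h1 : 0 ≤ |-δ * (1 - δ)| + |2 * δ - 1| + |(2 : ℝ)| + |(0 : ℝ)| := by positivity
    have h2 : 0 ≤ |(-δ - 1) * (-δ * (1 - δ))| + |(-δ - 1) * (2 * δ - 1) + δ * (1 - δ)| +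
      |(-δ - 1) * 2 - 2 * (2 * δ - 1)| + |(-6 : ℝ)| := by positivity
    linarith
  have hCb : |-δ * (1 - δ)| + |2 * δ - 1| + |(2 : ℝ)| + |(0 : ℝ)| ≤ C := by
    rw [hC]
    have h1 : 0 ≤ |1 - δ| + |(-1 : ℝ)| + |(0 : ℝ)| + |(0 : ℝ)| := by positivity
    have h2 : 0 ≤ |(-δ - 1) * (-δ * (1 - δ))| + |(-δ - 1) * (2 * δ - 1) + δ * (1 - δ)| +
      |(-δ - 1) * 2 - 2 * (2 * δ - 1)| + |(-6 : ℝ)| := by positivity
    linarith
  have hCc : |(-δ - 1) * (-δ * (1 - δ))| + |(-δ - 1) * (2 * δ - 1) + δ * (1 - δ)| +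
      |(-δ - 1) * 2 - 2 * (2 * δ - 1)| + |(-6 : ℝ)| ≤ C := by
    rw [hC]
    have h1 : 0 ≤ |1 - δ| + |(-1 : ℝ)| + |(0 : ℝ)| + |(0 : ℝ)| := by positivity
    have h2 : 0 ≤ |-δ * (1 - δ)| + |2 * δ - 1| + |(2 : ℝ)| + |(0 : ℝ)| := by positivity
    linarith
  have hC1 : 1 ≤ C := by
    rw [hC]
    have h0 : 0 ≤ |1 - δ| + |(-1 : ℝ)| + |(0 : ℝ)| + |(0 : ℝ)| := by positivity
    have h1 : 0 ≤ |-δ * (1 - δ)| + |2 * δ - 1| + |(2 : ℝ)| + |(0 : ℝ)| := by positivity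
    have h2 : 0 ≤ |(-δ - 1) * (-δ * (1 - δ))| + |(-δ - 1) * (2 * δ - 1) + δ * (1 - δ)| +
      |(-δ - 1) * 2 - 2 * (2 * δ - 1)| + |(-6 : ℝ)| := by positivity
    linarith
  obtain ⟨C', k1, hk⟩ := h.gen_log (1 - δ) (sb δ) (fun u => 1 / u + 0 / u ^ 2 + 0 / u ^ 3)
    (fun u => (1 - δ) / u + (-1) / u ^ 2 + 0 / u ^ 3)
    (fun u => (-δ * (1 - δ)) / u + (2 * δ - 1) / u ^ 2 + 2 / u ^ 3)
    (fun u => ((-δ - 1) * (-δ * (1 - δ))) / u + ((-δ - 1) * (2 * δ - 1) + δ * (1 - δ)) / u ^ 2 +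
      ((-δ - 1) * 2 - 2 * (2 * δ - 1)) / u ^ 3 + (-6) / u ^ 4) 3 C 0 (by norm_num)
    (fun u hu => by
      refine (hder 1 0 0 u (hl3.trans hu)).congr_deriv ?_
      ring)
    (fun u hu => by
      refine (hder (1 - δ) (-1) 0 u (hl3.trans hu)).congr_deriv ?_
      ring)
    (fun u hu => by
      refine (hder (-δ * (1 - δ)) (2 * δ - 1) 2 u (hl3.trans hu)).congr_deriv ?_
      ring)
    (fun u hu => by
      have := hb (1 - δ) (-1) 0 0 u (hl3.trans hu)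
      rw [zero_div (u ^ 4), add_zero] at this
      exact this.trans hCa)
    (fun u hu => by
      have := hb (-δ * (1 - δ)) (2 * δ - 1) 2 0 u (hl3.trans hu)
      rw [zero_div (u ^ 4), add_zero] at this
      exact this.trans hCb)
    (fun u hu => by
      have := hb ((-δ - 1) * (-δ * (1 - δ))) ((-δ - 1) * (2 * δ - 1) + δ * (1 - δ))
        ((-δ - 1) * 2 - 2 * (2 * δ - 1)) (-6) u (hl3.trans hu)
      exact this.trans hCc)
    (fun l hl => by
      have : ¬ l < 3 := by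
        have : 3 ≤ l := by exact_mod_cast hl
        omega
      simp [sb, this, div_eq_mul_inv])
    (fun l => by
      have h3 : |sb δ l| ≤ 1 := by
        unfold sb
        split_ifs with hl
        · simp
        · have hl1 : (3 : ℝ) ≤ l := by
            have : 3 ≤ l := by omega
            exact_mod_cast this
          have h1 : 1 ≤ Real.log l := hl3.trans (Real.log_le_log (by norm_num) hl1)
          have h2 : (l : ℝ) ^ (1 - δ) ≤ 1 :=
            Real.rpow_le_one_of_one_le_of_nonpos (by linarith) (by linarith)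
          have h4 : 0 ≤ (l : ℝ) ^ (1 - δ) := by positivity
          rw [abs_of_nonneg (by positivity), div_le_one (by linarith)]
          linarith
      simp
      linarith)
  obtain ⟨k2, hk2⟩ := err_small (1 - δ) C' (ν / 2 * (δ - 1)) (by
    have : 0 < δ - 1 := by linarith
    positivity)
  refine ⟨max k1 k2, fun k hkk => ?_⟩
  have h1 := (abs_le.1 (hk k (le_trans (le_max_left _ _) hkk))).1
  obtain ⟨h3, hlog, h4⟩ := hk2 k (le_trans (le_max_right _ _) hkk)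
  have hkp : (0 : ℝ) < k := by
    have : (3 : ℝ) ≤ k := by exact_mod_cast h3
    linarith
  have hpos : 0 < (k : ℝ) ^ (1 - δ - 1) := Real.rpow_pos_of_pos hkp _
  have e : (k : ℝ) ^ (1 - δ - 1) * (ρ * ((1 - δ) / Real.log k + (-1) / Real.log k ^ 2 +
        0 / Real.log k ^ 3) + ν / 2 * ((-δ * (1 - δ)) / Real.log k + (2 * δ - 1) / Real.log k ^ 2 +
        2 / Real.log k ^ 3)) =
      ν / 2 * (δ - 1) * (k : ℝ) ^ (1 - δ - 1) / Real.log k ^ 2 +
        ν * ((k : ℝ) ^ (1 - δ - 1) / Real.log k ^ 3) := by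
    rw [hρ]
    ring
  rw [e] at h1
  have h5 : 0 ≤ ν * ((k : ℝ) ^ (1 - δ - 1) / Real.log k ^ 3) := by positivity
  linarith

end Pool.Agent.MP_3aae7f_pr
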