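import Pool.Agent.Lib.MP_3aae7f_pr.CritPot
import Pool.Agent.Lib.MP_3aae7f_pr.CritLyap

open scoped ENNReal

namespace Pool.Agent.MP_3aae7f_pr

variable {r : ℕ → ℕ → ℝ} {ρ ν : ℝ}



/-! ROW B3b: T1, T3, T5 -/

open Filter in
/-- `green_le` for a real nonnegative Lyapunov function of polynomial growth -/
private lemma B3b_green (h : BLP r ρ ν) (F : ℕ → ℝ) (hF : ∀ l, 0 ≤ F l) (C : ℝ) (m : ℕ)
    (hFm : ∀ l : ℕ, |F l| ≤ C * ((l : ℝ) + 1) ^ m) (g : ℕ → ℝ) (hg : ∀ l, 0 ≤ g l) (k0 : ℕ)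
    (hk : ∀ k, k0 ≤ k → ∑' l, r k l * F l + g k ≤ F k) :
    ∃ C' : ℝ≥0∞, C' ≠ ⊤ ∧ ∀ N, ∑' k, Qn (kr r) N 1 k * ENNReal.ofReal (F k) +
      ∑ n ∈ Finset.range N, ∑' k, Qn (kr r) n 1 k *
        (if k0 ≤ k ∧ 1 ≤ k then ENNReal.ofReal (g k) else 0) ≤ C' := by
  refine h.green_le (fun l => ENNReal.ofReal (F l)) _
    (∑ j ∈ Finset.range k0, ENNReal.ofReal (∑' l, r j l * F l)) k0 ?_ ENNReal.ofReal_ne_top ?_
  · exact ENNReal.sum_ne_top.2 fun j _ => ENNReal.ofReal_ne_top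
  · intro j
    rcases Nat.eq_zero_or_pos j with h0 | h0
    · subst h0
      have e1 : ∑' l, kr r 0 l * ENNReal.ofReal (F l) = ENNReal.ofReal (F 0) := by
        rw [tsum_eq_single 0 (fun l hl => by rw [h.kr_zero l hl, zero_mul]), h.kr_zero', one_mul]
      simp only [e1]
      simp
    · rw [h.tsum_kr_mul F hF C m hFm j]
      rcases lt_or_ge j k0 with h1 | h1
      · have e1 : ¬ (k0 ≤ j ∧ 1 ≤ j) := fun hh => absurd hh.1 (not_le.2 h1)
        rw [if_neg e1, if_pos ⟨h0, h1⟩, add_zero]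
        refine le_trans ?_ le_add_self
        exact Finset.single_le_sum (f := fun j => ENNReal.ofReal (∑' l, r j l * F l))
          (fun i _ => zero_le) (Finset.mem_range.2 h1)
      · have e2 : ¬ (1 ≤ j ∧ j < k0) := fun hh => absurd hh.2 (not_lt.2 h1)
        rw [if_pos ⟨h1, h0⟩, if_neg e2, add_zero, ← ENNReal.ofReal_add _ (hg j)]
        · exact ENNReal.ofReal_le_ofReal (hk j h1)
        · exact tsum_nonneg fun l => mul_nonneg (h.nonneg j l) (hF l)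

private lemma B3b_ll_one (l : ℕ) : 1 ≤ ll l := by
  unfold ll
  split_ifs with h
  · exact le_rfl
  · push Not at h
    have h16 : (16 : ℝ) ≤ (l : ℝ) := by exact_mod_cast h
    have h2 : Real.exp 1 ≤ Real.log l := by
      have e1 : Real.log 16 ≤ Real.log l := Real.log_le_log (by norm_num) h16
      have e2 : Real.log 16 = 4 * Real.log 2 := by
        rw [show (16 : ℝ) = 2 ^ 4 by norm_num, Real.log_pow]; norm_num
      have e3 := Real.log_two_gt_d9
      have e4 := Real.exp_one_lt_d9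
      linarith
    have h3 := Real.log_le_log (Real.exp_pos 1) h2
    rwa [Real.log_exp] at h3

private lemma B3b_ll_le (l : ℕ) : |ll l| ≤ 1 * ((l : ℝ) + 1) ^ 1 := by
  have h0 := B3b_ll_one l
  rw [abs_of_nonneg (by linarith), one_mul, pow_one]
  unfold ll
  split_ifs with h
  · have : (0 : ℝ) ≤ (l : ℝ) := by positivity
    linarith
  · push Not at h
    have h16 : (16 : ℝ) ≤ (l : ℝ) := by exact_mod_cast h
    have h1 : 0 < Real.log l := Real.log_pos (by linarith)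
    have h2 := Real.log_le_sub_one_of_pos h1
    have h3 := Real.log_le_sub_one_of_pos (show (0 : ℝ) < l by linarith)
    linarith

private lemma B3b_ll_tendsto : Filter.Tendsto ll Filter.atTop Filter.atTop := by
  have h1 : Filter.Tendsto (fun l : ℕ => Real.log (Real.log l)) Filter.atTop Filter.atTop :=
    Real.tendsto_log_atTop.comp (Real.tendsto_log_atTop.comp tendsto_natCast_atTop_atTop)
  refine h1.congr' ?_
  filter_upwards [Filter.eventually_ge_atTop 16] with l hl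
  unfold ll
  rw [if_neg (not_lt.2 hl)]

/-- T1 (row B3b). -/
theorem BLP.extinct_of_le_one (h : BLP r ρ ν) (hδ : 2 * ρ ≤ ν) (k : ℕ) : hx r k = 1 := by
  obtain ⟨k0, hk0⟩ := h.lyap_ll hδ
  obtain ⟨C, hC, hle⟩ := B3b_green h ll (fun l => zero_le_one.trans (B3b_ll_one l)) 1 1 B3b_ll_le
    (fun _ => 0) (fun _ => le_rfl) k0 (fun k hk => by simpa using hk0 k hk)
  have h1 : hx r 1 = 1 := by
    refine h.hx_one_of_bdd (fun l => ENNReal.ofReal (ll l))
      (ENNReal.tendsto_ofReal_atTop.comp B3b_ll_tendsto) C hC fun N => ?_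
    exact le_trans (le_add_right le_rfl) (hle N)
  -- general starting point
  refine le_antisymm (h.hx_le_one k) ?_
  by_contra hcon
  push Not at hcon
  have hpos : 0 < kr r 1 k := by
    unfold kr
    exact ENNReal.ofReal_pos.2 (h.pos 1 k le_rfl)
  have hfin : kr r 1 k ≠ ⊤ := ENNReal.ofReal_ne_top
  have h2 : ∑' l, kr r 1 l * hx r l < ∑' l, kr r 1 l := by
    refine ENNReal.tsum_lt_tsum (i := k) ?_ (fun l => ?_) ?_
    · rw [h.hx_eq, h1]; exact ENNReal.one_ne_top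
    · calc kr r 1 l * hx r l ≤ kr r 1 l * 1 := by gcongr; exact h.hx_le_one l
        _ = kr r 1 l := mul_one _
    · calc kr r 1 k * hx r k < kr r 1 k * 1 :=
            ENNReal.mul_lt_mul_right hpos.ne' hfin hcon
        _ = kr r 1 k := mul_one _
  rw [h.hx_eq, h1, h.kr_sum] at h2
  exact lt_irrefl _ h2

private lemma B3b_pw_nonneg (a : ℝ) (l : ℕ) : 0 ≤ pw a l := by
  unfold pw
  split_ifs
  · exact zero_le_one
  · positivity

private lemma B3b_pw_le (a : ℝ) (m : ℕ) (ha : a ≤ m) (l : ℕ) : |pw a l| ≤ 1 * ((l : ℝ) + 1) ^ m := by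
  rw [abs_of_nonneg (B3b_pw_nonneg a l), one_mul]
  unfold pw
  split_ifs with h
  · rw [h]; simp
  · have h1 : (1 : ℝ) ≤ l := by exact_mod_cast Nat.one_le_iff_ne_zero.2 h
    calc (l : ℝ) ^ a ≤ (l : ℝ) ^ (m : ℝ) := Real.rpow_le_rpow_of_exponent_le h1 ha
      _ = (l : ℝ) ^ m := Real.rpow_natCast _ _
      _ ≤ ((l : ℝ) + 1) ^ m := by gcongr; linarith

/-- a Green bound for the powers -/
private lemma B3b_green_pw (h : BLP r ρ ν) (a : ℝ) (ha : a * (2 * ρ + ν * (a - 1)) < 0) :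
    ∃ k0 : ℕ, ∑' n, ∑' k : ℕ, Qn (kr r) n 1 k *
      (if k0 ≤ k ∧ 1 ≤ k then ENNReal.ofReal ((k : ℝ) ^ (a - 1)) else 0) < ⊤ := by
  obtain ⟨c, k0, hc, hk0⟩ := h.lyap_pow a ha
  obtain ⟨m, hm⟩ := exists_nat_ge a
  obtain ⟨C, hC, hle⟩ := B3b_green h (pw a) (B3b_pw_nonneg a) 1 m (B3b_pw_le a m hm)
    (fun k => c * (k : ℝ) ^ (a - 1)) (fun k => by positivity) k0 hk0
  refine ⟨k0, ?_⟩
  have h1 : ∑' n, ∑' k : ℕ, Qn (kr r) n 1 k *
      (if k0 ≤ k ∧ 1 ≤ k then ENNReal.ofReal (c * (k : ℝ) ^ (a - 1)) else 0) ≤ C := by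
    rw [ENNReal.tsum_eq_iSup_nat]
    exact iSup_le fun N => le_trans le_add_self (hle N)
  have h2 : ∀ n k : ℕ, Qn (kr r) n 1 k *
      (if k0 ≤ k ∧ 1 ≤ k then ENNReal.ofReal (c * (k : ℝ) ^ (a - 1)) else 0) =
      ENNReal.ofReal c * (Qn (kr r) n 1 k *
      (if k0 ≤ k ∧ 1 ≤ k then ENNReal.ofReal ((k : ℝ) ^ (a - 1)) else 0)) := by
    intro n k
    split_ifs
    · rw [ENNReal.ofReal_mul hc.le]; ring
    · simp
  simp_rw [h2, ENNReal.tsum_mul_left] at h1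
  have h3 : ENNReal.ofReal c * (∑' n, ∑' k : ℕ, Qn (kr r) n 1 k *
      (if k0 ≤ k ∧ 1 ≤ k then ENNReal.ofReal ((k : ℝ) ^ (a - 1)) else 0)) < ⊤ :=
    lt_of_le_of_lt h1 (lt_top_iff_ne_top.2 hC)
  by_contra hcon
  rw [not_lt, top_le_iff] at hcon
  rw [hcon, ENNReal.mul_top (ENNReal.ofReal_pos.2 hc).ne'] at h3
  exact lt_irrefl _ h3

/-- comparison: a weight bounded by a multiple of the weight of `B3b_green_pw` -/
private lemma B3b_sum_lt_top (h : BLP r ρ ν) (a : ℝ) (ha : a * (2 * ρ + ν * (a - 1)) < 0)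
    (w : ℕ → ℝ≥0∞) (hw0 : w 0 = 0) (hw : ∀ k, w k ≠ ⊤) (M : ℝ≥0∞) (hM : M ≠ ⊤) (k1 : ℕ)
    (hwM : ∀ k, k1 ≤ k → 1 ≤ k → w k ≤ M * ENNReal.ofReal ((k : ℝ) ^ (a - 1))) :
    ∑' n, ∑' k : ℕ, Qn (kr r) n 1 k * w k < ⊤ := by
  obtain ⟨k0, hk0⟩ := B3b_green_pw h a ha
  set L := max k0 k1 with hL
  have hv := h.visits L
  set M' : ℝ≥0∞ := ∑ j ∈ Finset.range L, w j with hM'
  have hM't : M' ≠ ⊤ := ENNReal.sum_ne_top.2 fun j _ => hw j
  have key : ∀ n k : ℕ, Qn (kr r) n 1 k * w k ≤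
      M' * (if 1 ≤ k ∧ k < L then Qn (kr r) n 1 k else 0) +
      M * (Qn (kr r) n 1 k *
        (if k0 ≤ k ∧ 1 ≤ k then ENNReal.ofReal ((k : ℝ) ^ (a - 1)) else 0)) := by
    intro n k
    rcases Nat.eq_zero_or_pos k with h0 | h0
    · rw [h0, hw0, mul_zero]; exact zero_le
    · rcases lt_or_ge k L with h1 | h1
      · rw [if_pos ⟨h0, h1⟩]
        refine le_trans ?_ (le_add_right le_rfl)
        rw [mul_comm]
        gcongr
        exact Finset.single_le_sum (f := w) (fun i _ => zero_le) (Finset.mem_range.2 h1)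
      · have h2 : k0 ≤ k := (le_max_left _ _).trans h1
        have h3 : k1 ≤ k := (le_max_right _ _).trans h1
        rw [if_pos (⟨h2, h0⟩ : k0 ≤ k ∧ 1 ≤ k)]
        refine le_trans ?_ le_add_self
        calc Qn (kr r) n 1 k * w k ≤ Qn (kr r) n 1 k * (M * ENNReal.ofReal ((k : ℝ) ^ (a - 1))) := by
              gcongr; exact hwM k h3 h0
          _ = _ := by ring
  calc ∑' n, ∑' k : ℕ, Qn (kr r) n 1 k * w k ≤ ∑' n, ∑' k : ℕ,
        (M' * (if 1 ≤ k ∧ k < L then Qn (kr r) n 1 k else 0) +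
          M * (Qn (kr r) n 1 k *
            (if k0 ≤ k ∧ 1 ≤ k then ENNReal.ofReal ((k : ℝ) ^ (a - 1)) else 0))) :=
        ENNReal.tsum_le_tsum fun n => ENNReal.tsum_le_tsum fun k => key n k
    _ = M' * (∑' n, ∑' k : ℕ, (if 1 ≤ k ∧ k < L then Qn (kr r) n 1 k else 0)) +
        M * (∑' n, ∑' k : ℕ, (Qn (kr r) n 1 k *
            (if k0 ≤ k ∧ 1 ≤ k then ENNReal.ofReal ((k : ℝ) ^ (a - 1)) else 0))) := by
        simp_rw [ENNReal.tsum_add, ENNReal.tsum_mul_left]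
    _ < ⊤ := ENNReal.add_lt_top.2 ⟨ENNReal.mul_lt_top (lt_top_iff_ne_top.2 hM't) hv,
        ENNReal.mul_lt_top (lt_top_iff_ne_top.2 hM) hk0⟩

/-- T3 (row B3b). -/
theorem BLP.exists_q_of_three_lt (h : BLP r ρ ν) (hδ : 3 * ν < 2 * ρ) :
    ∃ q : ℕ → ℝ≥0∞, (∀ n k, Qn (kr r) n k 0 ≤ q k) ∧ ∑' k, q k < ⊤ ∧
      ∑' m, ∑' k : ℕ, (k : ℝ≥0∞) * (Qn (kr r) m 1 k * q k) < ⊤ := by
  have hν := h.ν_pos
  obtain ⟨δ, hδd⟩ : ∃ δ : ℝ, δ = 2 * ρ / ν := ⟨_, rfl⟩
  have hρ : 2 * ρ = δ * ν := by rw [hδd]; field_simp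
  have hδ3 : 3 < δ := by
    rw [hδd, lt_div_iff₀ hν]; exact hδ
  obtain ⟨a, ha⟩ : ∃ a : ℝ, a = (δ + 1) / 2 := ⟨_, rfl⟩
  obtain ⟨c, k0', hc, hk0'⟩ := h.lyap_pow (-a) (by
    rw [hρ]
    have e1 : 0 < δ * ν + ν * (-a - 1) := by
      have : δ * ν + ν * (-a - 1) = ν * ((δ - 3) / 2) := by rw [ha]; ring
      rw [this]
      have : 0 < δ - 3 := by linarith
      positivity
    have e2 : -a < 0 := by rw [ha]; linarith
    exact mul_neg_of_neg_of_pos e2 e1)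
  set k0 := max k0' 1 with hk0
  have hk1 : 1 ≤ k0 := le_max_right _ _
  have hk1' : (1 : ℝ) ≤ (k0 : ℝ) := by exact_mod_cast hk1
  have ha0 : 0 < a := by rw [ha]; linarith
  set F : ℕ → ℝ := fun l => (k0 : ℝ) ^ a * pw (-a) l with hF
  have hF0 : ∀ l, 0 ≤ F l := fun l => mul_nonneg (by positivity) (B3b_pw_nonneg _ _)
  have hFm : ∀ l : ℕ, |F l| ≤ (k0 : ℝ) ^ a * ((l : ℝ) + 1) ^ 0 := by
    intro l
    rw [hF]
    simp only [abs_mul]
    rw [abs_of_nonneg (show (0 : ℝ) ≤ (k0 : ℝ) ^ a by positivity)]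
    gcongr
    have := B3b_pw_le (-a) 0 (by push_cast; linarith) l
    simpa using this
  refine ⟨fun k => ENNReal.ofReal (F k), ?_, ?_, ?_⟩
  · intro n k
    have hlow : ∀ j, j < k0 → 1 ≤ (fun l => ENNReal.ofReal (F l)) j := by
      intro j hj
      simp only
      rw [ENNReal.one_le_ofReal]
      rcases Nat.eq_zero_or_pos j with h0 | h0
      · rw [h0]
        simp only [hF, pw, if_true, mul_one]
        exact Real.one_le_rpow hk1' ha0.le
      · have hj0 : (0 : ℝ) < (j : ℝ) := by exact_mod_cast h0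
        have hj1 : (j : ℝ) ≤ (k0 : ℝ) := by exact_mod_cast hj.le
        simp only [hF, pw, if_neg h0.ne']
        rw [Real.rpow_neg hj0.le, ← div_eq_mul_inv, ← Real.div_rpow (by positivity) hj0.le]
        exact Real.one_le_rpow ((one_le_div hj0).2 hj1) ha0.le
    refine h.Qn_le_of_super (fun l => ENNReal.ofReal (F l)) k0 hlow ?_ (hlow 0 (by omega)) n k
    · intro j hj
      rw [h.tsum_kr_mul F hF0 _ 0 hFm j]
      apply ENNReal.ofReal_le_ofReal
      have e1 := hk0' j ((le_max_left _ _).trans hj)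
      have e2 : 0 ≤ c * (j : ℝ) ^ (-a - 1) := by positivity
      have e3 : ∑' l, r j l * F l = (k0 : ℝ) ^ a * ∑' l, r j l * pw (-a) l := by
        rw [← tsum_mul_left]
        exact tsum_congr fun l => by simp only [hF]; ring
      rw [e3]
      simp only [hF]
      gcongr
      linarith
  · have hsum : Summable F := by
      rw [hF]
      apply Summable.mul_left
      have e1 : Summable (fun l : ℕ => (l : ℝ) ^ (-a)) := by
        rw [Real.summable_nat_rpow]; rw [ha]; linarith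
      rw [← summable_nat_add_iff 1] at e1 ⊢
      refine e1.congr fun l => ?_
      simp only [pw, if_neg (Nat.succ_ne_zero l)]
    rw [← ENNReal.ofReal_tsum_of_nonneg hF0 hsum]
    exact ENNReal.ofReal_lt_top
  · have e1 : ∀ n k : ℕ, (k : ℝ≥0∞) * (Qn (kr r) n 1 k * ENNReal.ofReal (F k)) =
        Qn (kr r) n 1 k * ((k : ℝ≥0∞) * ENNReal.ofReal (F k)) := fun n k => by ring
    simp_rw [e1]
    refine B3b_sum_lt_top h (-(δ - 3) / 2) ?_ _ (by simp)
      (fun k => ENNReal.mul_ne_top (ENNReal.natCast_ne_top k) ENNReal.ofReal_ne_top)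
      (ENNReal.ofReal ((k0 : ℝ) ^ a)) ENNReal.ofReal_ne_top 0 ?_
    · rw [hρ]
      have e1 : 0 < δ * ν + ν * (-(δ - 3) / 2 - 1) := by
        have : δ * ν + ν * (-(δ - 3) / 2 - 1) = ν * ((δ + 1) / 2) := by ring
        rw [this]
        have : 0 < δ + 1 := by linarith
        positivity
      have e2 : -(δ - 3) / 2 < 0 := by linarith
      exact mul_neg_of_neg_of_pos e2 e1
    · intro k _ hk
      have hk' : (0 : ℝ) < (k : ℝ) := by exact_mod_cast hk
      rw [← ENNReal.ofReal_natCast, ← ENNReal.ofReal_mul (by positivity),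
        ← ENNReal.ofReal_mul (by positivity)]
      apply ENNReal.ofReal_le_ofReal
      simp only [hF, pw, if_neg (Nat.pos_iff_ne_zero.1 hk)]
      have e3 : (k : ℝ) * (k : ℝ) ^ (-a) = (k : ℝ) ^ (-(δ - 3) / 2 - 1) := by
        rw [← Real.rpow_one_add' hk'.le (by rw [ha]; intro hh; linarith)]
        congr 1
        rw [ha]; ring
      rw [← e3]
      apply le_of_eq
      ring

/-- T5 (row B3b). -/
theorem BLP.green_of_lt_neg_one (h : BLP r ρ ν) (hδ : 2 * ρ < -ν) :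
    ∑' m, ∑' k : ℕ, (k : ℝ≥0∞) * Qn (kr r) m 1 k < ⊤ := by
  have e1 : ∀ n k : ℕ, (k : ℝ≥0∞) * Qn (kr r) n 1 k = Qn (kr r) n 1 k * (k : ℝ≥0∞) :=
    fun n k => mul_comm _ _
  simp_rw [e1]
  refine B3b_sum_lt_top h 2 (by linarith) _ (by simp) (fun k => ENNReal.natCast_ne_top k)
    1 ENNReal.one_ne_top 0 ?_
  intro k _ hk
  have e2 : (k : ℝ) ^ ((2 : ℝ) - 1) = (k : ℝ) := by
    rw [show (2 : ℝ) - 1 = 1 by norm_num, Real.rpow_one]
  rw [e2, one_mul, ENNReal.ofReal_natCast]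

end Pool.Agent.MP_3aae7f_pr
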