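import Pool.Agent.Lib.MP_3aae7f_pr.CritPot
import Pool.Agent.Lib.MP_3aae7f_pr.CritLyap

open scoped ENNReal

namespace Pool.Agent.MP_3aae7f_pr

variable {r : ℕ → ℕ → ℝ} {ρ ν : ℝ}



section T4

open Filter Topology

lemma T4_sb_nonneg (δ : ℝ) (l : ℕ) : 0 ≤ sb δ l := by
  unfold sb
  split_ifs with hl
  · norm_num
  · have h3 : (3 : ℝ) ≤ l := by
      have : 3 ≤ l := by omega
      exact_mod_cast this
    exact div_nonneg (Real.rpow_nonneg (by positivity) _) (Real.log_nonneg (by linarith))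

lemma T4_one_le_log {l : ℕ} (hl : 3 ≤ l) : 1 ≤ Real.log l := by
  have h3 : (3 : ℝ) ≤ l := by exact_mod_cast hl
  rw [Real.le_log_iff_exp_le (by linarith)]
  have := Real.exp_one_lt_d9
  linarith

lemma T4_sb_le {δ : ℝ} {l : ℕ} (hl : 3 ≤ l) : sb δ l ≤ (l : ℝ) ^ (1 - δ) := by
  unfold sb
  rw [if_neg (by omega)]
  exact div_le_self (Real.rpow_nonneg (by positivity) _) (T4_one_le_log hl)

lemma T4_sb_le_one {δ : ℝ} (hδ : 1 < δ) (l : ℕ) : sb δ l ≤ 1 := by
  by_cases hl : l < 3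
  · unfold sb
    rw [if_pos hl]
  · refine (T4_sb_le (by omega)).trans ?_
    refine Real.rpow_le_one_of_one_le_of_nonpos ?_ (by linarith)
    have : 1 ≤ l := by omega
    exact_mod_cast this

lemma T4_sb_tendsto {δ : ℝ} (hδ : 1 < δ) : Tendsto (sb δ) atTop (𝓝 0) := by
  have h1 : Tendsto (fun l : ℕ => (l : ℝ) ^ (-(δ - 1))) atTop (𝓝 0) :=
    (tendsto_rpow_neg_atTop (by linarith)).comp tendsto_natCast_atTop_atTop
  refine squeeze_zero' (Eventually.of_forall fun l => T4_sb_nonneg δ l) ?_ h1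
  filter_upwards [eventually_ge_atTop 3] with l hl
  have := T4_sb_le (δ := δ) hl
  rwa [show -(δ - 1) = 1 - δ by ring]

lemma T4_log_log_pos {l : ℕ} (hl : 16 ≤ l) : 0 ≤ Real.log (Real.log l) :=
  Real.log_nonneg (T4_one_le_log (by omega))

lemma T4_ll_nonneg (l : ℕ) : 0 ≤ ll l := by
  unfold ll
  split_ifs with hl
  · norm_num
  · exact T4_log_log_pos (by omega)

lemma T4_ll_le (l : ℕ) : |ll l| ≤ 1 * ((l : ℝ) + 1) ^ 1 := by
  rw [abs_of_nonneg (T4_ll_nonneg l), one_mul, pow_one]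
  unfold ll
  split_ifs with hl
  · have : (0 : ℝ) ≤ l := Nat.cast_nonneg l
    linarith
  · have h1 : 0 ≤ Real.log l := by linarith [T4_one_le_log (l := l) (by omega)]
    have h2 := Real.log_le_self h1
    have h3 := Real.log_le_self (Nat.cast_nonneg (α := ℝ) l)
    linarith

lemma T4_ll_tendsto : Tendsto (fun l => ENNReal.ofReal (ll l)) atTop (𝓝 ⊤) := by
  refine ENNReal.tendsto_ofReal_atTop.comp ?_
  have h1 : Tendsto (fun l : ℕ => Real.log (Real.log l)) atTop atTop :=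
    Real.tendsto_log_atTop.comp (Real.tendsto_log_atTop.comp tendsto_natCast_atTop_atTop)
  refine h1.congr' ?_
  filter_upwards [eventually_ge_atTop 16] with l hl
  unfold ll
  rw [if_neg (by omega)]

lemma T4_pw_nonneg (a : ℝ) (l : ℕ) : 0 ≤ pw a l := by
  unfold pw
  split_ifs
  · norm_num
  · exact Real.rpow_nonneg (Nat.cast_nonneg l) _

lemma T4_pw_le_one {a : ℝ} (ha : a ≤ 0) (l : ℕ) : pw a l ≤ 1 := by
  unfold pw
  split_ifs with hl
  · exact le_rfl
  · refine Real.rpow_le_one_of_one_le_of_nonpos ?_ ha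
    have : 1 ≤ l := by omega
    exact_mod_cast this

/-- survival -/
lemma BLP.T4_survive (h : BLP r ρ ν) (h1 : ν < 2 * ρ) : hx r 1 < 1 := by
  set a : ℝ := (2 * ρ / ν - 1) / 2 with ha
  have hν := h.ν_pos
  have hδ : 1 < 2 * ρ / ν := by rw [lt_div_iff₀ hν]; linarith
  have ha0 : 0 < a := by rw [ha]; linarith
  have hcond : -a * (2 * ρ + ν * (-a - 1)) < 0 := by
    have h2 : 0 < 2 * ρ + ν * (-a - 1) := by
      have e : 2 * ρ = ν * (2 * ρ / ν) := by field_simp
      have : 2 * ρ + ν * (-a - 1) = ν * a := by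
        rw [ha]; nth_rw 1 [e]; ring
      rw [this]; positivity
    have := mul_pos ha0 h2
    linarith [neg_mul a (2 * ρ + ν * (-a - 1))]
  obtain ⟨c, k0, hc, hk0⟩ := h.lyap_pow (-a) hcond
  set K : ℕ := max k0 1 with hK
  have hK1 : (1 : ℝ) ≤ K := by
    have : 1 ≤ K := le_max_right _ _
    exact_mod_cast this
  have hK0 : (0 : ℝ) < K := by linarith
  set F : ℕ → ℝ := fun k => (K : ℝ) ^ a * pw (-a) k with hF
  have hF0 : ∀ k, 0 ≤ F k := fun k => mul_nonneg (Real.rpow_nonneg hK0.le _) (T4_pw_nonneg _ _)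
  have hFle : ∀ l : ℕ, |F l| ≤ (K : ℝ) ^ a * ((l : ℝ) + 1) ^ 0 := by
    intro l
    rw [abs_of_nonneg (hF0 l), pow_zero]
    exact mul_le_mul_of_nonneg_left (T4_pw_le_one (by linarith) l) (Real.rpow_nonneg hK0.le _)
  have hF1 : ∀ j, j < K → 1 ≤ ENNReal.ofReal (F j) := by
    intro j hj
    rw [ENNReal.one_le_ofReal, hF]
    simp only
    unfold pw
    split_ifs with hj0
    · rw [mul_one]
      exact Real.one_le_rpow hK1 ha0.le
    · have hj1 : (0 : ℝ) < j := by exact_mod_cast Nat.pos_of_ne_zero hj0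
      have hjK : (j : ℝ) ≤ K := by exact_mod_cast hj.le
      rw [Real.rpow_neg hj1.le, ← div_eq_mul_inv, one_le_div (Real.rpow_pos_of_pos hj1 _)]
      exact Real.rpow_le_rpow hj1.le hjK ha0.le
  have hq : ∀ n k, Qn (kr r) n k 0 ≤ ENNReal.ofReal (F k) := by
    intro n k
    refine h.Qn_le_of_super (fun k => ENNReal.ofReal (F k)) K hF1 ?_
      (hF1 0 (lt_of_lt_of_le one_pos (le_max_right _ _))) n k
    · intro j hj
      have e := h.tsum_kr_mul F hF0 _ 0 hFle j
      rw [e]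
      apply ENNReal.ofReal_le_ofReal
      have h3 := hk0 j ((le_max_left _ _).trans hj)
      have h4 : ∑' l, r j l * F l = (K : ℝ) ^ a * ∑' l, r j l * pw (-a) l := by
        rw [← tsum_mul_left]
        refine tsum_congr fun l => ?_
        rw [hF]; ring
      rw [h4, hF]
      refine mul_le_mul_of_nonneg_left ?_ (Real.rpow_nonneg hK0.le _)
      have h5 : 0 ≤ c * (j : ℝ) ^ (-a - 1) :=
        mul_nonneg hc.le (Real.rpow_nonneg (Nat.cast_nonneg j) _)
      linarith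
  -- `F k → 0`
  have hlim : Tendsto F atTop (𝓝 0) := by
    have h2 : Tendsto (fun l : ℕ => (K : ℝ) ^ a * (l : ℝ) ^ (-a)) atTop (𝓝 0) := by
      have := ((tendsto_rpow_neg_atTop ha0).comp tendsto_natCast_atTop_atTop).const_mul
        ((K : ℝ) ^ a) (f := fun l : ℕ => ((fun x : ℝ => x ^ (-a)) ∘ (Nat.cast : ℕ → ℝ)) l)
      simpa using this
    refine h2.congr' ?_
    filter_upwards [eventually_ge_atTop 1] with l hl
    rw [hF]
    simp only
    unfold pw
    rw [if_neg (by omega)]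
  obtain ⟨k, hk, hk1⟩ := ((hlim.eventually (gt_mem_nhds (show (0 : ℝ) < 1 / 2 by norm_num))).and
    (eventually_ge_atTop 1)).exists
  have hhk : hx r k ≤ ENNReal.ofReal (1 / 2) := by
    refine iSup_le fun n => (hq n k).trans (ENNReal.ofReal_le_ofReal hk.le)
  have hhalf : ENNReal.ofReal (1 / 2) = 1 / 2 := by
    rw [ENNReal.ofReal_div_of_pos (by norm_num)]; simp
  rw [hhalf] at hhk
  -- conclusion
  have hkr : kr r 1 k ≠ 0 := by
    have := h.pos 1 k le_rfl
    unfold kr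
    rw [Ne, ENNReal.ofReal_eq_zero, not_le]
    exact this
  have key : hx r 1 + kr r 1 k * (1 / 2) ≤ 1 := by
    refine le_trans ?_ (h.kr_sum 1).le
    rw [← h.hx_eq 1]
    have e : kr r 1 k * (1 / 2) = ∑' l, (if l = k then kr r 1 k * (1 / 2) else 0) := by
      rw [tsum_ite_eq]
    rw [e, ← ENNReal.tsum_add]
    refine ENNReal.tsum_le_tsum fun l => ?_
    by_cases hl : l = k
    · rw [if_pos hl, hl, ← mul_add]
      calc kr r 1 k * (hx r k + 1 / 2) ≤ kr r 1 k * (1 / 2 + 1 / 2) := by gcongr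
        _ = kr r 1 k := by rw [ENNReal.add_halves, mul_one]
    · rw [if_neg hl, add_zero]
      calc kr r 1 l * hx r l ≤ kr r 1 l * 1 := by gcongr; exact h.hx_le_one l
        _ = kr r 1 l := mul_one _
  have hne : kr r 1 k * (1 / 2) ≠ 0 := mul_ne_zero hkr (by simp)
  have hfin : hx r 1 ≠ ⊤ := ne_top_of_le_ne_top ENNReal.one_ne_top (h.hx_le_one 1)
  exact lt_of_lt_of_le (ENNReal.lt_add_right hfin hne) key

/-- the extinction probability as a real number -/
noncomputable def T4_H (r : ℕ → ℕ → ℝ) (k : ℕ) : ℝ := (hx r k).toReal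

lemma BLP.T4_hx_ne_top (h : BLP r ρ ν) (k : ℕ) : hx r k ≠ ⊤ :=
  ne_top_of_le_ne_top ENNReal.one_ne_top (h.hx_le_one k)

lemma BLP.T4_ofReal_H (h : BLP r ρ ν) (k : ℕ) : ENNReal.ofReal (T4_H r k) = hx r k :=
  ENNReal.ofReal_toReal (h.T4_hx_ne_top k)

lemma T4_H_nonneg (k : ℕ) : 0 ≤ T4_H r k := ENNReal.toReal_nonneg

lemma BLP.T4_H_le_one (h : BLP r ρ ν) (k : ℕ) : T4_H r k ≤ 1 := by
  have := ENNReal.toReal_mono ENNReal.one_ne_top (h.hx_le_one k)
  simpa [T4_H] using this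

lemma BLP.T4_H_zero (h : BLP r ρ ν) : T4_H r 0 = 1 := by
  unfold T4_H; rw [h.hx_zero]; simp

lemma BLP.T4_H_pos (h : BLP r ρ ν) (k : ℕ) : 0 < T4_H r k := by
  rcases Nat.eq_zero_or_pos k with hk | hk
  · rw [hk, h.T4_H_zero]; norm_num
  · unfold T4_H
    refine ENNReal.toReal_pos ?_ (h.T4_hx_ne_top k)
    intro h0
    have h2 := h.hx_ge k
    rw [h0, nonpos_iff_eq_zero] at h2
    unfold kr at h2
    rw [ENNReal.ofReal_eq_zero] at h2
    exact absurd (h.pos k 0 hk) (not_lt.2 h2)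

lemma BLP.T4_H_eq (h : BLP r ρ ν) (k : ℕ) : ∑' l, r k l * T4_H r l = T4_H r k := by
  have e := h.hx_eq k
  have e2 : (∑' l, kr r k l * hx r l).toReal = ∑' l, (kr r k l * hx r l).toReal := by
    refine ENNReal.tsum_toReal_eq fun l => ?_
    exact ENNReal.mul_ne_top ENNReal.ofReal_ne_top (h.T4_hx_ne_top l)
  rw [e] at e2
  change T4_H r k = _ at e2
  rw [e2]
  refine tsum_congr fun l => ?_
  rw [ENNReal.toReal_mul]
  unfold kr T4_H
  rw [ENNReal.toReal_ofReal (h.nonneg k l)]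

lemma BLP.T4_min (h : BLP r ρ ν) (K : ℕ) : ∃ ε : ℝ, 0 < ε ∧ ∀ j, j < K → ε ≤ T4_H r j := by
  induction K with
  | zero => exact ⟨1, one_pos, fun j hj => absurd hj (Nat.not_lt_zero j)⟩
  | succ K ih =>
    obtain ⟨ε, hε, hK⟩ := ih
    refine ⟨min ε (T4_H r K), lt_min hε (h.T4_H_pos K), fun j hj => ?_⟩
    rcases Nat.lt_succ_iff_lt_or_eq.1 hj with hj | hj
    · exact (min_le_left _ _).trans (hK j hj)
    · rw [hj]; exact min_le_right _ _

/-- lower bound for the extinction probability -/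
lemma BLP.T4_lower (h : BLP r ρ ν) (h1 : ν < 2 * ρ) :
    ∃ c : ℝ, 0 < c ∧ ∀ k, c * sb (2 * ρ / ν) k ≤ T4_H r k := by
  have hν := h.ν_pos
  set δ : ℝ := 2 * ρ / ν with hδd
  have hδ : 1 < δ := by rw [hδd, lt_div_iff₀ hν]; linarith
  obtain ⟨k0, hk0⟩ := h.lyap_sb h1
  rw [← hδd] at hk0
  obtain ⟨c, hc, hcK⟩ := h.T4_min (max k0 1)
  refine ⟨c, hc, ?_⟩
  set d : ℕ → ℝ := fun k => c * sb δ k - T4_H r k with hd
  have hsmall : ∀ j, j < max k0 1 → d j ≤ 0 := by
    intro j hj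
    have h2 := hcK j hj
    have h3 := T4_sb_le_one hδ j
    have h4 : c * sb δ j ≤ c * 1 := mul_le_mul_of_nonneg_left h3 hc.le
    rw [hd]
    simp only
    linarith
  suffices hd0 : ∀ k, d k ≤ 0 by
    intro k
    have := hd0 k
    rw [hd] at this
    simp only at this
    linarith
  intro k1
  by_contra hk1
  push Not at hk1
  -- `d k < d k1` for large `k`
  have hlim : Tendsto (fun k => c * sb δ k) atTop (𝓝 0) := by
    simpa using (T4_sb_tendsto hδ).const_mul c
  obtain ⟨M, hM⟩ := eventually_atTop.1 (hlim.eventually (gt_mem_nhds hk1))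
  obtain ⟨ks, hks, hmax⟩ := Finset.exists_max_image (Finset.range (max M (k1 + 1))) d
    ⟨k1, Finset.mem_range.2 (lt_of_lt_of_le (Nat.lt_succ_self k1) (le_max_right _ _))⟩
  have hge : d k1 ≤ d ks :=
    hmax k1 (Finset.mem_range.2 (lt_of_lt_of_le (Nat.lt_succ_self k1) (le_max_right _ _)))
  have hall : ∀ k, d k ≤ d ks := by
    intro k
    by_cases hk : k < max M (k1 + 1)
    · exact hmax k (Finset.mem_range.2 hk)
    · have h2 : M ≤ k := (le_max_left _ _).trans (not_lt.1 hk)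
      have h3 := hM k h2
      have h4 := T4_H_nonneg (r := r) k
      have : d k < d k1 := by
        rw [hd] at h3 ⊢
        simp only at h3 ⊢
        linarith
      exact this.le.trans hge
  have hpos : 0 < d ks := lt_of_lt_of_le hk1 hge
  have hksK : max k0 1 ≤ ks := by
    by_contra hlt
    push Not at hlt
    exact absurd hpos (not_lt.2 (hsmall ks hlt))
  have hks0 : k0 ≤ ks := (le_max_left _ _).trans hksK
  have hks1 : 1 ≤ ks := (le_max_right _ _).trans hksK
  -- summability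
  have s1 : Summable fun l => r ks l * sb δ l := by
    refine h.summable (sb δ) 1 0 (fun l => ?_) ks
    rw [abs_of_nonneg (T4_sb_nonneg δ l), pow_zero, mul_one]
    exact T4_sb_le_one hδ l
  have s2 : Summable fun l => r ks l * T4_H r l := by
    refine h.summable (T4_H r) 1 0 (fun l => ?_) ks
    rw [abs_of_nonneg (T4_H_nonneg l), pow_zero, mul_one]
    exact h.T4_H_le_one l
  have s3 : Summable fun l => r ks l * d l := by
    have := (s1.mul_left c).sub s2
    refine this.congr fun l => ?_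
    rw [hd]; ring
  have e3 : ∑' l, r ks l * d l = c * ∑' l, r ks l * sb δ l - ∑' l, r ks l * T4_H r l := by
    rw [← tsum_mul_left, ← (s1.mul_left c).tsum_sub s2]
    refine tsum_congr fun l => ?_
    rw [hd]; ring
  have hsub : d ks ≤ ∑' l, r ks l * d l := by
    rw [e3, h.T4_H_eq]
    have h2 := mul_le_mul_of_nonneg_left (hk0 ks hks0) hc.le
    rw [hd]
    simp only
    linarith
  have s4 : Summable fun l => r ks l * d ks := (h.sum ks).summable.mul_right _
  have e4 : ∑' l, r ks l * d ks = d ks := by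
    rw [tsum_mul_right, (h.sum ks).tsum_eq, one_mul]
  have hlt : ∑' l, r ks l * d l < ∑' l, r ks l * d ks := by
    refine Summable.tsum_lt_tsum (i := 0) (fun l => ?_) ?_ s3 s4
    · exact mul_le_mul_of_nonneg_left (hall l) (h.nonneg ks l)
    · refine mul_lt_mul_of_pos_left ?_ (h.pos ks 0 hks1)
      exact lt_of_le_of_lt (hsmall 0 (lt_of_lt_of_le one_pos (le_max_right _ _))) hpos
  rw [e4] at hlt
  exact absurd hsub (not_le.2 hlt)

/-- the growth inequality -/
lemma BLP.T4_ineq (h : BLP r ρ ν) (h1 : ν < 2 * ρ) (h3 : 2 * ρ ≤ 3 * ν) :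
    ∃ C : ℝ, 0 ≤ C ∧ ∀ j : ℕ, ∑' l, kr r j l * ENNReal.ofReal (ll l) ≤
      ENNReal.ofReal (ll j) + ENNReal.ofReal C * ((j : ℝ≥0∞) * hx r j) := by
  have hν := h.ν_pos
  obtain ⟨c, hc, hlow⟩ := h.T4_lower h1
  set δ : ℝ := 2 * ρ / ν with hδd
  have hδ3 : δ ≤ 3 := by rw [hδd, div_le_iff₀ hν]; linarith
  obtain ⟨C, k0, hC, hk3, hll⟩ := h.lyap_ll'
  obtain ⟨ε, hε, hεk⟩ := h.T4_min k0
  set S : ℕ → ℝ := fun j => ∑' l, r j l * ll l with hS
  have hS0 : ∀ j, 0 ≤ S j := fun j =>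
    tsum_nonneg fun l => mul_nonneg (h.nonneg j l) (T4_ll_nonneg l)
  set B : ℝ := ∑ j ∈ Finset.range k0, S j with hB
  have hB0 : 0 ≤ B := Finset.sum_nonneg fun j _ => hS0 j
  refine ⟨C / c + B / ε, by positivity, ?_⟩
  intro j
  have e := h.tsum_kr_mul ll T4_ll_nonneg 1 1 T4_ll_le j
  rw [e]
  rcases Nat.eq_zero_or_pos j with hj | hj
  · subst hj
    rw [← e, tsum_eq_single 0 (fun l hl => by rw [h.kr_zero l hl, zero_mul]), h.kr_zero', one_mul]
    exact le_add_of_nonneg_right zero_le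
  have hj0 : (0 : ℝ) < j := by exact_mod_cast hj
  have hcast : (j : ℝ≥0∞) * hx r j = ENNReal.ofReal (j * T4_H r j) := by
    rw [ENNReal.ofReal_mul hj0.le, h.T4_ofReal_H, ENNReal.ofReal_natCast]
  have hjH : 0 ≤ (j : ℝ) * T4_H r j := mul_nonneg hj0.le (T4_H_nonneg j)
  rw [hcast, ← ENNReal.ofReal_mul (by positivity), ← ENNReal.ofReal_add (T4_ll_nonneg j)
    (by positivity)]
  apply ENNReal.ofReal_le_ofReal
  by_cases hjk : j < k0
  · -- small `j`
    have h4 : S j ≤ B := Finset.single_le_sum (fun i _ => hS0 i) (Finset.mem_range.2 hjk)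
    have h5 : ε ≤ (j : ℝ) * T4_H r j := by
      have h6 : (1 : ℝ) ≤ j := by exact_mod_cast hj
      have h7 := hεk j hjk
      calc ε ≤ T4_H r j := h7
        _ = 1 * T4_H r j := (one_mul _).symm
        _ ≤ j * T4_H r j := mul_le_mul_of_nonneg_right h6 (T4_H_nonneg j)
    have h6 : B ≤ B / ε * (j * T4_H r j) := by
      calc B = B / ε * ε := by field_simp
        _ ≤ B / ε * (j * T4_H r j) := mul_le_mul_of_nonneg_left h5 (by positivity)
    have h7 : 0 ≤ C / c * (j * T4_H r j) := mul_nonneg (by positivity) hjH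
    have h8 := T4_ll_nonneg j
    change S j ≤ _
    nlinarith
  · -- large `j`
    push Not at hjk
    have h4 := hll j hjk
    have hj3 : 3 ≤ j := hk3.trans hjk
    have hlog : 1 ≤ Real.log j := T4_one_le_log hj3
    have hlog0 : 0 < Real.log j := by linarith
    have h5 : c / (j * Real.log j) ≤ j * T4_H r j := by
      have h6 := hlow j
      have h7 : (j : ℝ) ^ (-2 : ℝ) / Real.log j ≤ sb δ j := by
        unfold sb
        rw [if_neg (by omega)]
        refine div_le_div_of_nonneg_right ?_ hlog0.le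
        refine Real.rpow_le_rpow_of_exponent_le ?_ (by linarith)
        exact_mod_cast hj
      have h8 : (j : ℝ) ^ (-2 : ℝ) = 1 / (j * j) := by
        rw [Real.rpow_neg hj0.le, one_div, ← sq]
        norm_num
      calc c / (j * Real.log j) = j * (c * (1 / (j * j) / Real.log j)) := by
            field_simp
        _ ≤ j * (c * sb δ j) := by
            rw [← h8]
            exact mul_le_mul_of_nonneg_left (mul_le_mul_of_nonneg_left h7 hc.le) hj0.le
        _ ≤ j * T4_H r j := mul_le_mul_of_nonneg_left h6 hj0.le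
    have h6 : C / (j * Real.log j) ≤ C / c * (j * T4_H r j) := by
      calc C / (j * Real.log j) = C / c * (c / (j * Real.log j)) := by field_simp
        _ ≤ _ := mul_le_mul_of_nonneg_left h5 (by positivity)
    have h7 : 0 ≤ B / ε * (j * T4_H r j) := mul_nonneg (by positivity) hjH
    nlinarith

end T4

/-- T4 (row B3c). Proof: `1 < δ ≤ 3`. (a) survival: by `Qn_le_of_super` with `F = const * pw (-a')`,
`0 < a' < δ - 1`: `hx r k ≤ 1/2` for some `k ≥ 1`, and `kr r 1 k > 0`, so `hx r 1 < 1` (`hx_eq`).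
(b) lower bound: `hx r k ≥ c sb δ k` for `k ≥ 1` and some `c > 0`: `d = c sb - hx` is `≤ 0` below `k0`
(for small `c`: `hx r k ≥ kr r k 0 > 0`), subharmonic for `k ≥ k0`: `d k ≤ ∑ r k l d l` (`lyap_sb` and
`hx_eq`), and `limsup d ≤ 0`; if `sup d > 0` it is attained at some `k* ≥ k0`, and
`d k* ≤ ∑ r k* l d l < d k*` since `r k* 0 > 0`, `d 0 ≤ 0`: contradiction.
(c) So `k hx k ≥ c' / (k log k)` for `k ≥ k0` (`k * k^(1-δ) ≥ k⁻¹`) and `k hx k > 0` for `1 ≤ k`. By `lyap_ll'`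
`∑ kr j l ll l ≤ ll j + C (j hx j)` for all `j`, so by `growth`
`∑ Qn N 1 k ll k ≤ ll 1 + C ∑ n<N ∑ k Qn n 1 k (k hx k)`. If the sum was finite, `hx_one_of_bdd` would give
`hx r 1 = 1`: contradiction to (a). -/
theorem BLP.sum_eq_top (h : BLP r ρ ν) (h1 : ν < 2 * ρ) (h3 : 2 * ρ ≤ 3 * ν) :
    ∑' m, ∑' k : ℕ, (k : ℝ≥0∞) * (Qn (kr r) m 1 k * hx r k) = ⊤ := by
  by_contra hne
  obtain ⟨C, hC, hineq⟩ := h.T4_ineq h1 h3
  set S : ℝ≥0∞ := ∑' m, ∑' k : ℕ, (k : ℝ≥0∞) * (Qn (kr r) m 1 k * hx r k) with hS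
  have hx1 : hx r 1 = 1 := by
    refine h.hx_one_of_bdd (fun l => ENNReal.ofReal (ll l)) T4_ll_tendsto
      (ENNReal.ofReal (ll 1) + ENNReal.ofReal C * S) ?_ ?_
    · exact ENNReal.add_ne_top.2 ⟨ENNReal.ofReal_ne_top,
        ENNReal.mul_ne_top ENNReal.ofReal_ne_top hne⟩
    · intro N
      refine (h.growth (fun l => ENNReal.ofReal (ll l))
        (fun j => ENNReal.ofReal C * ((j : ℝ≥0∞) * hx r j)) hineq N).trans ?_
      refine add_le_add le_rfl ?_
      have e : ∀ n, ∑' k : ℕ, Qn (kr r) n 1 k * (ENNReal.ofReal C * ((k : ℝ≥0∞) * hx r k)) =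
          ENNReal.ofReal C * ∑' k : ℕ, (k : ℝ≥0∞) * (Qn (kr r) n 1 k * hx r k) := by
        intro n
        rw [← ENNReal.tsum_mul_left]
        refine tsum_congr fun k => ?_
        ring
      simp_rw [e]
      rw [← Finset.mul_sum]
      gcongr
      exact ENNReal.sum_le_tsum _
  exact absurd (h.T4_survive h1) (by rw [hx1]; exact lt_irrefl _)

end Pool.Agent.MP_3aae7f_pr
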