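import Pool.Agent.Lib.MP_3aae7f_pr.CritWalk

/-!
Row Cb: recurrence from extinction on both sides, and the lower bound for the length of right
excursions.
-/

open MeasureTheory ProbabilityTheory
open scoped ENNReal

namespace Pool.Agent.MP_3aae7f_pr

variable {N : ℕ}



/-- the probability of extinction -/
lemma cb_PP_Ext (W : Measure (ℕ → Bool)) [IsProbabilityMeasure W] (x : ℤ) (k : ℕ) :
    PP W (Ext x k) = ⨆ n, Qn (piW W) n k 0 := by
  rw [Ext_eq]
  have hmono : Monotone fun n => {ξ : ℤ → ℕ → Bool | iter ξ x n k = some 0} :=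
    monotone_nat_of_le_succ fun n ξ hξ => iter_mono ξ n x k hξ
  rw [hmono.measure_iUnion]
  refine iSup_congr fun n => ?_
  have := PP_iter W n x k 0 Set.univ MeasurableSet.univ (fun _ _ _ _ => by simp)
  rw [Set.inter_univ, measure_univ, mul_one] at this
  exact this

lemma cb_ae_Ext (W : Measure (ℕ → Bool)) [IsProbabilityMeasure W]
    (h1 : ∀ k, ⨆ n, Qn (piW W) n k 0 = 1) : ∀ᵐ ξ ∂(PP W), ∀ k, ξ ∈ Ext 0 k := by
  rw [ae_all_iff]
  intro k
  have h2 : PP W (Ext 0 k) = 1 := by rw [cb_PP_Ext, h1 k]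
  exact (mem_ae_iff_prob_eq_one (measurableSet_Ext 0 k)).mpr h2

/-- deterministic part of C5 -/
lemma cb_Io {ξ : ℤ → ℕ → Bool} (hg : Good ξ) (h1 : ∀ k, ξ ∈ Ext 0 k) (h2 : ∀ k, refl ξ ∈ Ext 0 k) :
    Io 0 ξ := by
  by_contra hcon
  have ht := tendsto_of_not_Io hg hcon
  unfold Io at hcon
  push Not at hcon
  obtain ⟨M, hM⟩ := hcon
  have hc : ∀ n, cnt ξ n 0 ≤ cnt ξ M 0 := by
    intro n
    rcases le_total n M with hn | hn
    · exact cnt_mono ξ 0 hn
    · induction n, hn using Nat.le_induction with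
      | base => exact le_rfl
      | succ n hn ih =>
        rw [cnt_succ, if_neg (fun h => hM n hn h.symm)]
        exact ih
  obtain ⟨x0, hx0⟩ := pos_le_of_Ext ξ (cnt ξ M 0) (h1 _)
  obtain ⟨x1, hx1⟩ := pos_le_of_Ext (refl ξ) (cnt ξ M 0) (h2 _)
  have hb : ∀ n, |pos ξ n| ≤ max x0 x1 := by
    intro n
    have e1 : rt ξ n 0 ≤ cnt ξ M 0 := by
      have := rt_add_lf ξ n 0
      have := hc n
      omega
    have e2 : rt (refl ξ) n 0 ≤ cnt ξ M 0 := by
      have h3 := rt_add_lf (refl ξ) n 0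
      have h4 := (refl_wk ξ n).2 0
      rw [neg_zero] at h4
      have := hc n
      omega
    have e3 := hx0 n e1
    have e4 := hx1 n e2
    rw [(refl_wk ξ n).1] at e4
    rw [abs_le]
    constructor
    · have := le_max_right x0 x1
      omega
    · exact e3.trans (le_max_left _ _)
  obtain ⟨n, hn⟩ := (Filter.tendsto_atTop.mp ht (max x0 x1 + 1)).exists
  have := hb n
  omega

/-- C5. Extinction on both sides for all initial values gives recurrence. -/
lemma ae_Io_of_extinct (W : Measure (ℕ → Bool)) [IsProbabilityMeasure W]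
    (hgood : ∀ᵐ ξ ∂(PP W), Good ξ) (h1 : ∀ k, ⨆ n, Qn (piW W) n k 0 = 1)
    (h2 : ∀ k, ⨆ n, Qn (piW (W.map flip1)) n k 0 = 1) : ∀ᵐ ξ ∂(PP W), Io 0 ξ := by
  have e1 := cb_ae_Ext W h1
  have e2 := cb_ae_Ext (W.map flip1) h2
  rw [← map_refl] at e2
  have e3 := ae_of_ae_map measurable_refl.aemeasurable e2
  filter_upwards [hgood, e1, e3] with ξ a b c
  exact cb_Io a b c

/-! ### lower bound for the length of right excursions -/

lemma cb_iter_add (ξ : ℤ → ℕ → Bool) (n : ℕ) (j : ℕ) (m : ℕ) : ∀ (x : ℤ) (k l : ℕ),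
    iter ξ x m k = some l → iter ξ (x + m) n l = some j → iter ξ x (m + n) k = some j := by
  induction m with
  | zero =>
    intro x k l h1 h2
    rw [iter_zero, Option.some.injEq] at h1
    subst h1
    simpa using h2
  | succ m ih =>
    intro x k l h1 h2
    rw [iter_succ_eq_some] at h1
    obtain ⟨i, hi1, hi2⟩ := h1
    have e : m + 1 + n = (m + n) + 1 := by ring
    rw [e, iter_succ_eq_some]
    refine ⟨i, hi1, ih (x + 1) i l hi2 ?_⟩
    have e2 : x + 1 + (m : ℤ) = x + ((m + 1 : ℕ) : ℤ) := by push_cast; ring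
    rw [e2]
    exact h2

lemma cb_Dev_subset (m k : ℕ) : Dev m k ⊆ Ext 0 1 := by
  rintro ξ ⟨h1, n, h2⟩
  refine ⟨m + n, cb_iter_add ξ n 0 m 0 1 k h1 ?_⟩
  simpa using h2

/-- a right excursion of an environment in which the process dies is finite -/
lemma cb_return {ξ : ℤ → ℕ → Bool} (hg : Good ξ) (h0 : ξ 0 0 = true) (h1 : ξ ∈ Ext 0 1) :
    ∃ n, FirstRet (fun n => pos ξ n) n := by
  classical
  by_cases hex : ∃ n, 1 ≤ n ∧ pos ξ n = 0
  · refine ⟨Nat.find hex, (Nat.find_spec hex).1, ?_, ?_⟩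
    · simp only [pos_zero]
      exact (Nat.find_spec hex).2
    · intro m hm1 hm2 hm3
      simp only [pos_zero] at hm3
      exact Nat.find_min hex hm2 ⟨hm1, hm3⟩
  · exfalso
    push Not at hex
    have hIo : ¬ Io 0 ξ := by
      intro h
      obtain ⟨n, hn1, hn2⟩ := h 1
      exact hex n hn1 hn2
    have ht := tendsto_of_not_Io hg hIo
    have hc : ∀ n, cnt ξ n 0 ≤ 1 := by
      intro n
      induction n with
      | zero => simp [cnt_zero]
      | succ n ih =>
        rw [cnt_succ]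
        rcases Nat.eq_zero_or_pos n with h | h
        · subst h
          rw [pos_zero, if_pos rfl, cnt_zero]
        · rw [if_neg (fun h' => hex n h h'.symm)]
          exact ih
    obtain ⟨x0, hx0⟩ := pos_le_of_Ext ξ 1 h1
    have hpos : ∀ n, 1 ≤ pos ξ (n + 1) := by
      intro n
      induction n with
      | zero =>
        rw [pos_succ, pos_zero, cnt_zero, if_pos h0]
        norm_num
      | succ n ih =>
        have h3 := hex (n + 1 + 1) (by omega)
        rcases pos_succ_or ξ (n + 1) with h | h <;> omega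
    have hb : ∀ n, |pos ξ (n + 1)| ≤ x0 := by
      intro n
      have e1 : rt ξ (n + 1) 0 ≤ 1 := by
        have := rt_add_lf ξ (n + 1) 0
        have := hc (n + 1)
        omega
      have e2 := hx0 (n + 1) e1
      have e3 := hpos n
      rw [abs_of_pos (by omega)]
      exact e2
    have h4 := (Filter.tendsto_add_atTop_iff_nat 1).mpr ht
    obtain ⟨n, hn⟩ := (Filter.tendsto_atTop.mp h4 (x0 + 1)).exists
    have := hb n
    omega

lemma cb_sum_le (ξ : ℤ → ℕ → Bool) (n : ℕ) (h : FirstRet (fun n => pos ξ n) n)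
    (h0 : ξ 0 0 = true) :
    ∑' m : ℕ, ∑' k : ℕ, (Dev m k).indicator (fun _ => 2 * (k : ℝ≥0∞)) ξ ≤ (n : ℝ≥0∞) := by
  have hc := cnt_first ξ n h
  obtain ⟨h1, h2, -⟩ := h
  simp only [pos_zero] at h2
  have hr : rt ξ n 0 = 1 := by
    unfold rt; rw [hc, nT_succ, nT_zero, if_pos h0]
  have hl : lf ξ n 0 = 0 := by
    unfold lf; rw [hc, nF_succ, nF_zero, if_pos h0]
  have hex := excursion_length ξ n h2 hl
  have hex' : (n : ℝ≥0∞) = ∑ m ∈ Finset.range (n + 1), 2 * (rt ξ n (m : ℤ) : ℝ≥0∞) := by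
    rw [← Finset.mul_sum]
    have : n = 2 * ∑ m ∈ Finset.range (n + 1), rt ξ n (m : ℤ) := by exact_mod_cast hex
    exact_mod_cast this
  have hm : ∀ m : ℕ, ∑' k : ℕ, (Dev m k).indicator (fun _ => 2 * (k : ℝ≥0∞)) ξ ≤
      2 * (rt ξ n (m : ℤ) : ℝ≥0∞) := by
    intro m
    have hit := iter_eq_rt ξ n h2 0 m
    simp only [Nat.cast_zero, zero_add, hr] at hit
    rw [tsum_eq_single (rt ξ n (m : ℤ))]
    · exact Set.indicator_le_self' (fun _ _ => zero_le) ξ
    · intro k hk
      apply Set.indicator_of_notMem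
      rintro ⟨hk1, -⟩
      rw [Set.mem_ofPred_eq, hit, Option.some.injEq] at hk1
      exact hk hk1.symm
  have hz : ∀ m : ℕ, m ∉ Finset.range (n + 1) →
      ∑' k : ℕ, (Dev m k).indicator (fun _ => 2 * (k : ℝ≥0∞)) ξ = 0 := by
    intro m hmn
    rw [Finset.mem_range, not_lt] at hmn
    have e1 : cnt ξ n (m : ℤ) = 0 := by
      apply cnt_eq_zero
      · rw [abs_of_nonneg (by positivity)]
        exact_mod_cast (by omega : n ≤ m)
      · left; omega
    have e2 := rt_add_lf ξ n (m : ℤ)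
    have e3 : rt ξ n (m : ℤ) = 0 := by omega
    have e4 := hm m
    rw [e3] at e4
    simpa using e4
  rw [tsum_eq_sum hz, hex']
  exact Finset.sum_le_sum fun m _ => hm m

lemma cb_measurableSet_ret :
    MeasurableSet {ξ : ℤ → ℕ → Bool | retPath (fun n => pos ξ n) < ⊤ ∧ ξ 0 0 = true} := by
  refine MeasurableSet.inter ?_ ?_
  · exact measurable_path measurableSet_retPath_lt
  · exact (measurableSet_singleton true).preimage
      ((measurable_pi_apply 0).comp (measurable_pi_apply 0))

lemma cb_PP_Dev (W : Measure (ℕ → Bool)) [IsProbabilityMeasure W] (m k : ℕ) :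
    PP W (Dev m k) = Qn (piW W) m 1 k * ⨆ n, Qn (piW W) n k 0 := by
  unfold Dev
  rw [PP_iter W m 0 1 k _ (measurableSet_Ext m k), cb_PP_Ext]
  intro ξ s y hy
  simp only [Ext, Set.mem_ofPred_eq]
  refine exists_congr fun n => ?_
  rw [iter_update ξ s n m y k (by simpa using hy)]

lemma cb_PP_Dev_inter (W : Measure (ℕ → Bool)) [IsProbabilityMeasure W] (m k : ℕ) :
    PP W ({ξ | ξ 0 ∈ {s : ℕ → Bool | s 0 = true}} ∩ Dev m k) =
      W {s | s 0 = true} * PP W (Dev m k) := by
  apply PP_inter W 0 _ _ _ (measurableSet_Dev m k)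
  · intro ξ s
    unfold Dev
    simp only [Set.mem_inter_iff, Set.mem_ofPred_eq, Ext]
    rw [iter_update ξ s m 0 0 1 le_rfl]
    refine and_congr_right fun _ => exists_congr fun n => ?_
    rw [iter_update ξ s n m 0 k (by positivity)]
  · exact (measurableSet_singleton true).preimage (measurable_pi_apply 0)

/-- C6. Lower bound for the length of right excursions. -/
lemma moment_right_eq_top (W : Measure (ℕ → Bool)) [IsProbabilityMeasure W]
    (hgood : ∀ᵐ ξ ∂(PP W), Good ξ) (hW : W {s | s 0 = true} ≠ 0)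
    (hsum : ∑' m, ∑' k : ℕ, (k : ℝ≥0∞) * (Qn (piW W) m 1 k * ⨆ n, Qn (piW W) n k 0) = ⊤) :
    ∫⁻ ξ in {ξ | retPath (fun n => pos ξ n) < ⊤ ∧ ξ 0 0 = true},
      (retPath (fun n => pos ξ n) : ℝ≥0∞) ∂(PP W) = ⊤ := by
  have hms1 : MeasurableSet {ξ : ℤ → ℕ → Bool | ξ 0 0 = true} :=
    (measurableSet_singleton true).preimage ((measurable_pi_apply 0).comp (measurable_pi_apply 0))
  rw [eq_top_iff]
  calc (⊤ : ℝ≥0∞) = W {s | s 0 = true} * (2 * ∑' m : ℕ, ∑' k : ℕ,
        (k : ℝ≥0∞) * (Qn (piW W) m 1 k * ⨆ n, Qn (piW W) n k 0)) := by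
        rw [hsum, ENNReal.mul_top (by norm_num), ENNReal.mul_top hW]
    _ = ∑' m : ℕ, ∑' k : ℕ, 2 * (k : ℝ≥0∞) *
        PP W ({ξ | ξ 0 ∈ {s : ℕ → Bool | s 0 = true}} ∩ Dev m k) := by
        rw [← ENNReal.tsum_mul_left, ← ENNReal.tsum_mul_left]
        refine tsum_congr fun m => ?_
        rw [← ENNReal.tsum_mul_left, ← ENNReal.tsum_mul_left]
        refine tsum_congr fun k => ?_
        rw [cb_PP_Dev_inter, cb_PP_Dev]
        ring
    _ = ∫⁻ ξ in {ξ : ℤ → ℕ → Bool | ξ 0 0 = true},
        ∑' m : ℕ, ∑' k : ℕ, (Dev m k).indicator (fun _ => 2 * (k : ℝ≥0∞)) ξ ∂(PP W) := by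
        rw [lintegral_tsum]
        · refine tsum_congr fun m => ?_
          rw [lintegral_tsum]
          · refine tsum_congr fun k => ?_
            rw [lintegral_indicator_const (measurableSet_Dev m k),
              Measure.restrict_apply (measurableSet_Dev m k), Set.inter_comm]
            rfl
          · intro k
            exact (measurable_const.indicator (measurableSet_Dev m k)).aemeasurable
        · intro m
          refine (Measurable.tsum fun k => ?_).aemeasurable
          exact measurable_const.indicator (measurableSet_Dev m k)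
    _ ≤ ∫⁻ ξ in {ξ | retPath (fun n => pos ξ n) < ⊤ ∧ ξ 0 0 = true},
      (retPath (fun n => pos ξ n) : ℝ≥0∞) ∂(PP W) := by
        rw [← lintegral_indicator hms1, ← lintegral_indicator cb_measurableSet_ret]
        refine lintegral_mono_ae ?_
        filter_upwards [hgood] with ξ hξ
        by_cases h0 : ξ 0 0 = true
        · rw [Set.indicator_of_mem (by exact h0)]
          by_cases h1 : ξ ∈ Ext 0 1
          · obtain ⟨n, hn⟩ := cb_return hξ h0 h1
            have hret := (retPath_eq_coe_iff _ n).mpr hn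
            rw [Set.indicator_of_mem]
            · rw [hret]
              exact cb_sum_le ξ n hn h0
            · exact ⟨(retPath_lt_top_iff _).mpr ⟨n, hn⟩, h0⟩
          · have hz : ∑' m : ℕ, ∑' k : ℕ, (Dev m k).indicator (fun _ => 2 * (k : ℝ≥0∞)) ξ = 0 := by
              rw [ENNReal.tsum_eq_zero]
              intro m
              rw [ENNReal.tsum_eq_zero]
              intro k
              exact Set.indicator_of_notMem (fun h => h1 (cb_Dev_subset m k h)) _
            rw [hz]
            exact zero_le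
        · rw [Set.indicator_of_notMem (by exact h0)]
          exact zero_le

end Pool.Agent.MP_3aae7f_pr
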