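import Pool.Agent.Lib.MP_3aae7f_pr.Trans

/-!
The law of an excited random walk is the law of the arrow walk.
-/

open MeasureTheory ProbabilityTheory
open scoped ENNReal

namespace Pool.Agent.MP_3aae7f_pr

variable {N : ℕ}

/-! ### deterministic facts -/

lemma cnt_congr {ξ ξ' : ℤ → ℕ → Bool} (n : ℕ) (h : ∀ k < n, pos ξ k = pos ξ' k) (x : ℤ) :
    cnt ξ n x = cnt ξ' n x := by
  rw [cnt_eq_card, cnt_eq_card]
  congr 1
  apply Finset.filter_congr
  intro k hk
  rw [h k (Finset.mem_range.mp hk)]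

lemma agree_iff (ξ ξ' : ℤ → ℕ → Bool) (n : ℕ) :
    (∀ x, ∀ j < cnt ξ' n x, ξ x j = ξ' x j) ↔ ∀ k ≤ n, pos ξ k = pos ξ' k := by
  induction n with
  | zero =>
    simp only [cnt_zero]
    constructor
    · intro _ k hk
      obtain rfl : k = 0 := by omega
      rw [pos_zero, pos_zero]
    · intro _ x j hj
      omega
  | succ n ih =>
    constructor
    · intro h
      have h1 : ∀ x, ∀ j < cnt ξ' n x, ξ x j = ξ' x j := fun x j hj =>
        h x j (lt_of_lt_of_le hj (cnt_mono ξ' x (Nat.le_succ n)))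
      have h2 := ih.mp h1
      intro k hk
      rcases Nat.lt_or_ge k (n + 1) with hk' | hk'
      · exact h2 k (by omega)
      · obtain rfl : k = n + 1 := by omega
        rw [pos_succ, pos_succ, h2 n le_rfl, cnt_congr n (fun k hk => h2 k hk.le)]
        rw [h (pos ξ' n) (cnt ξ' n (pos ξ' n)) (by rw [cnt_succ, if_pos rfl]; omega)]
    · intro h x j hj
      have h2 : ∀ k ≤ n, pos ξ k = pos ξ' k := fun k hk => h k (by omega)
      have h1 := ih.mpr h2
      rw [cnt_succ] at hj
      by_cases hx : x = pos ξ' n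
      · rw [if_pos hx] at hj
        rcases Nat.lt_or_ge j (cnt ξ' n x) with hj' | hj'
        · exact h1 x j hj'
        · obtain rfl : j = cnt ξ' n x := by omega
          have h3 := h (n + 1) le_rfl
          rw [pos_succ, pos_succ, h2 n le_rfl, cnt_congr n (fun k hk => h2 k hk.le)] at h3
          rw [hx]
          cases h4 : ξ (pos ξ' n) (cnt ξ' n (pos ξ' n)) <;>
            cases h5 : ξ' (pos ξ' n) (cnt ξ' n (pos ξ' n)) <;> simp [h4, h5] at h3 ⊢ <;> omega
      · rw [if_neg hx] at hj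
        exact h1 x j hj

lemma prevVisits_lt {γ : ℕ → ℤ} {k n : ℕ} (hkn : k < n) (h : γ k = γ n) :
    prevVisits γ k < prevVisits γ n := by
  unfold prevVisits
  apply Finset.card_lt_card
  rw [Finset.ssubset_iff_of_subset]
  · refine ⟨k, ?_, ?_⟩
    · simp [hkn, h]
    · simp
  · intro i hi
    simp only [Finset.mem_filter, Finset.mem_range] at hi ⊢
    exact ⟨by omega, by rw [hi.2, h]⟩

open Classical in
/-- every nearest-neighbour path from `0` is driven by some arrows -/
lemma exists_arrows (γ : ℕ → ℤ) (h0 : γ 0 = 0) (hs : ∀ n, γ (n + 1) = γ n + 1 ∨ γ (n + 1) = γ n - 1) :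
    ∃ ξ : ℤ → ℕ → Bool, ∀ n, pos ξ n = γ n := by
  set ξ : ℤ → ℕ → Bool := fun x j =>
    decide (∃ k, γ k = x ∧ prevVisits γ k = j ∧ γ (k + 1) = x + 1) with hξ
  refine ⟨ξ, ?_⟩
  have key : ∀ n, ∀ k ≤ n, pos ξ k = γ k := by
    intro n
    induction n with
    | zero =>
      intro k hk
      obtain rfl : k = 0 := by omega
      rw [pos_zero, h0]
    | succ n ih =>
      intro k hk
      rcases Nat.lt_or_ge k (n + 1) with hk' | hk'
      · exact ih k (by omega)
      · obtain rfl : k = n + 1 := by omega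
        have hc : cnt ξ n (pos ξ n) = prevVisits γ n := by
          rw [cnt_eq_card, prevVisits, ih n le_rfl]
          congr 1
          apply Finset.filter_congr
          intro k hk
          rw [ih k (Finset.mem_range.mp hk).le]
        rw [pos_succ, hc, ih n le_rfl]
        by_cases hb : γ (n + 1) = γ n + 1
        · rw [if_pos, hb]
          rw [hξ]
          simp only [decide_eq_true_eq]
          exact ⟨n, rfl, rfl, hb⟩
        · rw [if_neg]
          · exact ((hs n).resolve_left hb).symm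
          · rw [hξ]
            simp only [decide_eq_true_eq]
            rintro ⟨k, hk1, hk2, hk3⟩
            have hkn : k = n := by
              rcases lt_trichotomy k n with h1 | h1 | h1
              · have := prevVisits_lt h1 hk1
                omega
              · exact h1
              · have := prevVisits_lt h1 hk1.symm
                omega
            subst hkn
            exact hb hk3
  exact fun n => key n n le_rfl

/-- regrouping of the product along a path according to sites -/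
lemma prod_regroup {M : Type*} [CommMonoid M] (ξ : ℤ → ℕ → Bool) (f : ℤ → ℕ → M) (n L : ℕ) (h : n ≤ L) :
    ∏ k ∈ Finset.range n, f (pos ξ k) (cnt ξ k (pos ξ k))
      = ∏ x ∈ Finset.Icc (-(L : ℤ)) L, ∏ j ∈ Finset.range (cnt ξ n x), f x j := by
  induction n with
  | zero => simp [cnt_zero]
  | succ n ih =>
    have h1 := abs_pos_le ξ n
    rw [abs_le] at h1
    have hmem : pos ξ n ∈ Finset.Icc (-(L : ℤ)) L := by
      rw [Finset.mem_Icc]; omega
    have h2 : ∀ x, ∏ j ∈ Finset.range (cnt ξ (n + 1) x), f x j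
        = (∏ j ∈ Finset.range (cnt ξ n x), f x j) * (if x = pos ξ n then f x (cnt ξ n x) else 1) := by
      intro x
      rw [cnt_succ]
      split_ifs with hx
      · rw [Finset.prod_range_succ]
      · rw [mul_one]
    simp_rw [h2]
    rw [Finset.prod_mul_distrib, Finset.prod_ite_eq', if_pos hmem, Finset.prod_range_succ,
      ih (by omega)]

/-! ### the law of the walk -/

namespace IsERW

variable {K : Fin N → Fin N → ℝ} {p η : Fin N → ℝ} {Ω : Type*} [MeasurableSpace Ω]
  {P : Measure Ω} {R : ℤ → ℕ → Ω → Fin N} {X : ℕ → Ω → ℤ}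

lemma prob (h : IsERW K p η P R X) : IsProbabilityMeasure P := h.indep.isProbabilityMeasure

lemma measurable_env (h : IsERW K p η P R X) : Measurable (fun ω (x : ℤ) (j : ℕ) => R x j ω) :=
  measurable_pi_lambda _ fun x => measurable_pi_lambda _ fun j => h.measurable_R x j

lemma measurable_stack (h : IsERW K p η P R X) (x : ℤ) : Measurable (fun ω (j : ℕ) => R x j ω) :=
  measurable_pi_lambda _ fun j => h.measurable_R x j

/-- law of the cookie stack at `0` -/
noncomputable def rho (P : Measure Ω) (R : ℤ → ℕ → Ω → Fin N) : Measure (ℕ → Fin N) :=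
  P.map (fun ω (j : ℕ) => R 0 j ω)

lemma prob_rho (h : IsERW K p η P R X) : IsProbabilityMeasure (rho P R) := by
  have := h.prob
  exact Measure.isProbabilityMeasure_map (h.measurable_stack 0).aemeasurable

lemma map_stack_cyl (h : IsERW K p η P R X) (x : ℤ) (n : ℕ) (r : ℕ → Fin N) :
    P.map (fun ω (j : ℕ) => R x j ω) {e | ∀ j ≤ n, e j = r j}
      = ENNReal.ofReal (η (r 0) * ∏ j ∈ Finset.range n, K (r j) (r (j + 1))) := by
  rw [Measure.map_apply (h.measurable_stack x) (measurableSet_cyl n r)]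
  exact h.chain x n r

lemma map_stack (h : IsERW K p η P R X) [NeZero N] (x : ℤ) :
    P.map (fun ω (j : ℕ) => R x j ω) = rho P R := by
  have := h.prob
  have := h.prob_rho
  have := Measure.isProbabilityMeasure_map (μ := P) (h.measurable_stack x).aemeasurable
  apply ext_cyl
  intro n r
  rw [h.map_stack_cyl x n r, rho, h.map_stack_cyl 0 n r]

/-- one step of the walk given the environment and the past -/
lemma one_step (h : IsERW K p η P R X) (hp0 : ∀ i, 0 < p i) (hp1 : ∀ i, p i < 1) (n : ℕ) (γ : ℕ → ℤ)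
    (A : Set (ℤ → ℕ → Fin N)) (hA : MeasurableSet A) (b : Bool) :
    P {ω | (fun x j => R x j ω) ∈ A ∧ (∀ k ≤ n, X k ω = γ k) ∧
        X (n + 1) ω = if b = true then γ n + 1 else γ n - 1}
      = ∫⁻ ω in {ω | (fun x j => R x j ω) ∈ A ∧ ∀ k ≤ n, X k ω = γ k},
          qq p b (R (γ n) (prevVisits γ n) ω) ∂P := by
  have hprob := h.prob
  have hstep := h.step n γ A hA
  have hmX : ∀ k (z : ℤ), MeasurableSet {ω | X k ω = z} := fun k z =>
    h.measurable_X k (measurableSet_singleton z)
  have hmE : MeasurableSet {ω | (fun x j => R x j ω) ∈ A ∧ ∀ k ≤ n, X k ω = γ k} := by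
    have : {ω | (fun x j => R x j ω) ∈ A ∧ ∀ k ≤ n, X k ω = γ k}
        = (fun ω (x : ℤ) (j : ℕ) => R x j ω) ⁻¹' A ∩ ⋂ k : ℕ, ⋂ _ : k ≤ n, {ω | X k ω = γ k} := by
      ext ω; simp
    rw [this]
    exact (h.measurable_env hA).inter (MeasurableSet.iInter fun k => MeasurableSet.iInter fun _ => hmX k _)
  have hmq : ∀ b, Measurable fun ω => qq p b (R (γ n) (prevVisits γ n) ω) := fun b =>
    (measurable_of_finite (qq p b)).comp (h.measurable_R _ _)
  cases b
  · simp only [Bool.false_eq_true, if_false]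
    set E := {ω | (fun x j => R x j ω) ∈ A ∧ ∀ k ≤ n, X k ω = γ k} with hE
    have e1 : {ω | (fun x j => R x j ω) ∈ A ∧ (∀ k ≤ n, X k ω = γ k) ∧ X (n + 1) ω = γ n + 1}
        = E ∩ {ω | X (n + 1) ω = γ n + 1} := by
      ext ω; simp [hE, and_assoc]
    have e2 : {ω | (fun x j => R x j ω) ∈ A ∧ (∀ k ≤ n, X k ω = γ k) ∧ X (n + 1) ω = γ n - 1}
        = E \ {ω | X (n + 1) ω = γ n + 1} := by
      ext ω
      simp only [hE, Set.mem_ofPred_eq, Set.mem_sdiff]
      constructor
      · rintro ⟨h1, h2, h3⟩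
        refine ⟨⟨h1, h2⟩, ?_⟩
        rw [h3]; omega
      · rintro ⟨⟨h1, h2⟩, h3⟩
        refine ⟨h1, h2, ?_⟩
        have := h.nearest n ω
        rw [h2 n le_rfl] at this
        exact this.resolve_left h3
    rw [e1] at hstep
    rw [e2]
    have h3 : P (E ∩ {ω | X (n + 1) ω = γ n + 1}) + P (E \ {ω | X (n + 1) ω = γ n + 1}) = P E :=
      measure_inter_add_sdiff E (hmX _ _)
    have h4 : ∫⁻ ω in E, qq p true (R (γ n) (prevVisits γ n) ω) ∂P +
        ∫⁻ ω in E, qq p false (R (γ n) (prevVisits γ n) ω) ∂P = P E := by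
      rw [← lintegral_add_left (hmq true)]
      have : ∀ ω, qq p true (R (γ n) (prevVisits γ n) ω) + qq p false (R (γ n) (prevVisits γ n) ω) = 1 := by
        intro ω
        unfold qq
        simp only [if_true, Bool.false_eq_true, if_false]
        rw [← ENNReal.ofReal_add (hp0 _).le (by linarith [hp1 (R (γ n) (prevVisits γ n) ω)])]
        simp
      simp_rw [this]
      simp
    have h5 : P (E ∩ {ω | X (n + 1) ω = γ n + 1}) = ∫⁻ ω in E, qq p true (R (γ n) (prevVisits γ n) ω) ∂P := by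
      rw [hstep]
      unfold qq
      simp
    rw [← h4, h5] at h3
    refine (ENNReal.add_right_inj ?_).mp h3
    rw [← h5]
    exact measure_ne_top _ _
  · simp only [if_true]
    rw [hstep]
    unfold qq
    simp

/-- density of the environment on the event that the walk follows a given path -/
lemma path_env (h : IsERW K p η P R X) (hp0 : ∀ i, 0 < p i) (hp1 : ∀ i, p i < 1)
    (ξ : ℤ → ℕ → Bool) (n : ℕ) :
    (P.restrict {ω | ∀ k ≤ n, X k ω = pos ξ k}).map (fun ω (x : ℤ) (j : ℕ) => R x j ω)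
      = (P.map (fun ω (x : ℤ) (j : ℕ) => R x j ω)).withDensity fun r =>
          ∏ k ∈ Finset.range n, qq p (ξ (pos ξ k) (cnt ξ k (pos ξ k))) (r (pos ξ k) (cnt ξ k (pos ξ k))) := by
  have hprob := h.prob
  have hmX : ∀ k (z : ℤ), MeasurableSet {ω | X k ω = z} := fun k z =>
    h.measurable_X k (measurableSet_singleton z)
  have hmE : ∀ n, MeasurableSet {ω | ∀ k ≤ n, X k ω = pos ξ k} := by
    intro n
    have : {ω | ∀ k ≤ n, X k ω = pos ξ k} = ⋂ k : ℕ, ⋂ _ : k ≤ n, {ω | X k ω = pos ξ k} := by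
      ext ω; simp
    rw [this]
    exact MeasurableSet.iInter fun k => MeasurableSet.iInter fun _ => hmX k _
  have hmq : ∀ (b : Bool) (x : ℤ) (j : ℕ), Measurable fun r : ℤ → ℕ → Fin N => qq p b (r x j) :=
    fun b x j => (measurable_of_finite (qq p b)).comp ((measurable_pi_apply j).comp (measurable_pi_apply x))
  induction n with
  | zero =>
    have : {ω | ∀ k ≤ 0, X k ω = pos ξ k} = Set.univ := by
      rw [Set.eq_univ_iff_forall]
      intro ω k hk
      obtain rfl : k = 0 := by omega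
      rw [h.start ω, pos_zero]
    rw [this, Measure.restrict_univ]
    simp
  | succ n ih =>
    ext A hA
    rw [Measure.map_apply h.measurable_env hA, Measure.restrict_apply (h.measurable_env hA),
      withDensity_apply _ hA]
    set b := ξ (pos ξ n) (cnt ξ n (pos ξ n)) with hb
    have hpv : prevVisits (pos ξ) n = cnt ξ n (pos ξ n) := (cnt_eq_card ξ n (pos ξ n)).symm
    have e1 : (fun ω (x : ℤ) (j : ℕ) => R x j ω) ⁻¹' A ∩ {ω | ∀ k ≤ n + 1, X k ω = pos ξ k}
        = {ω | (fun x j => R x j ω) ∈ A ∧ (∀ k ≤ n, X k ω = pos ξ k) ∧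
          X (n + 1) ω = if b = true then pos ξ n + 1 else pos ξ n - 1} := by
      ext ω
      simp only [Set.mem_inter_iff, Set.mem_preimage, Set.mem_ofPred_eq]
      refine and_congr_right fun _ => ?_
      rw [← pos_succ]
      constructor
      · intro hh
        exact ⟨fun k hk => hh k (by omega), hh (n + 1) le_rfl⟩
      · rintro ⟨h1, h2⟩ k hk
        rcases Nat.lt_or_ge k (n + 1) with hk' | hk'
        · exact h1 k (by omega)
        · obtain rfl : k = n + 1 := by omega
          exact h2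
    rw [e1, h.one_step hp0 hp1 n (pos ξ) A hA b, hpv]
    have e2 : {ω | (fun x j => R x j ω) ∈ A ∧ ∀ k ≤ n, X k ω = pos ξ k}
        = (fun ω (x : ℤ) (j : ℕ) => R x j ω) ⁻¹' A ∩ {ω | ∀ k ≤ n, X k ω = pos ξ k} := rfl
    rw [e2, ← Measure.restrict_restrict (h.measurable_env hA),
      ← setLIntegral_map hA (hmq b (pos ξ n) (cnt ξ n (pos ξ n))) h.measurable_env, ih,
      setLIntegral_withDensity_eq_setLIntegral_mul _ _ (hmq b _ _) hA]
    · refine lintegral_congr fun r => ?_
      rw [Finset.prod_range_succ]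
      rfl
    · exact Finset.measurable_fun_prod _ fun k _ => hmq _ _ _

/-- probability that the walk follows a given path -/
lemma path_prob (h : IsERW K p η P R X) [NeZero N] (hp0 : ∀ i, 0 < p i) (hp1 : ∀ i, p i < 1)
    (W : Measure (ℕ → Bool)) [IsProbabilityMeasure W] (hW : SiteLaw K p η (rho P R) W)
    (ξ : ℤ → ℕ → Bool) (n : ℕ) :
    P {ω | ∀ k ≤ n, X k ω = pos ξ k} = PP W {ξ' | ∀ k ≤ n, pos ξ' k = pos ξ k} := by
  have hprob := h.prob
  have hmq : ∀ (b : Bool) (x : ℤ) (j : ℕ), Measurable fun r : ℤ → ℕ → Fin N => qq p b (r x j) :=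
    fun b x j => (measurable_of_finite (qq p b)).comp ((measurable_pi_apply j).comp (measurable_pi_apply x))
  have hmq1 : ∀ (c : ℕ) (x : ℤ), Measurable fun e : ℕ → Fin N => ∏ j ∈ Finset.range c, qq p (ξ x j) (e j) :=
    fun c x => Finset.measurable_fun_prod _ fun j _ =>
      (measurable_of_finite (qq p (ξ x j))).comp (measurable_pi_apply j)
  have h1 : P {ω | ∀ k ≤ n, X k ω = pos ξ k}
      = (P.restrict {ω | ∀ k ≤ n, X k ω = pos ξ k}).map (fun ω (x : ℤ) (j : ℕ) => R x j ω) Set.univ := by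
    rw [Measure.map_apply h.measurable_env MeasurableSet.univ, Set.preimage_univ,
      Measure.restrict_apply_univ]
  rw [h1, h.path_env hp0 hp1, withDensity_apply _ MeasurableSet.univ, Measure.restrict_univ,
    lintegral_map (Finset.measurable_fun_prod _ fun k _ => hmq _ _ _) h.measurable_env]
  have h2 : ∀ ω, ∏ k ∈ Finset.range n, qq p (ξ (pos ξ k) (cnt ξ k (pos ξ k)))
        (R (pos ξ k) (cnt ξ k (pos ξ k)) ω)
      = ∏ x ∈ Finset.Icc (-(n : ℤ)) n, ∏ j ∈ Finset.range (cnt ξ n x), qq p (ξ x j) (R x j ω) :=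
    fun ω => prod_regroup ξ (fun x j => qq p (ξ x j) (R x j ω)) n n le_rfl
  simp_rw [h2]
  have hind : iIndepFun (fun (x : ℤ) (ω : Ω) => ∏ j ∈ Finset.range (cnt ξ n x), qq p (ξ x j) (R x j ω)) P :=
    h.indep.comp (fun (x : ℤ) (e : ℕ → Fin N) => ∏ j ∈ Finset.range (cnt ξ n x), qq p (ξ x j) (e j))
      (fun x => hmq1 _ x)
  rw [lintegral_prod_eq_prod_lintegral_of_indepFun (Finset.Icc (-(n : ℤ)) n) _ hind
    (fun x => (hmq1 _ x).comp (h.measurable_stack x))]
  have h3 : ∀ x : ℤ, ∫⁻ ω, ∏ j ∈ Finset.range (cnt ξ n x), qq p (ξ x j) (R x j ω) ∂P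
      = W {s | ∀ j < cnt ξ n x, s j = ξ x j} := by
    intro x
    rw [hW.cyl (cnt ξ n x) (ξ x), ← h.map_stack x, lintegral_map (hmq1 _ x) (h.measurable_stack x)]
  simp_rw [h3]
  have hms : ∀ (c : ℕ) (σ : ℕ → Bool), MeasurableSet {s : ℕ → Bool | ∀ j < c, s j = σ j} := by
    intro c σ
    have : {s : ℕ → Bool | ∀ j < c, s j = σ j}
        = ⋂ j : ℕ, ⋂ _ : j < c, (fun e : ℕ → Bool => e j) ⁻¹' {σ j} := by
      ext e; simp
    rw [this]
    exact MeasurableSet.iInter fun j => MeasurableSet.iInter fun _ =>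
      (measurableSet_singleton _).preimage (measurable_pi_apply _)
  rw [← Measure.infinitePi_pi (μ := fun _ : ℤ => W) (s := Finset.Icc (-(n : ℤ)) n)
    (t := fun x => {s | ∀ j < cnt ξ n x, s j = ξ x j}) (fun x _ => hms _ _)]
  change PP W _ = PP W _
  congr 1
  ext ξ'
  simp only [Set.mem_ofPred_eq]
  rw [← agree_iff]
  simp only [Set.mem_pi, Finset.mem_coe, Set.mem_ofPred_eq]
  constructor
  · intro hh x j hj
    refine hh x ?_ j hj
    by_contra hx
    rw [Finset.mem_Icc, not_and_or, not_le, not_le] at hx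
    have : cnt ξ n x = 0 := by
      rcases Nat.eq_zero_or_pos n with h0 | h0
      · subst h0; exact cnt_zero ξ x
      · apply cnt_eq_zero ξ n x _ (Or.inl h0)
        rcases hx with hx | hx
        · rw [abs_of_neg (by omega)]; omega
        · rw [abs_of_pos (by omega)]; omega
    omega
  · intro hh x _ j hj
    exact hh x j hj

/-- the law of the walk -/
lemma law_eq (h : IsERW K p η P R X) [NeZero N] (hp0 : ∀ i, 0 < p i) (hp1 : ∀ i, p i < 1)
    (W : Measure (ℕ → Bool)) [IsProbabilityMeasure W] (hW : SiteLaw K p η (rho P R) W) :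
    P.map (fun ω (n : ℕ) => X n ω) = (PP W).map (fun (ξ : ℤ → ℕ → Bool) (n : ℕ) => pos ξ n) := by
  have hprob := h.prob
  have hmX : Measurable (fun ω (n : ℕ) => X n ω) := measurable_pi_lambda _ h.measurable_X
  have := Measure.isProbabilityMeasure_map (μ := P) hmX.aemeasurable
  have := Measure.isProbabilityMeasure_map (μ := PP W) measurable_path.aemeasurable
  apply ext_cyl
  intro n r
  rw [Measure.map_apply hmX (measurableSet_cyl n r),
    Measure.map_apply measurable_path (measurableSet_cyl n r)]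
  by_cases hr : ∃ ξ : ℤ → ℕ → Bool, ∀ k ≤ n, pos ξ k = r k
  · obtain ⟨ξ, hξ⟩ := hr
    have e1 : (fun ω (n : ℕ) => X n ω) ⁻¹' {e | ∀ j ≤ n, e j = r j} = {ω | ∀ k ≤ n, X k ω = pos ξ k} := by
      ext ω
      simp only [Set.mem_preimage, Set.mem_ofPred_eq]
      exact forall₂_congr fun k hk => by rw [hξ k hk]
    have e2 : (fun (ξ : ℤ → ℕ → Bool) (n : ℕ) => pos ξ n) ⁻¹' {e | ∀ j ≤ n, e j = r j}
        = {ξ' | ∀ k ≤ n, pos ξ' k = pos ξ k} := by
      ext ξ'
      simp only [Set.mem_preimage, Set.mem_ofPred_eq]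
      exact forall₂_congr fun k hk => by rw [hξ k hk]
    rw [e1, e2]
    exact h.path_prob hp0 hp1 W hW ξ n
  · have e1 : (fun ω (n : ℕ) => X n ω) ⁻¹' {e | ∀ j ≤ n, e j = r j} = ∅ := by
      rw [Set.eq_empty_iff_forall_notMem]
      intro ω hω
      obtain ⟨ξ, hξ⟩ := exists_arrows (fun n => X n ω) (h.start ω) (fun n => h.nearest n ω)
      exact hr ⟨ξ, fun k hk => by rw [hξ k]; exact hω k hk⟩
    have e2 : (fun (ξ : ℤ → ℕ → Bool) (n : ℕ) => pos ξ n) ⁻¹' {e | ∀ j ≤ n, e j = r j} = ∅ := by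
      rw [Set.eq_empty_iff_forall_notMem]
      intro ξ hξ
      exact hr ⟨ξ, fun k hk => hξ k hk⟩
    rw [e1, e2, measure_empty, measure_empty]

lemma measurableSet_transient :
    MeasurableSet {γ : ℕ → ℤ | Filter.Tendsto (fun n => |γ n|) Filter.atTop Filter.atTop} := by
  have : {γ : ℕ → ℤ | Filter.Tendsto (fun n => |γ n|) Filter.atTop Filter.atTop}
      = ⋂ b : ℤ, ⋃ M : ℕ, ⋂ n : ℕ, ⋂ _ : M ≤ n, {γ : ℕ → ℤ | b ≤ |γ n|} := by
    ext γ
    simp only [Set.mem_ofPred_eq, Set.mem_iInter, Set.mem_iUnion, Filter.tendsto_atTop,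
      Filter.eventually_atTop]
  rw [this]
  refine MeasurableSet.iInter fun b => MeasurableSet.iUnion fun M => MeasurableSet.iInter fun n =>
    MeasurableSet.iInter fun _ => ?_
  have h1 : {γ : ℕ → ℤ | b ≤ |γ n|} = (fun γ : ℕ → ℤ => γ n) ⁻¹' {z | b ≤ |z|} := rfl
  rw [h1]
  exact (measurable_pi_apply n) (MeasurableSet.of_discrete)

/-- non-critical excited random walks are strongly transient -/
theorem stronglyTransient (h : IsERW K p η P R X) (hm : IsCookieModel K p η) (μ : Fin N → ℝ)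
    (hμ : IsStationary K μ) (hcrit : ∑ i, μ i * p i ≠ 1 / 2) : StronglyTransient P X := by
  have hNZ : NeZero N := by
    constructor
    rintro rfl
    have := hm.η_sum
    simp at this
  have hprob := h.prob
  have hprob' := h.prob_rho
  have hW : SiteLaw K p η (rho P R) (arrowLaw p (rho P R)) :=
    siteLaw_arrowLaw K p η hm.p_pos hm.p_lt (rho P R) (fun n r => h.map_stack_cyl 0 n r)
  have hS : Setup K p η μ (rho P R) (arrowLaw p (rho P R)) := ⟨hm, hμ, hW⟩
  have hlaw := h.law_eq hm.p_pos hm.p_lt (arrowLaw p (rho P R)) hW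
  have hmX : Measurable (fun ω (n : ℕ) => X n ω) := measurable_pi_lambda _ h.measurable_X
  have hmret : Measurable (fun γ : ℕ → ℤ => (retPath γ : ℝ≥0∞)) := by
    have : Measurable (fun x : ℕ∞ => (x : ℝ≥0∞)) := measurable_from_top
    exact this.comp measurable_retPath
  constructor
  · have h1 := hS.ae_tendsto hcrit
    have h2 : ∀ᵐ γ ∂((PP (arrowLaw p (rho P R))).map (fun (ξ : ℤ → ℕ → Bool) (n : ℕ) => pos ξ n)),
        Filter.Tendsto (fun n => |γ n|) Filter.atTop Filter.atTop :=
      (ae_map_iff measurable_path.aemeasurable measurableSet_transient).mpr h1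
    rw [← hlaw] at h2
    exact ae_of_ae_map hmX.aemeasurable h2
  · have h1 := hS.moment hcrit
    have e1 : ∫⁻ ω in {ω | returnTime X ω < ⊤}, (returnTime X ω : ENNReal) ∂P
        = ∫⁻ γ in {γ | retPath γ < ⊤}, (retPath γ : ℝ≥0∞) ∂(P.map (fun ω (n : ℕ) => X n ω)) := by
      rw [setLIntegral_map measurableSet_retPath_lt hmret hmX]
      rfl
    have e2 : ∫⁻ γ in {γ | retPath γ < ⊤}, (retPath γ : ℝ≥0∞) ∂(P.map (fun ω (n : ℕ) => X n ω)) < ⊤ := by
      rw [hlaw, setLIntegral_map measurableSet_retPath_lt hmret measurable_path]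
      exact h1
    rw [← e1] at e2
    by_cases h0 : P {ω | returnTime X ω < ⊤} = 0
    · rw [setLIntegral_measure_zero _ _ h0, ENNReal.zero_div]
      exact ENNReal.zero_lt_top
    · exact ENNReal.div_lt_top e2.ne h0

end IsERW

end Pool.Agent.MP_3aae7f_pr
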