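import Pool.Agent.Lib.MP_3aae7f_pr.CritCoin
import Pool.Agent.Lib.MP_3aae7f_pr.CritT1
import Pool.Agent.Lib.MP_3aae7f_pr.CritT4
import Pool.Agent.Lib.MP_3aae7f_pr.CritWalk2
import Pool.Agent.Lib.MP_3aae7f_pr.Transfer

/-!
Critical case: assembly.
-/

open MeasureTheory ProbabilityTheory
open scoped ENNReal

namespace Pool.Agent.MP_3aae7f_pr

variable {N : ℕ} {K : Fin N → Fin N → ℝ} {p η μ : Fin N → ℝ}

open Crit

/-- strong transience of the arrow walk -/
def ST (W : Measure (ℕ → Bool)) [IsProbabilityMeasure W] : Prop :=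
  (∀ᵐ ξ ∂(PP W), Filter.Tendsto (fun n => |pos ξ n|) Filter.atTop Filter.atTop) ∧
    ∫⁻ ξ in {ξ | retPath (fun n => pos ξ n) < ⊤}, (retPath (fun n => pos ξ n) : ℝ≥0∞) ∂(PP W) < ⊤

lemma measurable_ret' : Measurable (fun ξ : ℤ → ℕ → Bool => (retPath (fun n => pos ξ n) : ℝ≥0∞)) := by
  have : Measurable (fun x : ℕ∞ => (x : ℝ≥0∞)) := measurable_from_top
  exact this.comp (measurable_retPath.comp measurable_path)

lemma ST_flip (W : Measure (ℕ → Bool)) [IsProbabilityMeasure W] : ST (W.map flip1) ↔ ST W := by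
  unfold ST
  rw [← map_refl]
  have hms : MeasurableSet {ξ : ℤ → ℕ → Bool | retPath (fun n => pos ξ n) < ⊤} :=
    measurable_path measurableSet_retPath_lt
  have hmt : MeasurableSet {ξ : ℤ → ℕ → Bool | Filter.Tendsto (fun n => |pos ξ n|) Filter.atTop Filter.atTop} :=
    measurable_path IsERW.measurableSet_transient
  refine and_congr ?_ ?_
  · rw [ae_map_iff measurable_refl.aemeasurable hmt]
    refine Filter.eventually_congr (Filter.Eventually.of_forall fun ξ => ?_)
    simp only [(refl_wk ξ _).1, abs_neg]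
  · rw [setLIntegral_map hms measurable_ret' measurable_refl]
    have e1 : refl ⁻¹' {ξ : ℤ → ℕ → Bool | retPath (fun n => pos ξ n) < ⊤} =
        {ξ | retPath (fun n => pos ξ n) < ⊤} := by
      ext ξ
      simp only [Set.mem_preimage, Set.mem_ofPred_eq, retPath_refl]
    rw [e1]
    simp only [retPath_refl]

lemma right_left (W : Measure (ℕ → Bool)) [IsProbabilityMeasure W] :
    ∫⁻ ξ in {ξ | retPath (fun n => pos ξ n) < ⊤ ∧ ξ 0 0 = true},
      (retPath (fun n => pos ξ n) : ℝ≥0∞) ∂(PP (W.map flip1)) =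
    ∫⁻ ξ in {ξ | retPath (fun n => pos ξ n) < ⊤ ∧ ξ 0 0 = false},
      (retPath (fun n => pos ξ n) : ℝ≥0∞) ∂(PP W) := by
  have hms : MeasurableSet {ξ : ℤ → ℕ → Bool | retPath (fun n => pos ξ n) < ⊤ ∧ ξ 0 0 = true} := by
    refine MeasurableSet.inter ?_ ?_
    · exact measurable_path measurableSet_retPath_lt
    · exact (measurableSet_singleton true).preimage
        ((measurable_pi_apply 0).comp (measurable_pi_apply 0))
  rw [← map_refl, setLIntegral_map hms measurable_ret' measurable_refl]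
  have e1 : refl ⁻¹' {ξ : ℤ → ℕ → Bool | retPath (fun n => pos ξ n) < ⊤ ∧ ξ 0 0 = true}
      = {ξ | retPath (fun n => pos ξ n) < ⊤ ∧ ξ 0 0 = false} := by
    ext ξ
    simp only [Set.mem_preimage, Set.mem_ofPred_eq, retPath_refl]
    refine and_congr_right fun _ => ?_
    unfold refl
    simp
  rw [e1]
  simp only [retPath_refl]

/-- data of the critical case -/
structure CD (K : Fin N → Fin N → ℝ) (p η μ : Fin N → ℝ) (ρ : Measure (ℕ → Fin N))
    (W : Measure (ℕ → Bool)) (g : Fin N → ℝ) : Prop extends Setup K p η μ ρ W where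
  crit : ∑ i, μ i * p i = 1 / 2
  poi : IsPoisson K p g

namespace CD

variable {ρ : Measure (ℕ → Fin N)} {W : Measure (ℕ → Bool)} {g : Fin N → ℝ}

lemma exists_ell (h : IsCookieModel K p η) : ∃ ε : ℝ, Ell K p ε := by
  by_cases hN : N = 0
  · subst hN
    have := h.η_sum
    simp at this
  · have : NeZero N := ⟨hN⟩
    obtain ⟨i0, -, h0⟩ := Finset.exists_min_image Finset.univ (fun i => min (1 - p i) (p i))
      ⟨0, Finset.mem_univ (0 : Fin N)⟩
    exact ⟨min (1 - p i0) (p i0),
      { K0 := h.K_nonneg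
        Ks := h.K_sum
        p0 := h.p_pos
        p1 := h.p_lt
        ε0 := lt_min (by linarith [h.p_lt i0]) (h.p_pos i0)
        ε1 := (min_le_right _ _).trans (h.p_lt i0).le
        le_p := fun i => (h0 i (Finset.mem_univ i)).trans (min_le_right _ _)
        le_q := fun i => (h0 i (Finset.mem_univ i)).trans (min_le_left _ _) }⟩

lemma mirror [IsProbabilityMeasure W] (h : CD K p η μ ρ W g) :
    CD K (fun i => 1 - p i) η μ ρ (W.map flip1) (-g) where
  toSetup := h.toSetup.mirror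
  crit := by rw [h.toSetup.mirror_sum, h.crit]; norm_num
  poi := mirror_poisson h.poi

lemma blp (h : CD K p η μ ρ W g) : BLP (rk K p η) (rho0 K p η g μ) (2 * qbar K p g μ) := by
  obtain ⟨ε, hE⟩ := exists_ell h.model
  exact Crit.blp hE h.model.K_class h.stat h.crit h.poi h.model.η_nonneg h.model.η_sum

lemma piW_eq (h : CD K p η μ ρ W g) : piW W = kr (rk K p η) := by
  have := h.toSetup.neZero
  obtain ⟨ε, hE⟩ := exists_ell h.model
  exact piW_rk h.site h.model.η_nonneg h.model.η_sum hE.toPos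

lemma first_ne [IsProbabilityMeasure W] (h : CD K p η μ ρ W g) : W {s | s 0 = true} ≠ 0 := by
  obtain ⟨ε, hE⟩ := exists_ell h.model
  have hρ := h.site.probρ
  have h1 := h.site.cyl 1 (fun _ => true)
  have e : {s : ℕ → Bool | ∀ j < 1, s j = true} = {s | s 0 = true} := by
    ext s
    simp only [Set.mem_ofPred_eq]
    constructor
    · intro hh; exact hh 0 one_pos
    · intro hh j hj
      obtain rfl : j = 0 := by omega
      exact hh
  rw [e] at h1
  rw [h1]
  have h2 : ENNReal.ofReal ε ≤ ∫⁻ e, ∏ j ∈ Finset.range 1, qq p true (e j) ∂ρ := by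
    calc ENNReal.ofReal ε = ∫⁻ _, ENNReal.ofReal ε ∂ρ := by simp
      _ ≤ _ := lintegral_mono fun e => by
          simp only [Finset.prod_range_one, qq, if_true]
          exact ENNReal.ofReal_le_ofReal (hE.le_p _)
  intro h3
  rw [h3] at h2
  have := hE.ε0
  rw [nonpos_iff_eq_zero, ENNReal.ofReal_eq_zero] at h2
  linarith

/-- `δ > 3` implies strong transience -/
lemma st_of_three_lt [IsProbabilityMeasure W] (h : CD K p η μ ρ W g)
    (hδ : 3 * (2 * qbar K p g μ) < 2 * rho0 K p η g μ) : ST W := by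
  have hb := h.blp
  have hb' := h.mirror.blp
  have hpi := h.piW_eq
  have hpi' := h.mirror.piW_eq
  have hgood := h.toSetup.ae_good
  obtain ⟨q, hq1, hq2, hq3⟩ := hb.exists_q_of_three_lt hδ
  rw [← hpi] at hq1 hq3
  have hadd := rho0_add (K := K) (p := p) (η := η) (g := g) h.stat
  have hqm := qbar_mirror (K := K) (p := p) g μ
  have hqpos := hb.ν_pos
  have hgreen := hb'.green_of_lt_neg_one (by rw [hqm]; linarith)
  rw [← hpi'] at hgreen
  have hI := ae_not_Io_of_sum W hgood q hq1 hq2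
  constructor
  · filter_upwards [hI, hgood] with ξ h1 h2
    exact tendsto_of_not_Io h2 h1
  · have hR := moment_right_of W q hq1 hq3
    have hL := moment_right_of (W.map flip1) (fun _ => 1)
      (fun n k => (ENNReal.le_tsum 0).trans (Qn_row (piW_row _) n k)) (by simpa using hgreen)
    rw [right_left] at hL
    have e1 : {ξ : ℤ → ℕ → Bool | retPath (fun n => pos ξ n) < ⊤}
        = {ξ | retPath (fun n => pos ξ n) < ⊤ ∧ ξ 0 0 = true} ∪
          {ξ | retPath (fun n => pos ξ n) < ⊤ ∧ ξ 0 0 = false} := by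
      ext ξ
      simp only [Set.mem_ofPred_eq, Set.mem_union]
      cases ξ 0 0 <;> simp
    rw [e1]
    refine lt_of_le_of_lt (lintegral_union_le _ _ _) ?_
    exact ENNReal.add_lt_top.mpr ⟨hR, hL⟩

/-- `1 < δ ≤ 3` excludes strong transience -/
lemma not_st_of_le_three [IsProbabilityMeasure W] (h : CD K p η μ ρ W g)
    (h1 : 2 * qbar K p g μ < 2 * rho0 K p η g μ)
    (h3 : 2 * rho0 K p η g μ ≤ 3 * (2 * qbar K p g μ)) : ¬ ST W := by
  rintro ⟨-, h2⟩
  have hsum := h.blp.sum_eq_top h1 h3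
  unfold hx at hsum
  rw [← h.piW_eq] at hsum
  have htop := moment_right_eq_top W h.toSetup.ae_good h.first_ne hsum
  have hle : ∫⁻ ξ in {ξ | retPath (fun n => pos ξ n) < ⊤ ∧ ξ 0 0 = true},
      (retPath (fun n => pos ξ n) : ℝ≥0∞) ∂(PP W) ≤
      ∫⁻ ξ in {ξ | retPath (fun n => pos ξ n) < ⊤}, (retPath (fun n => pos ξ n) : ℝ≥0∞) ∂(PP W) :=
    lintegral_mono_set fun ξ hξ => hξ.1
  rw [htop] at hle
  exact absurd h2 (not_lt.2 hle)

/-- `δ ≤ 1` and `δ~ ≤ 1` exclude transience -/
lemma not_st_of_le_one [IsProbabilityMeasure W] (h : CD K p η μ ρ W g)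
    (h1 : 2 * rho0 K p η g μ ≤ 2 * qbar K p g μ)
    (h2 : 2 * rho0 K (fun i => 1 - p i) η (-g) μ ≤ 2 * qbar K p g μ) : ¬ ST W := by
  rintro ⟨ht, -⟩
  have hqm := qbar_mirror (K := K) (p := p) g μ
  have e1 := fun k => h.blp.extinct_of_le_one h1 k
  have e2 := fun k => h.mirror.blp.extinct_of_le_one (by rw [hqm]; exact h2) k
  unfold hx at e1 e2
  rw [← h.piW_eq] at e1
  rw [← h.mirror.piW_eq] at e2
  have hio := ae_Io_of_extinct W h.toSetup.ae_good e1 e2
  have hcontra : ∀ᵐ ξ ∂(PP W), False := by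
    filter_upwards [hio, ht] with ξ h3 h4
    rw [Filter.tendsto_atTop] at h4
    obtain ⟨M, hM⟩ := Filter.eventually_atTop.1 (h4 1)
    obtain ⟨n, hn1, hn2⟩ := h3 M
    have := hM n hn1
    rw [hn2] at this
    simp at this
  rw [Filter.eventually_false_iff_eq_bot, ae_eq_bot] at hcontra
  exact absurd hcontra (IsProbabilityMeasure.ne_zero (PP W))

/-- the dichotomy for the arrow walk -/
theorem st_iff [IsProbabilityMeasure W] (h : CD K p η μ ρ W g) :
    ST W ↔ 3 < max (2 * rho0 K p η g μ / (2 * qbar K p g μ))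
      (2 * rho0 K (fun i => 1 - p i) η (-g) μ / (2 * qbar K p g μ)) := by
  have hqpos := h.blp.ν_pos
  have hqm := qbar_mirror (K := K) (p := p) g μ
  constructor
  · intro hst
    by_contra hcon
    rw [not_lt, max_le_iff, div_le_iff₀ hqpos, div_le_iff₀ hqpos] at hcon
    obtain ⟨c1, c2⟩ := hcon
    rcases lt_or_ge (2 * qbar K p g μ) (2 * rho0 K p η g μ) with h1 | h1
    · exact h.not_st_of_le_three h1 c1 hst
    · rcases lt_or_ge (2 * qbar K p g μ) (2 * rho0 K (fun i => 1 - p i) η (-g) μ) with h2 | h2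
      · refine h.mirror.not_st_of_le_three ?_ ?_ ((ST_flip W).2 hst)
        · rw [hqm]; exact h2
        · rw [hqm]; exact c2
      · exact h.not_st_of_le_one h1 h2 hst
  · intro hmax
    rw [lt_max_iff, lt_div_iff₀ hqpos, lt_div_iff₀ hqpos] at hmax
    rcases hmax with h1 | h1
    · exact h.st_of_three_lt h1
    · rw [← ST_flip W]
      exact h.mirror.st_of_three_lt (by rw [hqm]; exact h1)

end CD

namespace IsERW

variable {Ω : Type*} [MeasurableSpace Ω] {P : Measure Ω} {R : ℤ → ℕ → Ω → Fin N} {X : ℕ → Ω → ℤ}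

lemma stronglyTransient_iff_ST (h : IsERW K p η P R X) [NeZero N] (hp0 : ∀ i, 0 < p i)
    (hp1 : ∀ i, p i < 1) (W : Measure (ℕ → Bool)) [IsProbabilityMeasure W]
    (hW : SiteLaw K p η (rho P R) W) : StronglyTransient P X ↔ ST W := by
  have hprob := h.prob
  have hlaw := h.law_eq hp0 hp1 W hW
  have hmX : Measurable (fun ω (n : ℕ) => X n ω) := measurable_pi_lambda _ h.measurable_X
  have hmret : Measurable (fun γ : ℕ → ℤ => (retPath γ : ℝ≥0∞)) := by
    have : Measurable (fun x : ℕ∞ => (x : ℝ≥0∞)) := measurable_from_top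
    exact this.comp measurable_retPath
  unfold StronglyTransient ST
  refine and_congr ?_ ?_
  · have e1 := ae_map_iff (μ := P) hmX.aemeasurable measurableSet_transient
    have e2 := ae_map_iff (μ := PP W) measurable_path.aemeasurable measurableSet_transient
    rw [hlaw] at e1
    exact e1.symm.trans e2
  · have e1 : ∫⁻ ω in {ω | returnTime X ω < ⊤}, (returnTime X ω : ENNReal) ∂P
        = ∫⁻ γ in {γ | retPath γ < ⊤}, (retPath γ : ℝ≥0∞) ∂(P.map (fun ω (n : ℕ) => X n ω)) := by
      rw [setLIntegral_map measurableSet_retPath_lt hmret hmX]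
      rfl
    have e2 : ∫⁻ ω in {ω | returnTime X ω < ⊤}, (returnTime X ω : ENNReal) ∂P =
        ∫⁻ ξ in {ξ | retPath (fun n => pos ξ n) < ⊤}, (retPath (fun n => pos ξ n) : ℝ≥0∞) ∂(PP W) := by
      rw [e1, hlaw, setLIntegral_map measurableSet_retPath_lt hmret measurable_path]
      rfl
    rw [← e2]
    by_cases h0 : P {ω | returnTime X ω < ⊤} = 0
    · rw [setLIntegral_measure_zero _ _ h0, ENNReal.zero_div]
    · constructor
      · intro hlt
        by_contra hcon
        rw [not_lt, top_le_iff] at hcon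
        rw [hcon, ENNReal.top_div_of_ne_top (measure_ne_top P _)] at hlt
        exact lt_irrefl _ hlt
      · intro hlt
        exact ENNReal.div_lt_top hlt.ne h0

end IsERW

/-- critical excited random walks with Markovian cookie stacks -/
theorem critical (hm : IsCookieModel K p η) (hμ : IsStationary K μ) (hp : ∑ i, μ i * p i = 1 / 2) :
    ∃ ρ ν ρ' ν' : ℝ, 0 < ν ∧ 0 < ν' ∧
      (∀ {Ω : Type*} [MeasurableSpace Ω] {P : Measure Ω} [IsProbabilityMeasure P]
        {R : ℕ → Ω → Fin N} {B : ℕ → Ω → Bool}, IsCoinStack K p η P R B → HasParams P B ρ ν) ∧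
      (∀ {Ω : Type*} [MeasurableSpace Ω] {P : Measure Ω} [IsProbabilityMeasure P]
        {R : ℕ → Ω → Fin N} {B : ℕ → Ω → Bool},
        IsCoinStack K (fun i => 1 - p i) η P R B → HasParams P B ρ' ν') ∧
      (∀ {Ω : Type*} [MeasurableSpace Ω] {P : Measure Ω} {R : ℤ → ℕ → Ω → Fin N} {X : ℕ → Ω → ℤ},
        IsERW K p η P R X → (StronglyTransient P X ↔ 3 < max (2 * ρ / ν) (2 * ρ' / ν'))) := by
  have hNZ : NeZero N := by
    constructor
    rintro rfl
    have := hm.η_sum
    simp at this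
  obtain ⟨ε, hE⟩ := CD.exists_ell hm
  obtain ⟨g, hg⟩ := exists_poisson hm.K_nonneg hm.K_sum hm.K_class μ hμ (fun i => 2 * p i - 1) (by
    have e : ∀ i, μ i * (2 * p i - 1) = 2 * (μ i * p i) - μ i := fun i => by ring
    simp_rw [e]
    rw [Finset.sum_sub_distrib, ← Finset.mul_sum, hp, hμ.2.1]
    norm_num)
  have hm' : IsCookieModel K (fun i => 1 - p i) η :=
    { K_nonneg := hm.K_nonneg
      K_sum := hm.K_sum
      K_class := hm.K_class
      p_pos := fun i => by linarith [hm.p_lt i]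
      p_lt := fun i => by linarith [hm.p_pos i]
      η_nonneg := hm.η_nonneg
      η_sum := hm.η_sum }
  obtain ⟨ε', hE'⟩ := CD.exists_ell hm'
  have hp' : ∑ i, μ i * (1 - p i) = 1 / 2 := by
    simp_rw [mul_sub, mul_one]
    rw [Finset.sum_sub_distrib, hμ.2.1, hp]
    norm_num
  have hb := Crit.blp hE hm.K_class hμ hp hg hm.η_nonneg hm.η_sum
  have hb' := Crit.blp hE' hm.K_class hμ hp' (mirror_poisson hg) hm.η_nonneg hm.η_sum
  have hqm := qbar_mirror (K := K) (p := p) g μ
  refine ⟨_, _, _, _, hb.ν_pos, hb'.ν_pos, fun {Ω} _ {P} _ {R B} h => h.hasParams hm hE hb,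
    fun {Ω} _ {P} _ {R B} h => h.hasParams hm' hE' hb', fun {Ω} _ {P R X} h => ?_⟩
  have hprob' := h.prob_rho
  have hW : SiteLaw K p η (IsERW.rho P R) (arrowLaw p (IsERW.rho P R)) :=
    siteLaw_arrowLaw K p η hm.p_pos hm.p_lt (IsERW.rho P R) (fun n r => h.map_stack_cyl 0 n r)
  have hCD : CD K p η μ (IsERW.rho P R) (arrowLaw p (IsERW.rho P R)) g :=
    { model := hm, stat := hμ, site := hW, crit := hp, poi := hg }
  rw [h.stronglyTransient_iff_ST hm.p_pos hm.p_lt _ hW, hCD.st_iff, hqm]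

end Pool.Agent.MP_3aae7f_pr
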