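import Pool.Agent.Lib.MP_3aae7f_pr.CritBLP

/-!
Row B1: generator expansion for kernels with good moments, summability of functions of polynomial
growth.
-/

open scoped ENNReal

namespace Pool.Agent.MP_3aae7f_pr

variable {r : ℕ → ℕ → ℝ} {ρ ν : ℝ}

lemma BLP.gen_zero_row (h : BLP r ρ ν) (l : ℕ) (hl : l ≠ 0) : r 0 l = 0 := by
  have h1 := h.sum 0
  have h2 : ∑ i ∈ ({0, l} : Finset ℕ), r 0 i ≤ 1 :=
    sum_le_hasSum _ (fun i _ => h.nonneg 0 i) h1
  rw [Finset.sum_pair hl.symm, h.zero] at h2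
  have h3 := h.nonneg 0 l
  linarith

lemma gen_pow_bound (k l : ℕ) (m : ℕ) :
    ((l : ℝ) + 1) ^ m ≤ 2 ^ m * (|(l : ℝ) - k| ^ m + ((k : ℝ) + 1) ^ m) := by
  have h1 : (l : ℝ) + 1 ≤ |(l : ℝ) - k| + ((k : ℝ) + 1) := by
    have := le_abs_self ((l : ℝ) - k)
    linarith
  have h2 : (0 : ℝ) ≤ (l : ℝ) + 1 := by positivity
  calc ((l : ℝ) + 1) ^ m ≤ (|(l : ℝ) - k| + ((k : ℝ) + 1)) ^ m := pow_le_pow_left₀ h2 h1 m
    _ ≤ 2 ^ (m - 1) * (|(l : ℝ) - k| ^ m + ((k : ℝ) + 1) ^ m) :=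
        add_pow_le (abs_nonneg _) (by positivity) m
    _ ≤ 2 ^ m * (|(l : ℝ) - k| ^ m + ((k : ℝ) + 1) ^ m) := by
        apply mul_le_mul_of_nonneg_right _ (by positivity)
        exact pow_le_pow_right₀ (by norm_num) (Nat.sub_le _ _)

/-- ROW B1, second part: functions of polynomial growth are summable. -/
theorem BLP.summable (h : BLP r ρ ν) (F : ℕ → ℝ) (C : ℝ) (m : ℕ)
    (hFm : ∀ l : ℕ, |F l| ≤ C * ((l : ℝ) + 1) ^ m) (k : ℕ) : Summable fun l => r k l * F l := by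
  rcases Nat.eq_zero_or_pos k with rfl | hk
  · refine (hasSum_single 0 fun l hne => ?_).summable
    rw [h.gen_zero_row l hne, zero_mul]
  · have hC : 0 ≤ C := by
      have := hFm 0
      have h0 := abs_nonneg (F 0)
      simp only [Nat.cast_zero, zero_add, one_pow, mul_one] at this
      linarith
    obtain ⟨C1, hC1⟩ := h.moment m
    have hs := (hC1 k hk).1
    have hs2 : Summable fun l => r k l := (h.sum k).summable
    have hs3 : Summable fun l : ℕ => C * 2 ^ m * (r k l * |(l : ℝ) - k| ^ m) +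
        C * 2 ^ m * ((k : ℝ) + 1) ^ m * r k l :=
      (hs.mul_left _).add (hs2.mul_left _)
    apply Summable.of_norm_bounded hs3
    intro l
    rw [Real.norm_eq_abs, abs_mul, abs_of_nonneg (h.nonneg k l)]
    have h1 := hFm l
    have h2 := gen_pow_bound k l m
    have h3 := h.nonneg k l
    calc r k l * |F l| ≤ r k l * (C * (2 ^ m * (|(l : ℝ) - k| ^ m + ((k : ℝ) + 1) ^ m))) := by
          apply mul_le_mul_of_nonneg_left _ h3
          exact h1.trans (mul_le_mul_of_nonneg_left h2 hC)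
      _ = _ := by ring

/-- Taylor with remainder, from a chain of derivatives. -/
lemma gen_taylor (f0 f1 f2 f3 : ℝ → ℝ) (x y D : ℝ)
    (h0 : ∀ z ∈ Set.uIcc x y, HasDerivAt f0 (f1 z) z)
    (h1 : ∀ z ∈ Set.uIcc x y, HasDerivAt f1 (f2 z) z)
    (h2 : ∀ z ∈ Set.uIcc x y, HasDerivAt f2 (f3 z) z)
    (h3 : ∀ z ∈ Set.uIcc x y, |f3 z| ≤ D) :
    |f0 y - f0 x - f1 x * (y - x) - f2 x / 2 * (y - x) ^ 2| ≤ D * |y - x| ^ 3 := by
  have hconv : Convex ℝ (Set.uIcc x y) := convex_uIcc x y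
  have hx : x ∈ Set.uIcc x y := Set.left_mem_uIcc
  have hy : y ∈ Set.uIcc x y := Set.right_mem_uIcc
  have hD : 0 ≤ D := (abs_nonneg _).trans (h3 x hx)
  have hdist : ∀ z ∈ Set.uIcc x y, |z - x| ≤ |y - x| := by
    intro z hz
    exact Set.abs_sub_left_of_mem_uIcc hz
  -- first step
  have s2 : ∀ z ∈ Set.uIcc x y, |f2 z - f2 x| ≤ D * |y - x| := by
    intro z hz
    have := hconv.norm_image_sub_le_of_norm_hasDerivWithin_le (f := f2) (f' := f3) (C := D)
      (fun w hw => (h2 w hw).hasDerivWithinAt) (fun w hw => h3 w hw) hx hz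
    rw [Real.norm_eq_abs, Real.norm_eq_abs] at this
    exact this.trans (mul_le_mul_of_nonneg_left (hdist z hz) hD)
  have s1 : ∀ z ∈ Set.uIcc x y, |f1 z - f1 x - f2 x * (z - x)| ≤ D * |y - x| ^ 2 := by
    intro z hz
    have hd : ∀ w ∈ Set.uIcc x y,
        HasDerivWithinAt (fun t => f1 t - f1 x - f2 x * (t - x)) (f2 w - f2 x) (Set.uIcc x y) w := by
      intro w hw
      have e1 := (h1 w hw).sub_const (f1 x)
      have e2 : HasDerivAt (fun t : ℝ => f2 x * (t - x)) (f2 x * 1) w :=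
        ((hasDerivAt_id w).sub_const x).const_mul (f2 x)
      have e3 := e1.sub e2
      rw [mul_one] at e3
      exact e3.hasDerivWithinAt
    have := hconv.norm_image_sub_le_of_norm_hasDerivWithin_le hd (fun w hw => s2 w hw) hx hz
    rw [Real.norm_eq_abs, Real.norm_eq_abs] at this
    have e : f1 z - f1 x - f2 x * (z - x) - (f1 x - f1 x - f2 x * (x - x)) =
        f1 z - f1 x - f2 x * (z - x) := by ring
    rw [e] at this
    calc |f1 z - f1 x - f2 x * (z - x)| ≤ D * |y - x| * |z - x| := this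
      _ ≤ D * |y - x| * |y - x| := mul_le_mul_of_nonneg_left (hdist z hz) (by positivity)
      _ = D * |y - x| ^ 2 := by ring
  have hd : ∀ w ∈ Set.uIcc x y,
      HasDerivWithinAt (fun t => f0 t - f0 x - f1 x * (t - x) - f2 x / 2 * (t - x) ^ 2)
        (f1 w - f1 x - f2 x * (w - x)) (Set.uIcc x y) w := by
    intro w hw
    have e1 := (h0 w hw).sub_const (f0 x)
    have e2 : HasDerivAt (fun t : ℝ => f1 x * (t - x)) (f1 x * 1) w :=
      ((hasDerivAt_id w).sub_const x).const_mul (f1 x)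
    have e4 : HasDerivAt (fun t : ℝ => (t - x) ^ 2) (2 * (w - x)) w := by
      have := ((hasDerivAt_id' w).sub_const x).fun_pow 2
      simpa using this
    have e5 := e4.const_mul (f2 x / 2)
    have e3 := (e1.sub e2).sub e5
    have e6 : f1 w - f1 x * 1 - f2 x / 2 * (2 * (w - x)) = f1 w - f1 x - f2 x * (w - x) := by ring
    rw [e6] at e3
    exact e3.hasDerivWithinAt
  have := hconv.norm_image_sub_le_of_norm_hasDerivWithin_le hd (fun w hw => s1 w hw) hx hy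
  rw [Real.norm_eq_abs, Real.norm_eq_abs] at this
  have e : f0 y - f0 x - f1 x * (y - x) - f2 x / 2 * (y - x) ^ 2 -
      (f0 x - f0 x - f1 x * (x - x) - f2 x / 2 * (x - x) ^ 2) =
      f0 y - f0 x - f1 x * (y - x) - f2 x / 2 * (y - x) ^ 2 := by ring
  rw [e] at this
  calc _ ≤ D * |y - x| ^ 2 * |y - x| := this
    _ = D * |y - x| ^ 3 := by ring

/-- `y^s ≤ 2^|s| k^s` for `k/2 ≤ y ≤ 2 k`. -/
lemma gen_rpow_comp (s k y : ℝ) (hk : 0 < k) (h1 : k / 2 ≤ y) (h2 : y ≤ 2 * k) :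
    y ^ s ≤ 2 ^ |s| * k ^ s := by
  have hy : 0 < y := by linarith
  rcases le_total 0 s with hs | hs
  · rw [abs_of_nonneg hs, ← Real.mul_rpow (by norm_num) hk.le]
    exact Real.rpow_le_rpow hy.le h2 hs
  · rw [abs_of_nonpos hs]
    have e : (2 : ℝ) ^ (-s) * k ^ s = (k / 2) ^ s := by
      rw [Real.div_rpow hk.le (by norm_num), Real.rpow_neg (by norm_num)]
      field_simp
    rw [e]
    exact Real.rpow_le_rpow_of_nonpos (by linarith) h1 hs

lemma gen_sqrt_pow (k : ℝ) (hk : 0 ≤ k) (q : ℕ) : Real.sqrt k ^ q = k ^ ((q : ℝ) / 2) := by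
  rw [Real.sqrt_eq_rpow, ← Real.rpow_natCast, ← Real.rpow_mul hk]
  congr 1
  ring

/-- ROW B1 (about 200 lines). Generator expansion: `E_k F(V_1) - F(k) = ρ f'(k) + (ν/2) k f''(k) + O(k^{b-3/2})`. -/
theorem BLP.generator (h : BLP r ρ ν) (b : ℝ) (F : ℕ → ℝ) (f0 f1 f2 f3 : ℝ → ℝ) (y0 C : ℝ) (m : ℕ)
    (hy0 : 1 ≤ y0) (h0 : ∀ y, y0 ≤ y → HasDerivAt f0 (f1 y) y)
    (h1 : ∀ y, y0 ≤ y → HasDerivAt f1 (f2 y) y) (h2 : ∀ y, y0 ≤ y → HasDerivAt f2 (f3 y) y)
    (c1 : ∀ y, y0 ≤ y → |f1 y| ≤ C * y ^ (b - 1)) (c2 : ∀ y, y0 ≤ y → |f2 y| ≤ C * y ^ (b - 2))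
    (c3 : ∀ y, y0 ≤ y → |f3 y| ≤ C * y ^ (b - 3))
    (hF : ∀ l : ℕ, y0 ≤ (l : ℝ) → F l = f0 l) (hFm : ∀ l : ℕ, |F l| ≤ C * ((l : ℝ) + 1) ^ m) :
    ∃ (C' : ℝ) (k1 : ℕ), ∀ k : ℕ, k1 ≤ k →
      |∑' l, r k l * F l - F k - ρ * f1 k - ν / 2 * (k * f2 k)| ≤ C' * (k : ℝ) ^ (b - 3 / 2) := by
  have hC : 0 ≤ C := by
    have := hFm 0
    have h0 := abs_nonneg (F 0)
    simp only [Nat.cast_zero, zero_add, one_pow, mul_one] at this
    linarith
  obtain ⟨B, hB⟩ := exists_nat_ge (|b|)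
  have hBb : b ≤ B := (le_abs_self b).trans hB
  have hBb' : -b ≤ B := (neg_le_abs b).trans hB
  set M : ℕ := m + B + 2 with hM
  set q : ℕ := 2 * (M + B) + 3 with hq
  obtain ⟨Cq, hCq⟩ := h.moment q
  obtain ⟨C3, hC3⟩ := h.moment 3
  obtain ⟨Cm, hCm⟩ := h.mean
  obtain ⟨Cv, hCv⟩ := h.var
  have hCq0 : 0 ≤ Cq := by
    have := (hCq 1 le_rfl).2
    have h' : 0 ≤ ∑' l : ℕ, r 1 l * |(l : ℝ) - (1 : ℕ)| ^ q :=
      tsum_nonneg fun l => mul_nonneg (h.nonneg 1 l) (by positivity)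
    simp only [Nat.cast_one, Real.sqrt_one, one_pow, mul_one] at this h'
    linarith
  -- constants of the pointwise bound
  set A3 : ℝ := C * 2 ^ |b - 3| with hA3
  have hA3' : 0 ≤ A3 := by positivity
  set C2 : ℝ := C * (4 ^ m + 3 ^ m + 2 ^ B + 2 ^ B) with hC2
  have hC2' : 0 ≤ C2 := by positivity
  set Aq : ℝ := C2 * 2 ^ (q - M) with hAq
  have hAq' : 0 ≤ Aq := by positivity
  obtain ⟨k1, hk1⟩ := exists_nat_ge (2 * y0)
  refine ⟨A3 * C3 + Aq * Cq + C * Cm + C * Cv / 2, k1, fun k hk => ?_⟩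
  have hkr : 2 * y0 ≤ (k : ℝ) := hk1.trans (by exact_mod_cast hk)
  have hk2 : (2 : ℝ) ≤ k := by linarith
  have hkpos : (0 : ℝ) < k := by linarith
  have hkn : 1 ≤ k := by
    have : (1 : ℝ) ≤ k := by linarith
    exact_mod_cast this
  have hky : y0 ≤ (k : ℝ) := by linarith
  set Rem : ℕ → ℝ := fun l =>
    F l - F k - f1 k * ((l : ℝ) - k) - f2 k / 2 * ((l : ℝ) - k) ^ 2 with hRem
  -- pointwise bound
  have hpt : ∀ l : ℕ, |Rem l| ≤ A3 * (k : ℝ) ^ (b - 3) * |(l : ℝ) - k| ^ 3 +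
      Aq / (k : ℝ) ^ (q - M) * |(l : ℝ) - k| ^ q := by
    intro l
    rcases le_or_gt (|(l : ℝ) - k|) ((k : ℝ) / 2) with hl | hl
    · have hl1 := (abs_le.mp hl).1
      have hl2 := (abs_le.mp hl).2
      have hly : y0 ≤ (l : ℝ) := by linarith
      have hseg : ∀ z ∈ Set.uIcc (k : ℝ) (l : ℝ), (k : ℝ) / 2 ≤ z ∧ z ≤ 2 * k := by
        intro z hz
        rw [Set.mem_uIcc] at hz
        rcases hz with ⟨a, c⟩ | ⟨a, c⟩ <;> constructor <;> linarith
      have ht := gen_taylor f0 f1 f2 f3 (k : ℝ) (l : ℝ) (A3 * (k : ℝ) ^ (b - 3))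
        (fun z hz => h0 z (by have := (hseg z hz).1; linarith))
        (fun z hz => h1 z (by have := (hseg z hz).1; linarith))
        (fun z hz => h2 z (by have := (hseg z hz).1; linarith))
        (fun z hz => by
          have hz1 := hseg z hz
          have hzy : y0 ≤ z := by have := hz1.1; linarith
          calc |f3 z| ≤ C * z ^ (b - 3) := c3 z hzy
            _ ≤ C * (2 ^ |b - 3| * (k : ℝ) ^ (b - 3)) :=
                mul_le_mul_of_nonneg_left (gen_rpow_comp _ _ _ hkpos hz1.1 hz1.2) hC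
            _ = A3 * (k : ℝ) ^ (b - 3) := by rw [hA3]; ring)
      have e : Rem l = f0 l - f0 k - f1 k * ((l : ℝ) - k) - f2 k / 2 * ((l : ℝ) - k) ^ 2 := by
        simp only [hRem]
        rw [hF l hly, hF k hky]
      rw [e]
      have : 0 ≤ Aq / (k : ℝ) ^ (q - M) * |(l : ℝ) - k| ^ q := by positivity
      linarith
    · set δ : ℝ := |(l : ℝ) - k| with hδ
      have hδ1 : 1 ≤ δ := by linarith
      have hkδ : (k : ℝ) ≤ 2 * δ := by linarith
      have hlδ : (l : ℝ) ≤ 3 * δ := by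
        have := le_abs_self ((l : ℝ) - k)
        linarith
      have b1 : |F l| ≤ C * 4 ^ m * δ ^ M := by
        calc |F l| ≤ C * ((l : ℝ) + 1) ^ m := hFm l
          _ ≤ C * (4 * δ) ^ m := by
              apply mul_le_mul_of_nonneg_left _ hC
              exact pow_le_pow_left₀ (by positivity) (by linarith) m
          _ = C * 4 ^ m * δ ^ m := by rw [mul_pow]; ring
          _ ≤ C * 4 ^ m * δ ^ M := by
              apply mul_le_mul_of_nonneg_left _ (by positivity)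
              exact pow_le_pow_right₀ hδ1 (by omega)
      have b2 : |F k| ≤ C * 3 ^ m * δ ^ M := by
        calc |F k| ≤ C * ((k : ℝ) + 1) ^ m := hFm k
          _ ≤ C * (3 * δ) ^ m := by
              apply mul_le_mul_of_nonneg_left _ hC
              exact pow_le_pow_left₀ (by positivity) (by linarith) m
          _ = C * 3 ^ m * δ ^ m := by rw [mul_pow]; ring
          _ ≤ C * 3 ^ m * δ ^ M := by
              apply mul_le_mul_of_nonneg_left _ (by positivity)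
              exact pow_le_pow_right₀ hδ1 (by omega)
      have kB : ∀ s : ℝ, s ≤ B → (k : ℝ) ^ s ≤ 2 ^ B * δ ^ B := by
        intro s hs
        calc (k : ℝ) ^ s ≤ (k : ℝ) ^ (B : ℝ) :=
              Real.rpow_le_rpow_of_exponent_le (by linarith) hs
          _ = (k : ℝ) ^ B := Real.rpow_natCast _ _
          _ ≤ (2 * δ) ^ B := pow_le_pow_left₀ hkpos.le hkδ B
          _ = 2 ^ B * δ ^ B := mul_pow _ _ _
      have b3 : |f1 k * ((l : ℝ) - k)| ≤ C * 2 ^ B * δ ^ M := by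
        rw [abs_mul, ← hδ]
        calc |f1 k| * δ ≤ C * (k : ℝ) ^ (b - 1) * δ :=
              mul_le_mul_of_nonneg_right (c1 k hky) (by positivity)
          _ ≤ C * (2 ^ B * δ ^ B) * δ := by
              apply mul_le_mul_of_nonneg_right _ (by positivity)
              exact mul_le_mul_of_nonneg_left (kB _ (by linarith)) hC
          _ = C * 2 ^ B * δ ^ (B + 1) := by ring
          _ ≤ C * 2 ^ B * δ ^ M := by
              apply mul_le_mul_of_nonneg_left _ (by positivity)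
              exact pow_le_pow_right₀ hδ1 (by omega)
      have b4 : |f2 k / 2 * ((l : ℝ) - k) ^ 2| ≤ C * 2 ^ B * δ ^ M := by
        rw [abs_mul, abs_pow, ← hδ, abs_div, abs_of_pos (by norm_num : (0 : ℝ) < 2)]
        have hf2 : |f2 k| / 2 ≤ C * (2 ^ B * δ ^ B) := by
          have h1' := c2 k hky
          have h2' : C * (k : ℝ) ^ (b - 2) ≤ C * (2 ^ B * δ ^ B) :=
            mul_le_mul_of_nonneg_left (kB _ (by linarith)) hC
          have h3' := abs_nonneg (f2 k)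
          linarith
        calc |f2 k| / 2 * δ ^ 2 ≤ C * (2 ^ B * δ ^ B) * δ ^ 2 :=
              mul_le_mul_of_nonneg_right hf2 (by positivity)
          _ = C * 2 ^ B * δ ^ (B + 2) := by ring
          _ ≤ C * 2 ^ B * δ ^ M := by
              apply mul_le_mul_of_nonneg_left _ (by positivity)
              exact pow_le_pow_right₀ hδ1 (by omega)
      have btot : |Rem l| ≤ C2 * δ ^ M := by
        simp only [hRem]
        have t1 := abs_sub (F l - F k - f1 k * ((l : ℝ) - k)) (f2 k / 2 * ((l : ℝ) - k) ^ 2)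
        have t2 := abs_sub (F l - F k) (f1 k * ((l : ℝ) - k))
        have t3 := abs_sub (F l) (F k)
        have e : C2 * δ ^ M = C * 4 ^ m * δ ^ M + C * 3 ^ m * δ ^ M + C * 2 ^ B * δ ^ M +
            C * 2 ^ B * δ ^ M := by rw [hC2]; ring
        rw [e]
        linarith
      have hqM : M ≤ q := by omega
      have hpow : δ ^ M * (k : ℝ) ^ (q - M) ≤ 2 ^ (q - M) * δ ^ q := by
        calc δ ^ M * (k : ℝ) ^ (q - M) ≤ δ ^ M * (2 * δ) ^ (q - M) := by
              apply mul_le_mul_of_nonneg_left _ (by positivity)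
              exact pow_le_pow_left₀ hkpos.le hkδ _
          _ = 2 ^ (q - M) * (δ ^ M * δ ^ (q - M)) := by rw [mul_pow]; ring
          _ = 2 ^ (q - M) * δ ^ q := by rw [← pow_add, Nat.add_sub_cancel' hqM]
      have hlast : C2 * δ ^ M ≤ Aq / (k : ℝ) ^ (q - M) * δ ^ q := by
        rw [div_mul_eq_mul_div, le_div_iff₀ (by positivity), hAq]
        calc C2 * δ ^ M * (k : ℝ) ^ (q - M) = C2 * (δ ^ M * (k : ℝ) ^ (q - M)) := by ring
          _ ≤ C2 * (2 ^ (q - M) * δ ^ q) := mul_le_mul_of_nonneg_left hpow hC2'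
          _ = C2 * 2 ^ (q - M) * δ ^ q := by ring
      have hpos3 : 0 ≤ A3 * (k : ℝ) ^ (b - 3) * δ ^ 3 := by positivity
      linarith
  -- sums
  have sF := h.summable F C m hFm k
  have s0 := h.sum k
  have s1 : Summable fun l : ℕ => r k l * ((l : ℝ) - k) := by
    obtain ⟨C1, hC1⟩ := h.moment 1
    have := (hC1 k hkn).1
    refine Summable.of_norm_bounded this fun l => ?_
    rw [Real.norm_eq_abs, abs_mul, abs_of_nonneg (h.nonneg k l), pow_one]
  have s2 : Summable fun l : ℕ => r k l * ((l : ℝ) - k) ^ 2 := by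
    obtain ⟨C1, hC1⟩ := h.moment 2
    have := (hC1 k hkn).1
    refine Summable.of_norm_bounded this fun l => ?_
    rw [Real.norm_eq_abs, abs_mul, abs_of_nonneg (h.nonneg k l), abs_pow]
  have hsum : HasSum (fun l => r k l * Rem l)
      (∑' l, r k l * F l - F k - f1 k * ∑' l, r k l * ((l : ℝ) - k) -
        f2 k / 2 * ∑' l, r k l * ((l : ℝ) - k) ^ 2) := by
    have e1 := ((sF.hasSum.sub (s0.mul_left (F k))).sub (s1.hasSum.mul_left (f1 k))).sub
      (s2.hasSum.mul_left (f2 k / 2))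
    rw [mul_one] at e1
    refine e1.congr_fun ?_
    intro l
    simp only [hRem]
    ring
  have m3 := hC3 k hkn
  have mq := hCq k hkn
  have hbound : HasSum (fun l : ℕ => A3 * (k : ℝ) ^ (b - 3) * (r k l * |(l : ℝ) - k| ^ 3) +
      Aq / (k : ℝ) ^ (q - M) * (r k l * |(l : ℝ) - k| ^ q))
      (A3 * (k : ℝ) ^ (b - 3) * (∑' l : ℕ, r k l * |(l : ℝ) - k| ^ 3) +
        Aq / (k : ℝ) ^ (q - M) * (∑' l : ℕ, r k l * |(l : ℝ) - k| ^ q)) :=
    (m3.1.hasSum.mul_left _).add (mq.1.hasSum.mul_left _)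
  have hR := tsum_of_norm_bounded hbound (f := fun l => r k l * Rem l) (by
    intro l
    rw [Real.norm_eq_abs, abs_mul, abs_of_nonneg (h.nonneg k l)]
    have := mul_le_mul_of_nonneg_left (hpt l) (h.nonneg k l)
    calc r k l * |Rem l| ≤ _ := this
      _ = _ := by ring)
  rw [hsum.tsum_eq, Real.norm_eq_abs] at hR
  -- the three contributions
  have key : ∀ s : ℝ, (k : ℝ) ^ (b - 3) * (k : ℝ) ^ s = (k : ℝ) ^ (b - 3 + s) :=
    fun s => (Real.rpow_add hkpos _ _).symm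
  have t1 : A3 * (k : ℝ) ^ (b - 3) * (∑' l : ℕ, r k l * |(l : ℝ) - k| ^ 3) ≤
      A3 * C3 * (k : ℝ) ^ (b - 3 / 2) := by
    have e : A3 * C3 * (k : ℝ) ^ (b - 3 / 2) =
        A3 * (k : ℝ) ^ (b - 3) * (C3 * Real.sqrt k ^ 3) := by
      rw [gen_sqrt_pow _ hkpos.le]
      have : (k : ℝ) ^ (b - 3 / 2) = (k : ℝ) ^ (b - 3) * (k : ℝ) ^ (((3 : ℕ) : ℝ) / 2) := by
        rw [key]
        congr 1
        push_cast
        ring
      rw [this]
      ring
    rw [e]
    exact mul_le_mul_of_nonneg_left m3.2 (by positivity)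
  have t2 : Aq / (k : ℝ) ^ (q - M) * (∑' l : ℕ, r k l * |(l : ℝ) - k| ^ q) ≤
      Aq * Cq * (k : ℝ) ^ (b - 3 / 2) := by
    have e1 : Aq / (k : ℝ) ^ (q - M) * (∑' l : ℕ, r k l * |(l : ℝ) - k| ^ q) ≤
        Aq / (k : ℝ) ^ (q - M) * (Cq * Real.sqrt k ^ q) :=
      mul_le_mul_of_nonneg_left mq.2 (by positivity)
    refine e1.trans ?_
    have e2 : Aq / (k : ℝ) ^ (q - M) * (Cq * Real.sqrt k ^ q) =
        Aq * Cq * ((k : ℝ) ^ ((q : ℝ) / 2) / (k : ℝ) ^ (q - M)) := by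
      rw [gen_sqrt_pow _ hkpos.le]
      ring
    rw [e2]
    apply mul_le_mul_of_nonneg_left _ (by positivity)
    rw [← Real.rpow_natCast, ← Real.rpow_sub hkpos]
    apply Real.rpow_le_rpow_of_exponent_le (by linarith)
    have hqM : M ≤ q := by omega
    rw [Nat.cast_sub hqM]
    have : (q : ℝ) = 2 * (M + B) + 3 := by rw [hq]; push_cast; ring
    rw [this]
    linarith
  have hmean := hCm k hkn
  have hvar := hCv k hkn
  have t3 : |f1 k * (∑' l : ℕ, r k l * ((l : ℝ) - k) - ρ)| ≤ C * Cm * (k : ℝ) ^ (b - 3 / 2) := by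
    rw [abs_mul]
    have e1 : |f1 k| * |∑' l : ℕ, r k l * ((l : ℝ) - k) - ρ| ≤
        (C * (k : ℝ) ^ (b - 1)) * (Cm / Real.sqrt k) :=
      mul_le_mul (c1 k hky) hmean (abs_nonneg _) (by positivity)
    refine e1.trans (le_of_eq ?_)
    have : (k : ℝ) ^ (b - 3 / 2) = (k : ℝ) ^ (b - 1) / Real.sqrt k := by
      rw [Real.sqrt_eq_rpow, ← Real.rpow_sub hkpos]
      congr 1
      ring
    rw [this]
    ring
  have t4 : |f2 k / 2 * (∑' l : ℕ, r k l * ((l : ℝ) - k) ^ 2 - ν * k)| ≤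
      C * Cv / 2 * (k : ℝ) ^ (b - 3 / 2) := by
    rw [abs_mul, abs_div, abs_of_pos (by norm_num : (0 : ℝ) < 2)]
    have e1 : |f2 k| / 2 * |∑' l : ℕ, r k l * ((l : ℝ) - k) ^ 2 - ν * k| ≤
        (C * (k : ℝ) ^ (b - 2) / 2) * (Cv * Real.sqrt k) := by
      apply mul_le_mul _ hvar (abs_nonneg _) (by positivity)
      have := c2 k hky
      linarith
    refine e1.trans (le_of_eq ?_)
    have : (k : ℝ) ^ (b - 3 / 2) = (k : ℝ) ^ (b - 2) * Real.sqrt k := by
      rw [Real.sqrt_eq_rpow, ← Real.rpow_add hkpos]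
      congr 1
      ring
    rw [this]
    ring
  have hsplit : ∑' l, r k l * F l - F k - ρ * f1 k - ν / 2 * (k * f2 k) =
      (∑' l, r k l * F l - F k - f1 k * ∑' l, r k l * ((l : ℝ) - k) -
        f2 k / 2 * ∑' l, r k l * ((l : ℝ) - k) ^ 2) +
      f1 k * (∑' l : ℕ, r k l * ((l : ℝ) - k) - ρ) +
      f2 k / 2 * (∑' l : ℕ, r k l * ((l : ℝ) - k) ^ 2 - ν * k) := by ring
  rw [hsplit]
  have u1 := abs_add_le ((∑' l, r k l * F l - F k - f1 k * ∑' l, r k l * ((l : ℝ) - k) -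
        f2 k / 2 * ∑' l, r k l * ((l : ℝ) - k) ^ 2) +
      f1 k * (∑' l : ℕ, r k l * ((l : ℝ) - k) - ρ))
      (f2 k / 2 * (∑' l : ℕ, r k l * ((l : ℝ) - k) ^ 2 - ν * k))
  have u2 := abs_add_le (∑' l, r k l * F l - F k - f1 k * ∑' l, r k l * ((l : ℝ) - k) -
        f2 k / 2 * ∑' l, r k l * ((l : ℝ) - k) ^ 2)
      (f1 k * (∑' l : ℕ, r k l * ((l : ℝ) - k) - ρ))
  have e : (A3 * C3 + Aq * Cq + C * Cm + C * Cv / 2) * (k : ℝ) ^ (b - 3 / 2) =
      A3 * C3 * (k : ℝ) ^ (b - 3 / 2) + Aq * Cq * (k : ℝ) ^ (b - 3 / 2) +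
      C * Cm * (k : ℝ) ^ (b - 3 / 2) + C * Cv / 2 * (k : ℝ) ^ (b - 3 / 2) := by ring
  rw [e]
  linarith

end Pool.Agent.MP_3aae7f_pr
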