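import Pool.Agent.Lib.MP_3aae7f_pr.CritOps

/-!
Critical case, one site: exact first and second moment identities.
-/

open MeasureTheory ProbabilityTheory
open scoped ENNReal

namespace Pool.Agent.MP_3aae7f_pr

namespace Crit

variable {N : ℕ} {K : Fin N → Fin N → ℝ} {p : Fin N → ℝ}

lemma TT_mono (h : Pos K p) {φ ψ : Fin N → ℝ} (hφ : ∀ i, φ i ≤ ψ i) (i : Fin N) :
    TT K p φ i ≤ TT K p ψ i := by
  have := TT_nonneg h (φ := ψ - φ) (fun i => sub_nonneg.2 (hφ i)) i
  rw [map_sub, Pi.sub_apply] at this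
  linarith

lemma FF_mono (h : Pos K p) {φ ψ : Fin N → ℝ} (hφ : ∀ i, φ i ≤ ψ i) (i : Fin N) :
    FF K p φ i ≤ FF K p ψ i := by
  have := FF_nonneg h (φ := ψ - φ) (fun i => sub_nonneg.2 (hφ i)) i
  rw [map_sub, Pi.sub_apply] at this
  linarith

lemma V_mono (h : Pos K p) (k l : ℕ) {φ ψ : Fin N → ℝ} (hφ : ∀ i, φ i ≤ ψ i) (i : Fin N) :
    V K p k l φ i ≤ V K p k l ψ i := by
  have := V_nonneg h k l (φ := ψ - φ) (fun i => sub_nonneg.2 (hφ i)) i
  rw [map_sub, Pi.sub_apply] at this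
  linarith

/-- weighted sums over words are bounded by a superharmonic function -/
lemma supersum (h : Pos K p) {a b : ℝ} (ha : 0 ≤ a) (hb : 0 ≤ b) {f : Fin N → ℝ}
    (hf : ∀ i, 0 ≤ f i) (hab : ∀ i, a * FF K p f i + b * TT K p f i ≤ f i) (k : ℕ) :
    ∀ (L : ℕ) (i : Fin N), (∑ l ∈ Finset.range L, (a ^ k * b ^ l) • V K p k l f) i ≤ f i := by
  induction k with
  | zero =>
    intro L i
    cases L with
    | zero => simpa using hf i
    | succ L =>
      rw [Finset.sum_range_succ']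
      simp [V_0s, V_00]
  | succ k ihk =>
    intro L
    induction L with
    | zero => intro i; simpa using hf i
    | succ L ihL =>
      intro i
      have e1 : ∑ l ∈ Finset.range (L + 1), (a ^ (k + 1) * b ^ l) • V K p (k + 1) l f =
          FF K p (a • ∑ l ∈ Finset.range (L + 1), (a ^ k * b ^ l) • V K p k l f) +
          TT K p (b • ∑ l ∈ Finset.range L, (a ^ (k + 1) * b ^ l) • V K p (k + 1) l f) := by
        rw [Finset.sum_range_succ', Finset.sum_range_succ' (fun l => (a ^ k * b ^ l) • V K p k l f)]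
        simp only [V_ss, V_s0, smul_add, map_add, map_sum, map_smul, LinearMap.add_apply,
          Module.End.mul_apply, Finset.smul_sum, Finset.sum_add_distrib, smul_smul]
        have e2 : ∀ l, a ^ (k + 1) * b ^ (l + 1) = a * (a ^ k * b ^ (l + 1)) := fun l => by ring
        have e3 : ∀ l, a ^ (k + 1) * b ^ (l + 1) = b * (a ^ (k + 1) * b ^ l) := fun l => by ring
        have e4 : a ^ (k + 1) * b ^ 0 = a * (a ^ k * b ^ 0) := by ring
        have e5 : ∑ x ∈ Finset.range L, (a ^ (k + 1) * b ^ (x + 1)) • FF K p (V K p k (x + 1) f) =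
            ∑ x ∈ Finset.range L, (a * (a ^ k * b ^ (x + 1))) • FF K p (V K p k (x + 1) f) :=
          Finset.sum_congr rfl fun x _ => by rw [e2]
        have e6 : ∑ x ∈ Finset.range L, (a ^ (k + 1) * b ^ (x + 1)) • TT K p (V K p (k + 1) x f) =
            ∑ x ∈ Finset.range L, (b * (a ^ (k + 1) * b ^ x)) • TT K p (V K p (k + 1) x f) :=
          Finset.sum_congr rfl fun x _ => by rw [e3]
        rw [e5, e6, e4]
        abel
      rw [e1, Pi.add_apply]
      refine le_trans (add_le_add ?_ ?_) (hab i)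
      · calc FF K p (a • ∑ l ∈ Finset.range (L + 1), (a ^ k * b ^ l) • V K p k l f) i
            ≤ FF K p (a • f) i := FF_mono h (fun j => by
              simp only [Pi.smul_apply, smul_eq_mul]
              exact mul_le_mul_of_nonneg_left (ihk (L + 1) j) ha) i
          _ = a * FF K p f i := by rw [map_smul]; rfl
      · calc TT K p (b • ∑ l ∈ Finset.range L, (a ^ (k + 1) * b ^ l) • V K p (k + 1) l f) i
            ≤ TT K p (b • f) i := TT_mono h (fun j => by
              simp only [Pi.smul_apply, smul_eq_mul]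
              exact mul_le_mul_of_nonneg_left (ihL j) hb) i
          _ = b * TT K p f i := by rw [map_smul]; rfl

lemma TT_one (h : Pos K p) (i : Fin N) : TT K p (fun _ => 1) i = p i := by
  rw [TT_apply]; simp [h.Ks i]

lemma FF_one (h : Pos K p) (i : Fin N) : FF K p (fun _ => 1) i = 1 - p i := by
  rw [FF_apply]; simp [h.Ks i]

/-- data with a uniform ellipticity constant -/
structure Ell (K : Fin N → Fin N → ℝ) (p : Fin N → ℝ) (ε : ℝ) : Prop extends Pos K p where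
  ε0 : 0 < ε
  ε1 : ε ≤ 1
  le_p : ∀ i, ε ≤ p i
  le_q : ∀ i, ε ≤ 1 - p i

/-- growth at most like `(1 + ε/2)^l` -/
def Tame (ε : ℝ) (u : ℕ → ℝ) : Prop := ∃ C, ∀ l, |u l| ≤ C * (1 + ε / 2) ^ l

lemma tame_const {ε : ℝ} (hε : 0 < ε) (c : ℝ) : Tame ε (fun _ => c) :=
  ⟨|c|, fun l => le_mul_of_one_le_right (abs_nonneg c) (one_le_pow₀ (by linarith))⟩

lemma Tame.add {ε : ℝ} {u v : ℕ → ℝ} (hu : Tame ε u) (hv : Tame ε v) : Tame ε (fun l => u l + v l) := by
  obtain ⟨C, hC⟩ := hu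
  obtain ⟨D, hD⟩ := hv
  refine ⟨C + D, fun l => (abs_add_le _ _).trans ?_⟩
  rw [add_mul]
  exact add_le_add (hC l) (hD l)

lemma Tame.smul {ε : ℝ} {u : ℕ → ℝ} (hu : Tame ε u) (c : ℝ) : Tame ε (fun l => c * u l) := by
  obtain ⟨C, hC⟩ := hu
  refine ⟨|c| * C, fun l => ?_⟩
  rw [abs_mul, mul_assoc]
  exact mul_le_mul_of_nonneg_left (hC l) (abs_nonneg c)

lemma Tame.shift {ε : ℝ} {u : ℕ → ℝ} (hu : Tame ε u) : Tame ε (fun l => u (l + 1)) := by
  obtain ⟨C, hC⟩ := hu
  refine ⟨C * (1 + ε / 2), fun l => (hC (l + 1)).trans (le_of_eq (by ring))⟩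

lemma tame_pow {ε : ℝ} (hε : 0 < ε) (m : ℕ) : Tame ε (fun l => (l : ℝ) ^ m) := by
  have hb : |1 / (1 + ε / 2)| < 1 := by
    rw [abs_of_pos (by positivity), div_lt_one (by positivity)]
    linarith
  have h1 : Filter.Tendsto (fun l : ℕ => (l : ℝ) ^ m * (1 / (1 + ε / 2)) ^ l) Filter.atTop (nhds 0) :=
    tendsto_pow_const_mul_const_pow_of_abs_lt_one m hb
  obtain ⟨C, hC⟩ := h1.bddAbove_range
  refine ⟨C, fun l => ?_⟩
  have h2 : (l : ℝ) ^ m * (1 / (1 + ε / 2)) ^ l ≤ C := hC ⟨l, rfl⟩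
  rw [abs_of_nonneg (by positivity)]
  have h3 : (0 : ℝ) < (1 + ε / 2) ^ l := by positivity
  calc (l : ℝ) ^ m = (l : ℝ) ^ m * (1 / (1 + ε / 2)) ^ l * (1 + ε / 2) ^ l := by
        rw [one_div, inv_pow, mul_assoc, inv_mul_cancel₀ h3.ne', mul_one]
    _ ≤ C * (1 + ε / 2) ^ l := mul_le_mul_of_nonneg_right h2 h3.le

variable {ε : ℝ}

lemma summable_V1 (h : Ell K p ε) (k : ℕ) (i : Fin N) :
    Summable (fun l => (1 + ε / 2) ^ l * V K p k l (fun _ => 1) i) := by
  have hε := h.ε0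
  have hε1 := h.ε1
  have ha : (0 : ℝ) < (ε / 2) ^ k := by positivity
  refine summable_of_sum_range_le (c := 1 / (ε / 2) ^ k) (fun l => mul_nonneg (by positivity)
    (V_nonneg h.toPos k l (fun _ => zero_le_one) i)) fun L => ?_
  have h1 := supersum h.toPos (a := ε / 2) (b := 1 + ε / 2) (by positivity) (by positivity)
    (f := fun _ => 1) (fun _ => zero_le_one) (fun j => by
      rw [FF_one h.toPos, TT_one h.toPos]
      nlinarith [h.le_p j, h.le_q j]) k L i
  rw [le_div_iff₀ ha]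
  refine le_trans (le_of_eq ?_) h1
  rw [Finset.sum_apply, Finset.sum_mul]
  refine Finset.sum_congr rfl fun l _ => ?_
  simp only [Pi.smul_apply, smul_eq_mul]
  ring

lemma abs_V_le (h : Pos K p) (k l : ℕ) (φ : Fin N → ℝ) {C : ℝ} (hC : ∀ i, |φ i| ≤ C) (i : Fin N) :
    |V K p k l φ i| ≤ C * V K p k l (fun _ => 1) i := by
  have e : ∀ c : ℝ, V K p k l (fun _ => c) i = c * V K p k l (fun _ => 1) i := by
    intro c
    have : (fun _ : Fin N => c) = c • (fun _ : Fin N => (1 : ℝ)) := by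
      funext j; simp
    rw [this, map_smul]
    rfl
  rw [abs_le]
  constructor
  · rw [← neg_mul, ← e]
    exact V_mono h k l (fun j => (abs_le.1 (hC j)).1) i
  · rw [← e]
    exact V_mono h k l (fun j => (abs_le.1 (hC j)).2) i

lemma exists_bound (φ : Fin N → ℝ) : ∃ C, 0 ≤ C ∧ ∀ i, |φ i| ≤ C :=
  ⟨∑ i, |φ i|, Finset.sum_nonneg fun _ _ => abs_nonneg _, fun i =>
    Finset.single_le_sum (f := fun i => |φ i|) (fun _ _ => abs_nonneg _) (Finset.mem_univ i)⟩

lemma summable_V (h : Ell K p ε) {u : ℕ → ℝ} (hu : Tame ε u) (k : ℕ) (φ : Fin N → ℝ) (i : Fin N) :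
    Summable (fun l => u l * V K p k l φ i) := by
  obtain ⟨C, hC⟩ := hu
  obtain ⟨D, hD0, hD⟩ := exists_bound φ
  refine Summable.of_norm_bounded (g := fun l => (C * D) * ((1 + ε / 2) ^ l * V K p k l (fun _ => 1) i))
    ((summable_V1 h k i).mul_left _) fun l => ?_
  rw [Real.norm_eq_abs, abs_mul]
  calc |u l| * |V K p k l φ i| ≤ (C * (1 + ε / 2) ^ l) * (D * V K p k l (fun _ => 1) i) :=
        mul_le_mul (hC l) (abs_V_le h.toPos k l φ hD i) (abs_nonneg _) ((abs_nonneg _).trans (hC l))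
    _ = _ := by ring

/-- expectation of `u(E^k) φ(R)` from the cookie `i` -/
noncomputable def EE (K : Fin N → Fin N → ℝ) (p : Fin N → ℝ) (u : ℕ → ℝ) (k : ℕ) (φ : Fin N → ℝ) :
    Fin N → ℝ := fun i => ∑' l, u l * V K p k l φ i

lemma hasSum_EE (h : Ell K p ε) {u : ℕ → ℝ} (hu : Tame ε u) (k : ℕ) (φ : Fin N → ℝ) (i : Fin N) :
    HasSum (fun l => u l * V K p k l φ i) (EE K p u k φ i) := (summable_V h hu k φ i).hasSum

lemma EE_zero (u : ℕ → ℝ) (φ : Fin N → ℝ) : EE K p u 0 φ = u 0 • φ := by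
  funext i
  unfold EE
  rw [tsum_eq_single 0]
  · simp [V_00]
  · intro l hl
    obtain ⟨l, rfl⟩ := Nat.exists_eq_succ_of_ne_zero hl
    rw [Nat.succ_eq_add_one, V_0s]
    simp

lemma TT_hasSum {g : ℕ → Fin N → ℝ} {G : Fin N → ℝ} (hg : ∀ j, HasSum (fun l => g l j) (G j))
    (i : Fin N) : HasSum (fun l => TT K p (g l) i) (TT K p G i) := by
  simp only [TT_apply]
  exact (hasSum_sum fun j _ => (hg j).mul_left (K i j)).mul_left (p i)

lemma FF_hasSum {g : ℕ → Fin N → ℝ} {G : Fin N → ℝ} (hg : ∀ j, HasSum (fun l => g l j) (G j))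
    (i : Fin N) : HasSum (fun l => FF K p (g l) i) (FF K p G i) := TT_hasSum hg i

lemma EE_succ (h : Ell K p ε) {u : ℕ → ℝ} (hu : Tame ε u) (k : ℕ) (φ : Fin N → ℝ) :
    EE K p u (k + 1) φ = FF K p (EE K p u k φ) + TT K p (EE K p (fun l => u (l + 1)) (k + 1) φ) := by
  funext i
  rw [Pi.add_apply]
  have h1 : HasSum (fun l => FF K p (u l • V K p k l φ) i) (FF K p (EE K p u k φ) i) :=
    FF_hasSum (fun j => hasSum_EE h hu k φ j) i
  have h2 : HasSum (fun l => TT K p (u (l + 1) • V K p (k + 1) l φ) i)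
      (TT K p (EE K p (fun l => u (l + 1)) (k + 1) φ) i) :=
    TT_hasSum (fun j => hasSum_EE h (hu.shift) (k + 1) φ j) i
  have h3 := hasSum_EE h hu (k + 1) φ i
  have h4 : HasSum (fun l => u (l + 1) * V K p (k + 1) (l + 1) φ i)
      (EE K p u (k + 1) φ i - u 0 * V K p (k + 1) 0 φ i) := by
    have := (hasSum_nat_add_iff' 1).2 h3
    simpa using this
  have h5 : HasSum (fun l => FF K p (u (l + 1) • V K p k (l + 1) φ) i)
      (FF K p (EE K p u k φ) i - u 0 * V K p (k + 1) 0 φ i) := by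
    have := (hasSum_nat_add_iff' 1).2 h1
    simpa [V_s0] using this
  have h6 := h5.add h2
  have h7 : (fun l => FF K p (u (l + 1) • V K p k (l + 1) φ) i +
      TT K p (u (l + 1) • V K p (k + 1) l φ) i) = fun l => u (l + 1) * V K p (k + 1) (l + 1) φ i := by
    funext l
    rw [V_ss, map_smul, map_smul]
    simp only [Pi.smul_apply, smul_eq_mul, LinearMap.add_apply, Pi.add_apply, Module.End.mul_apply]
    ring
  rw [h7] at h6
  have h8 := h4.unique h6
  linarith

lemma EE_add (h : Ell K p ε) {u v : ℕ → ℝ} (hu : Tame ε u) (hv : Tame ε v) (k : ℕ) (φ : Fin N → ℝ) :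
    EE K p (fun l => u l + v l) k φ = EE K p u k φ + EE K p v k φ := by
  funext i
  have := (hasSum_EE h hu k φ i).add (hasSum_EE h hv k φ i)
  rw [Pi.add_apply, ← this.tsum_eq]
  unfold EE
  exact tsum_congr fun l => by ring

lemma EE_smul (u : ℕ → ℝ) (c : ℝ) (k : ℕ) (φ : Fin N → ℝ) :
    EE K p (fun l => c * u l) k φ = c • EE K p u k φ := by
  funext i
  simp only [Pi.smul_apply, smul_eq_mul]
  unfold EE
  rw [← tsum_mul_left]
  exact tsum_congr fun l => by ring

/-- uniqueness for `x = c + TT x` -/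
lemma TT_fixed (h : Pos K p) {x : Fin N → ℝ} (hx : TT K p x = x) : x = 0 := by
  by_contra hne
  obtain ⟨i0, hi0⟩ : ∃ i, x i ≠ 0 := by
    by_contra hall
    push Not at hall
    exact hne (funext hall)
  obtain ⟨m, -, hm⟩ := Finset.exists_max_image Finset.univ (fun i => |x i|) ⟨i0, Finset.mem_univ i0⟩
  have hpos : 0 < |x m| := (abs_pos.2 hi0).trans_le (hm i0 (Finset.mem_univ i0))
  have h1 : |x m| ≤ p m * |x m| := by
    calc |x m| = |p m * ∑ j, K m j * x j| := by rw [← TT_apply, hx]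
      _ = p m * |∑ j, K m j * x j| := by rw [abs_mul, abs_of_pos (h.p0 m)]
      _ ≤ p m * ∑ j, K m j * |x m| := by
        refine mul_le_mul_of_nonneg_left ?_ (h.p0 m).le
        refine (Finset.abs_sum_le_sum_abs _ _).trans (Finset.sum_le_sum fun j _ => ?_)
        rw [abs_mul, abs_of_nonneg (h.K0 m j)]
        exact mul_le_mul_of_nonneg_left (hm j (Finset.mem_univ j)) (h.K0 m j)
      _ = p m * |x m| := by rw [← Finset.sum_mul, h.Ks m, one_mul]
  nlinarith [h.p1 m]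

/-- uniqueness for recursions -/
lemma rec_unique (h : Pos K p) {X Y : ℕ → Fin N → ℝ} {c : ℕ → Fin N → ℝ} (h0 : X 0 = Y 0)
    (hX : ∀ k, X (k + 1) = c k + FF K p (X k) + TT K p (X (k + 1)))
    (hY : ∀ k, Y (k + 1) = c k + FF K p (Y k) + TT K p (Y (k + 1))) (k : ℕ) : X k = Y k := by
  induction k with
  | zero => exact h0
  | succ k ih =>
    have h1 : TT K p (X (k + 1) - Y (k + 1)) = X (k + 1) - Y (k + 1) := by
      rw [map_sub]
      conv_rhs => rw [hX, hY, ih]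
      abel
    exact sub_eq_zero.1 (TT_fixed h h1)

/-- the law of the cookie after the `k`-th left arrow -/
noncomputable abbrev GG (K : Fin N → Fin N → ℝ) (p : Fin N → ℝ) (k : ℕ) (φ : Fin N → ℝ) : Fin N → ℝ :=
  EE K p (fun _ => 1) k φ

lemma GG_zero (φ : Fin N → ℝ) : GG K p 0 φ = φ := by
  rw [GG, EE_zero, one_smul]

lemma GG_succ (h : Ell K p ε) (k : ℕ) (φ : Fin N → ℝ) :
    GG K p (k + 1) φ = FF K p (GG K p k φ) + TT K p (GG K p (k + 1) φ) :=
  EE_succ h (tame_const h.ε0 1) k φ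

lemma one_eq (h : Pos K p) : (fun _ : Fin N => (1 : ℝ)) = FF K p (fun _ => 1) + TT K p (fun _ => 1) := by
  funext i
  rw [Pi.add_apply, FF_one h, TT_one h]
  ring

lemma GG_one (h : Ell K p ε) (k : ℕ) : GG K p k (fun _ => 1) = fun _ => 1 := by
  refine rec_unique h.toPos (X := fun k => GG K p k (fun _ => 1)) (Y := fun _ => fun _ => 1) (c := 0)
    (GG_zero _) (fun k => ?_) (fun k => ?_) k
  · rw [Pi.zero_apply, zero_add]; exact GG_succ h k _
  · rw [Pi.zero_apply, zero_add]; exact one_eq h.toPos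

lemma tame_id (hε : 0 < ε) (c : ℝ) : Tame ε (fun l => (l : ℝ) - c) := by
  have h1 := (tame_pow hε 1).add (tame_const hε (-c))
  simpa [sub_eq_add_neg] using h1

lemma tame_sq (hε : 0 < ε) (c : ℝ) : Tame ε (fun l => ((l : ℝ) - c) ^ 2) := by
  have h1 := ((tame_pow hε 2).add ((tame_pow hε 1).smul (-2 * c))).add (tame_const hε (c ^ 2))
  have e : (fun l : ℕ => ((l : ℝ) - c) ^ 2) =
      fun l : ℕ => (l : ℝ) ^ 2 + -2 * c * (l : ℝ) ^ 1 + c ^ 2 := by funext l; ring
  rw [e]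
  exact h1

/-- solution of the Poisson equation `h - K h = 2 p - 1` -/
def IsPoisson (K : Fin N → Fin N → ℝ) (p : Fin N → ℝ) (h : Fin N → ℝ) : Prop :=
  ∀ i, h i - ∑ j, K i j * h j = 2 * p i - 1

lemma FF_add_TT (φ : Fin N → ℝ) (i : Fin N) : FF K p φ i + TT K p φ i = ∑ j, K i j * φ j := by
  rw [FF_apply, TT_apply]; ring

lemma EE_shift_id (h : Ell K p ε) (k : ℕ) (c : ℝ) (φ : Fin N → ℝ) :
    EE K p (fun l => (l : ℝ) - (c + 1)) k φ = EE K p (fun l => (l : ℝ) - c) k φ - GG K p k φ := by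
  have h1 := EE_add h (tame_id h.ε0 c) (tame_const h.ε0 (-1)) k φ
  have h2 := EE_smul (K := K) (p := p) (fun _ => 1) (-1) k φ
  have e1 : (fun l : ℕ => (l : ℝ) - (c + 1)) = fun l : ℕ => (l : ℝ) - c + (-1) := by funext l; ring
  have e2 : (fun _ : ℕ => (-1 : ℝ)) = fun l : ℕ => -1 * (fun _ : ℕ => (1 : ℝ)) l := by funext l; norm_num
  rw [e1, h1, e2, h2, neg_one_smul, sub_eq_add_neg]

lemma EE_cast_succ (u : ℕ → ℝ) (k : ℕ) (φ : Fin N → ℝ) {v : ℕ → ℝ} (huv : ∀ l, u l = v l) :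
    EE K p u k φ = EE K p v k φ := by
  have : u = v := funext huv
  rw [this]

/-- first moment identity -/
theorem first_moment (h : Ell K p ε) {g : Fin N → ℝ} (hg : IsPoisson K p g) (k : ℕ) :
    EE K p (fun l => (l : ℝ) - k) k (fun _ => 1) + GG K p k g = g := by
  refine rec_unique h.toPos (X := fun k => EE K p (fun l => (l : ℝ) - k) k (fun _ => 1) + GG K p k g)
    (Y := fun _ => g) (c := fun _ => TT K p (fun _ => 1) - FF K p (fun _ => 1)) ?_ (fun k => ?_)
    (fun k => ?_) k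
  · simp only [EE_zero]
    simp
  · have hE := EE_succ h (tame_id h.ε0 ((k + 1 : ℕ) : ℝ)) k (fun _ => 1)
    have hG := GG_succ h k g
    have b1 : EE K p (fun l : ℕ => (l : ℝ) - ((k + 1 : ℕ) : ℝ)) k (fun _ => 1) =
        EE K p (fun l : ℕ => (l : ℝ) - (k : ℝ)) k (fun _ => 1) - (fun _ => 1) := by
      have b0 := EE_shift_id h k (k : ℝ) (fun _ => 1)
      rw [GG_one h] at b0
      rw [← b0]
      exact EE_cast_succ _ _ _ fun l => by push_cast; ring
    have b2 : EE K p (fun l : ℕ => ((l + 1 : ℕ) : ℝ) - ((k + 1 : ℕ) : ℝ)) (k + 1) (fun _ => 1) =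
        EE K p (fun l : ℕ => (l : ℝ) - ((k + 1 : ℕ) : ℝ)) (k + 1) (fun _ => 1) + (fun _ => 1) := by
      have b3 := EE_shift_id h (k + 1) (k : ℝ) (fun _ => 1)
      rw [GG_one h] at b3
      rw [EE_cast_succ (v := fun l : ℕ => (l : ℝ) - (k : ℝ)) _ _ _ fun l => by push_cast; ring,
        EE_cast_succ (v := fun l : ℕ => (l : ℝ) - ((k : ℝ) + 1)) (fun l : ℕ => (l : ℝ) - ((k + 1 : ℕ) : ℝ))
          _ _ fun l => by push_cast; ring, b3]
      abel
    rw [b1, b2] at hE
    funext i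
    have hE' := congrFun hE i
    have hG' := congrFun hG i
    simp only [map_add, map_sub, Pi.add_apply, Pi.sub_apply] at hE' hG' ⊢
    linarith
  · funext i
    have := hg i
    rw [← FF_add_TT (p := p)] at this
    simp only [Pi.add_apply, Pi.sub_apply, TT_one h.toPos, FF_one h.toPos]
    linarith

/-- the increment variance of the martingale -/
noncomputable def gg (K : Fin N → Fin N → ℝ) (p g : Fin N → ℝ) (i : Fin N) : ℝ :=
  1 + 2 * (TT K p g i - FF K p g i) + ∑ j, K i j * g j ^ 2 - g i ^ 2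

/-- second moment of the stopped martingale -/
noncomputable def XX (K : Fin N → Fin N → ℝ) (p g : Fin N → ℝ) (k : ℕ) : Fin N → ℝ :=
  EE K p (fun l => ((l : ℝ) - k) ^ 2) k (fun _ => 1) + (2 : ℝ) • EE K p (fun l => (l : ℝ) - k) k g +
    GG K p k (fun i => g i ^ 2)

lemma EE_shift_sq (h : Ell K p ε) (k : ℕ) (c : ℝ) (φ : Fin N → ℝ) :
    EE K p (fun l => ((l : ℝ) - (c + 1)) ^ 2) k φ = EE K p (fun l => ((l : ℝ) - c) ^ 2) k φ -
      (2 : ℝ) • EE K p (fun l => (l : ℝ) - c) k φ + GG K p k φ := by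
  have h1 := EE_add h ((tame_sq h.ε0 c).add ((tame_id h.ε0 c).smul (-2))) (tame_const h.ε0 1) k φ
  have h2 := EE_add h (tame_sq h.ε0 c) ((tame_id h.ε0 c).smul (-2)) k φ
  have h3 := EE_smul (K := K) (p := p) (fun l : ℕ => (l : ℝ) - c) (-2) k φ
  rw [h2, h3] at h1
  rw [EE_cast_succ (v := fun l : ℕ => ((l : ℝ) - c) ^ 2 + -2 * ((l : ℝ) - c) + 1) _ _ _
    fun l => by ring, h1, neg_smul]
  abel

lemma XX_succ (h : Ell K p ε) {g : Fin N → ℝ} (hg : IsPoisson K p g) (k : ℕ) :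
    XX K p g (k + 1) = (fun i => 1 + 2 * (TT K p g i - FF K p g i)) + FF K p (XX K p g k) +
      TT K p (XX K p g (k + 1)) := by
  -- the three recursions
  have hE2 := EE_succ h (tame_sq h.ε0 ((k + 1 : ℕ) : ℝ)) k (fun _ => 1)
  have hE1 := EE_succ h (tame_id h.ε0 ((k + 1 : ℕ) : ℝ)) k g
  have hG := GG_succ h k (fun i => g i ^ 2)
  -- shifts
  have a1 : EE K p (fun l : ℕ => ((l : ℝ) - ((k + 1 : ℕ) : ℝ)) ^ 2) k (fun _ => 1) =
      EE K p (fun l : ℕ => ((l : ℝ) - (k : ℝ)) ^ 2) k (fun _ => 1) -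
      (2 : ℝ) • EE K p (fun l : ℕ => (l : ℝ) - (k : ℝ)) k (fun _ => 1) + (fun _ => 1) := by
    have := EE_shift_sq h k (k : ℝ) (fun _ => 1)
    rw [GG_one h] at this
    rw [← this]
    exact EE_cast_succ _ _ _ fun l => by push_cast; ring
  have a2 : EE K p (fun l : ℕ => (((l + 1 : ℕ) : ℝ) - ((k + 1 : ℕ) : ℝ)) ^ 2) (k + 1) (fun _ => 1) =
      EE K p (fun l : ℕ => ((l : ℝ) - ((k + 1 : ℕ) : ℝ)) ^ 2) (k + 1) (fun _ => 1) +
      (2 : ℝ) • EE K p (fun l : ℕ => (l : ℝ) - ((k + 1 : ℕ) : ℝ)) (k + 1) (fun _ => 1) +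
      (fun _ => 1) := by
    have b1 := EE_shift_sq h (k + 1) (k : ℝ) (fun _ => 1)
    have b2 := EE_shift_id h (k + 1) (k : ℝ) (fun _ => 1)
    rw [GG_one h] at b1 b2
    rw [EE_cast_succ (v := fun l : ℕ => ((l : ℝ) - (k : ℝ)) ^ 2) _ _ _ fun l => by push_cast; ring,
      EE_cast_succ (v := fun l : ℕ => ((l : ℝ) - ((k : ℝ) + 1)) ^ 2)
        (fun l : ℕ => ((l : ℝ) - ((k + 1 : ℕ) : ℝ)) ^ 2) _ _ fun l => by push_cast; ring,
      EE_cast_succ (v := fun l : ℕ => (l : ℝ) - ((k : ℝ) + 1))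
        (fun l : ℕ => (l : ℝ) - ((k + 1 : ℕ) : ℝ)) _ _ fun l => by push_cast; ring, b1, b2, smul_sub]
    have : (2 : ℝ) • (fun _ : Fin N => (1 : ℝ)) = (fun _ => 1) + fun _ => 1 := by
      funext i; simp; norm_num
    rw [this]
    abel
  have a3 : EE K p (fun l : ℕ => (l : ℝ) - ((k + 1 : ℕ) : ℝ)) k g =
      EE K p (fun l : ℕ => (l : ℝ) - (k : ℝ)) k g - GG K p k g := by
    rw [← EE_shift_id h]
    exact EE_cast_succ _ _ _ fun l => by push_cast; ring
  have a4 : EE K p (fun l : ℕ => ((l + 1 : ℕ) : ℝ) - ((k + 1 : ℕ) : ℝ)) (k + 1) g =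
      EE K p (fun l : ℕ => (l : ℝ) - ((k + 1 : ℕ) : ℝ)) (k + 1) g + GG K p (k + 1) g := by
    have b3 := EE_shift_id h (k + 1) (k : ℝ) g
    rw [EE_cast_succ (v := fun l : ℕ => (l : ℝ) - (k : ℝ)) _ _ _ fun l => by push_cast; ring,
      EE_cast_succ (v := fun l : ℕ => (l : ℝ) - ((k : ℝ) + 1)) (fun l : ℕ => (l : ℝ) - ((k + 1 : ℕ) : ℝ))
        _ _ fun l => by push_cast; ring, b3]
    abel
  -- first moments
  have m0 := first_moment h hg k
  have m1 := first_moment h hg (k + 1)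
  have m0' := congrArg (FF K p) m0
  have m1' := congrArg (TT K p) m1
  rw [a1, a2] at hE2
  rw [a3, a4] at hE1
  have f1 := FF_one h.toPos
  have t1 := TT_one h.toPos
  funext i
  have e2 := congrFun hE2 i
  have e1 := congrFun hE1 i
  have eG := congrFun hG i
  have e3 := congrFun m0' i
  have e4 := congrFun m1' i
  simp only [XX, map_add, map_sub, map_smul, Pi.add_apply, Pi.sub_apply, Pi.smul_apply, smul_eq_mul,
    f1, t1] at e2 e1 eG e3 e4 ⊢
  linarith

/-- the solution of the Poisson equation for `gg` -/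
def IsPoisson2 (K : Fin N → Fin N → ℝ) (p g w : Fin N → ℝ) (qb : ℝ) : Prop :=
  ∀ i, w i - ∑ j, K i j * w j = gg K p g i - qb

/-- second moment identity -/
theorem second_moment (h : Ell K p ε) {g w : Fin N → ℝ} {qb : ℝ} (hg : IsPoisson K p g)
    (hw : IsPoisson2 K p g w qb) (k : ℕ) :
    XX K p g k = fun i => g i ^ 2 + (qb * (2 * k + g i - GG K p k g i) + w i - GG K p k w i) := by
  refine rec_unique h.toPos (X := fun k => XX K p g k)
    (Y := fun k i => g i ^ 2 + (qb * (2 * k + g i - GG K p k g i) + w i - GG K p k w i))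
    (c := fun _ i => 1 + 2 * (TT K p g i - FF K p g i)) ?_ (fun k => ?_) (fun k => ?_) k
  · funext i
    simp [XX, EE_zero]
  · exact XX_succ h hg k
  · have hGg := GG_succ h k g
    have hGw := GG_succ h k w
    have d1 : (fun i => g i ^ 2 + (qb * (2 * (k : ℝ) + g i - GG K p k g i) + w i - GG K p k w i)) =
        (fun i => g i ^ 2) + (2 * qb * k) • (fun _ : Fin N => (1 : ℝ)) + qb • g - qb • GG K p k g + w -
          GG K p k w := by
      funext i; simp; ring
    have d2 : (fun i => g i ^ 2 + (qb * (2 * ((k + 1 : ℕ) : ℝ) + g i - GG K p (k + 1) g i) + w i -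
          GG K p (k + 1) w i)) =
        (fun i => g i ^ 2) + (2 * qb * (k + 1)) • (fun _ : Fin N => (1 : ℝ)) + qb • g -
          qb • GG K p (k + 1) g + w - GG K p (k + 1) w := by
      funext i; simp; ring
    rw [d1, d2]
    funext i
    have e1 := congrFun hGg i
    have e2 := congrFun hGw i
    have e3 := hg i
    have e4 := hw i
    unfold gg at e4
    rw [← FF_add_TT (p := p)] at e3 e4
    rw [← FF_add_TT (p := p) (fun j => g j ^ 2)] at e4
    simp only [map_add, map_sub, map_smul, Pi.add_apply, Pi.sub_apply, Pi.smul_apply, smul_eq_mul,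
      FF_one h.toPos, TT_one h.toPos] at e1 e2 ⊢
    have e1' : qb * GG K p (k + 1) g i = qb * (FF K p (GG K p k g) i + TT K p (GG K p (k + 1) g) i) := by
      rw [← e1]
    have e3' : qb * (g i - (FF K p g i + TT K p g i)) = qb * (2 * p i - 1) := by rw [e3]
    linarith

end Crit

end Pool.Agent.MP_3aae7f_pr
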