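import Pool.Agent.Lib.MP_3aae7f_pr.Site2

/-!
Critical case, one site: the operators of right and left arrows and the law of the number of `true`s
before the `k`-th `false`.
-/

open MeasureTheory ProbabilityTheory
open scoped ENNReal

namespace Pool.Agent.MP_3aae7f_pr

namespace Crit

variable {N : ℕ}

/-- right arrow: `φ ↦ p · Kφ` -/
noncomputable def TT (K : Fin N → Fin N → ℝ) (p : Fin N → ℝ) : Module.End ℝ (Fin N → ℝ) where
  toFun φ i := p i * ∑ j, K i j * φ j
  map_add' φ ψ := by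
    funext i
    simp only [Pi.add_apply, mul_add, Finset.sum_add_distrib]
  map_smul' c φ := by
    funext i
    simp only [Pi.smul_apply, smul_eq_mul, RingHom.id_apply]
    rw [Finset.mul_sum, Finset.mul_sum, Finset.mul_sum]
    exact Finset.sum_congr rfl fun j _ => by ring

/-- left arrow: `φ ↦ (1 - p) · Kφ` -/
noncomputable def FF (K : Fin N → Fin N → ℝ) (p : Fin N → ℝ) : Module.End ℝ (Fin N → ℝ) :=
  TT K (fun i => 1 - p i)

lemma TT_apply (K : Fin N → Fin N → ℝ) (p : Fin N → ℝ) (φ : Fin N → ℝ) (i : Fin N) :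
    TT K p φ i = p i * ∑ j, K i j * φ j := rfl

lemma FF_apply (K : Fin N → Fin N → ℝ) (p : Fin N → ℝ) (φ : Fin N → ℝ) (i : Fin N) :
    FF K p φ i = (1 - p i) * ∑ j, K i j * φ j := rfl

/-- sum over all words with `k` left and `l` right arrows -/
noncomputable def U (K : Fin N → Fin N → ℝ) (p : Fin N → ℝ) : ℕ → ℕ → Module.End ℝ (Fin N → ℝ)
  | 0, 0 => 1
  | 0, l + 1 => TT K p * U K p 0 l
  | k + 1, 0 => FF K p * U K p k 0
  | k + 1, l + 1 => FF K p * U K p k (l + 1) + TT K p * U K p (k + 1) l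

/-- sum over all words with `k` left and `l` right arrows that end with a left arrow (or are
empty) -/
noncomputable def V (K : Fin N → Fin N → ℝ) (p : Fin N → ℝ) : ℕ → ℕ → Module.End ℝ (Fin N → ℝ)
  | 0, 0 => 1
  | 0, _ + 1 => 0
  | k + 1, 0 => FF K p * V K p k 0
  | k + 1, l + 1 => FF K p * V K p k (l + 1) + TT K p * V K p (k + 1) l

variable (K : Fin N → Fin N → ℝ) (p : Fin N → ℝ)

lemma U_00 : U K p 0 0 = 1 := by rw [U]
lemma U_0s (l : ℕ) : U K p 0 (l + 1) = TT K p * U K p 0 l := by rw [U]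
lemma U_s0 (k : ℕ) : U K p (k + 1) 0 = FF K p * U K p k 0 := by rw [U]
lemma U_ss (k l : ℕ) : U K p (k + 1) (l + 1) = FF K p * U K p k (l + 1) + TT K p * U K p (k + 1) l := by
  rw [U]
lemma V_00 : V K p 0 0 = 1 := by rw [V]
lemma V_0s (l : ℕ) : V K p 0 (l + 1) = 0 := by rw [V]
lemma V_s0 (k : ℕ) : V K p (k + 1) 0 = FF K p * V K p k 0 := by rw [V]
lemma V_ss (k l : ℕ) : V K p (k + 1) (l + 1) = FF K p * V K p k (l + 1) + TT K p * V K p (k + 1) l := by
  rw [V]

lemma U_0s' (l : ℕ) : U K p 0 (l + 1) = U K p 0 l * TT K p := by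
  induction l with
  | zero => rw [U_0s, U_00, mul_one, one_mul]
  | succ l ih => rw [U_0s, ih, ← mul_assoc, ← U_0s, ih]

lemma U_s0' (k : ℕ) : U K p (k + 1) 0 = U K p k 0 * FF K p := by
  induction k with
  | zero => rw [U_s0, U_00, mul_one, one_mul]
  | succ k ih => rw [U_s0, ih, ← mul_assoc, ← U_s0, ih]

lemma U_ss' (k l : ℕ) : U K p (k + 1) (l + 1) = U K p k (l + 1) * FF K p + U K p (k + 1) l * TT K p := by
  induction k generalizing l with
  | zero =>
    induction l with
    | zero => rw [U_ss, U_0s, U_s0, U_00, mul_one, mul_one, add_comm]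
    | succ l ih =>
      calc U K p (0 + 1) (l + 1 + 1) = FF K p * U K p 0 (l + 1 + 1) + TT K p * U K p (0 + 1) (l + 1) :=
            U_ss K p 0 (l + 1)
        _ = FF K p * (U K p 0 (l + 1) * TT K p) +
            TT K p * (U K p 0 (l + 1) * FF K p + U K p (0 + 1) l * TT K p) := by
            rw [U_0s' K p (l + 1), ih]
        _ = (TT K p * U K p 0 (l + 1)) * FF K p +
            (FF K p * U K p 0 (l + 1) + TT K p * U K p (0 + 1) l) * TT K p := by
            noncomm_ring
        _ = _ := by rw [← U_0s K p (l + 1), ← U_ss K p 0 l]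
  | succ k ihk =>
    induction l with
    | zero =>
      calc U K p (k + 1 + 1) (0 + 1) = FF K p * U K p (k + 1) (0 + 1) + TT K p * U K p (k + 1 + 1) 0 :=
            U_ss K p (k + 1) 0
        _ = FF K p * (U K p k (0 + 1) * FF K p + U K p (k + 1) 0 * TT K p) +
            TT K p * (U K p (k + 1) 0 * FF K p) := by
            rw [ihk, U_s0' K p (k + 1)]
        _ = (FF K p * U K p k (0 + 1) + TT K p * U K p (k + 1) 0) * FF K p +
            (FF K p * U K p (k + 1) 0) * TT K p := by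
            noncomm_ring
        _ = _ := by rw [← U_s0 K p (k + 1), ← U_ss K p k 0]
    | succ l ih =>
      calc U K p (k + 1 + 1) (l + 1 + 1)
          = FF K p * U K p (k + 1) (l + 1 + 1) + TT K p * U K p (k + 1 + 1) (l + 1) :=
            U_ss K p (k + 1) (l + 1)
        _ = FF K p * (U K p k (l + 1 + 1) * FF K p + U K p (k + 1) (l + 1) * TT K p) +
            TT K p * (U K p (k + 1) (l + 1) * FF K p + U K p (k + 1 + 1) l * TT K p) := by
            rw [ihk, ih]
        _ = (FF K p * U K p k (l + 1 + 1) + TT K p * U K p (k + 1) (l + 1)) * FF K p +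
            (FF K p * U K p (k + 1) (l + 1) + TT K p * U K p (k + 1 + 1) l) * TT K p := by
            noncomm_ring
        _ = _ := by rw [← U_ss K p k (l + 1), ← U_ss K p (k + 1) l]

lemma V_eq_U (k l : ℕ) : V K p (k + 1) l = U K p k l * FF K p := by
  induction k generalizing l with
  | zero =>
    induction l with
    | zero => rw [V_s0, V_00, U_00, mul_one, one_mul]
    | succ l ih => rw [V_ss, V_0s, mul_zero, zero_add, ih, U_0s, mul_assoc]
  | succ k ihk =>
    induction l with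
    | zero => rw [V_s0, ihk, U_s0, mul_assoc]
    | succ l ih => rw [V_ss, ihk, ih, U_ss, add_mul, mul_assoc, mul_assoc]

/-! ### positivity -/

section pos

variable {K p}

/-- nonnegative data -/
structure Pos (K : Fin N → Fin N → ℝ) (p : Fin N → ℝ) : Prop where
  K0 : ∀ i j, 0 ≤ K i j
  Ks : ∀ i, ∑ j, K i j = 1
  p0 : ∀ i, 0 < p i
  p1 : ∀ i, p i < 1

lemma TT_nonneg (h : Pos K p) {φ : Fin N → ℝ} (hφ : ∀ i, 0 ≤ φ i) (i : Fin N) : 0 ≤ TT K p φ i :=
  mul_nonneg (h.p0 i).le (Finset.sum_nonneg fun j _ => mul_nonneg (h.K0 i j) (hφ j))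

lemma FF_nonneg (h : Pos K p) {φ : Fin N → ℝ} (hφ : ∀ i, 0 ≤ φ i) (i : Fin N) : 0 ≤ FF K p φ i :=
  mul_nonneg (by linarith [h.p1 i]) (Finset.sum_nonneg fun j _ => mul_nonneg (h.K0 i j) (hφ j))

lemma U_nonneg (h : Pos K p) (k l : ℕ) {φ : Fin N → ℝ} (hφ : ∀ i, 0 ≤ φ i) (i : Fin N) :
    0 ≤ U K p k l φ i := by
  induction k generalizing l i with
  | zero =>
    induction l generalizing i with
    | zero => rw [U_00]; exact hφ i
    | succ l ih => rw [U_0s]; exact TT_nonneg h (fun j => ih j) i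
  | succ k ihk =>
    induction l generalizing i with
    | zero => rw [U_s0]; exact FF_nonneg h (fun j => ihk 0 j) i
    | succ l ih =>
      rw [U_ss]
      exact add_nonneg (FF_nonneg h (fun j => ihk (l + 1) j) i) (TT_nonneg h (fun j => ih j) i)

lemma V_nonneg (h : Pos K p) (k l : ℕ) {φ : Fin N → ℝ} (hφ : ∀ i, 0 ≤ φ i) (i : Fin N) :
    0 ≤ V K p k l φ i := by
  cases k with
  | zero =>
    cases l with
    | zero => rw [V_00]; exact hφ i
    | succ l => rw [V_0s]; exact le_rfl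
  | succ k =>
    rw [V_eq_U]
    exact U_nonneg h k l (fun j => FF_nonneg h hφ j) i

end pos

/-! ### the law of the number of right arrows before the `k`-th left arrow -/

/-- the words of length `m` with `l` letters `true` -/
noncomputable def JJ (p : Fin N → ℝ) (ρ : Measure (ℕ → Fin N)) (m l : ℕ) (φ : Fin N → ℝ≥0∞) : ℝ≥0∞ :=
  ∑ σ : Fin m → Bool, if ∑ j, (σ j).toNat = l then
    ∫⁻ e, (∏ j : Fin m, qq p (σ j) (e j)) * φ (e m) ∂ρ else 0

/-- one arrow `b` -/
noncomputable def OE (K : Fin N → Fin N → ℝ) (p : Fin N → ℝ) (b : Bool) (φ : Fin N → ℝ≥0∞) :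
    Fin N → ℝ≥0∞ := fun i => qq p b i * ∑ j, ENNReal.ofReal (K i j) * φ j

variable {K p} {η : Fin N → ℝ} {ρ : Measure (ℕ → Fin N)} {W : Measure (ℕ → Bool)}

lemma JJ_step (h : SiteLaw K p η ρ W) [NeZero N] (hη : ∀ i, 0 ≤ η i) (hK : ∀ i j, 0 ≤ K i j)
    (m : ℕ) (b : Bool) (σ : Fin m → Bool) (φ : Fin N → ℝ≥0∞) :
    ∫⁻ e, (∏ j : Fin (m + 1), qq p ((Fin.snoc σ b : Fin (m + 1) → Bool) j) (e j)) * φ (e (m + 1)) ∂ρ
      = ∫⁻ e, (∏ j : Fin m, qq p (σ j) (e j)) * OE K p b φ (e m) ∂ρ := by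
  rw [h.markov hη hK m (fun r => ∏ j : Fin (m + 1), qq p ((Fin.snoc σ b : Fin (m + 1) → Bool) j) (r j)) φ]
  refine lintegral_congr fun e => ?_
  rw [Fin.prod_univ_castSucc]
  simp only [Fin.snoc_castSucc, Fin.snoc_last, Fin.val_castSucc, Fin.val_last]
  rw [mul_assoc]
  rfl

lemma JJ_succ (h : SiteLaw K p η ρ W) [NeZero N] (hη : ∀ i, 0 ≤ η i) (hK : ∀ i j, 0 ≤ K i j)
    (m l : ℕ) (φ : Fin N → ℝ≥0∞) :
    JJ p ρ (m + 1) (l + 1) φ = JJ p ρ m (l + 1) (OE K p false φ) + JJ p ρ m l (OE K p true φ) := by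
  unfold JJ
  rw [← (Fin.snocEquiv (fun _ : Fin (m + 1) => Bool)).sum_comp, Fintype.sum_prod_type]
  rw [Fintype.sum_bool, add_comm]
  have e : ∀ (b : Bool) (σ : Fin m → Bool),
      (Fin.snocEquiv (fun _ : Fin (m + 1) => Bool)) (b, σ) = Fin.snoc σ b := fun _ _ => rfl
  simp only [e]
  refine congrArg₂ (· + ·) (Finset.sum_congr rfl fun σ _ => ?_) (Finset.sum_congr rfl fun σ _ => ?_)
  · rw [Fin.sum_univ_castSucc]
    simp only [Fin.snoc_castSucc, Fin.snoc_last, Bool.toNat_false, add_zero]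
    split_ifs
    · exact JJ_step h hη hK m false σ φ
    · rfl
  · rw [Fin.sum_univ_castSucc]
    simp only [Fin.snoc_castSucc, Fin.snoc_last, Bool.toNat_true, Nat.add_right_cancel_iff]
    split_ifs
    · exact JJ_step h hη hK m true σ φ
    · rfl

lemma JJ_succ_zero (h : SiteLaw K p η ρ W) [NeZero N] (hη : ∀ i, 0 ≤ η i) (hK : ∀ i j, 0 ≤ K i j)
    (m : ℕ) (φ : Fin N → ℝ≥0∞) :
    JJ p ρ (m + 1) 0 φ = JJ p ρ m 0 (OE K p false φ) := by
  unfold JJ
  rw [← (Fin.snocEquiv (fun _ : Fin (m + 1) => Bool)).sum_comp, Fintype.sum_prod_type]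
  rw [Fintype.sum_bool, add_comm]
  have e : ∀ (b : Bool) (σ : Fin m → Bool),
      (Fin.snocEquiv (fun _ : Fin (m + 1) => Bool)) (b, σ) = Fin.snoc σ b := fun _ _ => rfl
  simp only [e]
  have h2 : ∑ x : Fin m → Bool, (if ∑ j, ((Fin.snoc x true : Fin (m + 1) → Bool) j).toNat = 0 then
      ∫⁻ e, (∏ j : Fin (m + 1), qq p ((Fin.snoc x true : Fin (m + 1) → Bool) j) (e j)) * φ (e (m + 1)) ∂ρ
      else 0) = 0 := by
    refine Finset.sum_eq_zero fun σ _ => ?_
    rw [Fin.sum_univ_castSucc]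
    simp
  rw [h2, add_zero]
  refine Finset.sum_congr rfl fun σ _ => ?_
  rw [Fin.sum_univ_castSucc]
  simp only [Fin.snoc_castSucc, Fin.snoc_last, Bool.toNat_false, add_zero]
  split_ifs
  · exact JJ_step h hη hK m false σ φ
  · rfl

lemma JJ_top (h : SiteLaw K p η ρ W) [NeZero N] (hη : ∀ i, 0 ≤ η i) (hK : ∀ i j, 0 ≤ K i j)
    (m : ℕ) (φ : Fin N → ℝ≥0∞) : ∀ l, m < l → JJ p ρ m l φ = 0 := by
  induction m generalizing φ with
  | zero =>
    intro l hl
    unfold JJ
    refine Finset.sum_eq_zero fun σ _ => ?_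
    rw [if_neg]
    simp
    omega
  | succ m ih =>
    intro l hl
    obtain ⟨l, rfl⟩ : ∃ l', l = l' + 1 := ⟨l - 1, by omega⟩
    rw [JJ_succ h hη hK, ih _ _ (by omega), ih _ _ (by omega), add_zero]

lemma OE_ofReal (hP : Pos K p) (b : Bool) {φ : Fin N → ℝ} (hφ : ∀ i, 0 ≤ φ i) :
    OE K p b (fun i => ENNReal.ofReal (φ i)) =
      fun i => ENNReal.ofReal ((if b = true then TT K p else FF K p) φ i) := by
  funext i
  unfold OE qq
  have h1 : ∑ j, ENNReal.ofReal (K i j) * ENNReal.ofReal (φ j) = ENNReal.ofReal (∑ j, K i j * φ j) := by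
    rw [ENNReal.ofReal_sum_of_nonneg fun j _ => mul_nonneg (hP.K0 i j) (hφ j)]
    exact Finset.sum_congr rfl fun j _ => (ENNReal.ofReal_mul (hP.K0 i j)).symm
  rw [h1]
  cases b
  · rw [← ENNReal.ofReal_mul (by simp; linarith [hP.p1 i])]
    simp [FF_apply]
  · rw [← ENNReal.ofReal_mul (by simp; linarith [hP.p0 i])]
    simp [TT_apply]

lemma JJ_eq (h : SiteLaw K p η ρ W) [NeZero N] (hη : ∀ i, 0 ≤ η i) (hP : Pos K p) :
    ∀ (m k l : ℕ), k + l = m → ∀ (φ : Fin N → ℝ), (∀ i, 0 ≤ φ i) →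
    JJ p ρ m l (fun i => ENNReal.ofReal (φ i)) = ENNReal.ofReal (∑ i, η i * U K p k l φ i) := by
  intro m
  induction m with
  | zero =>
    intro k l hkl φ hφ
    obtain ⟨rfl, rfl⟩ : k = 0 ∧ l = 0 := by omega
    unfold JJ
    rw [Fintype.sum_unique, U_00]
    simp only [Finset.univ_eq_empty, Finset.sum_empty, Finset.prod_empty, one_mul, if_true,
      Module.End.one_apply]
    have h1 := lintegral_first ρ 1 (fun r => ENNReal.ofReal (φ (r 0)))
    simp only [Fin.val_zero] at h1
    rw [h1, ← (Equiv.funUnique (Fin 1) (Fin N)).symm.sum_comp,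
      ENNReal.ofReal_sum_of_nonneg fun i _ => mul_nonneg (hη i) (hφ i)]
    refine Finset.sum_congr rfl fun i _ => ?_
    rw [h.chain_fin 0]
    simp only [Finset.univ_eq_empty, Finset.prod_empty, mul_one]
    have e1 : (Equiv.funUnique (Fin 1) (Fin N)).symm i 0 = i := rfl
    rw [e1, ENNReal.ofReal_mul (hη i), mul_comm]
  | succ m ih =>
    intro k l hkl φ hφ
    cases l with
    | zero =>
      obtain ⟨k, rfl⟩ : ∃ k', k = k' + 1 := ⟨k - 1, by omega⟩
      rw [JJ_succ_zero h hη hP.K0, OE_ofReal hP false hφ, U_s0']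
      simp only [Bool.false_eq_true, if_false]
      exact ih k 0 (by omega) _ (fun i => FF_nonneg hP hφ i)
    | succ l =>
      rw [JJ_succ h hη hP.K0, OE_ofReal hP false hφ, OE_ofReal hP true hφ]
      simp only [Bool.false_eq_true, if_false, if_true]
      cases k with
      | zero =>
        rw [JJ_top h hη hP.K0 m _ (l + 1) (by omega), zero_add, U_0s',
          ih 0 l (by omega) _ (fun i => TT_nonneg hP hφ i)]
        rfl
      | succ k =>
        rw [ih k (l + 1) (by omega) _ (fun i => FF_nonneg hP hφ i),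
          ih (k + 1) l (by omega) _ (fun i => TT_nonneg hP hφ i), U_ss',
          ← ENNReal.ofReal_add]
        · congr 1
          rw [← Finset.sum_add_distrib]
          refine Finset.sum_congr rfl fun i _ => ?_
          simp only [LinearMap.add_apply, Pi.add_apply, Module.End.mul_apply]
          ring
        · exact Finset.sum_nonneg fun i _ => mul_nonneg (hη i)
            (U_nonneg hP _ _ (fun j => FF_nonneg hP hφ j) i)
        · exact Finset.sum_nonneg fun i _ => mul_nonneg (hη i)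
            (U_nonneg hP _ _ (fun j => TT_nonneg hP hφ j) i)

lemma nT_eq_sum (s : ℕ → Bool) (m : ℕ) : nT s m = ∑ j : Fin m, (s j).toNat := by
  rw [← Finset.sum_range (fun j => (s j).toNat)]
  induction m with
  | zero => simp [nT_zero]
  | succ m ih =>
    rw [nT_succ, Finset.sum_range_succ, ih]
    cases s m <;> simp

lemma Fr_succ_iff (s : ℕ → Bool) (k l : ℕ) :
    Fr s (k + 1) l ↔ nT s (k + l) = l ∧ s (k + l) = false := by
  unfold Fr
  have e1 : k + 1 + l = k + l + 1 := by omega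
  rw [e1, nT_succ, nF_succ]
  have h1 := nT_add_nF s (k + l)
  simp only [Nat.add_sub_cancel]
  constructor
  · rintro ⟨h2, h3, h4⟩
    have h5 : s (k + l) = false := by
      rcases h4 with h4 | h4
      · omega
      · exact h4
    rw [h5] at h2
    simp at h2
    exact ⟨h2, h5⟩
  · rintro ⟨h2, h3⟩
    rw [h3]
    simp
    omega

/-- the law of the number of right arrows before the `k`-th left arrow -/
theorem piW_eq (h : SiteLaw K p η ρ W) [NeZero N] (hη : ∀ i, 0 ≤ η i) (hηs : ∑ i, η i = 1)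
    (hP : Pos K p) (k l : ℕ) :
    piW W k l = ENNReal.ofReal (∑ i, η i * V K p k l (fun _ => 1) i) := by
  have hprob := h.probW
  cases k with
  | zero =>
    rw [piW_zero]
    cases l with
    | zero =>
      rw [V_00]
      simp [hηs]
    | succ l =>
      rw [V_0s]
      simp
  | succ k =>
    rw [V_eq_U]
    have h1 : (fun i => ENNReal.ofReal (FF K p (fun _ => 1) i)) = fun i => qq p false i := by
      funext i
      rw [FF_apply]
      simp only [mul_one, hP.Ks i]
      simp [qq]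
    have h2 := JJ_eq h hη hP (k + l) k l rfl (FF K p fun _ => 1) (fun i => FF_nonneg hP (fun _ => zero_le_one) i)
    rw [h1] at h2
    rw [Module.End.mul_apply, ← h2]
    unfold piW JJ
    have hms := measurableSet_Fr (k + 1) l
    have h3 : W {s | Fr s (k + 1) l} = ∫⁻ s, (if (∑ j : Fin (k + l), (s j).toNat = l ∧ s (k + l) = false)
        then (1 : ℝ≥0∞) else 0) ∂W := by
      have e2 : ∀ s : ℕ → Bool, (if (∑ j : Fin (k + l), (s j).toNat = l ∧ s (k + l) = false)
          then (1 : ℝ≥0∞) else 0) = {s | Fr s (k + 1) l}.indicator (fun _ => 1) s := by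
        intro s
        by_cases hs : Fr s (k + 1) l
        · rw [Set.indicator_of_mem (by exact hs), if_pos]
          rw [Fr_succ_iff, nT_eq_sum] at hs
          exact hs
        · rw [Set.indicator_of_notMem (by exact hs), if_neg]
          rw [Fr_succ_iff, nT_eq_sum] at hs
          exact hs
      simp_rw [e2]
      rw [lintegral_indicator_const hms, one_mul]
    rw [h3]
    have h4 := lintegral_first W (k + l + 1) (fun r => if (∑ j : Fin (k + l), (r j.castSucc).toNat = l ∧
      r (Fin.last (k + l)) = false) then (1 : ℝ≥0∞) else 0)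
    simp only [Fin.val_castSucc, Fin.val_last] at h4
    rw [h4, ← (Fin.snocEquiv (fun _ : Fin (k + l + 1) => Bool)).sum_comp, Fintype.sum_prod_type,
      Fintype.sum_bool]
    have e : ∀ (b : Bool) (σ : Fin (k + l) → Bool),
        (Fin.snocEquiv (fun _ : Fin (k + l + 1) => Bool)) (b, σ) = Fin.snoc σ b := fun _ _ => rfl
    simp only [e, Fin.snoc_castSucc, Fin.snoc_last]
    simp only [Bool.true_eq_false, and_false, if_false, zero_mul, Finset.sum_const_zero, zero_add,
      and_true]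
    refine Finset.sum_congr rfl fun σ _ => ?_
    split_ifs
    · rw [one_mul, h.cyl_fin]
      refine lintegral_congr fun e => ?_
      rw [Fin.prod_univ_castSucc]
      simp only [Fin.snoc_castSucc, Fin.snoc_last, Fin.val_castSucc, Fin.val_last]
    · rw [zero_mul]

end Crit

end Pool.Agent.MP_3aae7f_pr
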