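import Pool.Agent.Lib.MP_3aae7f_pr.CritGen

open scoped ENNReal

namespace Pool.Agent.MP_3aae7f_pr

variable {r : ℕ → ℕ → ℝ} {ρ ν : ℝ}



/-! ROW B3a: potential theory of the kernel `kr r`. -/

/-- extinction probability -/
noncomputable def hx (r : ℕ → ℕ → ℝ) (k : ℕ) : ℝ≥0∞ := ⨆ n, Qn (kr r) n k 0

lemma BLP.kr_sum (h : BLP r ρ ν) (k : ℕ) : ∑' l, kr r k l = 1 := by
  unfold kr
  rw [← ENNReal.ofReal_tsum_of_nonneg (h.nonneg k) (h.sum k).summable, (h.sum k).tsum_eq]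
  simp

lemma BLP.r_zero (h : BLP r ρ ν) (l : ℕ) (hl : l ≠ 0) : r 0 l = 0 := by
  have h1 : r 0 0 + r 0 l ≤ 1 := by
    have h2 := sum_le_hasSum {0, l} (fun i _ => h.nonneg 0 i) (h.sum 0)
    rwa [Finset.sum_pair hl.symm] at h2
  rw [h.zero] at h1
  exact le_antisymm (by linarith) (h.nonneg 0 l)

lemma BLP.kr_zero (h : BLP r ρ ν) (l : ℕ) (hl : l ≠ 0) : kr r 0 l = 0 := by
  unfold kr
  rw [h.r_zero l hl, ENNReal.ofReal_zero]

lemma BLP.kr_zero' (h : BLP r ρ ν) : kr r 0 0 = 1 := by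
  unfold kr
  rw [h.zero, ENNReal.ofReal_one]

/-- from real sums to sums in `ℝ≥0∞` -/
lemma BLP.tsum_kr_mul (h : BLP r ρ ν) (F : ℕ → ℝ) (hF : ∀ l, 0 ≤ F l) (C : ℝ) (m : ℕ)
    (hFm : ∀ l : ℕ, |F l| ≤ C * ((l : ℝ) + 1) ^ m) (k : ℕ) :
    ∑' l, kr r k l * ENNReal.ofReal (F l) = ENNReal.ofReal (∑' l, r k l * F l) := by
  rw [ENNReal.ofReal_tsum_of_nonneg (fun l => mul_nonneg (h.nonneg k l) (hF l))
    (h.summable F C m hFm k)]
  refine tsum_congr fun l => ?_
  unfold kr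
  rw [ENNReal.ofReal_mul (h.nonneg k l)]

lemma BLP.row_eq (h : BLP r ρ ν) (n k : ℕ) : ∑' l, Qn (kr r) n k l = 1 := by
  induction n generalizing k with
  | zero =>
    simp only [Qn_zero]
    rw [tsum_eq_single k (by intro b hb; simp [hb.symm])]
    simp
  | succ n ih =>
    simp_rw [Qn_succ]
    rw [ENNReal.tsum_comm]
    simp_rw [ENNReal.tsum_mul_left, ih, mul_one]
    exact h.kr_sum k

lemma BLP.row_le (h : BLP r ρ ν) (n k l : ℕ) : Qn (kr r) n k l ≤ 1 := by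
  rw [← h.row_eq n k]
  exact ENNReal.le_tsum l

lemma BLP.Qn_mono (h : BLP r ρ ν) (k : ℕ) : Monotone fun n => Qn (kr r) n k 0 := by
  apply monotone_nat_of_le_succ
  intro n
  rw [Qn_succ']
  calc Qn (kr r) n k 0 = Qn (kr r) n k 0 * kr r 0 0 := by rw [h.kr_zero', mul_one]
    _ ≤ _ := ENNReal.le_tsum (f := fun j => Qn (kr r) n k j * kr r j 0) 0

lemma BLP.hx_le_one (h : BLP r ρ ν) (k : ℕ) : hx r k ≤ 1 :=
  iSup_le fun n => h.row_le n k 0

lemma BLP.hx_zero (h : BLP r ρ ν) : hx r 0 = 1 := by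
  apply le_antisymm (h.hx_le_one 0)
  have h1 : Qn (kr r) 0 0 0 ≤ hx r 0 := le_iSup (fun n => Qn (kr r) n 0 0) 0
  simpa [Qn_zero] using h1

lemma BLP.hx_ge (h : BLP r ρ ν) (k : ℕ) : kr r k 0 ≤ hx r k := by
  have _ := h
  have h1 : Qn (kr r) 1 k 0 ≤ hx r k := le_iSup (fun n => Qn (kr r) n k 0) 1
  have h2 : Qn (kr r) 1 k 0 = kr r k 0 := by
    rw [Qn_succ]
    simp only [Qn_zero]
    rw [tsum_eq_single 0 (by intro b hb; simp [hb])]
    simp
  rwa [h2] at h1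

/-- harmonicity -/
lemma BLP.hx_eq (h : BLP r ρ ν) (k : ℕ) : ∑' l, kr r k l * hx r l = hx r k := by
  apply le_antisymm
  · rw [ENNReal.tsum_eq_iSup_sum]
    apply iSup_le
    intro s
    have h1 : ∀ l, kr r k l * hx r l = ⨆ n, kr r k l * Qn (kr r) n l 0 := by
      intro l
      unfold hx
      rw [ENNReal.mul_iSup]
    simp_rw [h1]
    have h2 : ∀ l, Monotone (fun n => kr r k l * Qn (kr r) n l 0) :=
      fun l a b hab => mul_le_mul_right (h.Qn_mono l hab) _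
    rw [ENNReal.finsetSum_iSup_of_monotone (f := fun l n => kr r k l * Qn (kr r) n l 0) h2]
    apply iSup_le
    intro n
    calc ∑ l ∈ s, kr r k l * Qn (kr r) n l 0 ≤ ∑' l, kr r k l * Qn (kr r) n l 0 :=
          ENNReal.sum_le_tsum s
      _ = Qn (kr r) (n + 1) k 0 := rfl
      _ ≤ hx r k := le_iSup (fun n => Qn (kr r) n k 0) (n + 1)
  · apply iSup_le
    intro n
    calc Qn (kr r) n k 0 ≤ Qn (kr r) (n + 1) k 0 := h.Qn_mono k (Nat.le_succ n)
      _ = ∑' l, kr r k l * Qn (kr r) n l 0 := rfl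
      _ ≤ _ := ENNReal.tsum_le_tsum fun l =>
          mul_le_mul_right (le_iSup (fun n => Qn (kr r) n l 0) n) _

/-- comparison with a superharmonic function (cf. `Qn_extinct_le` in Chain.lean) -/
lemma BLP.Qn_le_of_super (h : BLP r ρ ν) (F : ℕ → ℝ≥0∞) (k0 : ℕ) (h1 : ∀ j, j < k0 → 1 ≤ F j)
    (h2 : ∀ j, k0 ≤ j → ∑' l, kr r j l * F l ≤ F j) (h0 : 1 ≤ F 0) (n k : ℕ) :
    Qn (kr r) n k 0 ≤ F k := by
  induction n generalizing k with
  | zero =>
    rw [Qn_zero]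
    split_ifs with hk
    · rw [hk]; exact h0
    · exact zero_le
  | succ n ih =>
    by_cases hk : k < k0
    · exact (h.row_le _ _ _).trans (h1 k hk)
    · rw [Qn_succ]
      calc ∑' j, kr r k j * Qn (kr r) n j 0 ≤ ∑' j, kr r k j * F j :=
            ENNReal.tsum_le_tsum fun j => mul_le_mul_right (ih j) _
        _ ≤ F k := h2 k (not_lt.mp hk)

lemma BLP.exists_eps (h : BLP r ρ ν) (L : ℕ) : ∃ ε : ℝ≥0∞, ε ≠ 0 ∧ ε ≠ ⊤ ∧
    ∀ k, 1 ≤ k → k < L → ε ≤ kr r k 0 := by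
  induction L with
  | zero => exact ⟨1, one_ne_zero, ENNReal.one_ne_top, fun k _ hk => absurd hk (Nat.not_lt_zero k)⟩
  | succ L ih =>
    obtain ⟨ε, e0, e1, e2⟩ := ih
    by_cases hL : 1 ≤ L
    · refine ⟨min ε (kr r L 0), ?_, ?_, ?_⟩
      · have h1 : kr r L 0 ≠ 0 := by
          unfold kr
          exact (ENNReal.ofReal_pos.mpr (h.pos L 0 hL)).ne'
        exact (lt_min (pos_iff_ne_zero.mpr e0) (pos_iff_ne_zero.mpr h1)).ne'
      · exact ne_top_of_le_ne_top e1 (min_le_left _ _)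
      · intro k hk1 hk2
        rcases Nat.lt_succ_iff_lt_or_eq.mp hk2 with h3 | h3
        · exact (min_le_left _ _).trans (e2 k hk1 h3)
        · rw [h3]; exact min_le_right _ _
    · exact ⟨ε, e0, e1, fun k hk1 hk2 => by omega⟩

/-- visits to a finite set are summable -/
lemma BLP.visits (h : BLP r ρ ν) (L : ℕ) :
    ∑' n, ∑' k, (if 1 ≤ k ∧ k < L then Qn (kr r) n 1 k else 0) < ⊤ := by
  obtain ⟨ε, e0, e1, e2⟩ := h.exists_eps L
  set b : ℕ → ℝ≥0∞ := fun n => ∑' k, (if 1 ≤ k ∧ k < L then Qn (kr r) n 1 k else 0) with hb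
  have hd : ∀ n, Qn (kr r) n 1 0 + ε * b n ≤ Qn (kr r) (n + 1) 1 0 := by
    intro n
    rw [Qn_succ', hb]
    simp only
    rw [← ENNReal.tsum_mul_left]
    have e3 : Qn (kr r) n 1 0 = ∑' j, (if j = 0 then Qn (kr r) n 1 0 else 0) := by
      rw [tsum_eq_single 0]
      · simp
      · intro j hj; simp [hj]
    rw [e3, ← ENNReal.tsum_add]
    refine ENNReal.tsum_le_tsum fun j => ?_
    by_cases hj : j = 0
    · subst hj
      simp [h.kr_zero']
    · rw [if_neg hj, zero_add]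
      split_ifs with h5
      · rw [mul_comm]
        exact mul_le_mul_right (e2 j h5.1 h5.2) _
      · rw [mul_zero]
        exact zero_le
  have hsumb : ∀ N, ε * ∑ n ∈ Finset.range N, b n ≤ Qn (kr r) N 1 0 := by
    intro N
    induction N with
    | zero => simp
    | succ N ih =>
      rw [Finset.sum_range_succ, mul_add]
      exact (add_le_add_left ih _).trans (hd N)
  have hsumb' : ∀ N, ∑ n ∈ Finset.range N, b n ≤ 1 / ε := by
    intro N
    rw [ENNReal.le_div_iff_mul_le (Or.inl e0) (Or.inl e1), mul_comm]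
    exact (hsumb N).trans (h.row_le N 1 0)
  rw [ENNReal.tsum_eq_iSup_nat]
  refine lt_of_le_of_lt (iSup_le hsumb') ?_
  exact ENNReal.div_lt_top ENNReal.one_ne_top e0

/-- escape -/
lemma BLP.escape (h : BLP r ρ ν) (L : ℕ) (c : ℝ≥0∞)
    (hc : ∀ n, ∑' k, (if L ≤ k then Qn (kr r) n 1 k else 0) ≤ c) : 1 ≤ hx r 1 + c := by
  set b : ℕ → ℝ≥0∞ := fun n => ∑' k, (if 1 ≤ k ∧ k < L then Qn (kr r) n 1 k else 0) with hb
  have hb0 : Filter.Tendsto b Filter.atTop (nhds 0) :=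
    ENNReal.tendsto_atTop_zero_of_tsum_ne_top (h.visits L).ne
  have h1 : ∀ n, 1 ≤ hx r 1 + c + b n := by
    intro n
    have e3 : Qn (kr r) n 1 0 = ∑' j, (if j = 0 then Qn (kr r) n 1 0 else 0) := by
      rw [tsum_eq_single 0]
      · simp
      · intro j hj; simp [hj]
    calc (1 : ℝ≥0∞) = ∑' k, Qn (kr r) n 1 k := (h.row_eq n 1).symm
      _ ≤ ∑' k, ((if k = 0 then Qn (kr r) n 1 0 else 0) + (if L ≤ k then Qn (kr r) n 1 k else 0)
            + (if 1 ≤ k ∧ k < L then Qn (kr r) n 1 k else 0)) := by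
          refine ENNReal.tsum_le_tsum fun k => ?_
          by_cases hk : k = 0
          · subst hk
            simp only [if_true]
            exact le_add_right (le_add_right le_rfl)
          · by_cases hk2 : L ≤ k
            · rw [if_pos hk2]
              exact le_add_right (le_add_left le_rfl)
            · rw [if_pos (⟨Nat.one_le_iff_ne_zero.mpr hk, not_le.mp hk2⟩ : 1 ≤ k ∧ k < L)]
              exact le_add_left le_rfl
      _ = Qn (kr r) n 1 0 + ∑' k, (if L ≤ k then Qn (kr r) n 1 k else 0) + b n := by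
          rw [ENNReal.tsum_add, ENNReal.tsum_add, ← e3]
      _ ≤ hx r 1 + c + b n := by
          refine add_le_add_left (add_le_add ?_ (hc n)) _
          exact le_iSup (fun n => Qn (kr r) n 1 0) n
  have h2 : Filter.Tendsto (fun n => hx r 1 + c + b n) Filter.atTop (nhds (hx r 1 + c + 0)) :=
    hb0.const_add _
  rw [add_zero] at h2
  exact ge_of_tendsto' h2 h1

/-- consequence: a function tending to infinity whose means stay bounded forces extinction -/
lemma BLP.hx_one_of_bdd (h : BLP r ρ ν) (F : ℕ → ℝ≥0∞) (hF : Filter.Tendsto F Filter.atTop (nhds ⊤))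
    (C : ℝ≥0∞) (hC : C ≠ ⊤) (hle : ∀ N, ∑' k, Qn (kr r) N 1 k * F k ≤ C) : hx r 1 = 1 := by
  apply le_antisymm (h.hx_le_one 1)
  have h1 : ∀ M : ℕ, 1 ≤ hx r 1 + C * ((M : ℝ≥0∞) + 1)⁻¹ := by
    intro M
    have h2 : ∀ᶠ k in Filter.atTop, ((M : ℝ≥0∞) + 1) ≤ F k := by
      have h3 : ((M : ℝ≥0∞) + 1) < ⊤ := by
        rw [ENNReal.add_lt_top]
        exact ⟨ENNReal.natCast_lt_top M, ENNReal.one_lt_top⟩
      exact (hF.eventually (lt_mem_nhds h3)).mono fun k hk => hk.le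
    obtain ⟨L, hL⟩ := Filter.eventually_atTop.mp h2
    apply h.escape L
    intro n
    have hM0 : ((M : ℝ≥0∞) + 1) ≠ 0 := by simp
    have hMt : ((M : ℝ≥0∞) + 1) ≠ ⊤ := by
      exact ENNReal.add_ne_top.mpr ⟨ENNReal.natCast_ne_top M, ENNReal.one_ne_top⟩
    rw [← div_eq_mul_inv, ENNReal.le_div_iff_mul_le (Or.inl hM0) (Or.inl hMt),
      ← ENNReal.tsum_mul_right]
    refine le_trans (ENNReal.tsum_le_tsum fun k => ?_) (hle n)
    split_ifs with hk
    · exact mul_le_mul_right (hL k hk) _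
    · rw [zero_mul]; exact zero_le
  have h4 : Filter.Tendsto (fun M : ℕ => hx r 1 + C * ((M : ℝ≥0∞) + 1)⁻¹) Filter.atTop
      (nhds (hx r 1 + C * 0)) := by
    apply Filter.Tendsto.const_add
    apply ENNReal.Tendsto.const_mul _ (Or.inr hC)
    have h5 : Filter.Tendsto (fun M : ℕ => ((M + 1 : ℕ) : ℝ≥0∞)⁻¹) Filter.atTop (nhds 0) :=
      ENNReal.tendsto_inv_nat_nhds_zero.comp (Filter.tendsto_add_atTop_nat 1)
    simpa using h5
  rw [mul_zero, add_zero] at h4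
  exact ge_of_tendsto' h4 h1

lemma tsum_Qn_succ_mul (n : ℕ) (F : ℕ → ℝ≥0∞) :
    ∑' k, Qn (kr r) (n + 1) 1 k * F k = ∑' j, Qn (kr r) n 1 j * ∑' k, kr r j k * F k := by
  have h1 : ∀ k, Qn (kr r) (n + 1) 1 k * F k = ∑' j, Qn (kr r) n 1 j * (kr r j k * F k) := by
    intro k
    rw [Qn_succ', ← ENNReal.tsum_mul_right]
    exact tsum_congr fun j => by ring
  simp_rw [h1]
  rw [ENNReal.tsum_comm]
  simp_rw [ENNReal.tsum_mul_left]

lemma tsum_Qn_zero_mul (F : ℕ → ℝ≥0∞) : ∑' k, Qn (kr r) 0 1 k * F k = F 1 := by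
  simp only [Qn_zero]
  rw [tsum_eq_single 1 (by intro b hb; simp [hb.symm])]
  simp

/-- growth bound -/
lemma BLP.growth (h : BLP r ρ ν) (F g : ℕ → ℝ≥0∞) (hle : ∀ j, ∑' l, kr r j l * F l ≤ F j + g j)
    (N : ℕ) : ∑' k, Qn (kr r) N 1 k * F k ≤
      F 1 + ∑ n ∈ Finset.range N, ∑' k, Qn (kr r) n 1 k * g k := by
  have _ := h
  induction N with
  | zero => rw [tsum_Qn_zero_mul]; simp
  | succ N ih =>
    rw [tsum_Qn_succ_mul, Finset.sum_range_succ, ← add_assoc]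
    calc ∑' j, Qn (kr r) N 1 j * ∑' k, kr r j k * F k
        ≤ ∑' j, (Qn (kr r) N 1 j * F j + Qn (kr r) N 1 j * g j) := by
          refine ENNReal.tsum_le_tsum fun j => ?_
          rw [← mul_add]
          exact mul_le_mul_right (hle j) _
      _ = ∑' j, Qn (kr r) N 1 j * F j + ∑' j, Qn (kr r) N 1 j * g j := ENNReal.tsum_add
      _ ≤ _ := add_le_add_left ih _

/-- Green bound -/
lemma BLP.green_le (h : BLP r ρ ν) (F g : ℕ → ℝ≥0∞) (B : ℝ≥0∞) (k0 : ℕ) (hB : B ≠ ⊤) (hF : F 1 ≠ ⊤)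
    (hle : ∀ j, ∑' l, kr r j l * F l + g j ≤ F j + (if 1 ≤ j ∧ j < k0 then B else 0)) :
    ∃ C : ℝ≥0∞, C ≠ ⊤ ∧ ∀ N, ∑' k, Qn (kr r) N 1 k * F k +
      ∑ n ∈ Finset.range N, ∑' k, Qn (kr r) n 1 k * g k ≤ C := by
  set b : ℕ → ℝ≥0∞ := fun n => ∑' k, (if 1 ≤ k ∧ k < k0 then Qn (kr r) n 1 k else 0) with hb
  refine ⟨F 1 + B * ∑' n, b n, ?_, ?_⟩
  · exact ENNReal.add_ne_top.mpr ⟨hF, ENNReal.mul_ne_top hB (h.visits k0).ne⟩
  · intro N
    have key : ∑' k, Qn (kr r) N 1 k * F k +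
        ∑ n ∈ Finset.range N, ∑' k, Qn (kr r) n 1 k * g k ≤
        F 1 + B * ∑ n ∈ Finset.range N, b n := by
      induction N with
      | zero => rw [tsum_Qn_zero_mul]; simp
      | succ N ih =>
        rw [tsum_Qn_succ_mul, Finset.sum_range_succ, Finset.sum_range_succ, mul_add]
        have h1 : ∑' j, Qn (kr r) N 1 j * ∑' k, kr r j k * F k + ∑' k, Qn (kr r) N 1 k * g k ≤
            ∑' k, Qn (kr r) N 1 k * F k + B * b N := by
          rw [← ENNReal.tsum_add, hb]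
          simp only
          rw [← ENNReal.tsum_mul_left, ← ENNReal.tsum_add]
          refine ENNReal.tsum_le_tsum fun j => ?_
          rw [← mul_add]
          refine (mul_le_mul_right (hle j) _).trans ?_
          rw [mul_add]
          split_ifs
          · rw [mul_comm B]
          · simp
        calc ∑' j, Qn (kr r) N 1 j * ∑' k, kr r j k * F k +
              (∑ n ∈ Finset.range N, ∑' k, Qn (kr r) n 1 k * g k + ∑' k, Qn (kr r) N 1 k * g k)
            = (∑' j, Qn (kr r) N 1 j * ∑' k, kr r j k * F k + ∑' k, Qn (kr r) N 1 k * g k) +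
              ∑ n ∈ Finset.range N, ∑' k, Qn (kr r) n 1 k * g k := by ring
          _ ≤ (∑' k, Qn (kr r) N 1 k * F k + B * b N) +
              ∑ n ∈ Finset.range N, ∑' k, Qn (kr r) n 1 k * g k := add_le_add_left h1 _
          _ = (∑' k, Qn (kr r) N 1 k * F k +
              ∑ n ∈ Finset.range N, ∑' k, Qn (kr r) n 1 k * g k) + B * b N := by ring
          _ ≤ (F 1 + B * ∑ n ∈ Finset.range N, b n) + B * b N := add_le_add_left ih _
          _ = F 1 + (B * ∑ n ∈ Finset.range N, b n + B * b N) := by rw [add_assoc]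
    refine key.trans (add_le_add_right (mul_le_mul_right ?_ _) _)
    exact ENNReal.sum_le_tsum _

end Pool.Agent.MP_3aae7f_pr
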