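import Pool.Agent.Lib.MP_3aae7f_pr.Trans

/-!
Critical case, walk level (C1 - C4): moment bound, Borel-Cantelli, comparison with the branching process.
-/

open MeasureTheory ProbabilityTheory
open scoped ENNReal

namespace Pool.Agent.MP_3aae7f_pr

/-- C1: as `Setup.moment_right`, with `q` given. -/
lemma moment_right_of (W : Measure (ℕ → Bool)) [IsProbabilityMeasure W] (q : ℕ → ℝ≥0∞)
    (hq : ∀ n k, Qn (piW W) n k 0 ≤ q k)
    (hfin : ∑' m, ∑' k : ℕ, (k : ℝ≥0∞) * (Qn (piW W) m 1 k * q k) < ⊤) :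
    ∫⁻ ξ in {ξ | retPath (fun n => pos ξ n) < ⊤ ∧ ξ 0 0 = true},
      (retPath (fun n => pos ξ n) : ℝ≥0∞) ∂(PP W) < ⊤ := by
  have hms : MeasurableSet {ξ : ℤ → ℕ → Bool | retPath (fun n => pos ξ n) < ⊤ ∧ ξ 0 0 = true} := by
    refine MeasurableSet.inter ?_ ?_
    · exact measurable_path measurableSet_retPath_lt
    · exact (measurableSet_singleton true).preimage
        ((measurable_pi_apply 0).comp (measurable_pi_apply 0))
  calc ∫⁻ ξ in {ξ | retPath (fun n => pos ξ n) < ⊤ ∧ ξ 0 0 = true},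
      (retPath (fun n => pos ξ n) : ℝ≥0∞) ∂(PP W)
      ≤ ∫⁻ ξ in {ξ | retPath (fun n => pos ξ n) < ⊤ ∧ ξ 0 0 = true},
        ∑' m : ℕ, ∑' k : ℕ, (Dev m k).indicator (fun _ => 2 * (k : ℝ≥0∞)) ξ ∂(PP W) := by
        refine setLIntegral_mono' hms fun ξ hξ => ?_
        obtain ⟨n, hn⟩ := (retPath_lt_top_iff _).mp hξ.1
        rw [(retPath_eq_coe_iff _ n).mpr hn]
        exact ret_bound ξ n hn hξ.2
    _ ≤ ∫⁻ ξ, ∑' m : ℕ, ∑' k : ℕ, (Dev m k).indicator (fun _ => 2 * (k : ℝ≥0∞)) ξ ∂(PP W) :=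
        setLIntegral_le_lintegral _ _
    _ = ∑' m : ℕ, ∑' k : ℕ, 2 * (k : ℝ≥0∞) * PP W (Dev m k) := by
        rw [lintegral_tsum]
        · refine tsum_congr fun m => ?_
          rw [lintegral_tsum]
          · refine tsum_congr fun k => ?_
            rw [lintegral_indicator_const (measurableSet_Dev m k)]
          · intro k
            exact (measurable_const.indicator (measurableSet_Dev m k)).aemeasurable
        · intro m
          refine (Measurable.tsum fun k => ?_).aemeasurable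
          exact measurable_const.indicator (measurableSet_Dev m k)
    _ ≤ ∑' m : ℕ, ∑' k : ℕ, 2 * ((k : ℝ≥0∞) * (Qn (piW W) m 1 k * q k)) := by
        refine ENNReal.tsum_le_tsum fun m => ENNReal.tsum_le_tsum fun k => ?_
        rw [mul_assoc]
        exact mul_le_mul_right (mul_le_mul_right (PP_Dev_le W m k (q k) (fun n => hq n k)) _) _
    _ = 2 * ∑' m : ℕ, ∑' k : ℕ, (k : ℝ≥0∞) * (Qn (piW W) m 1 k * q k) := by
        simp_rw [ENNReal.tsum_mul_left]
    _ < ⊤ := ENNReal.mul_lt_top (by norm_num) hfin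

/-- C2: Borel-Cantelli. -/
lemma ae_not_Io_of_sum (W : Measure (ℕ → Bool)) [IsProbabilityMeasure W]
    (hgood : ∀ᵐ ξ ∂(PP W), Good ξ) (q : ℕ → ℝ≥0∞) (hq : ∀ n k, Qn (piW W) n k 0 ≤ q k)
    (hfin : ∑' k, q k < ⊤) : ∀ᵐ ξ ∂(PP W), ¬ Io 0 ξ := by
  have hsum : ∑' k : ℕ, PP W (Ext 0 k) ≠ ⊤ :=
    ne_top_of_le_ne_top hfin.ne
      (ENNReal.tsum_le_tsum fun k => PP_Ext_le W 0 k _ (fun n => hq n k))
  filter_upwards [ae_eventually_notMem hsum, hgood] with ξ h1 h2 h3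
  obtain ⟨K', hK'⟩ := Filter.eventually_atTop.mp h1
  obtain ⟨k, hk1, hk2⟩ := ext_of_Io h2 h3 K'
  exact hK' k hk1 hk2

lemma nT_mono_Ca (s : ℕ → Bool) {a b : ℕ} (h : a ≤ b) : nT s a ≤ nT s b :=
  Finset.card_le_card (Finset.filter_subset_filter _ (Finset.range_mono h))

/-- C3 (deterministic): comparison of right steps with the process started from `Z 0`. -/
lemma rt_le (ξ : ℤ → ℕ → Bool) (Z : ℕ → ℕ) (hZ : ∀ x : ℕ, Fr (ξ ((x : ℤ) + 1)) (Z x) (Z (x + 1)))
    (n : ℕ) (h0 : rt ξ n 0 ≤ Z 0) (x : ℕ) : rt ξ n (x : ℤ) ≤ Z x := by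
  induction x with
  | zero => simpa using h0
  | succ x ih =>
    obtain ⟨hT, hF, -⟩ := hZ x
    have hcons := conservation ξ n (x : ℤ)
    rw [if_neg (by omega : ¬ (x : ℤ) < 0)] at hcons
    push_cast
    -- it is enough to bound the clock at `x + 1`
    have key : cnt ξ n ((x : ℤ) + 1) ≤ Z x + Z (x + 1) → rt ξ n ((x : ℤ) + 1) ≤ Z (x + 1) := by
      intro h
      have := nT_mono_Ca (ξ ((x : ℤ) + 1)) h
      rw [hT] at this
      exact this
    have hlt : ∀ c : ℕ, nF (ξ ((x : ℤ) + 1)) c < Z x → c < Z x + Z (x + 1) := by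
      intro c hc
      by_contra hcon
      have := nF_mono (ξ ((x : ℤ) + 1)) (not_lt.mp hcon)
      rw [hF] at this
      omega
    apply key
    by_cases hp : (x : ℤ) < pos ξ n
    · rw [if_pos hp] at hcons
      have h1 : lf ξ n ((x : ℤ) + 1) < Z x := by omega
      exact (hlt _ h1).le
    · rw [if_neg hp] at hcons
      have h1 : lf ξ n ((x : ℤ) + 1) ≤ Z x := by omega
      rcases Nat.eq_zero_or_pos (cnt ξ n ((x : ℤ) + 1)) with hc | hc
      · omega
      · have h2 := last_arrow ξ n ((x : ℤ) + 1) (by omega) hc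
        have h3 : ξ ((x : ℤ) + 1) (cnt ξ n ((x : ℤ) + 1) - 1) = false := by
          rw [h2]; simp; omega
        have h4 := nF_succ (ξ ((x : ℤ) + 1)) (cnt ξ n ((x : ℤ) + 1) - 1)
        rw [show cnt ξ n ((x : ℤ) + 1) - 1 + 1 = cnt ξ n ((x : ℤ) + 1) by omega, h3] at h4
        simp only [Bool.false_eq_true, if_false] at h4
        have h5 : lf ξ n ((x : ℤ) + 1) = nF (ξ ((x : ℤ) + 1)) (cnt ξ n ((x : ℤ) + 1)) := rfl
        have h6 := hlt (cnt ξ n ((x : ℤ) + 1) - 1) (by omega)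
        omega

lemma exists_Z_of_iter (ξ : ℤ → ℕ → Bool) (m : ℕ) : ∀ (x : ℤ) (c : ℕ), iter ξ x m c = some 0 →
    ∃ Z : ℕ → ℕ, Z 0 = c ∧ (∀ j : ℕ, Fr (ξ (x + (j : ℤ) + 1)) (Z j) (Z (j + 1))) ∧ Z m = 0 := by
  induction m with
  | zero =>
    intro x c h
    rw [iter_zero, Option.some.injEq] at h
    subst h
    exact ⟨fun _ => 0, rfl, fun j => Fr_zero _, rfl⟩
  | succ m ih =>
    intro x c h
    rw [iter_succ_eq_some] at h
    obtain ⟨l, h1, h2⟩ := h
    obtain ⟨Z, hZ0, hZ, hZm⟩ := ih (x + 1) l h2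
    refine ⟨fun j => Nat.casesOn j c Z, rfl, fun j => ?_, hZm⟩
    cases j with
    | zero =>
      have : x + ((0 : ℕ) : ℤ) + 1 = x + 1 := by simp
      rw [this]
      show Fr (ξ (x + 1)) c (Z 0)
      rw [hZ0]
      exact h1
    | succ j =>
      have : x + ((j + 1 : ℕ) : ℤ) + 1 = x + 1 + (j : ℤ) + 1 := by push_cast; ring
      rw [this]
      exact hZ j

/-- C4 (deterministic): if the process started from `c` dies, the walk is bounded above as long as it has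
made at most `c` right steps from `0`. -/
lemma pos_le_of_Ext (ξ : ℤ → ℕ → Bool) (c : ℕ) (h : ξ ∈ Ext 0 c) :
    ∃ x0 : ℤ, ∀ n, rt ξ n 0 ≤ c → pos ξ n ≤ x0 := by
  obtain ⟨m, hm⟩ := h
  obtain ⟨Z, hZ0, hZ, hZm⟩ := exists_Z_of_iter ξ m 0 c hm
  refine ⟨m, fun n hn => ?_⟩
  have h1 := rt_le ξ Z (fun x => by simpa using hZ x) n (by rw [hZ0]; exact hn) m
  rw [hZm] at h1
  have h2 := conservation ξ n (m : ℤ)
  rw [if_neg (by omega : ¬ (m : ℤ) < 0)] at h2
  by_contra hcon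
  rw [if_pos (by omega)] at h2
  omega

end Pool.Agent.MP_3aae7f_pr
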