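import Mathlib

/-!
Excited random walk on `ℤ` with Markovian cookie stacks: definitions.
Cookies in a stack are indexed from `0` here, so `R x j` is the cookie `R^x_{j+1}` of the problem.
-/

open MeasureTheory ProbabilityTheory

namespace Pool.Agent.MP_3aae7f_pr

/-- `i` leads to `j` in the chain with transition matrix `K`. -/
def Leads {N : ℕ} (K : Fin N → Fin N → ℝ) (i j : Fin N) : Prop :=
  Relation.ReflTransGen (fun a b => 0 < K a b) i j

/-- `C` is a closed irreducible class of the chain: it is nonempty and the states to which a state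
of `C` leads are exactly those of `C`. -/
def IsClosedClass {N : ℕ} (K : Fin N → Fin N → ℝ) (C : Set (Fin N)) : Prop :=
  C.Nonempty ∧ ∀ i ∈ C, ∀ j, j ∈ C ↔ Leads K i j

/-- `(K, p, η)` are admissible data: `K` is a stochastic matrix with exactly one closed irreducible
class, `0 < p < 1`, and `η` is a probability distribution. -/
structure IsCookieModel {N : ℕ} (K : Fin N → Fin N → ℝ) (p η : Fin N → ℝ) : Prop where
  K_nonneg : ∀ i j, 0 ≤ K i j
  K_sum : ∀ i, ∑ j, K i j = 1
  K_class : ∃! C : Set (Fin N), IsClosedClass K C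
  p_pos : ∀ i, 0 < p i
  p_lt : ∀ i, p i < 1
  η_nonneg : ∀ i, 0 ≤ η i
  η_sum : ∑ i, η i = 1

/-- `μ` is a stationary distribution of `K`. -/
def IsStationary {N : ℕ} (K : Fin N → Fin N → ℝ) (μ : Fin N → ℝ) : Prop :=
  (∀ i, 0 ≤ μ i) ∧ ∑ i, μ i = 1 ∧ ∀ j, ∑ i, μ i * K i j = μ j

/-- number of visits of the path `γ` to `γ n` before time `n`; the cookie used at time `n` is the
one with this index in the stack at `γ n` -/
def prevVisits (γ : ℕ → ℤ) (n : ℕ) : ℕ := ((Finset.range n).filter fun k => γ k = γ n).card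

/-- `X` is an excited random walk in the environment given by the cookie stacks `R`: the stacks
`R^x`, `x ∈ ℤ`, are independent Markov chains with initial law `η` and transition matrix `K`; the walk
starts at `0`, moves by `±1`, and given the environment and `X_0, …, X_n` it steps to the right with
probability `p(R^{X_n}_j)`, where `j` is the number of visits to `X_n` up to time `n`. -/
structure IsERW {N : ℕ} (K : Fin N → Fin N → ℝ) (p η : Fin N → ℝ) {Ω : Type*} [MeasurableSpace Ω]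
    (P : Measure Ω) (R : ℤ → ℕ → Ω → Fin N) (X : ℕ → Ω → ℤ) : Prop where
  measurable_R : ∀ x j, Measurable (R x j)
  measurable_X : ∀ n, Measurable (X n)
  indep : iIndepFun (fun (x : ℤ) (ω : Ω) (j : ℕ) => R x j ω) P
  chain : ∀ (x : ℤ) (n : ℕ) (r : ℕ → Fin N), P {ω | ∀ j ≤ n, R x j ω = r j}
    = ENNReal.ofReal (η (r 0) * ∏ j ∈ Finset.range n, K (r j) (r (j + 1)))
  start : ∀ ω, X 0 ω = 0
  nearest : ∀ n ω, X (n + 1) ω = X n ω + 1 ∨ X (n + 1) ω = X n ω - 1
  step : ∀ (n : ℕ) (γ : ℕ → ℤ) (A : Set (ℤ → ℕ → Fin N)), MeasurableSet A →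
    P {ω | (fun x j => R x j ω) ∈ A ∧ (∀ k ≤ n, X k ω = γ k) ∧ X (n + 1) ω = γ n + 1}
      = ∫⁻ ω in {ω | (fun x j => R x j ω) ∈ A ∧ ∀ k ≤ n, X k ω = γ k},
          ENNReal.ofReal (p (R (γ n) (prevVisits γ n) ω)) ∂P

/-- the return time `R = inf {n ≥ 1 : X_n = X_0}` -/
noncomputable def returnTime {Ω : Type*} (X : ℕ → Ω → ℤ) (ω : Ω) : ℕ∞ :=
  ⨅ n ∈ {n : ℕ | 1 ≤ n ∧ X n ω = X 0 ω}, (n : ℕ∞)

/-- strong transience: `|X_n| → ∞` almost surely and `E[R | R < ∞] < ∞` -/
def StronglyTransient {Ω : Type*} [MeasurableSpace Ω] (P : Measure Ω) (X : ℕ → Ω → ℤ) : Prop :=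
  (∀ᵐ ω ∂P, Filter.Tendsto (fun n => |X n ω|) Filter.atTop Filter.atTop) ∧
  (∫⁻ ω in {ω | returnTime X ω < ⊤}, (returnTime X ω : ENNReal) ∂P)
    / P {ω | returnTime X ω < ⊤} < ⊤

end Pool.Agent.MP_3aae7f_pr
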