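import Pool.Agent.Lib.MP_3aae7f_pr.Env
import Pool.Agent.Lib.MP_3aae7f_pr.Defs

/-!
Green function bounds for the branching process and the length of right excursions.
-/

open MeasureTheory ProbabilityTheory
open scoped ENNReal

namespace Pool.Agent.MP_3aae7f_pr

variable {N : ℕ}

/-- everything needed about one site -/
structure Setup (K : Fin N → Fin N → ℝ) (p η μ : Fin N → ℝ) (ρ : Measure (ℕ → Fin N))
    (W : Measure (ℕ → Bool)) : Prop where
  model : IsCookieModel K p η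
  stat : IsStationary K μ
  site : SiteLaw K p η ρ W

namespace Setup

variable {K : Fin N → Fin N → ℝ} {p η μ : Fin N → ℝ} {ρ : Measure (ℕ → Fin N)} {W : Measure (ℕ → Bool)}

lemma neZero (h : Setup K p η μ ρ W) : NeZero N := by
  constructor
  rintro rfl
  have := h.model.η_sum
  simp at this

/-- a lower bound for the probabilities of left arrows -/
lemma exists_eps (h : Setup K p η μ ρ W) : ∃ ε : ℝ, 0 < ε ∧ ε ≤ 1 ∧ ∀ i, ε ≤ 1 - p i ∧ ε ≤ p i := by
  have := h.neZero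
  obtain ⟨i0, -, h0⟩ := Finset.exists_min_image Finset.univ (fun i => min (1 - p i) (p i))
    ⟨0, Finset.mem_univ (0 : Fin N)⟩
  refine ⟨min (1 - p i0) (p i0), lt_min (by linarith [h.model.p_lt i0]) (h.model.p_pos i0),
    (min_le_right _ _).trans (h.model.p_lt i0).le, fun i => ?_⟩
  have := h0 i (Finset.mem_univ i)
  exact ⟨this.trans (min_le_left _ _), this.trans (min_le_right _ _)⟩

/-- one-site tilting -/
lemma tilt (h : Setup K p η μ ρ W) : ∃ θ0 : ℝ, 0 < θ0 ∧ ∀ θ : ℝ, |θ| ≤ θ0 →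
    θ * (∑ i, μ i * p i - 1 / 2) < 0 → ∃ (k0 : ℕ) (B : ℝ≥0∞), B ≠ ⊤ ∧
      (∀ k, k0 ≤ k → ∑' l : ℕ, piW W k l * ENNReal.ofReal (Real.exp (θ * l))
        ≤ (1 / 2) * ENNReal.ofReal (Real.exp (θ * k))) ∧
      (∀ k, k < k0 → ∑' l : ℕ, piW W k l * ENNReal.ofReal (Real.exp (θ * l)) ≤ B) := by
  have := h.neZero
  have hm := h.model
  obtain ⟨θ0, hθ0, hθ⟩ := exists_tilt hm.K_nonneg hm.K_sum hm.K_class μ h.stat p hm.p_pos hm.p_lt
  refine ⟨θ0, hθ0, fun θ h1 h2 => ?_⟩
  obtain ⟨hh, lam, hl0, hl1, hh2, hle⟩ := hθ θ h1 h2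
  exact h.site.piW_tilt hm.η_nonneg hm.K_nonneg hm.p_pos hm.p_lt θ hh lam hl0 hl1 hh2 hle

/-- the weighted Green function is finite -/
lemma green (h : Setup K p η μ ρ W) : ∃ θ0 : ℝ, 0 < θ0 ∧ ∀ θ : ℝ, |θ| ≤ θ0 →
    θ * (∑ i, μ i * p i - 1 / 2) < 0 →
      ∑' n, ∑' k, (if k = 0 then 0 else Qn (piW W) n 1 k * ENNReal.ofReal (Real.exp (θ * k))) < ⊤ := by
  obtain ⟨θ0, hθ0, hθ⟩ := h.tilt
  refine ⟨θ0, hθ0, fun θ h1 h2 => ?_⟩
  obtain ⟨k0, B, hB, ha, hb⟩ := hθ θ h1 h2
  have hW := h.site.probW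
  obtain ⟨ε, hε0, hε1, hε⟩ := h.exists_eps
  have hq : ENNReal.ofReal ε ≤ 1 := by
    rw [← ENNReal.ofReal_one]; exact ENNReal.ofReal_le_ofReal hε1
  have hεk : ENNReal.ofReal ε ^ k0 ≠ 0 := by
    apply pow_ne_zero
    rw [ne_eq, ENNReal.ofReal_eq_zero, not_le]
    exact hε0
  have := Qn_green (π := piW W) (piW_row W) (fun l hl => by rw [piW_zero, if_neg hl])
    (by rw [piW_zero, if_pos rfl]) (fun k => ENNReal.ofReal (Real.exp (θ * k))) k0 B
    (ENNReal.ofReal ε ^ k0) hB hεk (ENNReal.pow_ne_top ENNReal.ofReal_ne_top) ha hb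
    (fun k hk => (pow_le_pow_right_of_le_one' hq hk.le).trans
      (h.site.piW_zero_ge ε (fun i => (hε i).1) k)) 1 ENNReal.ofReal_ne_top
  refine lt_of_le_of_lt this ?_
  refine ENNReal.mul_lt_top (by norm_num) (ENNReal.add_lt_top.mpr ⟨ENNReal.ofReal_lt_top, ?_⟩)
  exact ENNReal.div_lt_top hB hεk

/-- survival estimate in the supercritical case -/
lemma extinct (h : Setup K p η μ ρ W) (hp : 1 / 2 < ∑ i, μ i * p i) : ∃ θ0 : ℝ, 0 < θ0 ∧
    ∀ t : ℝ, 0 < t → t ≤ θ0 → ∃ k0 : ℕ, ∀ n k,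
      Qn (piW W) n k 0 ≤ ENNReal.ofReal (Real.exp (t * k0 - t * k)) := by
  obtain ⟨θ0, hθ0, hθ⟩ := h.tilt
  refine ⟨θ0, hθ0, fun t ht htθ => ?_⟩
  obtain ⟨k0, B, hB, ha, hb⟩ := hθ (-t) (by rw [abs_neg, abs_of_pos ht]; exact htθ) (by nlinarith)
  have hW := h.site.probW
  refine ⟨k0, Qn_extinct_le (piW_row W) t ht.le k0 fun k hk => ?_⟩
  have := ha k hk
  simp only [neg_mul] at this
  refine this.trans ?_
  calc (1 / 2 : ℝ≥0∞) * ENNReal.ofReal (Real.exp (-(t * k)))
      ≤ 1 * ENNReal.ofReal (Real.exp (-(t * k))) := mul_le_mul_left (by norm_num) _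
    _ = _ := one_mul _

lemma exists_q (h : Setup K p η μ ρ W) (hp : ∑ i, μ i * p i ≠ 1 / 2) :
    ∃ q : ℕ → ℝ≥0∞, (∀ n k, Qn (piW W) n k 0 ≤ q k) ∧
      ∑' m, ∑' k : ℕ, (k : ℝ≥0∞) * (Qn (piW W) m 1 k * q k) < ⊤ := by
  have hW := h.site.probW
  obtain ⟨θ1, hθ1, hg⟩ := h.green
  rcases lt_or_gt_of_ne hp with hlt | hgt
  · refine ⟨fun _ => 1, fun n k => (ENNReal.le_tsum 0).trans (Qn_row (piW_row W) n k), ?_⟩
    have hfin := hg θ1 (by rw [abs_of_pos hθ1]) (by nlinarith)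
    have hle : ∑' m, ∑' k : ℕ, (k : ℝ≥0∞) * (Qn (piW W) m 1 k * 1) ≤ ENNReal.ofReal (1 / θ1) *
        ∑' n, ∑' k, (if k = 0 then 0 else Qn (piW W) n 1 k * ENNReal.ofReal (Real.exp (θ1 * k))) := by
      rw [← ENNReal.tsum_mul_left]
      refine ENNReal.tsum_le_tsum fun m => ?_
      rw [← ENNReal.tsum_mul_left]
      refine ENNReal.tsum_le_tsum fun k => ?_
      by_cases hk : k = 0
      · simp [hk]
      · rw [if_neg hk, mul_one]
        have hk2 : (k : ℝ≥0∞) ≤ ENNReal.ofReal (1 / θ1) * ENNReal.ofReal (Real.exp (θ1 * k)) := by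
          rw [← ENNReal.ofReal_mul (by positivity), ← ENNReal.ofReal_natCast]
          apply ENNReal.ofReal_le_ofReal
          have h1 : θ1 * k ≤ Real.exp (θ1 * k) := by
            have := Real.add_one_le_exp (θ1 * k); linarith
          rw [one_div, inv_mul_eq_div, le_div_iff₀ hθ1]
          linarith
        calc (k : ℝ≥0∞) * Qn (piW W) m 1 k
            ≤ (ENNReal.ofReal (1 / θ1) * ENNReal.ofReal (Real.exp (θ1 * k))) * Qn (piW W) m 1 k :=
              mul_le_mul_left hk2 _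
          _ = _ := by ring
    exact lt_of_le_of_lt hle (ENNReal.mul_lt_top ENNReal.ofReal_lt_top hfin)
  · obtain ⟨θ2, hθ2, he⟩ := h.extinct hgt
    set t := min θ1 θ2 with ht
    have htpos : 0 < t := lt_min hθ1 hθ2
    obtain ⟨k0, hk0⟩ := he t htpos (min_le_right _ _)
    refine ⟨fun k => ENNReal.ofReal (Real.exp (t * k0 - t * k)), hk0, ?_⟩
    have hfin := hg (-(t / 2)) (by
      rw [abs_neg, abs_of_pos (by positivity)]
      have := min_le_left θ1 θ2
      linarith) (by nlinarith)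
    set C : ℝ := Real.exp (t * k0) * (2 / t) with hC
    have hCpos : 0 ≤ C := by positivity
    have hle : ∑' m, ∑' k : ℕ, (k : ℝ≥0∞) * (Qn (piW W) m 1 k *
        ENNReal.ofReal (Real.exp (t * k0 - t * k))) ≤ ENNReal.ofReal C *
        ∑' n, ∑' k, (if k = 0 then 0 else Qn (piW W) n 1 k *
          ENNReal.ofReal (Real.exp (-(t / 2) * k))) := by
      rw [← ENNReal.tsum_mul_left]
      refine ENNReal.tsum_le_tsum fun m => ?_
      rw [← ENNReal.tsum_mul_left]
      refine ENNReal.tsum_le_tsum fun k => ?_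
      by_cases hk : k = 0
      · simp [hk]
      · rw [if_neg hk]
        have hk2 : (k : ℝ≥0∞) * ENNReal.ofReal (Real.exp (t * k0 - t * k))
            ≤ ENNReal.ofReal C * ENNReal.ofReal (Real.exp (-(t / 2) * k)) := by
          rw [← ENNReal.ofReal_mul hCpos, ← ENNReal.ofReal_natCast,
            ← ENNReal.ofReal_mul (Nat.cast_nonneg k)]
          apply ENNReal.ofReal_le_ofReal
          have h1 : t / 2 * k ≤ Real.exp (t / 2 * k) := by
            have := Real.add_one_le_exp (t / 2 * k); linarith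
          have h2 : (k : ℝ) ≤ 2 / t * Real.exp (t / 2 * k) := by
            rw [div_mul_eq_mul_div, le_div_iff₀ htpos]
            linarith
          have h3 : Real.exp (t * k0 - t * k)
              = Real.exp (t * k0) * (Real.exp (-(t / 2) * k) * Real.exp (-(t / 2) * k)) := by
            rw [← Real.exp_add, ← Real.exp_add]; congr 1; ring
          have h4 : Real.exp (t / 2 * k) * Real.exp (-(t / 2) * k) = 1 := by
            rw [← Real.exp_add, ← Real.exp_zero]; congr 1; ring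
          calc (k : ℝ) * Real.exp (t * k0 - t * k)
              ≤ (2 / t * Real.exp (t / 2 * k)) * Real.exp (t * k0 - t * k) :=
                mul_le_mul_of_nonneg_right h2 (Real.exp_pos _).le
            _ = (Real.exp (t * k0) * (2 / t)) * (Real.exp (t / 2 * k) * Real.exp (-(t / 2) * k))
                * Real.exp (-(t / 2) * k) := by rw [h3]; ring
            _ = C * Real.exp (-(t / 2) * k) := by rw [h4, mul_one]
        calc (k : ℝ≥0∞) * (Qn (piW W) m 1 k * ENNReal.ofReal (Real.exp (t * k0 - t * k)))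
            = ((k : ℝ≥0∞) * ENNReal.ofReal (Real.exp (t * k0 - t * k))) * Qn (piW W) m 1 k := by ring
          _ ≤ (ENNReal.ofReal C * ENNReal.ofReal (Real.exp (-(t / 2) * k))) * Qn (piW W) m 1 k :=
              mul_le_mul_left hk2 _
          _ = _ := by ring
    exact lt_of_le_of_lt hle (ENNReal.mul_lt_top ENNReal.ofReal_lt_top hfin)

end Setup

/-! ### return times -/

/-- `n` is the first return time of the path `γ` -/
def FirstRet (γ : ℕ → ℤ) (n : ℕ) : Prop := 1 ≤ n ∧ γ n = γ 0 ∧ ∀ m, 1 ≤ m → m < n → γ m ≠ γ 0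

/-- return time of a path -/
noncomputable def retPath (γ : ℕ → ℤ) : ℕ∞ := ⨅ n ∈ {n : ℕ | 1 ≤ n ∧ γ n = γ 0}, (n : ℕ∞)

lemma retPath_eq_coe_iff (γ : ℕ → ℤ) (n : ℕ) : retPath γ = n ↔ FirstRet γ n := by
  have hub : ∀ m : ℕ, 1 ≤ m → γ m = γ 0 → retPath γ ≤ m := fun m h1 h2 =>
    iInf₂_le (f := fun (n : ℕ) (_ : n ∈ {n : ℕ | 1 ≤ n ∧ γ n = γ 0}) => (n : ℕ∞)) m ⟨h1, h2⟩
  constructor
  · intro h
    have hmem : ∃ m ∈ {n : ℕ | 1 ≤ n ∧ γ n = γ 0}, (m : ℕ∞) = n := by
      by_contra hcon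
      push Not at hcon
      have h1 : (n : ℕ∞) + 1 ≤ retPath γ := by
        apply le_iInf₂
        intro m hm
        have h2 : (n : ℕ∞) ≤ m := by rw [← h]; exact hub m hm.1 hm.2
        have h3 : n < m := by
          rcases (Nat.cast_le.mp h2 : n ≤ m).lt_or_eq with h4 | h4
          · exact h4
          · exact absurd (by rw [h4]) (hcon m hm)
        exact_mod_cast h3
      rw [h] at h1
      have : n + 1 ≤ n := by exact_mod_cast h1
      omega
    obtain ⟨m, ⟨hm1, hm2⟩, hm3⟩ := hmem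
    have hmn : m = n := by exact_mod_cast hm3
    subst hmn
    refine ⟨hm1, hm2, fun j hj1 hj2 hj3 => ?_⟩
    have := hub j hj1 hj3
    rw [h] at this
    have : m ≤ j := by exact_mod_cast this
    omega
  · rintro ⟨h1, h2, h3⟩
    apply le_antisymm (hub n h1 h2)
    apply le_iInf₂
    rintro m ⟨hm1, hm2⟩
    by_contra hcon
    rw [not_le] at hcon
    exact h3 m hm1 (by exact_mod_cast hcon) hm2

lemma retPath_lt_top_iff (γ : ℕ → ℤ) : retPath γ < ⊤ ↔ ∃ n, FirstRet γ n := by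
  constructor
  · intro h
    obtain ⟨n, hn⟩ := ENat.ne_top_iff_exists.mp h.ne
    exact ⟨n, (retPath_eq_coe_iff γ n).mp hn.symm⟩
  · rintro ⟨n, hn⟩
    rw [(retPath_eq_coe_iff γ n).mpr hn]
    exact ENat.natCast_lt_top n

lemma FirstRet_unique {γ : ℕ → ℤ} {n m : ℕ} (h : FirstRet γ n) (h' : FirstRet γ m) : n = m := by
  have h1 := (retPath_eq_coe_iff γ n).mpr h
  rw [(retPath_eq_coe_iff γ m).mpr h'] at h1
  exact_mod_cast h1.symm

lemma measurableSet_FirstRet (n : ℕ) : MeasurableSet {γ : ℕ → ℤ | FirstRet γ n} := by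
  have h1 : ∀ m : ℕ, MeasurableSet {γ : ℕ → ℤ | γ m = γ 0} := fun m =>
    measurableSet_eq_fun (measurable_pi_apply m) (measurable_pi_apply 0)
  have : {γ : ℕ → ℤ | FirstRet γ n} = {γ : ℕ → ℤ | 1 ≤ n} ∩ ({γ : ℕ → ℤ | γ n = γ 0} ∩
      ⋂ m : ℕ, ⋂ _ : 1 ≤ m ∧ m < n, {γ : ℕ → ℤ | γ m = γ 0}ᶜ) := by
    ext γ
    simp only [FirstRet, Set.mem_ofPred_eq, Set.mem_iInter, Set.mem_compl_iff, Set.mem_inter_iff]
    exact ⟨fun h => ⟨h.1, h.2.1, fun m hm => h.2.2 m hm.1 hm.2⟩,
      fun h => ⟨h.1, h.2.1, fun m h1 h2 => h.2.2 m ⟨h1, h2⟩⟩⟩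
  rw [this]
  exact (MeasurableSet.const _).inter ((h1 n).inter
    (MeasurableSet.iInter fun m => MeasurableSet.iInter fun _ => (h1 m).compl))

lemma measurableSet_retPath_lt : MeasurableSet {γ : ℕ → ℤ | retPath γ < ⊤} := by
  have : {γ : ℕ → ℤ | retPath γ < ⊤} = ⋃ n, {γ : ℕ → ℤ | FirstRet γ n} := by
    ext γ
    simp only [Set.mem_ofPred_eq, Set.mem_iUnion]
    exact retPath_lt_top_iff γ
  rw [this]
  exact MeasurableSet.iUnion measurableSet_FirstRet

lemma measurable_retPath : Measurable retPath := by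
  rw [ENat.measurable_iff]
  intro n
  have : retPath ⁻¹' {(n : ℕ∞)} = {γ | FirstRet γ n} := by
    ext γ
    simp only [Set.mem_preimage, Set.mem_singleton_iff, Set.mem_ofPred_eq]
    exact retPath_eq_coe_iff γ n
  rw [this]
  exact measurableSet_FirstRet n

/-! ### right excursions -/

lemma measurable_wk (n : ℕ) : Measurable (fun ξ : ℤ → ℕ → Bool => pos ξ n) ∧
    ∀ x, Measurable (fun ξ : ℤ → ℕ → Bool => cnt ξ n x) := by
  induction n with
  | zero => exact ⟨measurable_const, fun x => measurable_const⟩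
  | succ n ih =>
    obtain ⟨ih1, ih2⟩ := ih
    have hev : MeasurableSet {ξ : ℤ → ℕ → Bool | ξ (pos ξ n) (cnt ξ n (pos ξ n)) = true} := by
      have : {ξ : ℤ → ℕ → Bool | ξ (pos ξ n) (cnt ξ n (pos ξ n)) = true}
          = ⋃ x : ℤ, ⋃ j : ℕ, ({ξ | pos ξ n = x} ∩ ({ξ | cnt ξ n x = j} ∩ {ξ | ξ x j = true})) := by
        ext ξ
        simp only [Set.mem_ofPred_eq, Set.mem_iUnion, Set.mem_inter_iff]
        constructor
        · intro h; exact ⟨_, _, rfl, rfl, h⟩
        · rintro ⟨x, j, rfl, rfl, h⟩; exact h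
      rw [this]
      refine MeasurableSet.iUnion fun x => MeasurableSet.iUnion fun j => ?_
      refine (ih1 (measurableSet_singleton x)).inter (((ih2 x) (measurableSet_singleton j)).inter ?_)
      exact (measurableSet_singleton true).preimage
        ((measurable_pi_apply j).comp (measurable_pi_apply x))
    constructor
    · simp only [pos_succ]
      exact Measurable.ite hev (ih1.add_const 1) (ih1.sub_const 1)
    · intro x
      simp only [cnt_succ]
      refine Measurable.ite ?_ ((ih2 x).add_const 1) (ih2 x)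
      exact measurableSet_eq_fun measurable_const ih1

lemma measurable_pos (n : ℕ) : Measurable (fun ξ : ℤ → ℕ → Bool => pos ξ n) := (measurable_wk n).1

lemma measurable_path : Measurable (fun (ξ : ℤ → ℕ → Bool) (n : ℕ) => pos ξ n) :=
  measurable_pi_lambda _ measurable_pos

lemma iter_zero_right (ξ : ℤ → ℕ → Bool) (n : ℕ) : ∀ x : ℤ, iter ξ x n 0 = some 0 := by
  induction n with
  | zero => intro x; rfl
  | succ n ih =>
    intro x
    rw [iter_succ_eq_some]
    exact ⟨0, Fr_zero _, ih (x + 1)⟩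

lemma iter_mono (ξ : ℤ → ℕ → Bool) (n : ℕ) : ∀ (x : ℤ) (k : ℕ), iter ξ x n k = some 0 →
    iter ξ x (n + 1) k = some 0 := by
  induction n with
  | zero =>
    intro x k h
    rw [iter_zero, Option.some.injEq] at h
    subst h
    exact iter_zero_right ξ 1 x
  | succ n ih =>
    intro x k h
    rw [iter_succ_eq_some] at h ⊢
    obtain ⟨l, h1, h2⟩ := h
    exact ⟨l, h1, ih (x + 1) l h2⟩

/-- extinction event of the process started from `k` at level `x` -/
def Ext (x : ℤ) (k : ℕ) : Set (ℤ → ℕ → Bool) := {ξ | ∃ n, iter ξ x n k = some 0}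

lemma Ext_eq (x : ℤ) (k : ℕ) : Ext x k = ⋃ n, {ξ | iter ξ x n k = some 0} := by
  ext ξ; simp [Ext]

lemma measurableSet_Ext (x : ℤ) (k : ℕ) : MeasurableSet (Ext x k) := by
  rw [Ext_eq]
  exact MeasurableSet.iUnion fun n => measurableSet_iter n x k 0

lemma PP_Ext_le (W : Measure (ℕ → Bool)) [IsProbabilityMeasure W] (x : ℤ) (k : ℕ) (c : ℝ≥0∞)
    (hc : ∀ n, Qn (piW W) n k 0 ≤ c) : PP W (Ext x k) ≤ c := by
  rw [Ext_eq]
  have hmono : Monotone fun n => {ξ : ℤ → ℕ → Bool | iter ξ x n k = some 0} :=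
    monotone_nat_of_le_succ fun n ξ hξ => iter_mono ξ n x k hξ
  rw [hmono.measure_iUnion]
  refine iSup_le fun n => ?_
  have := PP_iter W n x k 0 Set.univ MeasurableSet.univ (fun _ _ _ _ => by simp)
  rw [Set.inter_univ, measure_univ, mul_one] at this
  rw [this]
  exact hc n

/-- the joint event used for right excursions -/
def Dev (m k : ℕ) : Set (ℤ → ℕ → Bool) := {ξ | iter ξ 0 m 1 = some k} ∩ Ext m k

lemma measurableSet_Dev (m k : ℕ) : MeasurableSet (Dev m k) :=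
  (measurableSet_iter m 0 1 k).inter (measurableSet_Ext m k)

lemma PP_Dev_le (W : Measure (ℕ → Bool)) [IsProbabilityMeasure W] (m k : ℕ) (c : ℝ≥0∞)
    (hc : ∀ n, Qn (piW W) n k 0 ≤ c) : PP W (Dev m k) ≤ Qn (piW W) m 1 k * c := by
  unfold Dev
  rw [PP_iter W m 0 1 k _ (measurableSet_Ext m k)]
  · exact mul_le_mul_right (PP_Ext_le W m k c hc) _
  · intro ξ s y hy
    simp only [Ext, Set.mem_ofPred_eq]
    refine exists_congr fun n => ?_
    rw [iter_update ξ s n m y k (by simpa using hy)]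

lemma cnt_first (ξ : ℤ → ℕ → Bool) (n : ℕ) (h : FirstRet (fun n => pos ξ n) n) : cnt ξ n 0 = 1 := by
  obtain ⟨h1, h2, h3⟩ := h
  rw [cnt_eq_card]
  have : (Finset.range n).filter (fun k => pos ξ k = 0) = {0} := by
    ext k
    simp only [Finset.mem_filter, Finset.mem_range, Finset.mem_singleton]
    constructor
    · rintro ⟨hk1, hk2⟩
      by_contra hk0
      exact h3 k (by omega) hk1 (by simpa [pos_zero] using hk2)
    · rintro rfl
      exact ⟨by omega, pos_zero ξ⟩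
  rw [this, Finset.card_singleton]

lemma ret_bound (ξ : ℤ → ℕ → Bool) (n : ℕ) (h : FirstRet (fun n => pos ξ n) n)
    (h0 : ξ 0 0 = true) : (n : ℝ≥0∞) ≤ ∑' m : ℕ, ∑' k : ℕ, (Dev m k).indicator (fun _ => 2 * (k : ℝ≥0∞)) ξ := by
  have hc := cnt_first ξ n h
  obtain ⟨h1, h2, -⟩ := h
  simp only [pos_zero] at h2
  have hr : rt ξ n 0 = 1 := by
    unfold rt; rw [hc, nT_succ, nT_zero, if_pos h0]
  have hl : lf ξ n 0 = 0 := by
    unfold lf; rw [hc, nF_succ, nF_zero, if_pos h0]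
  have hex := excursion_length ξ n h2 hl
  have hex' : (n : ℝ≥0∞) = ∑ m ∈ Finset.range (n + 1), 2 * (rt ξ n (m : ℤ) : ℝ≥0∞) := by
    rw [← Finset.mul_sum]
    have : n = 2 * ∑ m ∈ Finset.range (n + 1), rt ξ n (m : ℤ) := by exact_mod_cast hex
    exact_mod_cast this
  rw [hex']
  refine le_trans (Finset.sum_le_sum fun m _ => ?_) (ENNReal.sum_le_tsum _)
  refine le_trans ?_ (ENNReal.le_tsum (rt ξ n (m : ℤ)))
  rw [Set.indicator_of_mem]
  refine ⟨?_, n, ?_⟩
  · have := iter_eq_rt ξ n h2 0 m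
    simp only [Nat.cast_zero, zero_add, hr] at this
    exact this
  · have := iter_eq_rt ξ n h2 m n
    rw [this]
    have hz : cnt ξ n ((m : ℤ) + n) = 0 := by
      apply cnt_eq_zero
      · rw [abs_of_nonneg (by positivity)]; linarith [Int.natCast_nonneg m]
      · left; omega
    have := rt_add_lf ξ n ((m : ℤ) + n)
    congr 1
    omega

namespace Setup

variable {K : Fin N → Fin N → ℝ} {p η μ : Fin N → ℝ} {ρ : Measure (ℕ → Fin N)} {W : Measure (ℕ → Bool)}

/-- expected length of a finite right excursion -/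
lemma moment_right [IsProbabilityMeasure W] (h : Setup K p η μ ρ W) (hp : ∑ i, μ i * p i ≠ 1 / 2) :
    ∫⁻ ξ in {ξ | retPath (fun n => pos ξ n) < ⊤ ∧ ξ 0 0 = true},
      (retPath (fun n => pos ξ n) : ℝ≥0∞) ∂(PP W) < ⊤ := by
  obtain ⟨q, hq, hfin⟩ := h.exists_q hp
  have hms : MeasurableSet {ξ : ℤ → ℕ → Bool | retPath (fun n => pos ξ n) < ⊤ ∧ ξ 0 0 = true} := by
    refine MeasurableSet.inter ?_ ?_
    · exact measurable_path measurableSet_retPath_lt
    · exact (measurableSet_singleton true).preimage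
        ((measurable_pi_apply 0).comp (measurable_pi_apply 0))
  calc ∫⁻ ξ in {ξ | retPath (fun n => pos ξ n) < ⊤ ∧ ξ 0 0 = true},
      (retPath (fun n => pos ξ n) : ℝ≥0∞) ∂(PP W)
      ≤ ∫⁻ ξ in {ξ | retPath (fun n => pos ξ n) < ⊤ ∧ ξ 0 0 = true},
        ∑' m : ℕ, ∑' k : ℕ, (Dev m k).indicator (fun _ => 2 * (k : ℝ≥0∞)) ξ ∂(PP W) := by
        refine setLIntegral_mono' hms fun ξ hξ => ?_
        obtain ⟨n, hn⟩ := (retPath_lt_top_iff _).mp hξ.1
        rw [(retPath_eq_coe_iff _ n).mpr hn]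
        exact ret_bound ξ n hn hξ.2
    _ ≤ ∫⁻ ξ, ∑' m : ℕ, ∑' k : ℕ, (Dev m k).indicator (fun _ => 2 * (k : ℝ≥0∞)) ξ ∂(PP W) :=
        setLIntegral_le_lintegral _ _
    _ = ∑' m : ℕ, ∑' k : ℕ, 2 * (k : ℝ≥0∞) * PP W (Dev m k) := by
        rw [lintegral_tsum]
        · refine tsum_congr fun m => ?_
          rw [lintegral_tsum]
          · refine tsum_congr fun k => ?_
            rw [lintegral_indicator_const (measurableSet_Dev m k)]
          · intro k
            exact (measurable_const.indicator (measurableSet_Dev m k)).aemeasurable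
        · intro m
          refine (Measurable.tsum fun k => ?_).aemeasurable
          exact measurable_const.indicator (measurableSet_Dev m k)
    _ ≤ ∑' m : ℕ, ∑' k : ℕ, 2 * ((k : ℝ≥0∞) * (Qn (piW W) m 1 k * q k)) := by
        refine ENNReal.tsum_le_tsum fun m => ENNReal.tsum_le_tsum fun k => ?_
        rw [mul_assoc]
        exact mul_le_mul_right (mul_le_mul_right (PP_Dev_le W m k (q k) (fun n => hq n k)) _) _
    _ = 2 * ∑' m : ℕ, ∑' k : ℕ, (k : ℝ≥0∞) * (Qn (piW W) m 1 k * q k) := by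
        simp_rw [ENNReal.tsum_mul_left]
    _ < ⊤ := ENNReal.mul_lt_top (by norm_num) hfin

end Setup

end Pool.Agent.MP_3aae7f_pr
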