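import Mathlib

/-!
Deterministic part: a nearest-neighbour walk on `ℤ` driven by stacks of arrows.
-/

namespace Pool.Agent.MP_3aae7f_pr

/-- Position and local clocks of the walk driven by the arrow stacks `ξ` (`true` = right). -/
def wk (ξ : ℤ → ℕ → Bool) : ℕ → ℤ × (ℤ → ℕ)
  | 0 => (0, fun _ => 0)
  | n + 1 =>
    (if ξ (wk ξ n).1 ((wk ξ n).2 (wk ξ n).1) = true then (wk ξ n).1 + 1 else (wk ξ n).1 - 1,
      Function.update (wk ξ n).2 (wk ξ n).1 ((wk ξ n).2 (wk ξ n).1 + 1))

/-- position at time `n` -/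
def pos (ξ : ℤ → ℕ → Bool) (n : ℕ) : ℤ := (wk ξ n).1

/-- number of departures from `x` before time `n` -/
def cnt (ξ : ℤ → ℕ → Bool) (n : ℕ) (x : ℤ) : ℕ := (wk ξ n).2 x

lemma pos_zero (ξ : ℤ → ℕ → Bool) : pos ξ 0 = 0 := rfl
lemma cnt_zero (ξ : ℤ → ℕ → Bool) (x : ℤ) : cnt ξ 0 x = 0 := rfl

lemma pos_succ (ξ : ℤ → ℕ → Bool) (n : ℕ) :
    pos ξ (n + 1) = if ξ (pos ξ n) (cnt ξ n (pos ξ n)) = true then pos ξ n + 1 else pos ξ n - 1 := rfl

lemma cnt_succ (ξ : ℤ → ℕ → Bool) (n : ℕ) (x : ℤ) :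
    cnt ξ (n + 1) x = if x = pos ξ n then cnt ξ n x + 1 else cnt ξ n x := by
  by_cases h : x = pos ξ n
  · subst h
    simp [cnt, wk, pos]
  · rw [if_neg h]
    simp only [cnt, wk]
    exact Function.update_of_ne h _ _

lemma pos_succ_or (ξ : ℤ → ℕ → Bool) (n : ℕ) :
    pos ξ (n + 1) = pos ξ n + 1 ∨ pos ξ (n + 1) = pos ξ n - 1 := by
  rw [pos_succ]
  split_ifs
  · exact Or.inl rfl
  · exact Or.inr rfl

/-- number of `true`s among the first `c` entries -/
def nT (s : ℕ → Bool) (c : ℕ) : ℕ := ((Finset.range c).filter fun j => s j = true).card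

/-- number of `false`s among the first `c` entries -/
def nF (s : ℕ → Bool) (c : ℕ) : ℕ := ((Finset.range c).filter fun j => s j = false).card

lemma nT_zero (s : ℕ → Bool) : nT s 0 = 0 := by simp [nT]
lemma nF_zero (s : ℕ → Bool) : nF s 0 = 0 := by simp [nF]

lemma nT_succ (s : ℕ → Bool) (c : ℕ) : nT s (c + 1) = nT s c + if s c = true then 1 else 0 := by
  unfold nT
  rw [Finset.range_add_one, Finset.filter_insert]
  split_ifs with h
  · rw [Finset.card_insert_of_notMem (by simp)]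
  · simp

lemma nF_succ (s : ℕ → Bool) (c : ℕ) : nF s (c + 1) = nF s c + if s c = true then 0 else 1 := by
  unfold nF
  rw [Finset.range_add_one, Finset.filter_insert]
  by_cases h : s c = true
  · simp [h]
  · have h' : s c = false := by simpa using h
    rw [if_pos h', Finset.card_insert_of_notMem (by simp)]
    simp [h']

lemma nT_add_nF (s : ℕ → Bool) (c : ℕ) : nT s c + nF s c = c := by
  induction c with
  | zero => simp [nT_zero, nF_zero]
  | succ c ih =>
    rw [nT_succ, nF_succ]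
    split_ifs <;> omega

lemma nF_mono (s : ℕ → Bool) {a b : ℕ} (h : a ≤ b) : nF s a ≤ nF s b :=
  Finset.card_le_card (Finset.filter_subset_filter _ (Finset.range_mono h))

/-- number of right steps from `x` before time `n` -/
def rt (ξ : ℤ → ℕ → Bool) (n : ℕ) (x : ℤ) : ℕ := nT (ξ x) (cnt ξ n x)

/-- number of left steps from `x` before time `n` -/
def lf (ξ : ℤ → ℕ → Bool) (n : ℕ) (x : ℤ) : ℕ := nF (ξ x) (cnt ξ n x)

lemma rt_add_lf (ξ : ℤ → ℕ → Bool) (n : ℕ) (x : ℤ) : rt ξ n x + lf ξ n x = cnt ξ n x :=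
  nT_add_nF _ _

lemma rt_succ (ξ : ℤ → ℕ → Bool) (n : ℕ) (x : ℤ) : rt ξ (n + 1) x = rt ξ n x +
    if x = pos ξ n ∧ ξ (pos ξ n) (cnt ξ n (pos ξ n)) = true then 1 else 0 := by
  unfold rt
  rw [cnt_succ]
  by_cases h : x = pos ξ n
  · subst h
    rw [if_pos rfl, nT_succ]
    simp
  · rw [if_neg h]
    simp [h]

lemma lf_succ (ξ : ℤ → ℕ → Bool) (n : ℕ) (x : ℤ) : lf ξ (n + 1) x = lf ξ n x +
    if x = pos ξ n ∧ ¬ ξ (pos ξ n) (cnt ξ n (pos ξ n)) = true then 1 else 0 := by
  unfold lf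
  rw [cnt_succ]
  by_cases h : x = pos ξ n
  · subst h
    rw [if_pos rfl, nF_succ]
    by_cases h2 : ξ (pos ξ n) (cnt ξ n (pos ξ n)) = true <;> simp [h2]
  · rw [if_neg h]
    simp [h]

/-- net crossings of the edge `(x, x+1)` -/
lemma conservation (ξ : ℤ → ℕ → Bool) (n : ℕ) (x : ℤ) :
    (rt ξ n x : ℤ) - lf ξ n (x + 1) = (if x < pos ξ n then 1 else 0) - (if x < 0 then 1 else 0) := by
  induction n with
  | zero =>
    simp only [rt, lf, cnt_zero, nT_zero, nF_zero, pos_zero]
    by_cases h : x < 0 <;> simp [h]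
  | succ n ih =>
    rw [rt_succ, lf_succ, pos_succ]
    by_cases hb : ξ (pos ξ n) (cnt ξ n (pos ξ n)) = true
    · simp only [hb, and_true, not_true_eq_false, and_false, if_false, if_true, add_zero]
      push_cast
      split_ifs at ih ⊢ <;> omega
    · simp only [hb]
      push_cast
      split_ifs at ih ⊢ <;> simp_all <;> omega

/-- The last arrow used at `x ≠ pos n` points towards the current position. -/
lemma last_arrow (ξ : ℤ → ℕ → Bool) (n : ℕ) (x : ℤ) (hx : x ≠ pos ξ n) (hc : 0 < cnt ξ n x) :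
    ξ x (cnt ξ n x - 1) = decide (x < pos ξ n) := by
  induction n with
  | zero => simp [cnt_zero] at hc
  | succ n ih =>
    rw [cnt_succ] at hc ⊢
    by_cases h : x = pos ξ n
    · subst h
      rw [if_pos rfl, Nat.add_sub_cancel, pos_succ]
      by_cases hb : ξ (pos ξ n) (cnt ξ n (pos ξ n)) = true
      · simp [hb]
      · simp only [hb]
        simp
    · rw [if_neg h] at hc ⊢
      rw [ih h hc]
      congr 1
      apply propext
      rcases pos_succ_or ξ n with h1 | h1
      · rw [h1] at hx ⊢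
        omega
      · rw [h1] at hx ⊢
        omega

/-- `Fr s k l`: there are exactly `l` `true`s before the `k`-th `false` (`l = 0` if `k = 0`). -/
def Fr (s : ℕ → Bool) (k l : ℕ) : Prop :=
  nT s (k + l) = l ∧ nF s (k + l) = k ∧ (k + l = 0 ∨ s (k + l - 1) = false)

lemma Fr_unique {s : ℕ → Bool} {k l l' : ℕ} (h : Fr s k l) (h' : Fr s k l') : l = l' := by
  have key : ∀ {a b : ℕ}, Fr s k a → Fr s k b → a < b → False := by
    intro a b ha hb hab
    obtain ⟨-, ha2, -⟩ := ha
    obtain ⟨-, hb2, hb3⟩ := hb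
    rcases hb3 with hb3 | hb3
    · omega
    · have h1 : nF s (k + a) ≤ nF s (k + b - 1) := nF_mono s (by omega)
      have h2 : nF s (k + b - 1 + 1) = nF s (k + b - 1) + 1 := by
        rw [nF_succ]; simp [hb3]
      have h3 : k + b - 1 + 1 = k + b := by omega
      rw [h3] at h2
      omega
  rcases lt_trichotomy l l' with h1 | h1 | h1
  · exact (key h h' h1).elim
  · exact h1
  · exact (key h' h h1).elim

lemma Fr_zero (s : ℕ → Bool) : Fr s 0 0 := by simp [Fr, nT_zero, nF_zero]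

lemma Fr_zero_iff (s : ℕ → Bool) (l : ℕ) : Fr s 0 l ↔ l = 0 :=
  ⟨fun h => Fr_unique h (Fr_zero s), fun h => h ▸ Fr_zero s⟩

lemma Fr_of_all_false {s : ℕ → Bool} {k : ℕ} (h : ∀ j < k, s j = false) : Fr s k 0 := by
  have h1 : nT s k = 0 := by
    unfold nT
    rw [Finset.card_eq_zero, Finset.filter_eq_empty_iff]
    intro j hj
    simp [h j (Finset.mem_range.mp hj)]
  have h2 := nT_add_nF s k
  refine ⟨by simpa using h1, by simpa using (by omega : nF s k = k), ?_⟩
  rcases Nat.eq_zero_or_pos k with hk | hk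
  · left; omega
  · right; simpa using h (k - 1) (by omega)

/-- When the walk is at `0`, the right-step counts to the right of `0` satisfy the branching
recursion. -/
lemma Fr_of_pos_eq_zero (ξ : ℤ → ℕ → Bool) (n : ℕ) (hn : pos ξ n = 0) (x : ℤ) (hx : 0 ≤ x) :
    Fr (ξ (x + 1)) (rt ξ n x) (rt ξ n (x + 1)) := by
  have h1 := conservation ξ n x
  rw [hn, if_neg (by omega)] at h1
  have h2 : rt ξ n x = lf ξ n (x + 1) := by
    by_cases hx0 : x < 0
    · omega
    · simp at h1; omega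
  have h3 := rt_add_lf ξ n (x + 1)
  have h4 : rt ξ n x + rt ξ n (x + 1) = cnt ξ n (x + 1) := by omega
  refine ⟨?_, ?_, ?_⟩
  · rw [h4]; rfl
  · rw [h4, h2]; rfl
  · rw [h4]
    rcases Nat.eq_zero_or_pos (cnt ξ n (x + 1)) with hc | hc
    · left; exact hc
    · right
      rw [last_arrow ξ n (x + 1) (by omega) hc, hn]
      simp; omega

open Classical in
/-- the offspring map: number of `true`s before the `k`-th `false` -/
noncomputable def Fm (s : ℕ → Bool) (k : ℕ) : Option ℕ :=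
  if h : ∃ l, Fr s k l then some h.choose else none

lemma Fm_eq_some {s : ℕ → Bool} {k l : ℕ} : Fm s k = some l ↔ Fr s k l := by
  unfold Fm
  constructor
  · intro h
    split_ifs at h with h1
    rw [Option.some.injEq] at h
    rw [← h]
    exact h1.choose_spec
  · intro h
    have h1 : ∃ l, Fr s k l := ⟨l, h⟩
    rw [dif_pos h1, Option.some.injEq]
    exact Fr_unique h1.choose_spec h

/-- the branching process on levels `x, x+1, …, x+n` started from `k` -/
noncomputable def iter (ξ : ℤ → ℕ → Bool) : ℤ → ℕ → ℕ → Option ℕ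
  | _, 0, k => some k
  | x, n + 1, k => (Fm (ξ (x + 1)) k).bind fun l => iter ξ (x + 1) n l

lemma iter_zero (ξ : ℤ → ℕ → Bool) (x : ℤ) (k : ℕ) : iter ξ x 0 k = some k := rfl

lemma iter_succ (ξ : ℤ → ℕ → Bool) (x : ℤ) (n k : ℕ) :
    iter ξ x (n + 1) k = (Fm (ξ (x + 1)) k).bind fun l => iter ξ (x + 1) n l := rfl

lemma iter_succ_eq_some (ξ : ℤ → ℕ → Bool) (x : ℤ) (n k m : ℕ) :
    iter ξ x (n + 1) k = some m ↔ ∃ l, Fr (ξ (x + 1)) k l ∧ iter ξ (x + 1) n l = some m := by
  rw [iter_succ, Option.bind_eq_some_iff]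
  simp only [Fm_eq_some]

lemma iter_of_Fr (ξ : ℤ → ℕ → Bool) (v : ℤ → ℕ) (h : ∀ x : ℤ, 0 ≤ x → Fr (ξ (x + 1)) (v x) (v (x + 1)))
    (n : ℕ) : ∀ x : ℤ, 0 ≤ x → iter ξ x n (v x) = some (v (x + n)) := by
  induction n with
  | zero => intro x _; simp [iter_zero]
  | succ n ih =>
    intro x hx
    rw [iter_succ_eq_some]
    refine ⟨v (x + 1), h x hx, ?_⟩
    rw [ih (x + 1) (by omega)]
    congr 2
    push_cast
    ring

/-- if the walk is at `0` at time `n`, the branching process started from the number of right steps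
from `0` gives all right-step counts -/
lemma iter_eq_rt (ξ : ℤ → ℕ → Bool) (n : ℕ) (hn : pos ξ n = 0) (x m : ℕ) :
    iter ξ x m (rt ξ n x) = some (rt ξ n (x + m)) :=
  iter_of_Fr ξ (rt ξ n) (Fr_of_pos_eq_zero ξ n hn) m x (by omega)

lemma abs_pos_le (ξ : ℤ → ℕ → Bool) (n : ℕ) : |pos ξ n| ≤ n := by
  induction n with
  | zero => simp [pos_zero]
  | succ n ih =>
    rw [abs_le] at ih ⊢
    rcases pos_succ_or ξ n with h | h <;> rw [h] <;> push_cast <;> omega

lemma cnt_eq_zero (ξ : ℤ → ℕ → Bool) (n : ℕ) (x : ℤ) (hx : (n : ℤ) ≤ |x|) (hn : 0 < n ∨ x ≠ 0) :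
    cnt ξ n x = 0 := by
  induction n with
  | zero => exact cnt_zero ξ x
  | succ n ih =>
    rw [cnt_succ, if_neg, ih]
    · push_cast at hx; omega
    · by_cases h0 : x = 0
      · subst h0; simp at hx; omega
      · exact Or.inr h0
    · intro h
      have := abs_pos_le ξ n
      rw [← h] at this
      push_cast at hx
      omega

lemma sum_cnt (ξ : ℤ → ℕ → Bool) (n N : ℕ) (h : n ≤ N) :
    ∑ x ∈ Finset.Icc (-(N : ℤ)) N, cnt ξ n x = n := by
  induction n with
  | zero => simp [cnt_zero]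
  | succ n ih =>
    have h1 := abs_pos_le ξ n
    rw [abs_le] at h1
    have hmem : pos ξ n ∈ Finset.Icc (-(N : ℤ)) N := by
      rw [Finset.mem_Icc]; omega
    have h2 : ∀ x, cnt ξ (n + 1) x = cnt ξ n x + if x = pos ξ n then 1 else 0 := by
      intro x; rw [cnt_succ]; split_ifs <;> rfl
    simp_rw [h2]
    rw [Finset.sum_add_distrib, ih (by omega), Finset.sum_ite_eq' _ (pos ξ n), if_pos hmem]

/-- number of departures from `0` -/
lemma cnt_eq_card (ξ : ℤ → ℕ → Bool) (n : ℕ) (x : ℤ) :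
    cnt ξ n x = ((Finset.range n).filter fun k => pos ξ k = x).card := by
  induction n with
  | zero => simp [cnt_zero]
  | succ n ih =>
    rw [cnt_succ, Finset.range_add_one, Finset.filter_insert, ih]
    by_cases h : x = pos ξ n
    · rw [if_pos h, if_pos h.symm, Finset.card_insert_of_notMem (by simp)]
    · rw [if_neg h, if_neg (fun h' => h h'.symm)]

/-- For a right excursion that returns to `0` at time `n` for the first time, `n` is twice the total
number of right steps, all of them from sites `≥ 0`. -/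
lemma excursion_length (ξ : ℤ → ℕ → Bool) (n : ℕ) (hn : pos ξ n = 0)
    (h1 : lf ξ n 0 = 0) : (n : ℤ) = 2 * ∑ m ∈ Finset.range (n + 1), (rt ξ n (m : ℤ) : ℤ) := by
  -- nothing happens on the left
  have hneg : ∀ m : ℕ, cnt ξ n (-1 - (m : ℤ)) = 0 := by
    have key : ∀ x : ℤ, x < 0 → lf ξ n (x + 1) = 0 → cnt ξ n x = 0 := by
      intro x hx hl
      by_contra hc
      have hc' : 0 < cnt ξ n x := Nat.pos_of_ne_zero hc
      have h2 := conservation ξ n x
      rw [hn, if_pos hx, hl] at h2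
      have h3 : rt ξ n x = 0 := by simp at h2; exact_mod_cast h2
      have h4 := last_arrow ξ n x (by omega) hc'
      rw [hn] at h4
      have h5 : ξ x (cnt ξ n x - 1) = true := by rw [h4]; simpa using hx
      have h6 : nT (ξ x) (cnt ξ n x - 1 + 1) = nT (ξ x) (cnt ξ n x - 1) + 1 := by
        rw [nT_succ, if_pos h5]
      rw [show cnt ξ n x - 1 + 1 = cnt ξ n x by omega] at h6
      unfold rt at h3
      omega
    intro m
    induction m with
    | zero =>
      apply key _ (by norm_num)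
      simpa using h1
    | succ m ih =>
      apply key _ (by push_cast; omega)
      have : -1 - ((m + 1 : ℕ) : ℤ) + 1 = -1 - (m : ℤ) := by push_cast; ring
      rw [this]
      have := rt_add_lf ξ n (-1 - (m : ℤ))
      omega
  have hneg' : ∀ x : ℤ, x < 0 → cnt ξ n x = 0 := by
    intro x hx
    have := hneg (-1 - x).toNat
    have h2 : -1 - (((-1 - x).toNat : ℕ) : ℤ) = x := by omega
    rwa [h2] at this
  have hs := sum_cnt ξ n (n + 1) (by omega)
  have hsplit : ∑ x ∈ Finset.Icc (-((n + 1 : ℕ) : ℤ)) ((n + 1 : ℕ) : ℤ), cnt ξ n x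
      = ∑ m ∈ Finset.range (n + 2), cnt ξ n (m : ℤ) := by
    have e1 : ∑ m ∈ Finset.range (n + 2), cnt ξ n (m : ℤ)
        = ∑ x ∈ (Finset.range (n + 2)).map Nat.castEmbedding, cnt ξ n x := by
      rw [Finset.sum_map]; rfl
    rw [e1]
    symm
    apply Finset.sum_subset
    · intro x hx
      rw [Finset.mem_map] at hx
      obtain ⟨m, hm, rfl⟩ := hx
      rw [Finset.mem_range] at hm
      rw [Finset.mem_Icc, Nat.castEmbedding_apply]
      omega
    · intro x hx hx'
      apply hneg'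
      by_contra hge
      apply hx'
      rw [Finset.mem_Icc] at hx
      rw [Finset.mem_map]
      refine ⟨x.toNat, ?_, ?_⟩
      · rw [Finset.mem_range]; omega
      · rw [Nat.castEmbedding_apply]; omega
  rw [hsplit] at hs
  have hlf : ∀ m : ℕ, lf ξ n ((m + 1 : ℕ) : ℤ) = rt ξ n (m : ℤ) := by
    intro m
    have h2 := conservation ξ n (m : ℤ)
    rw [hn, if_neg (by omega)] at h2
    push_cast
    omega
  have hrt : rt ξ n ((n + 1 : ℕ) : ℤ) = 0 := by
    have h2 := cnt_eq_zero ξ n ((n + 1 : ℕ) : ℤ) (by push_cast; rw [abs_of_nonneg] <;> omega)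
      (Or.inr (by push_cast; omega))
    have := rt_add_lf ξ n ((n + 1 : ℕ) : ℤ)
    omega
  have h3 : ∑ m ∈ Finset.range (n + 2), cnt ξ n (m : ℤ)
      = ∑ m ∈ Finset.range (n + 2), rt ξ n (m : ℤ) + ∑ m ∈ Finset.range (n + 2), lf ξ n (m : ℤ) := by
    rw [← Finset.sum_add_distrib]
    exact Finset.sum_congr rfl fun m _ => (rt_add_lf ξ n m).symm
  rw [h3, Finset.sum_range_succ (fun m : ℕ => rt ξ n (m : ℤ)) (n + 1), hrt,
    Finset.sum_range_succ' (fun m : ℕ => lf ξ n (m : ℤ)) (n + 1)] at hs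
  simp_rw [hlf] at hs
  rw [show ((0 : ℕ) : ℤ) = 0 from rfl, h1] at hs
  have h5 : n = 2 * ∑ m ∈ Finset.range (n + 1), rt ξ n (m : ℤ) := by omega
  calc (n : ℤ) = ((2 * ∑ m ∈ Finset.range (n + 1), rt ξ n (m : ℤ) : ℕ) : ℤ) := by rw [← h5]
    _ = _ := by push_cast; rfl

/-! ### Reflection -/

/-- reflected arrow stacks -/
def refl (ξ : ℤ → ℕ → Bool) : ℤ → ℕ → Bool := fun x j => !ξ (-x) j

lemma refl_wk (ξ : ℤ → ℕ → Bool) (n : ℕ) :
    pos (refl ξ) n = - pos ξ n ∧ ∀ x, cnt (refl ξ) n x = cnt ξ n (-x) := by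
  induction n with
  | zero => exact ⟨by simp [pos_zero], fun x => by simp [cnt_zero]⟩
  | succ n ih =>
    obtain ⟨ih1, ih2⟩ := ih
    constructor
    · rw [pos_succ, pos_succ, ih1, ih2, neg_neg]
      unfold refl
      rw [neg_neg]
      by_cases h : ξ (pos ξ n) (cnt ξ n (pos ξ n)) = true
      · simp [h]; ring
      · simp [h]; ring
    · intro x
      rw [cnt_succ, cnt_succ, ih1, ih2]
      by_cases h : x = - pos ξ n
      · rw [if_pos h, if_pos (by rw [h, neg_neg])]
      · rw [if_neg h, if_neg (fun h' => h (by rw [← h', neg_neg]))]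

lemma refl_refl (ξ : ℤ → ℕ → Bool) : refl (refl ξ) = ξ := by
  funext x j
  simp [refl]

end Pool.Agent.MP_3aae7f_pr
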