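import Pool.Agent.Lib.MP_3aae7f_pr.Cookie
import Pool.Agent.Lib.MP_3aae7f_pr.Walk

/-!
One-site estimates: law of a stack of arrows produced by a Markovian cookie stack.
-/

open MeasureTheory ProbabilityTheory
open scoped ENNReal

namespace Pool.Agent.MP_3aae7f_pr

variable {N : ℕ}

/-- probability that a cookie of type `i` produces the arrow `b` -/
noncomputable def qq (p : Fin N → ℝ) (b : Bool) (i : Fin N) : ℝ≥0∞ :=
  ENNReal.ofReal (if b = true then p i else 1 - p i)

/-- `ρ` is the law of a cookie stack, `W` the law of the corresponding stack of arrows -/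
structure SiteLaw (K : Fin N → Fin N → ℝ) (p η : Fin N → ℝ) (ρ : Measure (ℕ → Fin N))
    (W : Measure (ℕ → Bool)) : Prop where
  probρ : IsProbabilityMeasure ρ
  probW : IsProbabilityMeasure W
  chain : ∀ (n : ℕ) (r : ℕ → Fin N), ρ {e | ∀ j ≤ n, e j = r j}
    = ENNReal.ofReal (η (r 0) * ∏ j ∈ Finset.range n, K (r j) (r (j + 1)))
  cyl : ∀ (m : ℕ) (σ : ℕ → Bool), W {s | ∀ j < m, s j = σ j}
    = ∫⁻ e, ∏ j ∈ Finset.range m, qq p (σ j) (e j) ∂ρ

section tuples

/-- integrals of functions of the first `n` coordinates -/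
lemma lintegral_first {F : Type*} [Fintype F] [MeasurableSpace F] [MeasurableSingletonClass F]
    (ρ : Measure (ℕ → F)) (n : ℕ) (G : (Fin n → F) → ℝ≥0∞) :
    ∫⁻ e, G (fun j => e j) ∂ρ = ∑ r : Fin n → F, G r * ρ {e | ∀ j : Fin n, e j = r j} := by
  classical
  have hm : Measurable (fun (e : ℕ → F) (j : Fin n) => e j) :=
    measurable_pi_lambda _ fun j => measurable_pi_apply _
  have h1 : ∫⁻ e, G (fun j => e j) ∂ρ = ∫⁻ r, G r ∂(ρ.map fun (e : ℕ → F) (j : Fin n) => e j) := by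
    rw [lintegral_map (measurable_of_finite _) hm]
  rw [h1, lintegral_fintype]
  refine Finset.sum_congr rfl fun r _ => ?_
  rw [Measure.map_apply hm (measurableSet_singleton r)]
  congr 2
  ext e
  simp [funext_iff]

end tuples

namespace SiteLaw

variable {K : Fin N → Fin N → ℝ} {p η : Fin N → ℝ} {ρ : Measure (ℕ → Fin N)} {W : Measure (ℕ → Bool)}

lemma chain_fin (h : SiteLaw K p η ρ W) [NeZero N] (n : ℕ) (r : Fin (n + 1) → Fin N) :
    ρ {e | ∀ j : Fin (n + 1), e j = r j}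
      = ENNReal.ofReal (η (r 0) * ∏ j : Fin n, K (r j.castSucc) (r j.succ)) := by
  set r' : ℕ → Fin N := fun j => if hj : j < n + 1 then r ⟨j, hj⟩ else 0 with hr'
  have h1 := h.chain n r'
  have h2 : {e : ℕ → Fin N | ∀ j ≤ n, e j = r' j} = {e | ∀ j : Fin (n + 1), e j = r j} := by
    ext e
    simp only [Set.mem_ofPred_eq]
    constructor
    · intro hh j
      have hj := j.2
      rw [hh j (by omega), hr']
      simp only [hj, dif_pos]
    · intro hh j hj
      have := hh ⟨j, by omega⟩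
      rw [hr']
      simp only [show j < n + 1 by omega, dif_pos]
      exact this
  rw [h2] at h1
  rw [h1]
  congr 2
  · rw [Finset.prod_range]
    refine Finset.prod_congr rfl fun j _ => ?_
    have hj := j.2
    rw [hr']
    simp only [show (j:ℕ) < n + 1 by omega, show (j:ℕ) + 1 < n + 1 by omega, dif_pos]
    rfl

/-- Markov property of the cookie stack -/
lemma markov (h : SiteLaw K p η ρ W) [NeZero N] (hη : ∀ i, 0 ≤ η i) (hK : ∀ i j, 0 ≤ K i j)
    (m : ℕ) (G : (Fin (m + 1) → Fin N) → ℝ≥0∞) (φ : Fin N → ℝ≥0∞) :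
    ∫⁻ e, G (fun j => e j) * φ (e (m + 1)) ∂ρ
      = ∫⁻ e, G (fun j => e j) * ∑ i, ENNReal.ofReal (K (e m) i) * φ i ∂ρ := by
  have h1 : ∫⁻ e, G (fun j => e j) * φ (e (m + 1)) ∂ρ
      = ∑ r : Fin (m + 2) → Fin N, (G (fun j => r j.castSucc) * φ (r (Fin.last (m + 1)))) *
          ρ {e | ∀ j : Fin (m + 2), e j = r j} :=
    lintegral_first ρ (m + 2) (fun r => G (fun j => r j.castSucc) * φ (r (Fin.last (m + 1))))
  have h2 : ∫⁻ e, G (fun j => e j) * ∑ i, ENNReal.ofReal (K (e m) i) * φ i ∂ρ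
      = ∑ r : Fin (m + 1) → Fin N, (G r * ∑ i, ENNReal.ofReal (K (r (Fin.last m)) i) * φ i) *
          ρ {e | ∀ j : Fin (m + 1), e j = r j} :=
    lintegral_first ρ (m + 1) (fun r => G r * ∑ i, ENNReal.ofReal (K (r (Fin.last m)) i) * φ i)
  rw [h1, h2]
  rw [← (Fin.snocEquiv (fun _ : Fin (m + 2) => Fin N)).sum_comp, Fintype.sum_prod_type, Finset.sum_comm]
  refine Finset.sum_congr rfl fun r _ => ?_
  rw [Finset.mul_sum, Finset.sum_mul]
  refine Finset.sum_congr rfl fun i _ => ?_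
  rw [h.chain_fin, h.chain_fin]
  have e1 : (Fin.snocEquiv (fun _ : Fin (m + 2) => Fin N)) (i, r) = Fin.snoc r i := rfl
  rw [e1]
  have e2 : (fun j : Fin (m + 1) => (Fin.snoc r i : Fin (m + 2) → Fin N) j.castSucc) = r := by
    funext j; simp
  rw [e2, Fin.snoc_last]
  have e3 : ENNReal.ofReal (η ((Fin.snoc r i : Fin (m + 2) → Fin N) 0) *
      ∏ j : Fin (m + 1), K ((Fin.snoc r i : Fin (m + 2) → Fin N) j.castSucc)
        ((Fin.snoc r i : Fin (m + 2) → Fin N) j.succ))
      = ENNReal.ofReal (η (r 0) * ∏ j : Fin m, K (r j.castSucc) (r j.succ)) *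
        ENNReal.ofReal (K (r (Fin.last m)) i) := by
    rw [← ENNReal.ofReal_mul (mul_nonneg (hη _) (Finset.prod_nonneg fun j _ => hK _ _))]
    congr 1
    rw [Fin.prod_univ_castSucc, mul_assoc]
    have a1 : (Fin.snoc r i : Fin (m + 2) → Fin N) 0 = r 0 := by
      have : (0 : Fin (m + 2)) = Fin.castSucc (0 : Fin (m + 1)) := rfl
      rw [this, Fin.snoc_castSucc]
    have a2 : (Fin.snoc r i : Fin (m + 2) → Fin N) (Fin.last m).succ = i := by
      rw [Fin.succ_last, Fin.snoc_last]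
    rw [a1, a2, Fin.snoc_castSucc]
    congr 2
    refine Finset.prod_congr rfl fun j _ => ?_
    rw [Fin.snoc_castSucc, Fin.succ_castSucc, Fin.snoc_castSucc]
  rw [e3]
  ring

/-- geometric decay of the tilted expectations -/
lemma tilt_decay (h : SiteLaw K p η ρ W) [NeZero N] (hη : ∀ i, 0 ≤ η i) (hK : ∀ i j, 0 ≤ K i j)
    (g hh : Fin N → ℝ) (lam : ℝ) (hg : ∀ i, 0 ≤ g i) (hlam : 0 ≤ lam)
    (hh2 : ∀ i, 1 / 2 ≤ hh i ∧ hh i ≤ 2)
    (hle : ∀ i, g i * ∑ j, K i j * hh j ≤ lam * hh i) (m : ℕ) :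
    ∫⁻ e, ∏ j ∈ Finset.range m, ENNReal.ofReal (g (e j)) ∂ρ ≤ 4 * ENNReal.ofReal lam ^ m := by
  have hprob := h.probρ
  have hhpos : ∀ i, 0 ≤ hh i := fun i => by linarith [(hh2 i).1]
  have key : ∀ m : ℕ, ∫⁻ e, (∏ j ∈ Finset.range m, ENNReal.ofReal (g (e j))) *
      ENNReal.ofReal (hh (e m)) ∂ρ ≤ 2 * ENNReal.ofReal lam ^ m := by
    intro m
    induction m with
    | zero =>
      simp only [Finset.range_zero, Finset.prod_empty, one_mul, pow_zero, mul_one]
      calc ∫⁻ e, ENNReal.ofReal (hh (e 0)) ∂ρ ≤ ∫⁻ e, 2 ∂ρ := by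
            refine lintegral_mono fun e => ?_
            rw [← ENNReal.ofReal_ofNat]
            exact ENNReal.ofReal_le_ofReal (hh2 _).2
        _ = 2 := by simp
    | succ m ih =>
      have hmk := h.markov hη hK m (fun r => ∏ j : Fin (m + 1), ENNReal.ofReal (g (r j)))
        (fun i => ENNReal.ofReal (hh i))
      have e1 : ∀ e : ℕ → Fin N, ∏ j ∈ Finset.range (m + 1), ENNReal.ofReal (g (e j))
          = ∏ j : Fin (m + 1), ENNReal.ofReal (g (e j)) := fun e => Finset.prod_range _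
      simp_rw [e1]
      rw [hmk]
      calc ∫⁻ e, (∏ j : Fin (m + 1), ENNReal.ofReal (g (e j))) *
            ∑ i, ENNReal.ofReal (K (e m) i) * ENNReal.ofReal (hh i) ∂ρ
          ≤ ∫⁻ e, ENNReal.ofReal lam * ((∏ j ∈ Finset.range m, ENNReal.ofReal (g (e j))) *
              ENNReal.ofReal (hh (e m))) ∂ρ := by
            refine lintegral_mono fun e => ?_
            have e2 : ∑ i, ENNReal.ofReal (K (e m) i) * ENNReal.ofReal (hh i)
                = ENNReal.ofReal (∑ i, K (e m) i * hh i) := by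
              rw [ENNReal.ofReal_sum_of_nonneg fun i _ => mul_nonneg (hK _ _) (hhpos i)]
              exact Finset.sum_congr rfl fun i _ => (ENNReal.ofReal_mul (hK _ _)).symm
            rw [e2, ← Finset.prod_range (fun j => ENNReal.ofReal (g (e j))),
              Finset.prod_range_succ, mul_assoc, ← ENNReal.ofReal_mul (hg _)]
            calc (∏ x ∈ Finset.range m, ENNReal.ofReal (g (e x))) *
                  ENNReal.ofReal (g (e m) * ∑ i, K (e m) i * hh i)
                ≤ (∏ x ∈ Finset.range m, ENNReal.ofReal (g (e x))) *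
                  ENNReal.ofReal (lam * hh (e m)) :=
                  mul_le_mul_right (ENNReal.ofReal_le_ofReal (hle _)) _
              _ = _ := by rw [ENNReal.ofReal_mul hlam]; ring
        _ = ENNReal.ofReal lam * ∫⁻ e, ((∏ j ∈ Finset.range m, ENNReal.ofReal (g (e j))) *
              ENNReal.ofReal (hh (e m))) ∂ρ := lintegral_const_mul' _ _ ENNReal.ofReal_ne_top
        _ ≤ ENNReal.ofReal lam * (2 * ENNReal.ofReal lam ^ m) := mul_le_mul_right ih _
        _ = 2 * ENNReal.ofReal lam ^ (m + 1) := by rw [pow_succ]; ring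
  calc ∫⁻ e, ∏ j ∈ Finset.range m, ENNReal.ofReal (g (e j)) ∂ρ
      ≤ ∫⁻ e, 2 * ((∏ j ∈ Finset.range m, ENNReal.ofReal (g (e j))) * ENNReal.ofReal (hh (e m))) ∂ρ := by
        refine lintegral_mono fun e => ?_
        have : (1 : ℝ≥0∞) ≤ 2 * ENNReal.ofReal (hh (e m)) := by
          rw [← ENNReal.ofReal_ofNat, ← ENNReal.ofReal_mul (by norm_num), ENNReal.one_le_ofReal]
          have := (hh2 (e m)).1
          linarith
        calc ∏ j ∈ Finset.range m, ENNReal.ofReal (g (e j))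
            = (∏ j ∈ Finset.range m, ENNReal.ofReal (g (e j))) * 1 := (mul_one _).symm
          _ ≤ (∏ j ∈ Finset.range m, ENNReal.ofReal (g (e j))) * (2 * ENNReal.ofReal (hh (e m))) :=
              mul_le_mul_right this _
          _ = _ := by ring
    _ = 2 * ∫⁻ e, ((∏ j ∈ Finset.range m, ENNReal.ofReal (g (e j))) * ENNReal.ofReal (hh (e m))) ∂ρ :=
        lintegral_const_mul' _ _ (by norm_num)
    _ ≤ 2 * (2 * ENNReal.ofReal lam ^ m) := mul_le_mul_right (key m) _
    _ = 4 * ENNReal.ofReal lam ^ m := by rw [← mul_assoc]; norm_num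

lemma cyl_fin (h : SiteLaw K p η ρ W) (m : ℕ) (σ : Fin m → Bool) :
    W {s | ∀ j : Fin m, s j = σ j} = ∫⁻ e, ∏ j : Fin m, qq p (σ j) (e j) ∂ρ := by
  set σ' : ℕ → Bool := fun j => if hj : j < m then σ ⟨j, hj⟩ else true with hσ'
  have h1 := h.cyl m σ'
  have h2 : {s : ℕ → Bool | ∀ j < m, s j = σ' j} = {s | ∀ j : Fin m, s j = σ j} := by
    ext s
    simp only [Set.mem_ofPred_eq]
    constructor
    · intro hh j
      rw [hh j j.2, hσ']
      simp
    · intro hh j hj
      have := hh ⟨j, hj⟩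
      rw [hσ']
      simp only [hj, dif_pos]
      exact this
  rw [h2] at h1
  rw [h1]
  refine lintegral_congr fun e => ?_
  rw [Finset.prod_range]
  refine Finset.prod_congr rfl fun j _ => ?_
  rw [hσ']
  simp

lemma measurable_cookie_fn (n : ℕ) (G : (Fin n → Fin N) → ℝ≥0∞) :
    Measurable (fun e : ℕ → Fin N => G (fun j => e j)) :=
  (measurable_of_finite G).comp (measurable_pi_lambda _ fun _ => measurable_pi_apply _)

/-- expectations of products over arrows -/
lemma lintegral_prod (h : SiteLaw K p η ρ W) (m : ℕ) (E : Bool → ℝ≥0∞) :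
    ∫⁻ s, ∏ j ∈ Finset.range m, E (s j) ∂W
      = ∫⁻ e, ∏ j ∈ Finset.range m, ∑ b : Bool, E b * qq p b (e j) ∂ρ := by
  have h1 : ∫⁻ s, ∏ j ∈ Finset.range m, E (s j) ∂W
      = ∑ σ : Fin m → Bool, (∏ j : Fin m, E (σ j)) * W {s | ∀ j : Fin m, s j = σ j} := by
    rw [← lintegral_first W m (fun σ => ∏ j : Fin m, E (σ j))]
    exact lintegral_congr fun s => Finset.prod_range _
  rw [h1]
  have h2 : ∀ σ : Fin m → Bool, (∏ j : Fin m, E (σ j)) * W {s | ∀ j : Fin m, s j = σ j}
      = ∫⁻ e, ∏ j : Fin m, (E (σ j) * qq p (σ j) (e j)) ∂ρ := by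
    intro σ
    rw [h.cyl_fin, ← lintegral_const_mul]
    · exact lintegral_congr fun e => Finset.prod_mul_distrib.symm
    · exact measurable_cookie_fn m (fun r => ∏ j : Fin m, qq p (σ j) (r j))
  simp_rw [h2]
  rw [← lintegral_finsetSum]
  · refine lintegral_congr fun e => ?_
    rw [Finset.prod_range, Finset.prod_univ_sum, Fintype.piFinset_univ]
  · intro σ _
    exact measurable_cookie_fn m (fun r => ∏ j : Fin m, (E (σ j) * qq p (σ j) (r j)))

end SiteLaw

end Pool.Agent.MP_3aae7f_pr
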