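import Pool.Agent.Lib.MP_3aae7f_pr.Site

/-!
Offspring estimates for one site.
-/

open MeasureTheory ProbabilityTheory
open scoped ENNReal

namespace Pool.Agent.MP_3aae7f_pr

variable {N : ℕ}

lemma measurable_nT (c : ℕ) : Measurable (fun s : ℕ → Bool => nT s c) := by
  induction c with
  | zero => simp only [nT_zero]; exact measurable_const
  | succ c ih =>
    simp only [nT_succ]
    refine ih.add (Measurable.ite ?_ measurable_const measurable_const)
    exact (measurableSet_singleton true).preimage (measurable_pi_apply c)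

lemma measurable_nF (c : ℕ) : Measurable (fun s : ℕ → Bool => nF s c) := by
  induction c with
  | zero => simp only [nF_zero]; exact measurable_const
  | succ c ih =>
    simp only [nF_succ]
    refine ih.add (Measurable.ite ?_ measurable_const measurable_const)
    exact (measurableSet_singleton true).preimage (measurable_pi_apply c)

lemma measurableSet_Fr (k l : ℕ) : MeasurableSet {s : ℕ → Bool | Fr s k l} := by
  have h1 : MeasurableSet {s : ℕ → Bool | nT s (k + l) = l} :=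
    (measurableSet_singleton l).preimage (measurable_nT (k + l))
  have h2 : MeasurableSet {s : ℕ → Bool | nF s (k + l) = k} :=
    (measurableSet_singleton k).preimage (measurable_nF (k + l))
  have h3 : MeasurableSet {s : ℕ → Bool | k + l = 0 ∨ s (k + l - 1) = false} := by
    by_cases h : k + l = 0
    · simp [h]
    · simp only [h, false_or]
      exact (measurableSet_singleton false).preimage (measurable_pi_apply (k + l - 1))
  exact h1.inter (h2.inter h3)

/-- offspring kernel -/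
noncomputable def piW (W : Measure (ℕ → Bool)) (k l : ℕ) : ℝ≥0∞ := W {s | Fr s k l}

lemma piW_row (W : Measure (ℕ → Bool)) [IsProbabilityMeasure W] (k : ℕ) : ∑' l, piW W k l ≤ 1 := by
  unfold piW
  rw [← measure_iUnion]
  · exact prob_le_one
  · intro l l' hne
    rw [Function.onFun, Set.disjoint_left]
    intro s hs hs'
    exact hne (Fr_unique hs hs')
  · exact fun l => measurableSet_Fr k l

lemma piW_zero (W : Measure (ℕ → Bool)) [IsProbabilityMeasure W] (l : ℕ) :
    piW W 0 l = if l = 0 then 1 else 0 := by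
  unfold piW
  simp only [Fr_zero_iff]
  split_ifs with h
  · simp [h]
  · simp [h]

/-- exponential weights of arrows -/
noncomputable def Ew (θ : ℝ) (b : Bool) : ℝ≥0∞ := ENNReal.ofReal (Real.exp (if b = true then θ else -θ))

lemma prod_Ew (θ : ℝ) (s : ℕ → Bool) (c : ℕ) :
    ∏ j ∈ Finset.range c, Ew θ (s j) = ENNReal.ofReal (Real.exp (θ * nT s c - θ * nF s c)) := by
  induction c with
  | zero => simp [nT_zero, nF_zero]
  | succ c ih =>
    rw [Finset.prod_range_succ, ih, nT_succ, nF_succ]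
    unfold Ew
    rw [← ENNReal.ofReal_mul (Real.exp_pos _).le, ← Real.exp_add]
    congr 2
    by_cases h : s c = true
    · simp [h]; ring
    · simp [h]; ring

lemma sum_Ew (p : Fin N → ℝ) (hp0 : ∀ i, 0 < p i) (hp1 : ∀ i, p i < 1) (θ : ℝ) (i : Fin N) :
    ∑ b : Bool, Ew θ b * qq p b i
      = ENNReal.ofReal (p i * Real.exp θ + (1 - p i) * Real.exp (-θ)) := by
  have h0 := hp0 i
  have h1 := hp1 i
  rw [Fintype.sum_bool]
  unfold Ew qq
  simp only [if_true, Bool.false_eq_true, if_false]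
  rw [← ENNReal.ofReal_mul (Real.exp_pos _).le, ← ENNReal.ofReal_mul (Real.exp_pos _).le,
    ← ENNReal.ofReal_add (by positivity) (mul_nonneg (Real.exp_pos _).le (by linarith))]
  congr 1
  ring

namespace SiteLaw

variable {K : Fin N → Fin N → ℝ} {p η : Fin N → ℝ} {ρ : Measure (ℕ → Fin N)} {W : Measure (ℕ → Bool)}

lemma piW_le (h : SiteLaw K p η ρ W) [NeZero N] (hη : ∀ i, 0 ≤ η i) (hK : ∀ i j, 0 ≤ K i j)
    (hp0 : ∀ i, 0 < p i) (hp1 : ∀ i, p i < 1) (θ : ℝ) (hh : Fin N → ℝ) (lam : ℝ) (hlam : 0 ≤ lam)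
    (hh2 : ∀ i, 1 / 2 ≤ hh i ∧ hh i ≤ 2)
    (hle : ∀ i, (p i * Real.exp θ + (1 - p i) * Real.exp (-θ)) * ∑ j, K i j * hh j ≤ lam * hh i)
    (k l : ℕ) : piW W k l * ENNReal.ofReal (Real.exp (θ * l))
      ≤ ENNReal.ofReal (Real.exp (θ * k)) * (4 * ENNReal.ofReal lam ^ (k + l)) := by
  have h1 : ∫⁻ s, ∏ j ∈ Finset.range (k + l), Ew θ (s j) ∂W ≤ 4 * ENNReal.ofReal lam ^ (k + l) := by
    rw [h.lintegral_prod]
    simp_rw [sum_Ew p hp0 hp1 θ]
    exact h.tilt_decay hη hK _ hh lam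
      (fun i => add_nonneg (mul_nonneg (hp0 i).le (Real.exp_pos _).le)
        (mul_nonneg (by linarith [hp1 i]) (Real.exp_pos _).le)) hlam hh2 hle (k + l)
  have h2 : ENNReal.ofReal (Real.exp (θ * l - θ * k)) * piW W k l
      ≤ ∫⁻ s, ∏ j ∈ Finset.range (k + l), Ew θ (s j) ∂W := by
    calc ENNReal.ofReal (Real.exp (θ * l - θ * k)) * piW W k l
        = ∫⁻ s in {s | Fr s k l}, ENNReal.ofReal (Real.exp (θ * l - θ * k)) ∂W := by
          rw [setLIntegral_const]; rfl
      _ = ∫⁻ s in {s | Fr s k l}, ∏ j ∈ Finset.range (k + l), Ew θ (s j) ∂W := by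
          refine setLIntegral_congr_fun (measurableSet_Fr k l) fun s hs => ?_
          rw [prod_Ew, hs.1, hs.2.1]
      _ ≤ ∫⁻ s, ∏ j ∈ Finset.range (k + l), Ew θ (s j) ∂W := setLIntegral_le_lintegral _ _
  calc piW W k l * ENNReal.ofReal (Real.exp (θ * l))
      = ENNReal.ofReal (Real.exp (θ * k)) *
          (ENNReal.ofReal (Real.exp (θ * l - θ * k)) * piW W k l) := by
        have : ENNReal.ofReal (Real.exp (θ * l)) = ENNReal.ofReal (Real.exp (θ * k)) *
            ENNReal.ofReal (Real.exp (θ * l - θ * k)) := by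
          rw [← ENNReal.ofReal_mul (Real.exp_pos _).le, ← Real.exp_add]
          congr 2; ring
        rw [this]; ring
    _ ≤ _ := mul_le_mul_right (h2.trans h1) _

lemma piW_sum_le (h : SiteLaw K p η ρ W) [NeZero N] (hη : ∀ i, 0 ≤ η i) (hK : ∀ i j, 0 ≤ K i j)
    (hp0 : ∀ i, 0 < p i) (hp1 : ∀ i, p i < 1) (θ : ℝ) (hh : Fin N → ℝ) (lam : ℝ) (hlam : 0 ≤ lam)
    (hh2 : ∀ i, 1 / 2 ≤ hh i ∧ hh i ≤ 2)
    (hle : ∀ i, (p i * Real.exp θ + (1 - p i) * Real.exp (-θ)) * ∑ j, K i j * hh j ≤ lam * hh i)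
    (k : ℕ) : ∑' l : ℕ, piW W k l * ENNReal.ofReal (Real.exp (θ * l))
      ≤ (4 * ENNReal.ofReal lam ^ k * (1 - ENNReal.ofReal lam)⁻¹) * ENNReal.ofReal (Real.exp (θ * k)) := by
  calc ∑' l : ℕ, piW W k l * ENNReal.ofReal (Real.exp (θ * l))
      ≤ ∑' l : ℕ, ENNReal.ofReal (Real.exp (θ * k)) * (4 * ENNReal.ofReal lam ^ (k + l)) :=
        ENNReal.tsum_le_tsum fun l => h.piW_le hη hK hp0 hp1 θ hh lam hlam hh2 hle k l
    _ = ∑' l : ℕ, (ENNReal.ofReal (Real.exp (θ * k)) * (4 * ENNReal.ofReal lam ^ k)) *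
          ENNReal.ofReal lam ^ l := tsum_congr fun l => by rw [pow_add]; ring
    _ = (ENNReal.ofReal (Real.exp (θ * k)) * (4 * ENNReal.ofReal lam ^ k)) *
          (1 - ENNReal.ofReal lam)⁻¹ := by rw [ENNReal.tsum_mul_left, ENNReal.tsum_geometric]
    _ = _ := by ring

/-- the form used for the chain -/
lemma piW_tilt (h : SiteLaw K p η ρ W) [NeZero N] (hη : ∀ i, 0 ≤ η i) (hK : ∀ i j, 0 ≤ K i j)
    (hp0 : ∀ i, 0 < p i) (hp1 : ∀ i, p i < 1) (θ : ℝ) (hh : Fin N → ℝ) (lam : ℝ) (hlam : 0 ≤ lam)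
    (hlam1 : lam < 1) (hh2 : ∀ i, 1 / 2 ≤ hh i ∧ hh i ≤ 2)
    (hle : ∀ i, (p i * Real.exp θ + (1 - p i) * Real.exp (-θ)) * ∑ j, K i j * hh j ≤ lam * hh i) :
    ∃ (k0 : ℕ) (B : ℝ≥0∞), B ≠ ⊤ ∧
      (∀ k, k0 ≤ k → ∑' l : ℕ, piW W k l * ENNReal.ofReal (Real.exp (θ * l))
        ≤ (1 / 2) * ENNReal.ofReal (Real.exp (θ * k))) ∧
      (∀ k, k < k0 → ∑' l : ℕ, piW W k l * ENNReal.ofReal (Real.exp (θ * l)) ≤ B) := by
  have hl1 : ENNReal.ofReal lam < 1 := by
    rw [← ENNReal.ofReal_one]; exact (ENNReal.ofReal_lt_ofReal_iff one_pos).mpr hlam1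
  have hinv : (1 - ENNReal.ofReal lam)⁻¹ ≠ ⊤ := by
    rw [ENNReal.inv_ne_top]
    exact (tsub_pos_of_lt hl1).ne'
  have htend : Filter.Tendsto (fun k : ℕ => 4 * ENNReal.ofReal lam ^ k * (1 - ENNReal.ofReal lam)⁻¹)
      Filter.atTop (nhds 0) := by
    have h1 : Filter.Tendsto (fun k : ℕ => ENNReal.ofReal lam ^ k) Filter.atTop (nhds 0) :=
      ENNReal.tendsto_pow_atTop_nhds_zero_of_lt_one hl1
    have h2 : Filter.Tendsto (fun k : ℕ => (4 * (1 - ENNReal.ofReal lam)⁻¹) * ENNReal.ofReal lam ^ k)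
        Filter.atTop (nhds ((4 * (1 - ENNReal.ofReal lam)⁻¹) * 0)) :=
      ENNReal.Tendsto.const_mul h1 (Or.inr (ENNReal.mul_ne_top (by norm_num) hinv))
    rw [mul_zero] at h2
    exact h2.congr fun k => by ring
  obtain ⟨k0, hk0⟩ := (htend.eventually (gt_mem_nhds (show (0 : ℝ≥0∞) < 1 / 2 by norm_num))).exists_forall_of_atTop
  refine ⟨k0, 4 * (1 - ENNReal.ofReal lam)⁻¹ * ∑ k ∈ Finset.range k0, ENNReal.ofReal (Real.exp (θ * k)),
    ?_, ?_, ?_⟩
  · exact ENNReal.mul_ne_top (ENNReal.mul_ne_top (by norm_num) hinv)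
      (ENNReal.sum_lt_top.mpr fun k _ => ENNReal.ofReal_lt_top).ne
  · intro k hk
    refine (h.piW_sum_le hη hK hp0 hp1 θ hh lam hlam hh2 hle k).trans ?_
    exact mul_le_mul_left (hk0 k hk).le _
  · intro k hk
    refine (h.piW_sum_le hη hK hp0 hp1 θ hh lam hlam hh2 hle k).trans ?_
    refine mul_le_mul' ?_ ?_
    · calc 4 * ENNReal.ofReal lam ^ k * (1 - ENNReal.ofReal lam)⁻¹
          ≤ 4 * 1 * (1 - ENNReal.ofReal lam)⁻¹ := by
            gcongr
            exact pow_le_one' hl1.le k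
        _ = _ := by rw [mul_one]
    · exact Finset.single_le_sum (f := fun k : ℕ => ENNReal.ofReal (Real.exp (θ * k)))
        (fun _ _ => zero_le) (Finset.mem_range.mpr hk)

/-- uniform ellipticity: lower bound for the extinction in one step -/
lemma piW_zero_ge (h : SiteLaw K p η ρ W) (ε : ℝ) (hε : ∀ i, ε ≤ 1 - p i) (k : ℕ) :
    ENNReal.ofReal ε ^ k ≤ piW W k 0 := by
  have hprob := h.probρ
  have h1 : W {s | ∀ j < k, s j = false} ≤ piW W k 0 := by
    apply measure_mono
    intro s hs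
    exact Fr_of_all_false hs
  refine le_trans ?_ h1
  rw [h.cyl k (fun _ => false)]
  calc ENNReal.ofReal ε ^ k = ∫⁻ e : ℕ → Fin N, ENNReal.ofReal ε ^ k ∂ρ := by simp
    _ ≤ _ := by
      refine lintegral_mono fun e => ?_
      simp only
      rw [← Finset.card_range k, ← Finset.prod_const, Finset.card_range]
      refine Finset.prod_le_prod' fun j _ => ?_
      unfold qq
      simp only [Bool.false_eq_true, if_false]
      exact ENNReal.ofReal_le_ofReal (hε _)

/-- long runs of `b`-arrows are exponentially unlikely, uniformly in the past -/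
lemma run_le (h : SiteLaw K p η ρ W) (b : Bool) (δ : ℝ≥0∞) (hδ : ∀ i, qq p b i ≤ δ) (J n : ℕ) :
    W {s | ∀ j, J ≤ j → j < J + n → s j = b} ≤ δ ^ n := by
  classical
  have hprob := h.probρ
  have hprobW := h.probW
  have h1 : ∀ σ : Fin J → Bool, W ({s | ∀ j : Fin J, s j = σ j} ∩ {s | ∀ j, J ≤ j → j < J + n → s j = b})
      ≤ δ ^ n * W {s | ∀ j : Fin J, s j = σ j} := by
    intro σ
    set σ' : Fin (J + n) → Bool := Fin.append σ (fun _ => b) with hσ'
    have e1 : ({s : ℕ → Bool | ∀ j : Fin J, s j = σ j} ∩ {s | ∀ j, J ≤ j → j < J + n → s j = b})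
        = {s | ∀ j : Fin (J + n), s j = σ' j} := by
      ext s
      simp only [Set.mem_inter_iff, Set.mem_ofPred_eq]
      constructor
      · rintro ⟨ha, hb⟩ j
        refine Fin.addCases (fun i => ?_) (fun i => ?_) j
        · rw [hσ', Fin.append_left]; exact ha i
        · rw [hσ', Fin.append_right]
          exact hb _ (by simp) (by simp)
      · intro hh
        refine ⟨fun j => ?_, fun j hj1 hj2 => ?_⟩
        · have := hh (Fin.castAdd n j)
          rw [hσ', Fin.append_left] at this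
          exact this
        · have := hh (Fin.natAdd J ⟨j - J, by omega⟩)
          rw [hσ', Fin.append_right] at this
          simp only [Fin.val_natAdd] at this
          rwa [show J + (j - J) = j by omega] at this
    rw [e1, h.cyl_fin, h.cyl_fin, ← lintegral_const_mul]
    · refine lintegral_mono fun e => ?_
      rw [Fin.prod_univ_add, mul_comm]
      refine mul_le_mul' ?_ ?_
      · calc ∏ i : Fin n, qq p (σ' (Fin.natAdd J i)) (e (Fin.natAdd J i)) ≤ ∏ i : Fin n, δ := by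
              refine Finset.prod_le_prod' fun i _ => ?_
              rw [hσ', Fin.append_right]
              exact hδ _
          _ = δ ^ n := by simp
      · refine le_of_eq (Finset.prod_congr rfl fun i _ => ?_)
        rw [hσ', Fin.append_left]
        rfl
    · exact measurable_cookie_fn J (fun r => ∏ j : Fin J, qq p (σ j) (r j))
  have hU : ⋃ σ : Fin J → Bool, {s : ℕ → Bool | ∀ j : Fin J, s j = σ j} = Set.univ := by
    rw [Set.eq_univ_iff_forall]
    intro s
    rw [Set.mem_iUnion]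
    exact ⟨fun j => s j, fun j => rfl⟩
  have hms : ∀ σ : Fin J → Bool, MeasurableSet {s : ℕ → Bool | ∀ j : Fin J, s j = σ j} := by
    intro σ
    have : {s : ℕ → Bool | ∀ j : Fin J, s j = σ j} = ⋂ j : Fin J, (fun s : ℕ → Bool => s j) ⁻¹' {σ j} := by
      ext s; simp
    rw [this]
    exact MeasurableSet.iInter fun j => (measurableSet_singleton _).preimage (measurable_pi_apply _)
  have hdisj : Pairwise (Function.onFun Disjoint fun σ : Fin J → Bool =>
      {s : ℕ → Bool | ∀ j : Fin J, s j = σ j}) := by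
    intro σ τ hne
    rw [Function.onFun, Set.disjoint_left]
    intro s hs hs'
    apply hne
    funext j
    rw [← hs j, ← hs' j]
  calc W {s | ∀ j, J ≤ j → j < J + n → s j = b}
      = W (⋃ σ : Fin J → Bool, ({s | ∀ j : Fin J, s j = σ j} ∩
          {s | ∀ j, J ≤ j → j < J + n → s j = b})) := by
        rw [← Set.iUnion_inter, hU, Set.univ_inter]
    _ ≤ ∑ σ : Fin J → Bool, W ({s | ∀ j : Fin J, s j = σ j} ∩
          {s | ∀ j, J ≤ j → j < J + n → s j = b}) := measure_iUnion_fintype_le _ _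
    _ ≤ ∑ σ : Fin J → Bool, δ ^ n * W {s | ∀ j : Fin J, s j = σ j} := Finset.sum_le_sum fun σ _ => h1 σ
    _ = δ ^ n * W (⋃ σ : Fin J → Bool, {s | ∀ j : Fin J, s j = σ j}) := by
        rw [← Finset.mul_sum, measure_iUnion hdisj hms, tsum_fintype]
    _ = δ ^ n := by rw [hU, measure_univ, mul_one]

/-- almost surely both arrows occur infinitely often in the stack -/
lemma ae_exists (h : SiteLaw K p η ρ W) (b : Bool) (δ : ℝ≥0∞) (hδ1 : δ < 1) (hδ : ∀ i, qq p (!b) i ≤ δ) :
    ∀ᵐ s ∂W, ∀ J : ℕ, ∃ j, J ≤ j ∧ s j = b := by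
  rw [ae_all_iff]
  intro J
  have h1 : W {s | ¬ ∃ j, J ≤ j ∧ s j = b} = 0 := by
    have h2 : ∀ n : ℕ, W {s | ¬ ∃ j, J ≤ j ∧ s j = b} ≤ δ ^ n := by
      intro n
      refine le_trans (measure_mono ?_) (h.run_le (!b) δ hδ J n)
      intro s hs j hj _
      simp only [Set.mem_ofPred_eq, not_exists, not_and] at hs
      have := hs j hj
      cases hb : s j <;> cases b <;> simp_all
    exact le_antisymm (ge_of_tendsto' (ENNReal.tendsto_pow_atTop_nhds_zero_of_lt_one hδ1) h2) zero_le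
  exact h1

end SiteLaw

end Pool.Agent.MP_3aae7f_pr
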