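import Pool.Agent.Lib.MP_3aae7f_pr.Moment

/-!
Transience of the arrow walk, and reflection.
-/

open MeasureTheory ProbabilityTheory
open scoped ENNReal

namespace Pool.Agent.MP_3aae7f_pr

variable {N : ℕ}

lemma cnt_mono (ξ : ℤ → ℕ → Bool) (x : ℤ) {n m : ℕ} (h : n ≤ m) : cnt ξ n x ≤ cnt ξ m x := by
  induction m, h using Nat.le_induction with
  | base => exact le_rfl
  | succ m _ ih =>
    refine ih.trans ?_
    rw [cnt_succ]
    split_ifs <;> omega

/-- `x` is visited infinitely often -/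
def Io (x : ℤ) (ξ : ℤ → ℕ → Bool) : Prop := ∀ M : ℕ, ∃ n, M ≤ n ∧ pos ξ n = x

lemma cnt_unbounded {x : ℤ} {ξ : ℤ → ℕ → Bool} (h : Io x ξ) (c : ℕ) : ∃ n, c ≤ cnt ξ n x := by
  induction c with
  | zero => exact ⟨0, Nat.zero_le _⟩
  | succ c ih =>
    obtain ⟨n, hn⟩ := ih
    obtain ⟨m, hm1, hm2⟩ := h n
    refine ⟨m + 1, ?_⟩
    rw [cnt_succ, if_pos hm2.symm]
    have := cnt_mono ξ x hm1
    omega

lemma cnt_surj {x : ℤ} {ξ : ℤ → ℕ → Bool} (h : Io x ξ) (c : ℕ) : ∃ n, pos ξ n = x ∧ cnt ξ n x = c := by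
  classical
  have hex : ∃ n, c + 1 ≤ cnt ξ n x := cnt_unbounded h (c + 1)
  set n0 := Nat.find hex with hn0
  have h1 : c + 1 ≤ cnt ξ n0 x := Nat.find_spec hex
  have h0 : n0 ≠ 0 := by
    intro h0
    rw [h0, cnt_zero] at h1
    omega
  obtain ⟨m, hm⟩ := Nat.exists_eq_succ_of_ne_zero h0
  have h2 : ¬ (c + 1 ≤ cnt ξ m x) := Nat.find_min hex (by omega)
  rw [hm, Nat.succ_eq_add_one, cnt_succ] at h1
  by_cases hx : x = pos ξ m
  · rw [if_pos hx] at h1
    exact ⟨m, hx.symm, by omega⟩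
  · rw [if_neg hx] at h1
    omega

/-- both arrows occur infinitely often at every site -/
def Good (ξ : ℤ → ℕ → Bool) : Prop := ∀ (x : ℤ) (b : Bool) (J : ℕ), ∃ j, J ≤ j ∧ ξ x j = b

lemma Io_step {x : ℤ} {ξ : ℤ → ℕ → Bool} (hg : Good ξ) (h : Io x ξ) (b : Bool) :
    Io (if b = true then x + 1 else x - 1) ξ := by
  intro M
  obtain ⟨j, hj1, hj2⟩ := hg x b (cnt ξ M x)
  obtain ⟨n, hn1, hn2⟩ := cnt_surj h j
  refine ⟨n + 1, ?_, ?_⟩
  · by_contra hcon
    have h1 : cnt ξ (n + 1) x ≤ cnt ξ M x := cnt_mono ξ x (by omega)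
    rw [cnt_succ, if_pos hn1.symm] at h1
    omega
  · rw [pos_succ, hn1, hn2, hj2]

lemma Io_zero {x : ℤ} {ξ : ℤ → ℕ → Bool} (hg : Good ξ) (h : Io x ξ) : Io 0 ξ := by
  have h1 : ∀ n : ℕ, Io (n : ℤ) ξ → Io 0 ξ := by
    intro n
    induction n with
    | zero => intro h; simpa using h
    | succ n ih =>
      intro h
      apply ih
      have := Io_step hg h false
      simpa using this
  have h2 : ∀ n : ℕ, Io (-(n : ℤ)) ξ → Io 0 ξ := by
    intro n
    induction n with
    | zero => intro h; simpa using h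
    | succ n ih =>
      intro h
      apply ih
      have := Io_step hg h true
      simpa using this
  rcases le_total 0 x with hx | hx
  · obtain ⟨n, rfl⟩ := Int.eq_ofNat_of_zero_le hx
    exact h1 n h
  · obtain ⟨n, hn⟩ := Int.eq_ofNat_of_zero_le (by omega : 0 ≤ -x)
    have : x = -(n : ℤ) := by omega
    rw [this] at h
    exact h2 n h

lemma tendsto_of_not_Io {ξ : ℤ → ℕ → Bool} (hg : Good ξ) (h : ¬ Io 0 ξ) :
    Filter.Tendsto (fun n => |pos ξ n|) Filter.atTop Filter.atTop := by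
  rw [Filter.tendsto_atTop]
  intro b
  have h1 : ∀ x : ℤ, ∀ᶠ n in Filter.atTop, pos ξ n ≠ x := by
    intro x
    have hx : ¬ Io x ξ := fun hx => h (Io_zero hg hx)
    unfold Io at hx
    push Not at hx
    obtain ⟨M, hM⟩ := hx
    exact Filter.eventually_atTop.mpr ⟨M, fun n hn => hM n hn⟩
  have h2 : ∀ᶠ n in Filter.atTop, ∀ x ∈ Finset.Icc (-b) b, pos ξ n ≠ x :=
    (Filter.eventually_all_finset (Finset.Icc (-b) b)).mpr fun x _ => h1 x
  filter_upwards [h2] with n hn
  by_contra hcon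
  rw [not_le, abs_lt] at hcon
  exact hn (pos ξ n) (Finset.mem_Icc.mpr ⟨hcon.1.le, hcon.2.le⟩) rfl

lemma nT_unbounded {s : ℕ → Bool} (h : ∀ J : ℕ, ∃ j, J ≤ j ∧ s j = true) (K : ℕ) :
    ∃ c, K ≤ nT s c := by
  induction K with
  | zero => exact ⟨0, Nat.zero_le _⟩
  | succ K ih =>
    obtain ⟨c, hc⟩ := ih
    obtain ⟨j, hj1, hj2⟩ := h c
    refine ⟨j + 1, ?_⟩
    rw [nT_succ, if_pos hj2]
    have : nT s c ≤ nT s j := Finset.card_le_card (Finset.filter_subset_filter _ (Finset.range_mono hj1))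
    omega

/-- if `0` is visited infinitely often, the branching processes die for arbitrarily large initial
values -/
lemma ext_of_Io {ξ : ℤ → ℕ → Bool} (hg : Good ξ) (h : Io 0 ξ) (K : ℕ) : ∃ k, K ≤ k ∧ ξ ∈ Ext 0 k := by
  obtain ⟨c, hc⟩ := nT_unbounded (s := ξ 0) (fun J => hg 0 true J) K
  obtain ⟨n, hn1, hn2⟩ := cnt_surj h c
  refine ⟨rt ξ n 0, by unfold rt; rw [hn2]; exact hc, n, ?_⟩
  have := iter_eq_rt ξ n hn1 0 n
  simp only [Nat.cast_zero, zero_add] at this
  rw [this]
  have hz : cnt ξ n (n : ℤ) = 0 := by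
    rcases Nat.eq_zero_or_pos n with h0 | h0
    · subst h0; exact cnt_zero ξ _
    · exact cnt_eq_zero ξ n n (by simp) (Or.inl h0)
  have := rt_add_lf ξ n (n : ℤ)
  congr 1
  omega

lemma ae_PP_of_ae (W : Measure (ℕ → Bool)) [IsProbabilityMeasure W] (x : ℤ) (P : (ℕ → Bool) → Prop)
    (h : ∀ᵐ s ∂W, P s) : ∀ᵐ ξ ∂(PP W), P (ξ x) :=
  (measurePreserving_eval_infinitePi (fun _ : ℤ => W) x).quasiMeasurePreserving.ae h

namespace Setup

variable {K : Fin N → Fin N → ℝ} {p η μ : Fin N → ℝ} {ρ : Measure (ℕ → Fin N)} {W : Measure (ℕ → Bool)}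

lemma ae_good [IsProbabilityMeasure W] (h : Setup K p η μ ρ W) : ∀ᵐ ξ ∂(PP W), Good ξ := by
  obtain ⟨ε, hε0, hε1, hε⟩ := h.exists_eps
  unfold Good
  rw [ae_all_iff]
  intro x
  rw [ae_all_iff]
  intro b
  apply ae_PP_of_ae W x (fun s => ∀ J : ℕ, ∃ j, J ≤ j ∧ s j = b)
  apply h.site.ae_exists b (ENNReal.ofReal (1 - ε))
  · rw [← ENNReal.ofReal_one]
    exact (ENNReal.ofReal_lt_ofReal_iff one_pos).mpr (by linarith)
  · intro i
    unfold qq
    apply ENNReal.ofReal_le_ofReal
    have := hε i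
    cases b
    · simp only [Bool.not_false, if_true]; linarith [this.1]
    · simp only [Bool.not_true, Bool.false_eq_true, if_false]; linarith [this.2]

lemma ae_not_Io_super [IsProbabilityMeasure W] (h : Setup K p η μ ρ W)
    (hp : 1 / 2 < ∑ i, μ i * p i) : ∀ᵐ ξ ∂(PP W), ¬ Io 0 ξ := by
  obtain ⟨θ0, hθ0, hθ⟩ := h.extinct hp
  obtain ⟨k0, hk0⟩ := hθ θ0 hθ0 le_rfl
  have hsum : ∑' k : ℕ, PP W (Ext 0 k) ≠ ⊤ := by
    have hle : ∑' k : ℕ, PP W (Ext 0 k) ≤ ∑' k : ℕ, ENNReal.ofReal (Real.exp (θ0 * k0)) *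
        ENNReal.ofReal (Real.exp (-θ0)) ^ k := by
      refine ENNReal.tsum_le_tsum fun k => ?_
      refine (PP_Ext_le W 0 k _ (fun n => hk0 n k)).trans (le_of_eq ?_)
      rw [← ENNReal.ofReal_pow (Real.exp_pos _).le, ← Real.exp_nat_mul,
        ← ENNReal.ofReal_mul (Real.exp_pos _).le, ← Real.exp_add]
      congr 2
      ring
    refine ne_top_of_le_ne_top ?_ hle
    rw [ENNReal.tsum_mul_left, ENNReal.tsum_geometric]
    refine ENNReal.mul_ne_top ENNReal.ofReal_ne_top ?_
    rw [ENNReal.inv_ne_top]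
    refine (tsub_pos_of_lt ?_).ne'
    rw [← ENNReal.ofReal_one]
    refine (ENNReal.ofReal_lt_ofReal_iff one_pos).mpr ?_
    rw [← Real.exp_zero]
    exact Real.exp_lt_exp.mpr (by linarith)
  filter_upwards [ae_eventually_notMem hsum, h.ae_good] with ξ h1 h2 h3
  obtain ⟨K', hK'⟩ := Filter.eventually_atTop.mp h1
  obtain ⟨k, hk1, hk2⟩ := ext_of_Io h2 h3 K'
  exact hK' k hk1 hk2

end Setup

/-! ### reflection -/

/-- reversed arrows at one site -/
def flip1 (s : ℕ → Bool) : ℕ → Bool := fun j => !s j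

lemma measurable_flip1 : Measurable flip1 := by
  refine measurable_pi_lambda _ fun j => ?_
  exact (measurable_of_finite (fun b : Bool => !b)).comp (measurable_pi_apply j)

lemma measurable_refl : Measurable refl := by
  refine measurable_pi_lambda _ fun x => measurable_pi_lambda _ fun j => ?_
  exact (measurable_of_finite (fun b : Bool => !b)).comp
    ((measurable_pi_apply j).comp (measurable_pi_apply (-x)))

instance (W : Measure (ℕ → Bool)) [IsProbabilityMeasure W] : IsProbabilityMeasure (W.map flip1) :=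
  Measure.isProbabilityMeasure_map measurable_flip1.aemeasurable

lemma map_refl (W : Measure (ℕ → Bool)) [IsProbabilityMeasure W] :
    (PP W).map refl = PP (W.map flip1) := by
  classical
  refine Measure.eq_infinitePi _ fun s t ht => ?_
  have hms : MeasurableSet (Set.pi (s : Set ℤ) t) :=
    MeasurableSet.pi s.countable_toSet fun i _ => ht i
  rw [Measure.map_apply measurable_refl hms]
  have e1 : refl ⁻¹' (Set.pi (s : Set ℤ) t)
      = Set.pi ((s.image (fun x => -x) : Finset ℤ) : Set ℤ) (fun x => flip1 ⁻¹' t (-x)) := by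
    ext ξ
    simp only [Set.mem_preimage, Set.mem_pi, Finset.mem_coe, Finset.mem_image]
    constructor
    · rintro h x ⟨y, hy, rfl⟩
      have := h y hy
      rw [neg_neg]
      exact this
    · intro h x hx
      have := h (-x) ⟨x, hx, rfl⟩
      rw [neg_neg] at this
      exact this
  rw [e1, PP, Measure.infinitePi_pi _ (fun i _ => measurable_flip1 (ht (-i))),
    Finset.prod_image (fun a _ b _ hab => neg_injective hab)]
  refine Finset.prod_congr rfl fun x _ => ?_
  rw [Measure.map_apply measurable_flip1 (ht x), neg_neg]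

lemma retPath_refl (ξ : ℤ → ℕ → Bool) : retPath (fun n => pos (refl ξ) n) = retPath (fun n => pos ξ n) := by
  have : (fun n => pos (refl ξ) n) = fun n => - pos ξ n := by
    funext n; exact (refl_wk ξ n).1
  rw [this]
  unfold retPath
  simp only [neg_inj]

lemma Io_refl (ξ : ℤ → ℕ → Bool) : Io 0 (refl ξ) ↔ Io 0 ξ := by
  unfold Io
  refine forall_congr' fun M => exists_congr fun n => ?_
  rw [(refl_wk ξ n).1, neg_eq_zero]

lemma measurableSet_Io (x : ℤ) : MeasurableSet {ξ : ℤ → ℕ → Bool | Io x ξ} := by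
  have : {ξ : ℤ → ℕ → Bool | Io x ξ} = ⋂ M : ℕ, ⋃ n : ℕ, {ξ | M ≤ n ∧ pos ξ n = x} := by
    ext ξ; simp [Io]
  rw [this]
  refine MeasurableSet.iInter fun M => MeasurableSet.iUnion fun n => ?_
  exact (MeasurableSet.const _).inter ((measurable_pos n) (measurableSet_singleton x))

namespace Setup

variable {K : Fin N → Fin N → ℝ} {p η μ : Fin N → ℝ} {ρ : Measure (ℕ → Fin N)} {W : Measure (ℕ → Bool)}

lemma mirror [IsProbabilityMeasure W] (h : Setup K p η μ ρ W) :
    Setup K (fun i => 1 - p i) η μ ρ (W.map flip1) where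
  model :=
    { K_nonneg := h.model.K_nonneg
      K_sum := h.model.K_sum
      K_class := h.model.K_class
      p_pos := fun i => by linarith [h.model.p_lt i]
      p_lt := fun i => by linarith [h.model.p_pos i]
      η_nonneg := h.model.η_nonneg
      η_sum := h.model.η_sum }
  stat := h.stat
  site :=
    { probρ := h.site.probρ
      probW := inferInstance
      chain := h.site.chain
      cyl := by
        intro m σ
        have hms : MeasurableSet {s : ℕ → Bool | ∀ j < m, s j = σ j} := by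
          have : {s : ℕ → Bool | ∀ j < m, s j = σ j}
              = ⋂ j : ℕ, ⋂ _ : j < m, (fun e : ℕ → Bool => e j) ⁻¹' {σ j} := by
            ext e; simp
          rw [this]
          exact MeasurableSet.iInter fun j => MeasurableSet.iInter fun _ =>
            (measurableSet_singleton _).preimage (measurable_pi_apply _)
        rw [Measure.map_apply measurable_flip1 hms]
        have e1 : flip1 ⁻¹' {s : ℕ → Bool | ∀ j < m, s j = σ j} = {s | ∀ j < m, s j = !σ j} := by
          ext s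
          simp only [Set.mem_preimage, Set.mem_ofPred_eq, flip1]
          refine forall₂_congr fun j _ => ?_
          cases s j <;> cases σ j <;> simp
        rw [e1, h.site.cyl m (fun j => !σ j)]
        refine lintegral_congr fun e => Finset.prod_congr rfl fun j _ => ?_
        unfold qq
        cases σ j <;> simp }

lemma mirror_sum (h : Setup K p η μ ρ W) : ∑ i, μ i * (1 - p i) = 1 - ∑ i, μ i * p i := by
  simp_rw [mul_sub, mul_one]
  rw [Finset.sum_sub_distrib, h.stat.2.1]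

lemma ae_not_Io [IsProbabilityMeasure W] (h : Setup K p η μ ρ W)
    (hp : ∑ i, μ i * p i ≠ 1 / 2) : ∀ᵐ ξ ∂(PP W), ¬ Io 0 ξ := by
  rcases lt_or_gt_of_ne hp with hlt | hgt
  · have h1 := h.mirror.ae_not_Io_super (by rw [h.mirror_sum]; linarith)
    rw [← map_refl] at h1
    have h2 := ae_of_ae_map measurable_refl.aemeasurable h1
    filter_upwards [h2] with ξ hξ
    rwa [← Io_refl]
  · exact h.ae_not_Io_super hgt

lemma ae_tendsto [IsProbabilityMeasure W] (h : Setup K p η μ ρ W)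
    (hp : ∑ i, μ i * p i ≠ 1 / 2) :
    ∀ᵐ ξ ∂(PP W), Filter.Tendsto (fun n => |pos ξ n|) Filter.atTop Filter.atTop := by
  filter_upwards [h.ae_not_Io hp, h.ae_good] with ξ h1 h2
  exact tendsto_of_not_Io h2 h1

lemma measurable_ret : Measurable (fun ξ : ℤ → ℕ → Bool => (retPath (fun n => pos ξ n) : ℝ≥0∞)) := by
  have : Measurable (fun x : ℕ∞ => (x : ℝ≥0∞)) := measurable_from_top
  exact this.comp (measurable_retPath.comp measurable_path)

lemma moment_left [IsProbabilityMeasure W] (h : Setup K p η μ ρ W) (hp : ∑ i, μ i * p i ≠ 1 / 2) :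
    ∫⁻ ξ in {ξ | retPath (fun n => pos ξ n) < ⊤ ∧ ξ 0 0 = false},
      (retPath (fun n => pos ξ n) : ℝ≥0∞) ∂(PP W) < ⊤ := by
  have h1 := h.mirror.moment_right (by rw [h.mirror_sum]; intro h2; apply hp; linarith)
  have hms : MeasurableSet {ξ : ℤ → ℕ → Bool | retPath (fun n => pos ξ n) < ⊤ ∧ ξ 0 0 = true} := by
    refine MeasurableSet.inter ?_ ?_
    · exact measurable_path measurableSet_retPath_lt
    · exact (measurableSet_singleton true).preimage
        ((measurable_pi_apply 0).comp (measurable_pi_apply 0))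
  rw [← map_refl, setLIntegral_map hms measurable_ret measurable_refl] at h1
  have e1 : refl ⁻¹' {ξ : ℤ → ℕ → Bool | retPath (fun n => pos ξ n) < ⊤ ∧ ξ 0 0 = true}
      = {ξ | retPath (fun n => pos ξ n) < ⊤ ∧ ξ 0 0 = false} := by
    ext ξ
    simp only [Set.mem_preimage, Set.mem_ofPred_eq, retPath_refl]
    refine and_congr_right fun _ => ?_
    unfold refl
    simp
  rw [e1] at h1
  simp only [retPath_refl] at h1
  exact h1

lemma moment [IsProbabilityMeasure W] (h : Setup K p η μ ρ W) (hp : ∑ i, μ i * p i ≠ 1 / 2) :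
    ∫⁻ ξ in {ξ | retPath (fun n => pos ξ n) < ⊤},
      (retPath (fun n => pos ξ n) : ℝ≥0∞) ∂(PP W) < ⊤ := by
  have e1 : {ξ : ℤ → ℕ → Bool | retPath (fun n => pos ξ n) < ⊤}
      = {ξ | retPath (fun n => pos ξ n) < ⊤ ∧ ξ 0 0 = true} ∪
        {ξ | retPath (fun n => pos ξ n) < ⊤ ∧ ξ 0 0 = false} := by
    ext ξ
    simp only [Set.mem_ofPred_eq, Set.mem_union]
    cases ξ 0 0 <;> simp
  rw [e1]
  refine lt_of_le_of_lt (lintegral_union_le _ _ _) ?_
  exact ENNReal.add_lt_top.mpr ⟨h.moment_right hp, h.moment_left hp⟩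

end Setup

end Pool.Agent.MP_3aae7f_pr
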